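import Pool.Agent.HS37.CQ.Stm
import Pool.Agent.HS37.SP.Lem

/-!
# Project CQ, piece INTY: application of the integrality lemma at CM points
-/

set_option autoImplicit false

open UpperHalfPlane
open Pool.Agent.HS37.SP

namespace Pool.Agent.HS37.CQ

noncomputable section

namespace INTY

open PowerSeries

lemma vps_eq {m : ℕ} (hm : m ≠ 0) (c : PowerSeries ℂ) : vps m c = expand m hm c := by
  ext n
  rw [vps, coeff_mk, coeff_expand]

lemma vps_mul {m : ℕ} (hm : m ≠ 0) (c d : PowerSeries ℂ) : vps m (c * d) = vps m c * vps m d := by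
  rw [vps_eq hm, vps_eq hm, vps_eq hm, map_mul]

lemma vps_C {m : ℕ} (hm : m ≠ 0) (z : ℂ) : vps m (C z) = C z := by
  rw [vps_eq hm, expand_C]

lemma vps_neg {m : ℕ} (hm : m ≠ 0) (c : PowerSeries ℂ) : vps m (-c) = - vps m c := by
  rw [vps_eq hm, vps_eq hm, map_neg]

lemma vps_int {m : ℕ} {c : PowerSeries ℂ} (hc : IsInt c) : IsInt (vps m c) := by
  intro n
  rw [vps, coeff_mk]
  split_ifs
  · exact hc _
  · exact ⟨0, by simp⟩

lemma qexp_pow {g : ℍ → ℂ} {e : ℕ} {c : PowerSeries ℂ} (hg : QExp g e c) (n : ℕ) :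
    QExp (fun τ => g τ ^ n) (n * e) (c ^ n) := by
  induction n with
  | zero => simpa using qexp_one
  | succ n ih =>
    have h := t_QMUL.1 _ _ _ _ _ _ ih hg
    rw [show (n + 1) * e = n * e + e by ring, pow_succ]
    simpa only [pow_succ] using h

lemma qexp_zero (e : ℕ) : QExp (fun _ => 0) e 0 := by
  intro τ
  simp

lemma qexp_const (z : ℂ) (e : ℕ) : QExp (fun _ => z) e (X ^ e * C z) := by
  have h := t_QMUL.2.2.2.1 _ _ _ z qexp_one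
  have h2 := t_QMUL.2.2.2.2.1 _ _ e _ h
  rw [mul_one, zero_add] at h2
  simpa using h2

lemma qexp_sum {ι : Type} (S : Finset ι) (g : ι → ℍ → ℂ) (e : ℕ) (c : ι → PowerSeries ℂ)
    (h : ∀ i ∈ S, QExp (g i) e (c i)) : QExp (fun τ => ∑ i ∈ S, g i τ) e (∑ i ∈ S, c i) := by
  classical
  induction S using Finset.induction_on with
  | empty => simpa using qexp_zero e
  | insert i S hi ih =>
    rw [Finset.sum_insert hi]
    have h1 := ih (fun j hj => h j (Finset.mem_insert_of_mem hj))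
    have h2 := t_QMUL.2.1 _ _ _ _ _ (h i (Finset.mem_insert_self i S)) h1
    have e1 : (fun τ => ∑ j ∈ insert i S, g j τ) = fun τ => g i τ + ∑ j ∈ S, g j τ := by
      funext τ
      rw [Finset.sum_insert hi]
    rw [e1]
    exact h2

lemma pr_sum (hC : S_CLO) {ι : Type} (S : Finset ι) (k : ℤ) (g g' : ι → ℍ → ℂ)
    (h : ∀ i ∈ S, Pr k (g i) (g' i)) (h0 : Pr k (fun _ => 0) (fun _ => 0)) :
    Pr k (fun τ => ∑ i ∈ S, g i τ) (fun τ => ∑ i ∈ S, g' i τ) := by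
  classical
  induction S using Finset.induction_on with
  | empty => simpa using h0
  | insert i S hi ih =>
    have h1 := ih (fun j hj => h j (Finset.mem_insert_of_mem hj))
    have h2 := hC.2.1 _ _ _ _ _ (h i (Finset.mem_insert_self i S)) h1
    have e1 : (fun τ => ∑ j ∈ insert i S, g j τ) = fun τ => g i τ + ∑ j ∈ S, g j τ := by
      funext τ
      rw [Finset.sum_insert hi]
    have e2 : (fun τ => ∑ j ∈ insert i S, g' j τ) = fun τ => g' i τ + ∑ j ∈ S, g' j τ := by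
      funext τ
      rw [Finset.sum_insert hi]
    rw [e1, e2]
    exact h2

/-- the polynomial `Φ` as a function of `h` -/
def phi (δ : ℕ) (h : ℂ) : ℂ := ∑ n ∈ Finset.range (δ + 1), (uu n : ℂ) * (h ^ n * (h + 64) ^ (2 * (δ - n)))

/-- `∑_{n ≤ δ} u_n t^n` -/
def cS (δ : ℕ) : PowerSeries ℂ := ∑ n ∈ Finset.range (δ + 1), C (uu n : ℂ) * ct ^ n

lemma pr_phi (hC : S_CLO) {h h' : ℍ → ℂ} (hh : Pr 0 h h') (δ : ℕ) :
    Pr 0 (fun τ => phi δ (h τ)) (fun τ => phi δ (h' τ)) := by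
  unfold phi
  refine pr_sum hC _ 0 _ _ (fun n _ => ?_) (hC.2.2.2.1 0)
  have h1 := hC.2.1 _ _ _ _ _ hh (hC.2.2.2.1 64)
  have h2 := hC.2.2.2.2.1 _ _ _ (2 * (δ - n)) h1
  have h3 := hC.2.2.2.2.1 _ _ _ n hh
  rw [mul_zero] at h2 h3
  have h4 := hC.1 _ _ _ _ _ _ h3 h2
  rw [add_zero] at h4
  exact hC.2.2.1 _ _ _ _ h4

/-- expansion of `Φ(h)` for `h` with pole `e` -/
lemma qexp_phi {h : ℍ → ℂ} {e : ℕ} {c : PowerSeries ℂ} (hh : QExp h e c) (δ : ℕ) :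
    QExp (fun τ => phi δ (h τ)) (2 * δ * e) (∑ n ∈ Finset.range (δ + 1), C (uu n : ℂ) *
      (X ^ (n * e) * (c ^ n * (c + X ^ e * C 64) ^ (2 * (δ - n))))) := by
  unfold phi
  refine qexp_sum _ _ _ _ (fun n hn => ?_)
  rw [Finset.mem_range] at hn
  refine t_QMUL.2.2.2.1 _ _ _ _ ?_
  have h1 := qexp_pow (t_QMUL.2.1 _ _ _ _ _ hh (qexp_const 64 e)) (2 * (δ - n))
  have h2 := t_QMUL.1 _ _ _ _ _ _ (qexp_pow hh n) h1
  have h3 := t_QMUL.2.2.2.2.1 _ _ (n * e) _ h2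
  have e1 : n * e + 2 * (δ - n) * e + n * e = 2 * δ * e := by
    obtain ⟨m, hm⟩ : ∃ m, δ = n + m := ⟨δ - n, by omega⟩
    rw [hm, Nat.add_sub_cancel_left]
    ring
  rw [e1] at h3
  exact h3

/-- the algebra of `Φ` and `t` -/
lemma phi_series {c t : PowerSeries ℂ} {e : ℕ} (h : (c + X ^ e * C 64) ^ 2 * t = c * X ^ e) (δ : ℕ) :
    ∑ n ∈ Finset.range (δ + 1), C (uu n : ℂ) *
      (X ^ (n * e) * (c ^ n * (c + X ^ e * C 64) ^ (2 * (δ - n)))) =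
    (c + X ^ e * C 64) ^ (2 * δ) * ∑ n ∈ Finset.range (δ + 1), C (uu n : ℂ) * t ^ n := by
  rw [Finset.mul_sum]
  refine Finset.sum_congr rfl fun n hn => ?_
  rw [Finset.mem_range] at hn
  obtain ⟨m, rfl⟩ : ∃ m, δ = n + m := ⟨δ - n, by omega⟩
  rw [Nat.add_sub_cancel_left]
  have h1 : X ^ (n * e) * c ^ n = ((c + X ^ e * C 64) ^ 2 * t) ^ n := by
    rw [h, mul_pow, ← pow_mul, mul_comm e n, mul_comm]
  have h2 : X ^ (n * e) * (c ^ n * (c + X ^ e * C 64) ^ (2 * m)) =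
      (X ^ (n * e) * c ^ n) * (c + X ^ e * C 64) ^ (2 * m) := by ring
  rw [h2, h1, mul_pow, ← pow_mul, Nat.mul_add, pow_add]
  ring

/-- the data of the application -/
def A0 (δ : ℕ) (τ : ℍ) : ℂ := phi δ (fh τ) * (fs τ * fP τ * (fe τ)⁻¹)

def A0' (δ : ℕ) (τ : ℍ) : ℂ := phi δ (4096 / fh τ) * (64 * fe τ * -fP τ * (fs τ / 64)⁻¹)

def B0 (τ : ℍ) : ℂ := 64 * (fP τ * (fs τ)⁻¹)

def B0' (τ : ℍ) : ℂ := 64 * (-fP τ * (64 * fe τ)⁻¹)

def A1 (p : ℕ) (τ : ℍ) : ℂ := -1 * (fs τ * (fh τ + 64) ^ p)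

def A1' (p : ℕ) (τ : ℍ) : ℂ := -1 * (64 * fe τ * (4096 / fh τ + 64) ^ p)

def B1 (τ : ℍ) : ℂ := 64 * (fs τ)⁻¹

def B1' (τ : ℍ) : ℂ := 64 * (64 * fe τ)⁻¹

lemma pr_cast {k l : ℤ} (h : k = l) {g g' : ℍ → ℂ} (hg : Pr k g g') : Pr l g g' := h ▸ hg

lemma prs (hPre : S_PRE) (hR : S_REL) (hC : S_CLO) (hB : S_BAS) (p δ : ℕ) :
    Pr 1 (A0 δ) (A0' δ) ∧ Pr (-1) B0 B0' ∧ Pr 2 (A1 p) (A1' p) ∧ Pr (-2) B1 B1' := by
  obtain ⟨pe, ps, -, ph, -⟩ := hPre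
  have pP := hB.2.1
  have he := hR.2.2.2.2.2.2.2.1
  have hs := hR.2.2.2.2.2.2.2.2
  have hC' := hC
  obtain ⟨cmul, cadd, csm, cc, cpow, cinv, -⟩ := hC
  have ie := cinv _ _ _ pe he (fun τ => div_ne_zero (hs τ) (by norm_num))
  have is := cinv _ _ _ ps hs (fun τ => mul_ne_zero (by norm_num) (he τ))
  refine ⟨?_, ?_, ?_, ?_⟩
  · have h1 := cmul _ _ _ _ _ _ (pr_phi hC' ph δ)
      (cmul _ _ _ _ _ _ (cmul _ _ _ _ _ _ ps pP) ie)
    exact pr_cast (by norm_num) h1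
  · exact pr_cast (by norm_num) (csm _ _ _ 64 (cmul _ _ _ _ _ _ pP is))
  · have h1 := cpow _ _ _ p (cadd _ _ _ _ _ ph (cc 64))
    exact pr_cast (by norm_num) (csm _ _ _ (-1) (cmul _ _ _ _ _ _ ps h1))
  · exact csm _ _ _ 64 is

lemma C_mul_nat (c : PowerSeries ℂ) : (64 : PowerSeries ℂ) * c = C 64 * c := by
  have : (64 : PowerSeries ℂ) = C 64 := by
    rw [show (64 : ℂ) = ((64 : ℕ) : ℂ) by norm_num, map_natCast]
    norm_num
  rw [this]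

lemma cP_inv (hE : S_EXP) : cP ^ 4 * (cP ^ 4)⁻¹ = 1 := by
  apply PowerSeries.mul_inv_cancel
  rw [map_pow]
  have h := hE.2.2.2.2.2.2.2.2.2
  rw [coeff_zero_eq_constantCoeff_apply] at h
  rw [h]
  norm_num

lemma key_inf (hE : S_EXP) (hRam : S_RAM) {c1 : PowerSeries ℂ} (h1 : ce * c1 = X) :
    cs * c1 + X ^ 1 * C 64 = c1 * cP ^ 2 ∧
    (cs * c1 + X ^ 1 * C 64) ^ 2 * ct = (cs * c1) * X ^ 1 := by
  have h2 := hRam.1
  rw [C_mul_nat] at h2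
  have h3 : cs * c1 + X ^ 1 * C 64 = c1 * cP ^ 2 := by
    rw [pow_one]
    linear_combination (-(C 64 : PowerSeries ℂ)) * h1 - c1 * h2
  refine ⟨h3, ?_⟩
  rw [h3, ct]
  have h4 := cP_inv hE
  linear_combination (c1 ^ 2 * ce * cs) * h4 + (c1 * cs) * h1

lemma key_zero (hE : S_EXP) (hRam : S_RAM) {c0 : PowerSeries ℂ} (h0 : cs * c0 = 1) :
    C 4096 * (ce * c0) + X ^ 0 * C 64 = C 64 * (c0 * cP ^ 2) ∧
    (C 4096 * (ce * c0) + X ^ 0 * C 64) ^ 2 * ct = (C 4096 * (ce * c0)) * X ^ 0 := by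
  have h2 := hRam.1
  rw [C_mul_nat] at h2
  have h64 : (C 4096 : PowerSeries ℂ) = C 64 * C 64 := by
    rw [← map_mul]
    norm_num
  have h3 : C 4096 * (ce * c0) + X ^ 0 * C 64 = C 64 * (c0 * cP ^ 2) := by
    rw [pow_zero, h64]
    linear_combination (-(C 64 : PowerSeries ℂ)) * h0 - C 64 * c0 * h2
  refine ⟨h3, ?_⟩
  rw [h3, ct, h64]
  have h4 := cP_inv hE
  linear_combination (C 64 * C 64 * c0 ^ 2 * ce * cs) * h4 + (C 64 * C 64 * c0 * ce) * h0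

/-- the expansions -/
lemma exps (hR : S_REL) (hE : S_EXP) {p δ : ℕ} (hpδ : p = 2 * δ + 1)
    {c0 c1 : PowerSeries ℂ}
    (q1 : QExp (fun τ => (fe τ)⁻¹) 1 c1) (q0 : QExp (fun τ => (fs τ)⁻¹) 0 c0) :
    QExp (A0 δ) p ((∑ n ∈ Finset.range (δ + 1), C (uu n : ℂ) *
      (X ^ (n * 1) * ((cs * c1) ^ n * (cs * c1 + X ^ 1 * C 64) ^ (2 * (δ - n))))) * (cs * cP * c1)) ∧
    QExp (A0' δ) 0 ((∑ n ∈ Finset.range (δ + 1), C (uu n : ℂ) *
      (X ^ (n * 0) * ((C 4096 * (ce * c0)) ^ n *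
        (C 4096 * (ce * c0) + X ^ 0 * C 64) ^ (2 * (δ - n))))) * (C (-4096) * (ce * cP * c0))) ∧
    QExp B0 0 (C 64 * (cP * c0)) ∧ QExp B0' 1 (C (-1) * (cP * c1)) ∧
    QExp (A1 p) p (C (-1) * (cs * (cs * c1 + X ^ 1 * C 64) ^ p)) ∧
    QExp (A1' p) 0 (C (-1) * (C 64 * ce * (C 4096 * (ce * c0) + X ^ 0 * C 64) ^ p)) ∧
    QExp B1 0 (C 64 * c0) ∧ QExp B1' 1 c1 := by
  obtain ⟨qe, qs, qP, -⟩ := hE
  have he := hR.2.2.2.2.2.2.2.1
  have hs := hR.2.2.2.2.2.2.2.2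
  obtain ⟨qmul, qadd, -, qsm, -, -⟩ := t_QMUL
  have qh : QExp fh 1 (cs * c1) := by
    have h := qmul _ _ _ _ _ _ qs q1
    rw [zero_add] at h
    exact h
  have qh' : QExp (fun τ => 4096 / fh τ) 0 (C 4096 * (ce * c0)) := by
    have h := qsm _ _ _ 4096 (qmul _ _ _ _ _ _ qe q0)
    have e1 : (fun τ => 4096 / fh τ) = fun τ => 4096 * (fe τ * (fs τ)⁻¹) := by
      funext τ
      have := he τ
      have := hs τ
      unfold fh
      field_simp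
    rw [e1]
    exact h
  refine ⟨?_, ?_, ?_, ?_, ?_, ?_, ?_, ?_⟩
  · have h := qmul _ _ _ _ _ _ (qexp_phi qh δ) (qmul _ _ _ _ _ _ (qmul _ _ _ _ _ _ qs qP) q1)
    have e1 : 2 * δ * 1 + (0 + 0 + 1) = p := by omega
    rw [e1] at h
    exact h
  · have h := qmul _ _ _ _ _ _ (qexp_phi qh' δ)
      (qsm _ _ _ (-4096) (qmul _ _ _ _ _ _ (qmul _ _ _ _ _ _ qe qP) q0))
    have e1 : A0' δ = fun τ => phi δ (4096 / fh τ) * (-4096 * (fe τ * fP τ * (fs τ)⁻¹)) := by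
      funext τ
      have := hs τ
      unfold A0'
      field_simp
      ring
    rw [e1]
    exact h
  · exact qsm _ _ _ 64 (qmul _ _ _ _ _ _ qP q0)
  · have h := qsm _ _ _ (-1) (qmul _ _ _ _ _ _ qP q1)
    have e1 : B0' = fun τ => (-1) * (fP τ * (fe τ)⁻¹) := by
      funext τ
      have := he τ
      unfold B0'
      field_simp
    rw [e1]
    exact h
  · have h := qsm _ _ _ (-1) (qmul _ _ _ _ _ _ qs (qexp_pow (qadd _ _ _ _ _ qh (qexp_const 64 1)) p))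
    have e1 : 0 + p * 1 = p := by omega
    rw [e1] at h
    exact h
  · have h := qsm _ _ _ (-1) (qmul _ _ _ _ _ _ (qsm _ _ _ 64 qe)
      (qexp_pow (qadd _ _ _ _ _ qh' (qexp_const 64 0)) p))
    exact h
  · exact qsm _ _ _ 64 q0
  · have e1 : B1' = fun τ => (fe τ)⁻¹ := by
      funext τ
      have := he τ
      unfold B1'
      field_simp
    rw [e1]
    exact q1

/-- the hypotheses of INTL -/
lemma low_inf (hE : S_EXP) (hRam : S_RAM) (hH : S_HYP) {p δ : ℕ} (hp : p.Prime)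
    (hpδ : p = 2 * δ + 1) {c0 c1 : PowerSeries ℂ} (i0 : IsInt c0) (i1 : IsInt c1)
    (h1 : ce * c1 = X) :
    ∀ n < p, ∃ z : ℤ, coeff n (((∑ n ∈ Finset.range (δ + 1), C (uu n : ℂ) *
      (X ^ (n * 1) * ((cs * c1) ^ n * (cs * c1 + X ^ 1 * C 64) ^ (2 * (δ - n))))) * (cs * cP * c1)) *
        vps p (C 64 * (cP * c0)) +
      (C (-1) * (cs * (cs * c1 + X ^ 1 * C 64) ^ p)) * vps p (C 64 * c0)) = (p : ℂ) ^ 2 * z := by
  obtain ⟨k1, k2⟩ := key_inf hE hRam h1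
  obtain ⟨r₁, r₂, ir1, ir2, hr⟩ := hH p δ hp hpδ
  obtain ⟨-, -, -, ie, is, iP, -⟩ := hE
  have hp0 : p ≠ 0 := hp.ne_zero
  rw [phi_series k2 δ, vps_mul hp0, vps_mul hp0, vps_mul hp0, vps_C hp0]
  have e : ((cs * c1 + X ^ 1 * C 64) ^ (2 * δ) * ∑ n ∈ Finset.range (δ + 1), C (uu n : ℂ) * ct ^ n) *
      (cs * cP * c1) * (C 64 * (vps p cP * vps p c0)) +
      (C (-1) * (cs * (cs * c1 + X ^ 1 * C 64) ^ p)) * (C 64 * vps p c0) =
      (C 64 * vps p c0 * (cs * c1 + X ^ 1 * C 64) ^ (2 * δ) * (cs * c1 * cP)) *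
      (C ((p : ℂ) ^ 2) * r₁ + X ^ p * r₂) := by
    rw [← hr, hpδ, pow_succ, map_neg, map_one]
    linear_combination (-(cs * (C 64 * vps (2 * δ + 1) c0)) * (cs * c1 + X ^ 1 * C 64) ^ (2 * δ)) * k1
  rw [e]
  have iU : (C 64 * vps p c0 * (cs * c1 + X ^ 1 * C 64) ^ (2 * δ) * (cs * c1 * cP)) ∈ intR := by
    rw [isInt_iff] at i0 i1 ie is iP
    have j64 : (C (64 : ℂ)) ∈ intR := by
      have := isInt_C 64
      exact_mod_cast this
    have jX : (X : PowerSeries ℂ) ∈ intR := ⟨X, by simp⟩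
    exact mul_mem (mul_mem (mul_mem j64 (isInt_iff.1 (vps_int (isInt_iff.2 i0))))
      (pow_mem (add_mem (mul_mem is i1) (mul_mem (pow_mem jX 1) j64)) _))
      (mul_mem (mul_mem is i1) iP)
  intro n hn
  obtain ⟨z, hz⟩ := isInt_iff.2 (mul_mem iU (isInt_iff.1 ir1)) n
  refine ⟨z, ?_⟩
  rw [← hz]
  generalize (C 64 * vps p c0 * (cs * c1 + X ^ 1 * C 64) ^ (2 * δ) * (cs * c1 * cP)) = U
  have e2 : U * (C ((p : ℂ) ^ 2) * r₁ + X ^ p * r₂) = C ((p : ℂ) ^ 2) * (U * r₁) + X ^ p * (U * r₂) := by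
    ring
  rw [e2, map_add, coeff_C_mul, coeff_X_pow_mul', if_neg (by omega), add_zero]

lemma low_zero (hE : S_EXP) (hRam : S_RAM) (hH : S_HYP) {p δ : ℕ} (hp : p.Prime)
    (hpδ : p = 2 * δ + 1) {c0 c1 : PowerSeries ℂ} (i0 : IsInt c0) (i1 : IsInt c1)
    (h0 : cs * c0 = 1) :
    ∀ n ≤ p, ∃ z : ℤ, coeff n (((∑ n ∈ Finset.range (δ + 1), C (uu n : ℂ) *
      (X ^ (n * 0) * ((C 4096 * (ce * c0)) ^ n *
        (C 4096 * (ce * c0) + X ^ 0 * C 64) ^ (2 * (δ - n))))) * (C (-4096) * (ce * cP * c0))) *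
        vps p (C (-1) * (cP * c1)) +
      (C (-1) * (C 64 * ce * (C 4096 * (ce * c0) + X ^ 0 * C 64) ^ p)) * vps p c1) =
        (p : ℂ) ^ 2 * z := by
  obtain ⟨k1, k2⟩ := key_zero hE hRam h0
  obtain ⟨r₁, r₂, ir1, ir2, hr⟩ := hH p δ hp hpδ
  obtain ⟨-, -, -, ie, is, iP, e0, -⟩ := hE
  have hp0 : p ≠ 0 := hp.ne_zero
  have hX : (X : PowerSeries ℂ) ∣ ce := by
    rw [X_dvd_iff]
    simpa using e0
  obtain ⟨d, hd⟩ := hX
  have jd : d ∈ intR := by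
    rw [← isInt_iff]
    intro n
    obtain ⟨z, hz⟩ := ie (n + 1)
    refine ⟨z, ?_⟩
    rw [← hz, hd, coeff_succ_X_mul]
  have h64 : (C 4096 : PowerSeries ℂ) = C 64 * C 64 := by
    rw [← map_mul]
    norm_num
  have h64' : (C (-4096) : PowerSeries ℂ) = - (C 64 * C 64) := by
    rw [← h64, ← map_neg]
  rw [phi_series k2 δ, vps_mul hp0, vps_mul hp0, vps_C hp0]
  have e : ((C 4096 * (ce * c0) + X ^ 0 * C 64) ^ (2 * δ) *
      ∑ n ∈ Finset.range (δ + 1), C (uu n : ℂ) * ct ^ n) *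
      (C (-4096) * (ce * cP * c0)) * (C (-1) * (vps p cP * vps p c1)) +
      (C (-1) * (C 64 * ce * (C 4096 * (ce * c0) + X ^ 0 * C 64) ^ p)) * vps p c1 =
      (C 64 * C 64 * vps p c1 * (C 4096 * (ce * c0) + X ^ 0 * C 64) ^ (2 * δ) * (d * c0 * cP)) * X *
      (C ((p : ℂ) ^ 2) * r₁ + X ^ p * r₂) := by
    have e3 : (C 64 * C 64 * vps p c1 * (C 4096 * (ce * c0) + X ^ 0 * C 64) ^ (2 * δ) *
        (d * c0 * cP)) * X = C 64 * C 64 * vps p c1 *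
        (C 4096 * (ce * c0) + X ^ 0 * C 64) ^ (2 * δ) * (ce * c0 * cP) := by
      linear_combination (-(C 64 * C 64 * vps p c1 *
        (C 4096 * (ce * c0) + X ^ 0 * C 64) ^ (2 * δ) * (c0 * cP))) * hd
    have h1' : (C (-1) : PowerSeries ℂ) = -1 := by rw [map_neg, map_one]
    rw [e3, ← hr]
    subst hpδ
    rw [pow_succ, h1', h64']
    linear_combination (-(C 64 * ce * vps (2 * δ + 1) c1) *
      (C 4096 * (ce * c0) + X ^ 0 * C 64) ^ (2 * δ)) * k1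
  rw [e]
  have iU : (C 64 * C 64 * vps p c1 * (C 4096 * (ce * c0) + X ^ 0 * C 64) ^ (2 * δ) *
      (d * c0 * cP)) ∈ intR := by
    rw [isInt_iff] at i0 i1 ie is iP
    have j64 : (C (64 : ℂ)) ∈ intR := by
      have := isInt_C 64
      exact_mod_cast this
    have jX : (X : PowerSeries ℂ) ∈ intR := ⟨X, by simp⟩
    refine mul_mem (mul_mem (mul_mem (mul_mem j64 j64) (isInt_iff.1 (vps_int (isInt_iff.2 i1))))
      (pow_mem (add_mem ?_ (mul_mem (pow_mem jX 0) j64)) _)) (mul_mem (mul_mem jd i0) iP)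
    rw [h64]
    exact mul_mem (mul_mem j64 j64) (mul_mem ie i0)
  intro n hn
  generalize (C 64 * C 64 * vps p c1 * (C 4096 * (ce * c0) + X ^ 0 * C 64) ^ (2 * δ) *
      (d * c0 * cP)) = U at iU ⊢
  have jX : (X : PowerSeries ℂ) ∈ intR := ⟨X, by simp⟩
  obtain ⟨z, hz⟩ := isInt_iff.2 (mul_mem (mul_mem iU jX) (isInt_iff.1 ir1)) n
  refine ⟨z, ?_⟩
  rw [← hz]
  have e2 : U * X * (C ((p : ℂ) ^ 2) * r₁ + X ^ p * r₂) =
      C ((p : ℂ) ^ 2) * (U * X * r₁) + X ^ (p + 1) * (U * r₂) := by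
    ring
  rw [e2, map_add, coeff_C_mul, coeff_X_pow_mul', if_neg (by omega), add_zero]

/-- the application of INTL -/
lemma apply_intl (hI : S_INTL) (hH : S_HYP) (hR : S_REL) (hPre : S_PRE) (hE : S_EXP) (hRam : S_RAM)
    (hC : S_CLO) (hB : S_BAS) {p δ : ℕ} (hp : p.Prime) (hpδ : p = 2 * δ + 1) (τ : ℍ)
    (h1 : IsIntegral ℤ (fh τ)) (h2 : IsIntegral ℤ (4096 / fh τ)) (t : ℕ × ℕ × ℕ) (ht : t ∈ reps p) :
    ∃ w : ℂ, IsIntegral ℤ w ∧ A0 δ τ * val (2 * (-1)) B0 (mat t) τ +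
      A1 p τ * val (2 * (-2)) B1 (mat t) τ = (p : ℂ) ^ 2 * w := by
  obtain ⟨pA0, pB0, pA1, pB1⟩ := prs hPre hR hC hB p δ
  have hPre' := hPre
  obtain ⟨-, -, -, -, -, ⟨c1, q1, i1, m1, -⟩, ⟨c0, q0, i0, m0, -⟩, -, -⟩ := hPre
  obtain ⟨qA0, qA0', qB0, qB0', qA1, qA1', qB1, qB1'⟩ := exps hR hE hpδ q1 q0
  have l1 := low_inf hE hRam hH hp hpδ i0 i1 m1
  have l2 := low_zero hE hRam hH hp hpδ i0 i1 m0
  obtain ⟨-, -, -, ie, is, iP, -⟩ := hE
  have hp2 : p ≠ 2 := by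
    intro h
    omega
  rw [isInt_iff] at i0 i1 ie is iP
  have jz : ∀ z : ℤ, C (z : ℂ) ∈ intR := isInt_C
  have j64 : (C (64 : ℂ)) ∈ intR := by
    have := isInt_C 64
    exact_mod_cast this
  have j4096 : (C (4096 : ℂ)) ∈ intR := by
    have := isInt_C 4096
    exact_mod_cast this
  have j4096' : (C (-4096 : ℂ)) ∈ intR := by
    have := isInt_C (-4096)
    exact_mod_cast this
  have jm1 : (C (-1 : ℂ)) ∈ intR := by
    have := isInt_C (-1)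
    exact_mod_cast this
  have jX : (X : PowerSeries ℂ) ∈ intR := ⟨X, by simp⟩
  have jn : ∀ n : ℕ, C (n : ℂ) ∈ intR := by
    intro n
    have := isInt_C n
    exact_mod_cast this
  have jphi : ∀ (c : PowerSeries ℂ) (e : ℕ), c ∈ intR →
      (∑ n ∈ Finset.range (δ + 1), C (uu n : ℂ) *
        (X ^ (n * e) * (c ^ n * (c + X ^ e * C 64) ^ (2 * (δ - n))))) ∈ intR := by
    intro c e hc
    refine sum_mem fun n _ => ?_
    exact mul_mem (jn _) (mul_mem (pow_mem jX _) (mul_mem (pow_mem hc _)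
      (pow_mem (add_mem hc (mul_mem (pow_mem jX _) j64)) _)))
  have key := hI p hp hp2 ![-1, -2] ![A0 δ, A1 p] ![A0' δ, A1' p] ![B0, B1] ![B0', B1']
    ![_, _] ![_, _] ![_, _] ![_, _] p
    (by rw [Fin.forall_fin_two]; constructor <;> simp)
    (by
      rw [Fin.forall_fin_two]
      exact ⟨pr_cast (by norm_num) pA0, pr_cast (by norm_num) pA1⟩)
    (by
      rw [Fin.forall_fin_two]
      exact ⟨pB0, pB1⟩)
    (by
      rw [Fin.forall_fin_two]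
      exact ⟨qA0, qA1⟩)
    (by
      rw [Fin.forall_fin_two]
      exact ⟨qA0', qA1'⟩)
    (by
      rw [Fin.forall_fin_two]
      exact ⟨qB0, qB1⟩)
    (by
      rw [Fin.forall_fin_two]
      exact ⟨qB0', qB1'⟩)
    (by
      rw [Fin.forall_fin_two]
      refine ⟨isInt_iff.2 ?_, isInt_iff.2 ?_⟩
      · exact mul_mem (jphi _ _ (mul_mem is i1)) (mul_mem (mul_mem is iP) i1)
      · exact mul_mem jm1 (mul_mem is (pow_mem (add_mem (mul_mem is i1)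
          (mul_mem (pow_mem jX _) j64)) _)))
    (by
      rw [Fin.forall_fin_two]
      refine ⟨isInt_iff.2 ?_, isInt_iff.2 ?_⟩
      · exact mul_mem (jphi _ _ (mul_mem j4096 (mul_mem ie i0)))
          (mul_mem j4096' (mul_mem (mul_mem ie iP) i0))
      · exact mul_mem jm1 (mul_mem (mul_mem j64 ie) (pow_mem (add_mem
          (mul_mem j4096 (mul_mem ie i0)) (mul_mem (pow_mem jX _) j64)) _)))
    (by
      rw [Fin.forall_fin_two]
      exact ⟨isInt_iff.2 (mul_mem j64 (mul_mem iP i0)), isInt_iff.2 (mul_mem j64 i0)⟩)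
    (by
      rw [Fin.forall_fin_two]
      exact ⟨isInt_iff.2 (mul_mem jm1 (mul_mem iP i1)), isInt_iff.2 i1⟩)
    (by
      rw [Fin.sum_univ_two]
      exact l1)
    (by
      rw [Fin.sum_univ_two]
      exact l2)
    τ h1 h2 t ht
  rw [Fin.sum_univ_two] at key
  exact key

/-- `Φ(h)` at a point with `(h + 64)² = c h` -/
lemma phi_point {c : ℤ} {h : ℂ} (hc : (h + 64) ^ 2 = c * h) (δ : ℕ) :
    phi δ h = h ^ δ * (NN δ c : ℂ) := by
  unfold phi NN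
  push_cast
  rw [Finset.mul_sum]
  refine Finset.sum_congr rfl fun n hn => ?_
  rw [Finset.mem_range] at hn
  obtain ⟨m, rfl⟩ : ∃ m, δ = n + m := ⟨δ - n, by omega⟩
  rw [Nat.add_sub_cancel_left, pow_mul, hc, mul_pow, pow_add]
  ring

lemma int_h {c : ℤ} {h : ℂ} (hc : (h + 64) ^ 2 = c * h) (h0 : h ≠ 0) :
    IsIntegral ℤ h ∧ IsIntegral ℤ (4096 / h) := by
  have key : ∀ x : ℂ, x ^ 2 + (128 - c) * x + 4096 = 0 → IsIntegral ℤ x := by
    intro x hx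
    refine ⟨Polynomial.X ^ 2 + Polynomial.C (128 - c) * Polynomial.X + Polynomial.C 4096, ?_, ?_⟩
    · monicity!
    · simp only [Polynomial.eval₂_add, Polynomial.eval₂_mul, Polynomial.eval₂_pow,
        Polynomial.eval₂_X, Polynomial.eval₂_C]
      simp
      linear_combination hx
  refine ⟨key _ (by linear_combination hc), key _ ?_⟩
  field_simp
  linear_combination 4096 * hc

end INTY

open INTY in
theorem t_INTY (hI : S_INTL) (hH : S_HYP) (hV : S_VR2) (hR : S_REL) (hPre : S_PRE) (hE : S_EXP)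
    (hRam : S_RAM) (hC : S_CLO) (hB : S_BAS) : S_INTY := by
  intro p δ τ c M l hp hpδ hy hdet hM hl
  have he := hR.2.2.2.2.2.2.2.1 τ
  have hs := hR.2.2.2.2.2.2.2.2 τ
  have hP := hR.1 τ
  obtain ⟨h, hh⟩ : ∃ h, h = fh τ := ⟨_, rfl⟩
  have hse : fs τ = h * fe τ := by
    rw [hh, fh]
    field_simp
  have h0 : h ≠ 0 := by
    intro h1
    rw [h1, zero_mul] at hse
    exact hs hse
  have hP2 : fP τ ^ 2 = fe τ * (h + 64) := by rw [hP, hse]; ring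
  have hc : (h + 64) ^ 2 = c * h := by
    have h1 : fe τ ^ 2 * ((h + 64) ^ 2 - c * h) = 0 := by
      have : fP τ ^ 4 = (fP τ ^ 2) ^ 2 := by ring
      rw [this, hP2, hse] at hy
      linear_combination hy
    rcases mul_eq_zero.1 h1 with h2 | h2
    · exact absurd h2 (pow_ne_zero _ he)
    · linear_combination h2
  obtain ⟨i1, i2⟩ := int_h hc h0
  obtain ⟨pA0, pB0, pA1, pB1⟩ := prs hPre hR hC hB p δ
  have hp0 := hp.pos
  have hodd : Odd p := ⟨δ, hpδ⟩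
  have key := apply_intl hI hH hR hPre hE hRam hC hB hp hpδ τ (hh ▸ i1) (hh ▸ i2)
  have i64 : IsIntegral ℤ (h + 64) := by
    refine i1.add ?_
    have := isIntegral_algebraMap (R := ℤ) (A := ℂ) (x := 64)
    simpa using this
  constructor
  · intro e1 e2
    obtain ⟨t, ht, hval⟩ := hV.2.2.1 p hp0 hodd M τ l hdet hM e1 e2
    obtain ⟨w, hw, hww⟩ := key t ht
    refine ⟨w * ((h + 64) * (4096 / h) ^ (δ + 1)), hw.mul (i64.mul (i2.pow _)), ?_⟩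
    rw [← mul_assoc, ← hww, hval _ _ _ pB0, hval _ _ _ pB1]
    have z1 : l ^ (-(2 * (-1 : ℤ))) = l ^ 2 := by
      rw [show (-(2 * (-1 : ℤ))) = ((2 : ℕ) : ℤ) by norm_num, zpow_natCast]
    have z2 : l ^ (-(2 * (-2 : ℤ))) = l ^ 4 := by
      rw [show (-(2 * (-2 : ℤ))) = ((4 : ℕ) : ℤ) by norm_num, zpow_natCast]
    rw [z1, z2, A0, A1, B0, B1, ← hh, phi_point hc, hpδ, pow_succ (h + 64), pow_mul, hc, hse]
    have e3 : h ^ δ * (NN δ c : ℂ) * (h * fe τ * fP τ * (fe τ)⁻¹) *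
        (l ^ 2 * (64 * (fP τ * (h * fe τ)⁻¹))) +
        -1 * (h * fe τ * ((c * h) ^ δ * (h + 64))) * (l ^ 4 * (64 * (h * fe τ)⁻¹)) =
        64 * l ^ 2 * h ^ δ * (h + 64) * ((NN δ c : ℂ) - c ^ δ * l ^ 2) := by
      have e4 : h ^ δ * (NN δ c : ℂ) * (h * fe τ * fP τ * (fe τ)⁻¹) *
        (l ^ 2 * (64 * (fP τ * (h * fe τ)⁻¹))) = 64 * l ^ 2 * h ^ δ * (NN δ c : ℂ) *
          (fP τ ^ 2 * (fe τ)⁻¹) := by
        field_simp
      rw [e4, hP2, mul_pow]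
      field_simp
      ring
    rw [e3]
    have e5 : 64 * l ^ 2 * h ^ δ * (h + 64) * ((NN δ c : ℂ) - c ^ δ * l ^ 2) *
        ((h + 64) * (4096 / h) ^ (δ + 1)) =
        64 * l ^ 2 * ((NN δ c : ℂ) - c ^ δ * l ^ 2) * ((h + 64) ^ 2 * (h ^ δ * (4096 / h) ^ (δ + 1))) := by
      ring
    rw [e5, hc, div_pow, pow_succ h]
    field_simp
  · intro e1 e2
    obtain ⟨t, ht, hval⟩ := hV.2.2.2 p hp0 hodd M τ l hdet hM e1 e2
    obtain ⟨w, hw, hww⟩ := key t ht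
    refine ⟨- (w * ((h + 64) * (4096 / h) ^ (δ + 2))), (hw.mul (i64.mul (i2.pow _))).neg, ?_⟩
    rw [mul_neg, ← mul_assoc, ← hww, hval _ _ _ pB0, hval _ _ _ pB1]
    have z1 : (2 * l ^ 2) ^ (-(-1 : ℤ)) = 2 * l ^ 2 := by norm_num
    have z2 : (2 * l ^ 2) ^ (-(-2 : ℤ)) = (2 * l ^ 2) ^ 2 := by
      rw [show (-(-2 : ℤ)) = ((2 : ℕ) : ℤ) by norm_num, zpow_natCast]
    rw [z1, z2, A0, A1, B0', B1', ← hh, phi_point hc, hpδ, pow_succ (h + 64), pow_mul (h + 64), hc, hse]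
    have e3 : h ^ δ * (NN δ c : ℂ) * (h * fe τ * fP τ * (fe τ)⁻¹) *
        (2 * l ^ 2 * (64 * (-fP τ * (64 * fe τ)⁻¹))) +
        -1 * (h * fe τ * ((c * h) ^ δ * (h + 64))) * ((2 * l ^ 2) ^ 2 * (64 * (64 * fe τ)⁻¹)) =
        - (2 * l ^ 2 * (h ^ δ * h) * (h + 64) * ((NN δ c : ℂ) + 2 * c ^ δ * l ^ 2)) := by
      have e4 : h ^ δ * (NN δ c : ℂ) * (h * fe τ * fP τ * (fe τ)⁻¹) *
        (2 * l ^ 2 * (64 * (-fP τ * (64 * fe τ)⁻¹))) = - (2 * l ^ 2 * h ^ δ * h * (NN δ c : ℂ) *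
          (fP τ ^ 2 * (fe τ)⁻¹)) := by
        field_simp
      rw [e4, hP2, mul_pow]
      field_simp
      ring
    rw [e3]
    have e5 : - (-(2 * l ^ 2 * (h ^ δ * h) * (h + 64) * ((NN δ c : ℂ) + 2 * c ^ δ * l ^ 2)) *
        ((h + 64) * (4096 / h) ^ (δ + 2))) =
        2 * l ^ 2 * ((NN δ c : ℂ) + 2 * c ^ δ * l ^ 2) *
          ((h + 64) ^ 2 * ((h ^ δ * h) * (4096 / h) ^ (δ + 2))) := by
      ring
    rw [e5, hc, div_pow, pow_add h δ 2]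
    field_simp



end

end Pool.Agent.HS37.CQ
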