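import Pool.Agent.HS37.CQ.Stm
import Pool.Agent.HS37.SP.Lem

set_option autoImplicit false

open Pool.Agent.HS37.SP

namespace Pool.Agent.HS37.CQ

namespace HYP

/-- an integral series divisible by `X ^ N` is `X ^ N` times an integral series -/
lemma div_X {N : ℕ} {f : PowerSeries ℂ} (hf : f ∈ intR) (h : PowerSeries.X ^ N ∣ f) :
    ∃ w ∈ intR, f = PowerSeries.X ^ N * w := by
  refine ⟨PowerSeries.mk fun n => PowerSeries.coeff (n + N) f, ?_, ?_⟩
  · rw [← isInt_iff] at hf ⊢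
    intro n
    rw [PowerSeries.coeff_mk]
    exact hf (n + N)
  · obtain ⟨g, rfl⟩ := h
    congr 1
    ext n
    rw [PowerSeries.coeff_mk, add_comm n N, ← Nat.add_comm n N, PowerSeries.coeff_X_pow_mul]

lemma vps_int {m : ℕ} {c : PowerSeries ℂ} (hc : c ∈ intR) : vps m c ∈ intR := by
  rw [← isInt_iff] at hc ⊢
  intro n
  rw [vps, PowerSeries.coeff_mk]
  split_ifs
  · exact hc _
  · exact ⟨0, by simp⟩

lemma ct_int (hE : S_EXP) : ct ∈ intR := by
  obtain ⟨-, -, -, h4, h5, h6, -, -, -, h10⟩ := hE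
  rw [isInt_iff] at h4 h5 h6
  unfold ct
  refine mul_mem (mul_mem h4 h5) (inv_mem (pow_mem h6 4) ?_)
  rw [PowerSeries.coeff_zero_eq_constantCoeff_apply] at h10
  rw [map_pow, h10, one_pow]

lemma nat_mem (n : ℕ) : PowerSeries.C (n : ℂ) ∈ intR := by
  have := isInt_C (n : ℤ)
  simpa using this

end HYP

open HYP in
theorem t_HYP (hP : S_PAR) (hU : S_UDV) (hE : S_EXP) : S_HYP := by
  intro p δ hp hpd
  have hct := ct_int hE
  obtain ⟨-, -, -, -, -, h6, -, -, -, h10⟩ := hE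
  rw [isInt_iff] at h6
  obtain ⟨hU1, -⟩ := hU
  have hp2 : p ≠ 2 := by omega
  -- divisibility of the tail
  have htail : ∀ n : ℕ, ∃ v : ℕ, δ < n → n < p → uu n = p ^ 2 * v := by
    intro n
    by_cases h1 : δ < n ∧ n < p
    · obtain ⟨v, hv⟩ := hU1 p n hp hp2 h1.2 (by omega)
      exact ⟨v, fun _ _ => hv⟩
    · exact ⟨0, fun h2 h3 => absurd ⟨h2, h3⟩ h1⟩
  choose v hv using htail
  set F := ∑ n ∈ Finset.range p, PowerSeries.C (uu n : ℂ) * ct ^ n with hF
  set S := ∑ n ∈ Finset.range (δ + 1), PowerSeries.C (uu n : ℂ) * ct ^ n with hS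
  set r := ∑ n ∈ Finset.Ico (δ + 1) p, PowerSeries.C (v n : ℂ) * ct ^ n with hr
  have hFS : F = S + PowerSeries.C ((p : ℂ) ^ 2) * r := by
    rw [hF, hS, hr, ← Finset.sum_range_add_sum_Ico _ (by omega : δ + 1 ≤ p), Finset.mul_sum]
    congr 1
    refine Finset.sum_congr rfl fun n hn => ?_
    rw [Finset.mem_Ico] at hn
    rw [hv n (by omega) hn.2, ← mul_assoc, ← map_mul]
    push_cast
    rfl
  have hrm : r ∈ intR := sum_mem fun n _ => mul_mem (nat_mem _) (pow_mem hct n)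
  have hFm : F ∈ intR := sum_mem fun n _ => mul_mem (nat_mem _) (pow_mem hct n)
  obtain ⟨w, hw, hw2⟩ := div_X (sub_mem h6 hFm) (hP p)
  have hvd : PowerSeries.X ^ p ∣ vps p cP - 1 := by
    rw [PowerSeries.X_pow_dvd_iff]
    intro m hm
    rw [map_sub, vps, PowerSeries.coeff_mk, PowerSeries.coeff_one]
    by_cases h0 : m = 0
    · subst h0
      simp only [dvd_zero, if_true, Nat.zero_div]
      rw [h10, sub_self]
    · rw [if_neg h0, if_neg, sub_zero]
      intro hd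
      exact h0 (Nat.eq_zero_of_dvd_of_lt hd hm)
  obtain ⟨k, hk, hk2⟩ := div_X (sub_mem (vps_int h6) (one_mem _)) hvd
  have hV : vps p cP = 1 + PowerSeries.X ^ p * k := by rw [← hk2]; ring
  have hXm : (PowerSeries.X : PowerSeries ℂ) ∈ intR := ⟨PowerSeries.X, by simp⟩
  refine ⟨-r * (1 + PowerSeries.X ^ p * k), -w * (1 + PowerSeries.X ^ p * k) + cP * k, ?_, ?_, ?_⟩
  · rw [isInt_iff]
    exact mul_mem (neg_mem hrm) (add_mem (one_mem _) (mul_mem (pow_mem hXm p) hk))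
  · rw [isInt_iff]
    exact add_mem (mul_mem (neg_mem hw) (add_mem (one_mem _) (mul_mem (pow_mem hXm p) hk))) (mul_mem h6 hk)
  · have hSe : S = cP - PowerSeries.X ^ p * w - PowerSeries.C ((p : ℂ) ^ 2) * r := by
      rw [← hw2, hFS]
      ring
    rw [hV, hSe]
    ring

end Pool.Agent.HS37.CQ
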