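import Pool.Agent.HS37.CQ.Stm
import Pool.Agent.HS37.SP.Lem

/-!
# Project CQ, pieces GEX and PR2: prescribed polar parts, the `q`-expansion principle
-/

set_option autoImplicit false

open UpperHalfPlane
open Pool.Agent.HS37.SP

namespace Pool.Agent.HS37.CQ

noncomputable section

namespace GEX

theorem qexp_pow {g : ℍ → ℂ} {e : ℕ} {c : PowerSeries ℂ} (hg : QExp g e c) (n : ℕ) :
    QExp (fun τ => g τ ^ n) (n * e) (c ^ n) := by
  induction n with
  | zero => simpa using qexp_one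
  | succ n ih =>
    have h := t_QMUL.1 _ _ _ _ _ _ ih hg
    rw [show (n + 1) * e = n * e + e by ring, pow_succ]
    simpa only [pow_succ] using h

theorem qexp_zero (e : ℕ) : QExp (fun _ => 0) e 0 := by
  intro τ
  simp

/-- prescribed coefficients -/
theorem presc {H : ℍ → ℂ} {c : PowerSeries ℂ} (hH : QExp H 1 c) (hc : IsInt c)
    (hc0 : PowerSeries.coeff 0 c = 1) (N : ℕ) (z : ℕ → ℤ) : ∀ m : ℕ, m ≤ N + 1 →
    ∃ (G : Polynomial ℤ) (g : PowerSeries ℂ), (∀ j, j + m ≤ N → G.coeff j = 0) ∧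
      QExp (fun τ => Polynomial.aeval (H τ) G) N g ∧ IsInt g ∧
      ∀ i < m, PowerSeries.coeff i g = z i := by
  intro m
  induction m with
  | zero =>
    intro _
    refine ⟨0, 0, by simp, ?_, fun n => ⟨0, by simp⟩, by simp⟩
    simpa using qexp_zero N
  | succ m ih =>
    intro hm
    obtain ⟨G, g, h1, h2, h3, h4⟩ := ih (by omega)
    obtain ⟨w, hw⟩ := h3 m
    obtain ⟨a, ha⟩ : ∃ a : ℤ, a = z m - w := ⟨_, rfl⟩
    refine ⟨G + Polynomial.C a * Polynomial.X ^ (N - m),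
      g + PowerSeries.C (a : ℂ) * (PowerSeries.X ^ m * c ^ (N - m)), ?_, ?_, ?_, ?_⟩
    · intro j hj
      rw [Polynomial.coeff_add, h1 j (by omega), Polynomial.coeff_C_mul_X_pow,
        if_neg (by omega), zero_add]
    · have e1 := t_QMUL.2.2.2.2.1 _ _ m _ (qexp_pow hH (N - m))
      rw [mul_one, Nat.sub_add_cancel (by omega)] at e1
      have e2 := t_QMUL.2.1 _ _ _ _ _ h2 (t_QMUL.2.2.2.1 _ _ _ (a : ℂ) e1)
      have e3 : (fun τ => Polynomial.aeval (H τ) (G + Polynomial.C a * Polynomial.X ^ (N - m))) =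
          fun τ => Polynomial.aeval (H τ) G + (a : ℂ) * H τ ^ (N - m) := by
        funext τ
        simp
      rw [e3]
      exact e2
    · rw [isInt_iff] at h3 hc ⊢
      refine add_mem h3 (mul_mem (isInt_C a) (mul_mem ?_ (pow_mem hc _)))
      rw [← isInt_iff]
      intro n
      rw [PowerSeries.coeff_X_pow]
      by_cases h : n = m
      · exact ⟨1, by simp [h]⟩
      · exact ⟨0, by simp [h]⟩
    · intro i hi
      rw [map_add, PowerSeries.coeff_C_mul]
      rcases Nat.lt_succ_iff_lt_or_eq.1 hi with h | rfl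
      · rw [h4 i h, PowerSeries.coeff_X_pow_mul', if_neg (by omega), mul_zero, add_zero]
      · rw [hw, PowerSeries.coeff_X_pow_mul', if_pos le_rfl, Nat.sub_self,
          PowerSeries.coeff_zero_eq_constantCoeff_apply, map_pow,
          ← PowerSeries.coeff_zero_eq_constantCoeff_apply, hc0, one_pow, ha]
        push_cast
        ring

/-- polynomials in a function without pole -/
theorem poly_exp {K : ℍ → ℂ} {d : PowerSeries ℂ} (hK : QExp K 0 d) (hd : IsInt d)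
    (hd0 : PowerSeries.coeff 0 d = 0) (G : Polynomial ℤ) :
    ∃ k : PowerSeries ℂ, QExp (fun τ => Polynomial.aeval (K τ) G) 0 k ∧ IsInt k ∧
      PowerSeries.coeff 0 k = G.coeff 0 := by
  induction G using Polynomial.induction_on' with
  | add p q hp hq =>
    obtain ⟨k, h1, h2, h3⟩ := hp
    obtain ⟨l, h4, h5, h6⟩ := hq
    refine ⟨k + l, ?_, ?_, ?_⟩
    · simpa only [map_add] using t_QMUL.2.1 _ _ _ _ _ h1 h4
    · rw [isInt_iff] at *
      exact add_mem h2 h5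
    · rw [map_add, h3, h6, Polynomial.coeff_add]
      push_cast
      rfl
  | monomial n a =>
    refine ⟨PowerSeries.C (a : ℂ) * d ^ n, ?_, ?_, ?_⟩
    · have h := t_QMUL.2.2.2.1 _ _ _ (a : ℂ) (qexp_pow hK n)
      rw [mul_zero] at h
      simpa [Polynomial.aeval_monomial] using h
    · rw [isInt_iff] at *
      exact mul_mem (isInt_C a) (pow_mem hd _)
    · rw [PowerSeries.coeff_zero_eq_constantCoeff_apply] at hd0
      rw [PowerSeries.coeff_C_mul, PowerSeries.coeff_zero_eq_constantCoeff_apply, map_pow, hd0,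
        Polynomial.coeff_monomial]
      by_cases h : n = 0
      · simp [h]
      · simp [h]

theorem aeval_pr (hCLO : S_CLO) {a a' : ℍ → ℂ} (h : Pr 0 a a') (G : Polynomial ℤ) :
    Pr 0 (fun τ => Polynomial.aeval (a τ) G) (fun τ => Polynomial.aeval (a' τ) G) := by
  obtain ⟨-, cadd, csm, -, cpow, -, -⟩ := hCLO
  induction G using Polynomial.induction_on' with
  | add p q hp hq =>
    have := cadd 0 _ _ _ _ hp hq
    simpa only [map_add] using this
  | monomial n z =>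
    have h1 := cpow 0 _ _ n h
    rw [mul_zero] at h1
    have h2 := csm 0 _ _ (z : ℂ) h1
    simpa [Polynomial.aeval_monomial] using h2

end GEX

open GEX

theorem t_GEX (hPRE : S_PRE) : S_GEX := by
  intro M R z z'
  obtain ⟨-, -, -, -, -, -, -, ⟨c, hc1, hc2, hc3⟩, ⟨d, hd1, hd2, hd3⟩⟩ := hPRE
  obtain ⟨G₁, g₁, a1, a2, a3, a4⟩ := presc hc1 hc2 hc3 M z M (by omega)
  obtain ⟨G₂, g₂, b1, b2, b3, b4⟩ := presc hc1 hc2 hc3 R z' (R + 1) le_rfl
  obtain ⟨k₁, c1, c2, c3⟩ := poly_exp hd1 hd2 hd3 G₁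
  obtain ⟨k₂, d1, d2, -⟩ := poly_exp hd1 hd2 hd3 G₂
  have hX : ∀ m : ℕ, (PowerSeries.X ^ m : PowerSeries ℂ) ∈ intR := by
    intro m
    rw [← isInt_iff]
    intro n
    rw [PowerSeries.coeff_X_pow]
    by_cases h : n = m
    · exact ⟨1, by simp [h]⟩
    · exact ⟨0, by simp [h]⟩
  refine ⟨G₁, G₂, g₁ + PowerSeries.X ^ M * k₂, PowerSeries.X ^ R * k₁ + g₂, ?_, ?_, ?_, ?_, ?_, ?_⟩
  · have h := t_QMUL.2.2.2.2.1 _ _ M _ d1
    rw [zero_add] at h
    exact t_QMUL.2.1 _ _ _ _ _ a2 h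
  · have h := t_QMUL.2.2.2.2.1 _ _ R _ c1
    rw [zero_add] at h
    exact t_QMUL.2.1 _ _ _ _ _ h b2
  · rw [isInt_iff] at *
    exact add_mem a3 (mul_mem (hX M) d2)
  · rw [isInt_iff] at *
    exact add_mem (mul_mem (hX R) c2) b3
  · intro i hi
    rw [map_add, a4 i hi, PowerSeries.coeff_X_pow_mul', if_neg (by omega), add_zero]
  · intro i hi
    rw [map_add, b4 i (by omega), PowerSeries.coeff_X_pow_mul']
    split_ifs with h
    · have : i = R := by omega
      subst this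
      rw [Nat.sub_self, c3, a1 0 (by omega)]
      simp
    · rw [zero_add]

theorem t_PR2 (hGEX : S_GEX) (hCON : S_CON) (hPRE : S_PRE) (hCLO : S_CLO) : S_PR2 := by
  intro F F' m m' c c' hF hc hc' h1 h2
  have hz : ∀ i, ∃ z : ℤ, i < m → PowerSeries.coeff i c = z := by
    intro i
    by_cases hi : i < m
    · obtain ⟨z, hz⟩ := h1 i hi
      exact ⟨z, fun _ => hz⟩
    · exact ⟨0, fun h => absurd h hi⟩
  have hz' : ∀ i, ∃ z : ℤ, i ≤ m' → PowerSeries.coeff i c' = z := by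
    intro i
    by_cases hi : i ≤ m'
    · obtain ⟨z, hz⟩ := h2 i hi
      exact ⟨z, fun _ => hz⟩
    · exact ⟨0, fun h => absurd h hi⟩
  choose z hz using hz
  choose z' hz' using hz'
  obtain ⟨G₁, G₂, g, g', e1, e2, -, -, e3, e4⟩ := hGEX m m' z z'
  have hh : Pr 0 fh (fun τ => 4096 / fh τ) := hPRE.2.2.2.1
  have hh' := hCLO.2.2.2.2.2.2 0 _ _ hh
  have hG : Pr 0 (fun τ => Polynomial.aeval (fh τ) G₁ + Polynomial.aeval (4096 / fh τ) G₂)
      (fun τ => Polynomial.aeval (4096 / fh τ) G₁ + Polynomial.aeval (fh τ) G₂) :=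
    hCLO.2.1 0 _ _ _ _ (aeval_pr hCLO hh G₁) (aeval_pr hCLO hh' G₂)
  have hD := hCLO.2.1 0 _ _ _ _ hF (hCLO.2.2.1 0 _ _ (-1) hG)
  have hq := t_QMUL.2.1 _ _ _ _ _ hc (t_QMUL.2.2.2.1 _ _ _ (-1) e1)
  have hq' := t_QMUL.2.1 _ _ _ _ _ hc' (t_QMUL.2.2.2.1 _ _ _ (-1) e2)
  obtain ⟨r, hr⟩ : PowerSeries.X ^ m ∣ c + PowerSeries.C (-1 : ℂ) * g := by
    rw [PowerSeries.X_pow_dvd_iff]
    intro i hi
    rw [map_add, PowerSeries.coeff_C_mul, hz i hi, e3 i hi]
    ring
  obtain ⟨r', hr'⟩ : PowerSeries.X ^ m' ∣ c' + PowerSeries.C (-1 : ℂ) * g' := by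
    rw [PowerSeries.X_pow_dvd_iff]
    intro i hi
    rw [map_add, PowerSeries.coeff_C_mul, hz' i hi.le, e4 i hi.le]
    ring
  have hr0 : PowerSeries.coeff 0 r' = 0 := by
    have h := congrArg (PowerSeries.coeff m') hr'
    rw [map_add, PowerSeries.coeff_C_mul, hz' m' le_rfl, e4 m' le_rfl,
      PowerSeries.coeff_X_pow_mul', if_pos le_rfl, Nat.sub_self] at h
    rw [← h]
    ring
  rw [hr] at hq
  rw [hr'] at hq'
  have hq0 := t_QMUL.2.2.2.2.2 _ 0 m r (by rw [zero_add]; exact hq)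
  have hq0' := t_QMUL.2.2.2.2.2 _ 0 m' r' (by rw [zero_add]; exact hq')
  have k1 := hCON _ _ _ _ hD hq0 hq0'
  have k2 := hCON _ _ _ _ (hCLO.2.2.2.2.2.2 0 _ _ hD) hq0' hq0
  refine ⟨G₁, G₂, fun τ => ?_⟩
  have k3 := hD.fr τ
  rw [k1 (fri τ), k2 τ, hr0, mul_zero] at k3
  have k4 := k1 τ
  rw [k3] at k4
  linear_combination k4

end

end Pool.Agent.HS37.CQ
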