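import Pool.Agent.HS37.CQ.Bas
import Pool.Agent.HS37.SP.Qmul
import Pool.Agent.Y949.J.Ram2

/-!
# Project CQ: piece RAM (helper70)
-/

set_option autoImplicit false

open UpperHalfPlane ModularForm ModularFormClass MatrixGroups EisensteinSeries Derivative
open Pool.Agent.HS37.SP

namespace Pool.Agent.HS37.CQ

noncomputable section

namespace HK70R

lemma norm_qq (w : ℂ) : ‖qq w‖ = Real.exp (-(2 * Real.pi * w.im)) := by
  unfold qq
  rw [Complex.norm_exp]
  congr 1
  simp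

lemma hasDerivAt_qq (w : ℂ) : HasDerivAt qq (qq w * (2 * Real.pi * Complex.I)) w := by
  have h1 : HasDerivAt (fun τ : ℂ => 2 * Real.pi * Complex.I * τ) (2 * Real.pi * Complex.I) w := by
    simpa using (hasDerivAt_id w).const_mul (2 * Real.pi * Complex.I)
  exact h1.cexp

lemma qexp_D {g : ℍ → ℂ} {c : PowerSeries ℂ} (h : QExp g 0 c) :
    QExp (normalizedDerivOfComplex g) 0 (tht c) := by
  intro τ
  have hy := τ.im_pos
  obtain ⟨y, hyd⟩ : ∃ y : ℝ, y = τ.im / 2 := ⟨_, rfl⟩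
  have hy2 : 0 < y := by rw [hyd]; positivity
  obtain ⟨τ', hτ'⟩ : ∃ τ' : ℍ, (τ' : ℂ) = (y : ℂ) * Complex.I :=
    ⟨⟨(y : ℂ) * Complex.I, by simpa using hy2⟩, rfl⟩
  have hs := (h τ').summable.norm
  have hU : IsOpen {w : ℂ | y < w.im} := isOpen_lt continuous_const Complex.continuous_im
  have hF : ∀ i : ℕ, DifferentiableOn ℂ (fun w : ℂ => PowerSeries.coeff i c * qq w ^ i)
      {w : ℂ | y < w.im} := fun i w _ =>
    (((hasDerivAt_qq w).pow i).const_mul _).differentiableAt.differentiableWithinAt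
  have hle : ∀ (i : ℕ) (w : ℂ), w ∈ {w : ℂ | y < w.im} →
      ‖PowerSeries.coeff i c * qq w ^ i‖ ≤ ‖PowerSeries.coeff i c * qq τ' ^ i‖ := by
    intro i w hw
    rw [norm_mul, norm_mul, norm_pow, norm_pow, norm_qq, norm_qq]
    have h3 : (τ' : ℂ).im = y := by
      rw [hτ']
      simp
    rw [h3]
    have h4 : y < w.im := hw
    have h5 : Real.exp (-(2 * Real.pi * w.im)) ≤ Real.exp (-(2 * Real.pi * y)) := by
      apply Real.exp_le_exp.2
      have := Real.pi_pos
      nlinarith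
    gcongr
  have hz : (τ : ℂ) ∈ {w : ℂ | y < w.im} := by
    show y < τ.im
    rw [hyd]
    linarith
  have h1 := Complex.hasSum_deriv_of_summable_norm hs hF hU hle hz
  have h2 : deriv (fun w => ∑' i : ℕ, PowerSeries.coeff i c * qq w ^ i) τ =
      deriv (g ∘ ofComplex) τ := by
    apply Filter.EventuallyEq.deriv_eq
    filter_upwards [hU.mem_nhds hz] with w hw
    have hw0 : 0 < w.im := hy2.trans hw
    have h3 := (h ⟨w, hw0⟩).tsum_eq
    rw [pow_zero, one_mul] at h3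
    rw [Function.comp_apply, ofComplex_apply_of_im_pos hw0]
    exact h3
  rw [h2] at h1
  have h4 := h1.mul_left ((2 * Real.pi * Complex.I)⁻¹)
  rw [pow_zero, one_mul]
  refine QMULP.hs_congr h4 (fun n => ?_) rfl
  have h7 : HasDerivAt (fun w : ℂ => PowerSeries.coeff n c * qq w ^ n) (PowerSeries.coeff n c *
      (n * qq (τ : ℂ) ^ (n - 1) * (qq (τ : ℂ) * (2 * Real.pi * Complex.I)))) (τ : ℂ) :=
    ((hasDerivAt_qq (τ : ℂ)).fun_pow n).const_mul _
  rw [tht, PowerSeries.coeff_mk, h7.deriv]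
  have h5 : (2 * Real.pi * Complex.I : ℂ) ≠ 0 := Complex.two_pi_I_ne_zero
  rcases Nat.eq_zero_or_pos n with hn | hn
  · subst hn
    simp
  · have h6 : qq (τ : ℂ) ^ n = qq (τ : ℂ) ^ (n - 1) * qq (τ : ℂ) := by
      rw [← pow_succ, Nat.sub_add_cancel hn]
    rw [h6]
    field_simp

lemma tht_vps (c : PowerSeries ℂ) : tht (vps 2 c) = 2 * vps 2 (tht c) := by
  ext n
  rw [show (2 : PowerSeries ℂ) = PowerSeries.C (2 : ℂ) by rw [map_ofNat], PowerSeries.coeff_C_mul]
  simp only [tht, vps, PowerSeries.coeff_mk]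
  by_cases h : 2 ∣ n
  · obtain ⟨m, rfl⟩ := h
    rw [if_pos (dvd_mul_right 2 m), if_pos (dvd_mul_right 2 m), Nat.mul_div_cancel_left _ two_pos]
    push_cast
    ring
  · rw [if_neg h, if_neg h]
    ring

lemma tht_add (a b : PowerSeries ℂ) : tht (a + b) = tht a + tht b := by
  ext n
  simp only [tht, PowerSeries.coeff_mk, map_add]
  ring

lemma tht_sub (a b : PowerSeries ℂ) : tht (a - b) = tht a - tht b := by
  ext n
  simp only [tht, PowerSeries.coeff_mk, map_sub]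
  ring

lemma tht_C (z : ℂ) (a : PowerSeries ℂ) : tht (PowerSeries.C z * a) = PowerSeries.C z * tht a := by
  ext n
  simp only [tht, PowerSeries.coeff_mk, PowerSeries.coeff_C_mul]
  ring

lemma C_ne {z : ℂ} (hz : z ≠ 0) : (PowerSeries.C z : PowerSeries ℂ) ≠ 0 := fun h =>
  hz (PowerSeries.C_injective (by rw [h, map_zero]))

/-- Equality of the expansions of two functions. -/
lemma ser_eq {g h : ℍ → ℂ} {a b : PowerSeries ℂ} (hg : QExp g 0 a) (hh : QExp h 0 b)
    (e : ∀ τ, g τ = h τ) : a = b := by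
  have h1 : g = h := funext e
  rw [h1] at hg
  exact t_QMUL.2.2.1 h 0 a b hg hh

end HK70R

open HK70R in
theorem t_RAM (hR : S_REL) (hE : S_EXP) : S_RAM := by
  obtain ⟨r1, r2, r3, r4, r5, -⟩ := hR
  obtain ⟨xe, xs, xP, -⟩ := hE
  obtain ⟨-, -, bd, b2⟩ := t_BAS
  obtain ⟨⟨-, x4, -⟩, ⟨-, x6, -⟩, -⟩ := t_EIS
  obtain ⟨qm, qa, -, qs, -⟩ := t_QMUL
  have qm' : ∀ (g h : ℍ → ℂ) (c c' : PowerSeries ℂ), QExp g 0 c → QExp h 0 c' →
    QExp (fun τ => g τ * h τ) 0 (c * c') := fun g h c c' h1 h2 => qm g h 0 0 c c' h1 h2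
  have y2 := bd _ _ _ b2
  have y4 := bd _ _ _ x4
  have y6 := bd _ _ _ x6
  have d2 := qexp_D b2
  have d4 := qexp_D x4
  have e2 := bd _ _ _ d2
  have e4 := bd _ _ _ d4
  simp only [mul_zero] at y2 y4 y6 e2 e4
  -- series identities
  have s1 : cP * cP = cs + PowerSeries.C 64 * ce :=
    ser_eq (qm' _ _ _ _ xP xP) (qa _ _ _ _ _ xs (qs _ _ _ 64 xe)) fun τ => by
      rw [← pow_two, r1]
  have s6 : eis 6 + PowerSeries.C 576 * (cP * ce) = cP * (cP * cP) :=
    ser_eq (qa _ _ _ _ _ x6 (qs _ _ _ 576 (qm' _ _ _ _ xP xe)))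
      (qm' _ _ _ _ xP (qm' _ _ _ _ xP xP)) fun τ => by
      show E₆ τ + _ = _
      rw [r4]
      ring
  have s6' : vps 2 (eis 6) + PowerSeries.C 72 * (cP * ce) = cP * (cP * cP) :=
    ser_eq (qa _ _ _ _ _ y6 (qs _ _ _ 72 (qm' _ _ _ _ xP xe)))
      (qm' _ _ _ _ xP (qm' _ _ _ _ xP xP)) fun τ => by
      show E₆ (dbl τ) + _ = _
      rw [r5]
      ring
  have t2 : PowerSeries.C 12 * tht (eis 2) + eis 4 = eis 2 * eis 2 :=
    ser_eq (qa _ _ _ _ _ (qs _ _ _ 12 d2) x4) (qm' _ _ _ _ b2 b2) fun τ => by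
      rw [Pool.Agent.Y949.J.ram2]
      ring
  have t2' : PowerSeries.C 12 * vps 2 (tht (eis 2)) + vps 2 (eis 4) = vps 2 (eis 2) * vps 2 (eis 2) :=
    ser_eq (qa _ _ _ _ _ (qs _ _ _ 12 e2) y4) (qm' _ _ _ _ y2 y2) fun τ => by
      rw [Pool.Agent.Y949.J.ram2]
      ring
  have t4 : PowerSeries.C 3 * tht (eis 4) + eis 6 = eis 2 * eis 4 :=
    ser_eq (qa _ _ _ _ _ (qs _ _ _ 3 d4) x6) (qm' _ _ _ _ b2 x4) fun τ => by
      rw [Pool.Agent.Y949.J.ram4]
      ring
  have t4' : PowerSeries.C 3 * vps 2 (tht (eis 4)) + vps 2 (eis 6) = vps 2 (eis 2) * vps 2 (eis 4) :=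
    ser_eq (qa _ _ _ _ _ (qs _ _ _ 3 e4) y6) (qm' _ _ _ _ y2 y4) fun τ => by
      rw [Pool.Agent.Y949.J.ram4]
      ring
  have c2 := tht_vps (eis 2)
  have c4 := tht_vps (eis 4)
  simp only [map_ofNat] at s1 s6 s6' t2 t2' t4 t4'
  -- inverses of integers
  have i240 : PowerSeries.C (1 / 240 : ℂ) * 240 = 1 := by
    rw [show (240 : PowerSeries ℂ) = PowerSeries.C (240 : ℂ) by rw [map_ofNat], ← map_mul]
    norm_num
  have i15 : PowerSeries.C (1 / 15 : ℂ) * 15 = 1 := by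
    rw [show (15 : PowerSeries ℂ) = PowerSeries.C (15 : ℂ) by rw [map_ofNat], ← map_mul]
    norm_num
  have i3 : PowerSeries.C (1 / 3 : ℂ) * 3 = 1 := by
    rw [show (3 : PowerSeries ℂ) = PowerSeries.C (3 : ℂ) by rw [map_ofNat], ← map_mul]
    norm_num
  have tce : 240 * ce = eis 4 - vps 2 (eis 4) := by
    unfold ce
    linear_combination (eis 4 - vps 2 (eis 4)) * i240
  have tcs : 15 * cs = 16 * vps 2 (eis 4) - eis 4 := by
    unfold cs
    linear_combination (16 * vps 2 (eis 4) - eis 4) * i15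
  have tcA : 3 * cA = 4 * vps 2 (eis 2) - eis 2 := by
    unfold cA
    linear_combination (4 * vps 2 (eis 2) - eis 2) * i3
  have tcP : cP = 2 * vps 2 (eis 2) - eis 2 := rfl
  have n2 : ∀ a : PowerSeries ℂ, tht (2 * a) = 2 * tht a := fun a => by
    have := tht_C 2 a
    rwa [map_ofNat] at this
  have n3 : ∀ a : PowerSeries ℂ, tht (3 * a) = 3 * tht a := fun a => by
    have := tht_C 3 a
    rwa [map_ofNat] at this
  have n4 : ∀ a : PowerSeries ℂ, tht (4 * a) = 4 * tht a := fun a => by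
    have := tht_C 4 a
    rwa [map_ofNat] at this
  have n240 : ∀ a : PowerSeries ℂ, tht (240 * a) = 240 * tht a := fun a => by
    have := tht_C 240 a
    rwa [map_ofNat] at this
  have dce := congrArg tht tce
  rw [n240, tht_sub, c4] at dce
  have dcA := congrArg tht tcA
  rw [n3, tht_sub, n4, c2] at dcA
  have dcP := congrArg tht tcP
  rw [tht_sub, n2, c2] at dcP
  have e4' : eis 4 = cP * cP + 192 * ce := by
    have h15 : (15 : PowerSeries ℂ) ≠ 0 := by
      rw [← map_ofNat PowerSeries.C 15]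
      exact C_ne (by norm_num)
    apply mul_left_cancel₀ h15
    rw [s1]
    linear_combination -tcs - 16 * tce
  have v4' : vps 2 (eis 4) = cP * cP - 48 * ce := by
    linear_combination e4' + tce
  have e2' : eis 2 = 3 * cA - 2 * cP := by
    rw [tcA, tcP]
    ring
  have v2' : 2 * vps 2 (eis 2) = 3 * cA - cP := by
    rw [tcA, tcP]
    ring
  have e6' : eis 6 = cP * (cP * cP) - 576 * (cP * ce) := by
    linear_combination s6
  have v6' : vps 2 (eis 6) = cP * (cP * cP) - 72 * (cP * ce) := by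
    linear_combination s6'
  have T4 : 3 * tht (eis 4) + (cP * (cP * cP) - 576 * (cP * ce)) =
      (3 * cA - 2 * cP) * (cP * cP + 192 * ce) := by
    rw [← e2', ← e4', ← e6']
    exact t4
  have T4' : 3 * vps 2 (tht (eis 4)) + (cP * (cP * cP) - 72 * (cP * ce)) =
      vps 2 (eis 2) * (cP * cP - 48 * ce) := by
    rw [← v6', ← v4']
    exact t4'
  have T2 : 12 * tht (eis 2) + (cP * cP + 192 * ce) =
      (3 * cA - 2 * cP) * (3 * cA - 2 * cP) := by
    rw [← e2', ← e4']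
    exact t2
  have T2' : 12 * vps 2 (tht (eis 2)) + (cP * cP - 48 * ce) =
      vps 2 (eis 2) * vps 2 (eis 2) := by
    rw [← v4']
    exact t2'
  refine ⟨by rw [pow_two]; exact s1, ?_, ?_, ?_⟩
  · have h720 : (720 : PowerSeries ℂ) ≠ 0 := by
      rw [← map_ofNat PowerSeries.C 720]
      exact C_ne (by norm_num)
    apply mul_left_cancel₀ h720
    linear_combination 3 * dce + T4 - 2 * T4' - (cP * cP - 48 * ce) * v2'
  · have h6 : (6 : PowerSeries ℂ) ≠ 0 := by
      rw [← map_ofNat PowerSeries.C 6]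
      exact C_ne (by norm_num)
    apply mul_left_cancel₀ h6
    linear_combination 12 * dcP - T2 + 4 * T2' + (2 * vps 2 (eis 2) + 3 * cA - cP) * v2'
  · have h9 : (9 : PowerSeries ℂ) ≠ 0 := by
      rw [← map_ofNat PowerSeries.C 9]
      exact C_ne (by norm_num)
    apply mul_left_cancel₀ h9
    linear_combination 12 * dcA - T2 + 8 * T2' + 2 * (2 * vps 2 (eis 2) + 3 * cA - cP) * v2'

end

end Pool.Agent.HS37.CQ
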