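import Pool.Agent.HS37.CQ.Stm
import Pool.Agent.HS37.SP.Lem

/-!
# Project CQ, piece TRC (helper41)
-/

set_option autoImplicit false

open UpperHalfPlane ModularForm ModularFormClass MatrixGroups EisensteinSeries Complex
open Pool.Agent.HS37.SP

namespace Pool.Agent.HS37.CQ

lemma prime_antidiag {p : ℕ} (hp : p.Prime) :
    p.divisorsAntidiagonal = {(1, p), (p, 1)} := by
  ext ⟨a, b⟩
  rw [Nat.mem_divisorsAntidiagonal]
  simp only [Finset.mem_insert, Finset.mem_singleton, Prod.mk.injEq]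
  constructor
  · rintro ⟨h1, h2⟩
    rcases (Nat.dvd_prime hp).1 ⟨b, h1.symm⟩ with rfl | rfl
    · left
      exact ⟨rfl, by simpa using h1⟩
    · right
      exact ⟨rfl, by
        have := hp.pos
        exact Nat.eq_of_mul_eq_mul_left this (by simpa using h1)⟩
  · rintro (⟨rfl, rfl⟩ | ⟨rfl, rfl⟩)
    · exact ⟨one_mul _, hp.ne_zero⟩
    · exact ⟨mul_one _, hp.ne_zero⟩

/-- The expansion of the Hecke sum of prime index. -/
lemma hq_prime {p : ℕ} (hp : p.Prime) (κ : ℤ) (B : ℍ → ℂ) (y : ℕ) (b : PowerSeries ℂ)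
    (hB : QExp B y b) (hb : IsInt b) : ∃ r : PowerSeries ℂ, IsInt r ∧
      QExp (hsum κ p B) (p * y) (vps p b + PowerSeries.C ((p : ℂ) ^ (1 - κ)) * r) := by
  have hp0 : (p : ℤ) ≠ 0 := by exact_mod_cast hp.ne_zero
  have h1 := t_HQ κ B y p b hp.pos hB
  refine ⟨PowerSeries.mk fun n : ℕ => if 0 ≤ (y : ℤ) + p * ((n : ℤ) - p * y) then
    PowerSeries.coeff ((y : ℤ) + p * ((n : ℤ) - p * y)).toNat b else 0, ?_, ?_⟩
  · intro n
    rw [PowerSeries.coeff_mk]
    split_ifs with h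
    · exact hb _
    · exact ⟨0, by simp⟩
  · convert h1 using 1
    ext n
    rw [map_add, PowerSeries.coeff_C_mul, PowerSeries.coeff_mk, PowerSeries.coeff_mk,
      prime_antidiag hp, Finset.sum_pair (by
        intro h
        exact hp.one_lt.ne (congrArg Prod.fst h))]
    rw [add_comm]
    congr 1
    · simp only [Nat.cast_one, one_dvd, true_and, Int.ediv_one]
      split_ifs <;> simp
    · rw [vps, PowerSeries.coeff_mk]
      simp only [Nat.cast_one, one_zpow, one_mul]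
      have h2 : (p : ℤ) ∣ (n : ℤ) - p * y ↔ p ∣ n := by
        rw [dvd_sub_left (dvd_mul_right _ _)]
        exact Int.natCast_dvd_natCast
      by_cases h3 : p ∣ n
      · obtain ⟨m, rfl⟩ := h3
        have h4 : (((p * m : ℕ) : ℤ) - p * y) / p = (m : ℤ) - y := by
          rw [Nat.cast_mul, ← mul_sub]
          exact Int.mul_ediv_cancel_left _ hp0
        have h5 : (y : ℤ) + ((m : ℤ) - y) = (m : ℤ) := by ring
        rw [h4, h5, if_pos (dvd_mul_right _ _), Nat.mul_div_cancel_left _ hp.pos,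
          if_pos ⟨h2.2 (dvd_mul_right _ _), by omega⟩, Int.toNat_natCast]
      · rw [if_neg h3, if_neg fun h => h3 (h2.1 h.1)]

theorem t_TRC (hHK : S_HK2) (hCLO : S_CLO) : S_TRC := by
  intro p hp hp2 k A A' B B' hA hB
  refine ⟨?_, ?_⟩
  · have h1 := hHK k B B' p hp.pos (hp.odd_of_ne_two hp2) hB
    have h2 := hCLO.1 _ _ _ _ _ _ hA h1
    rwa [neg_add_cancel] at h2
  · intro x y a b hAx hBy ha hb
    obtain ⟨r, hr, h1⟩ := hq_prime hp (2 * k) B y b hBy hb
    refine ⟨a * r, isInt_iff.2 (mul_mem (isInt_iff.1 ha) (isInt_iff.1 hr)), ?_⟩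
    have h2 := t_QMUL.1 _ _ _ _ _ _ hAx h1
    convert h2 using 1
    ring

end Pool.Agent.HS37.CQ
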