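import Pool.Agent.HS37.CQ.Hk2
import Pool.Agent.HS37.SP.Eis

/-!
# Project CQ: piece BAS (helper70)
-/

set_option autoImplicit false

open Matrix MatrixGroups UpperHalfPlane EisensteinSeries
open Pool.Agent.HS37.SP

namespace Pool.Agent.HS37.CQ

noncomputable section

namespace HK70B

lemma dbl_coe (τ : ℍ) : ((dbl τ : ℍ) : ℂ) = 2 * (τ : ℂ) := by
  unfold dbl
  have h : 0 < (2 * (τ : ℂ)).im := by
    have h1 := τ.im_pos
    have h2 : (2 * (τ : ℂ)).im = 2 * τ.im := by simp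
    rw [h2]
    linarith
  rw [ofComplex_apply_of_im_pos h]

/-- The matrix `S`. -/
def SS : SL(2, ℤ) := ⟨!![0, -1; 1, 0], by rw [Matrix.det_fin_two_of]; norm_num⟩

lemma SS_coe (τ : ℍ) : ((SS • τ : ℍ) : ℂ) = -1 / (τ : ℂ) := by
  rw [sl_coe]
  simp [SS]

lemma SS10 : SS 1 0 = 1 := rfl
lemma SS11 : SS 1 1 = 0 := rfl

lemma fri_eq (τ : ℍ) : fri τ = SS • (dbl τ) := by
  apply UpperHalfPlane.ext
  rw [SS_coe, HK70.fri_coe, dbl_coe]

lemma dbl_fri (τ : ℍ) : dbl (fri τ) = SS • τ := by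
  apply UpperHalfPlane.ext
  rw [SS_coe, dbl_coe, HK70.fri_coe]
  have := τ.ne_zero
  field_simp

lemma exists_half (γ : SL(2, ℤ)) (hγ : (2 : ℤ) ∣ γ 1 0) :
    ∃ γ' : SL(2, ℤ), 2 * γ' 1 0 = γ 1 0 ∧ γ' 1 1 = γ 1 1 ∧ ∀ τ : ℍ, dbl (γ • τ) = γ' • dbl τ := by
  obtain ⟨c, hc⟩ := hγ
  have hdet := γ.det_coe
  rw [Matrix.det_fin_two, hc] at hdet
  refine ⟨⟨!![γ 0 0, 2 * γ 0 1; c, γ 1 1], by
    rw [Matrix.det_fin_two_of]
    linarith⟩, ?_, rfl, fun τ => ?_⟩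
  · rw [hc]
    rfl
  · apply UpperHalfPlane.ext
    rw [dbl_coe, sl_coe, sl_coe, dbl_coe, hc]
    simp only [Matrix.of_apply, Matrix.cons_val', Matrix.cons_val_zero, Matrix.cons_val_one,
      Matrix.cons_val_fin_one]
    push_cast
    ring_nf

lemma E2_sl (γ : SL(2, ℤ)) (τ : ℍ) :
    E2 (γ • τ) = ((γ 1 0 : ℂ) * τ + (γ 1 1 : ℂ)) ^ 2 * E2 τ -
      (1 / (2 * riemannZeta 2)) * (2 * Real.pi * Complex.I) * (γ 1 0 : ℂ) *
        ((γ 1 0 : ℂ) * τ + (γ 1 1 : ℂ)) := by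
  have h := congrFun (E2_slash_action γ) τ
  rw [ModularForm.SL_slash_apply] at h
  simp only [Pi.sub_apply, Pi.smul_apply, smul_eq_mul, D2] at h
  have hd : denom (γ : GL (Fin 2) ℝ) τ = (γ 1 0 : ℂ) * τ + (γ 1 1 : ℂ) := by
    simp [denom]
  rw [hd] at h
  have h0 := sl_den_ne γ τ
  have h2 : ((γ 1 0 : ℂ) * τ + (γ 1 1 : ℂ)) ^ (-2 : ℤ) = (((γ 1 0 : ℂ) * τ + (γ 1 1 : ℂ)) ^ 2)⁻¹ := by
    rw [_root_.zpow_neg]
    rfl
  rw [h2] at h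
  generalize (γ 1 0 : ℂ) * τ + (γ 1 1 : ℂ) = D at *
  have h3 : E2 (γ • τ) = (E2 (γ • τ) * (D ^ 2)⁻¹) * D ^ 2 := by
    field_simp
  rw [h3, h]
  field_simp

lemma holo_dbl {g : ℍ → ℂ} (hg : DifferentiableOn ℂ (g ∘ ofComplex) {z | 0 < z.im}) :
    DifferentiableOn ℂ ((fun τ => g (dbl τ)) ∘ ofComplex) {z | 0 < z.im} := by
  have h2 : DifferentiableOn ℂ (fun z : ℂ => 2 * z) {z | 0 < z.im} :=
    (differentiable_id.const_mul _).differentiableOn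
  have him : ∀ z ∈ {z : ℂ | 0 < z.im}, 2 * z ∈ {z : ℂ | 0 < z.im} := by
    intro z hz
    have h3 : (2 * z).im = 2 * z.im := by simp
    have h4 : 0 < z.im := hz
    show 0 < (2 * z).im
    rw [h3]
    linarith
  have h1 := DifferentiableOn.comp (g := g ∘ ofComplex) (t := {z | 0 < z.im}) hg h2 him
  refine h1.congr fun z hz => ?_
  show g (dbl (ofComplex z)) = g (ofComplex (2 * z))
  unfold dbl
  rw [ofComplex_apply_of_im_pos hz]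

lemma pr_weak {k : ℤ} {g : ℍ → ℂ} (hg : IsWeak (2 * k) g) :
    Pr k g (fun τ => 2 ^ k * g (dbl τ)) := by
  refine ⟨fun γ τ _ => hg.slash γ τ, fun γ τ hγ => ?_, fun τ => ?_, fun τ => ?_, hg.holo, ?_⟩
  · obtain ⟨γ', h1, h2, h3⟩ := exists_half γ hγ
    show 2 ^ k * g (dbl (γ • τ)) = _
    rw [h3, hg.slash, h2, dbl_coe, ← h1]
    push_cast
    rw [show (γ' 1 0 : ℂ) * (2 * (τ : ℂ)) = 2 * (γ' 1 0 : ℂ) * τ by ring]
    ring
  · rw [fri_eq, hg.slash, SS10, SS11, dbl_coe, show (2 * (τ : ℂ) ^ 2) ^ k * (2 ^ k * g (dbl τ)) =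
      ((2 * (τ : ℂ) ^ 2) ^ k * 2 ^ k) * g (dbl τ) by ring, ← mul_zpow, _root_.zpow_mul]
    congr 2
    push_cast
    show (1 * (2 * (τ : ℂ)) + 0) ^ ((2 : ℕ) : ℤ) = _
    rw [zpow_natCast]
    ring
  · show 2 ^ k * g (dbl (fri τ)) = _
    rw [dbl_fri, hg.slash, SS10, SS11, ← mul_assoc, _root_.zpow_mul, ← mul_zpow]
    congr 2
    push_cast
    show 2 * (1 * (τ : ℂ) + 0) ^ ((2 : ℕ) : ℤ) = _
    rw [zpow_natCast]
    ring
  · exact (holo_dbl hg.holo).const_mul _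

lemma E2_holo : DifferentiableOn ℂ (E2 ∘ ofComplex) {z | 0 < z.im} :=
  UpperHalfPlane.mdifferentiable_iff.mp E2_mdifferentiable

lemma fP_sl (γ : SL(2, ℤ)) (τ : ℍ) (hγ : (2 : ℤ) ∣ γ 1 0) :
    fP (γ • τ) = ((γ 1 0 : ℂ) * τ + (γ 1 1 : ℂ)) ^ (2 * (1 : ℤ)) * fP τ := by
  obtain ⟨γ', h1, h2, h3⟩ := exists_half γ hγ
  unfold fP
  rw [h3, E2_sl γ' (dbl τ), E2_sl γ τ, h2, dbl_coe, ← h1]
  have h4 : ∀ x : ℂ, x ^ (2 * (1 : ℤ)) = x ^ 2 := fun x => rfl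
  rw [h4]
  push_cast
  ring

lemma fP_fr (τ : ℍ) : fP (fri τ) = (2 * (τ : ℂ) ^ 2) ^ (1 : ℤ) * (- fP τ) := by
  unfold fP
  rw [dbl_fri, fri_eq, E2_sl, E2_sl, SS10, SS11, dbl_coe, zpow_one]
  push_cast
  ring

lemma fP_holo : DifferentiableOn ℂ (fP ∘ ofComplex) {z | 0 < z.im} :=
  ((holo_dbl E2_holo).const_mul 2).sub E2_holo

lemma pr_P : Pr 1 fP (fun τ => - fP τ) := by
  refine ⟨fP_sl, fun γ τ hγ => ?_, fP_fr, fun τ => ?_, fP_holo, fP_holo.neg⟩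
  · show - fP (γ • τ) = _ * (- fP τ)
    rw [fP_sl γ τ hγ]
    ring
  · show - fP (fri τ) = _
    rw [fP_fr]
    ring

lemma qq_dbl (τ : ℍ) : qq (dbl τ) = qq τ ^ 2 := by
  unfold qq
  rw [dbl_coe, ← Complex.exp_nat_mul]
  congr 1
  push_cast
  ring

lemma qexp_dbl {g : ℍ → ℂ} {e : ℕ} {c : PowerSeries ℂ} (h : QExp g e c) :
    QExp (fun τ => g (dbl τ)) (2 * e) (vps 2 c) := by
  intro τ
  have h1 := h (dbl τ)
  rw [qq_dbl] at h1
  have hinj : Function.Injective (fun n : ℕ => 2 * n) := fun a b hab => by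
    simpa using hab
  have h2 : ∀ x ∉ Set.range (fun n : ℕ => 2 * n),
      PowerSeries.coeff x (vps 2 c) * qq τ ^ x = 0 := by
    intro x hx
    rw [vps, PowerSeries.coeff_mk, if_neg, zero_mul]
    rintro ⟨y, rfl⟩
    exact hx ⟨y, rfl⟩
  rw [pow_mul]
  refine (hinj.hasSum_iff h2).1 ?_
  convert h1 using 1
  funext i
  rw [Function.comp_apply, vps, PowerSeries.coeff_mk, if_pos (dvd_mul_right 2 i),
    Nat.mul_div_cancel_left _ two_pos, pow_mul]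

lemma qexp_E2 : QExp E2 0 (eis 2) := by
  intro τ
  have h := hasSum_qExpansion_E2 (z := τ)
  rw [pow_zero, one_mul]
  convert h using 1
  funext m
  rw [eis, PowerSeries.coeff_mk, smul_eq_mul]
  by_cases hm : m = 0
  · rw [if_pos hm, if_pos hm]
    rfl
  · rw [if_neg hm, if_neg hm, show bernoulli 2 = 1 / 6 by decide +kernel]
    congr 1
    push_cast
    norm_num

end HK70B

open HK70B in
theorem t_BAS : S_BAS :=
  ⟨fun _ _ hg => pr_weak hg, pr_P, fun _ _ _ h => qexp_dbl h, qexp_E2⟩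

end

end Pool.Agent.HS37.CQ
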