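import Pool.Agent.HS37.CQ.TRC

/-!
# Project CQ, piece INR1 (helper41)
-/

set_option autoImplicit false

open UpperHalfPlane ModularForm ModularFormClass MatrixGroups EisensteinSeries Complex
open Pool.Agent.HS37.SP

namespace Pool.Agent.HS37.CQ

/-- The expansion of the Hecke sum of prime index, for series without poles, explicitly. -/
lemma hq_prime0 {p : ℕ} (hp : p.Prime) (κ : ℤ) (B : ℍ → ℂ) (b : PowerSeries ℂ)
    (hB : QExp B 0 b) : QExp (hsum κ p B) 0 (vps p b + PowerSeries.C ((p : ℂ) ^ (1 - κ)) *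
      PowerSeries.mk fun n : ℕ => PowerSeries.coeff (p * n) b) := by
  have hp0 : (p : ℤ) ≠ 0 := by exact_mod_cast hp.ne_zero
  have h1 := t_HQ κ B 0 p b hp.pos hB
  rw [mul_zero] at h1
  convert h1 using 1
  ext n
  rw [map_add, PowerSeries.coeff_C_mul, PowerSeries.coeff_mk, PowerSeries.coeff_mk,
    prime_antidiag hp, Finset.sum_pair (by
      intro h
      exact hp.one_lt.ne (congrArg Prod.fst h))]
  rw [add_comm]
  congr 1
  · simp only [Nat.cast_one, one_dvd, true_and, Int.ediv_one]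
    have h2 : ((0 : ℕ) : ℤ) + p * ((n : ℤ) - p * ((0 : ℕ) : ℤ)) = ((p * n : ℕ) : ℤ) := by
      push_cast
      ring
    rw [h2, Int.toNat_natCast, if_pos (by omega)]
  · rw [vps, PowerSeries.coeff_mk]
    simp only [Nat.cast_one, one_zpow, one_mul]
    have h2 : (p : ℤ) ∣ (n : ℤ) - p * ((0 : ℕ) : ℤ) ↔ p ∣ n := by
      rw [dvd_sub_left (dvd_mul_right _ _)]
      exact Int.natCast_dvd_natCast
    by_cases h3 : p ∣ n
    · obtain ⟨m, rfl⟩ := h3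
      have h4 : (((p * m : ℕ) : ℤ) - p * ((0 : ℕ) : ℤ)) / p = (m : ℤ) := by
        rw [Nat.cast_mul, Nat.cast_zero, mul_zero, sub_zero]
        exact Int.mul_ediv_cancel_left _ hp0
      rw [h4, if_pos (dvd_mul_right _ _), Nat.mul_div_cancel_left _ hp.pos,
        if_pos ⟨h2.2 (dvd_mul_right _ _), by omega⟩]
      congr 1
      simp
    · rw [if_neg h3, if_neg fun h => h3 (h2.1 h.1)]

lemma qconst (z : ℂ) : QExp (fun _ => z) 0 (PowerSeries.C z) := by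
  intro τ
  have h := hasSum_single (f := fun i : ℕ => PowerSeries.coeff i (PowerSeries.C z) * qq τ ^ i) 0
    (fun i hi => by rw [PowerSeries.coeff_C, if_neg hi, zero_mul])
  simpa using h

lemma qpow {g : ℍ → ℂ} {e : ℕ} {c : PowerSeries ℂ} (h : QExp g e c) (n : ℕ) :
    QExp (fun τ => g τ ^ n) (n * e) (c ^ n) := by
  induction n with
  | zero =>
    simp only [pow_zero, zero_mul]
    have := qconst 1
    rwa [map_one] at this
  | succ n ih =>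
    have h1 := t_QMUL.1 _ _ _ _ _ _ ih h
    simp only [pow_succ]
    rw [Nat.succ_mul]
    exact h1

lemma qsum {ι : Type} (s : Finset ι) (g : ι → ℍ → ℂ) (e : ℕ) (c : ι → PowerSeries ℂ)
    (h : ∀ i ∈ s, QExp (g i) e (c i)) : QExp (fun τ => ∑ i ∈ s, g i τ) e (∑ i ∈ s, c i) := by
  classical
  induction s using Finset.induction_on with
  | empty =>
    intro τ
    simp only [Finset.sum_empty, map_zero, zero_mul, mul_zero]
    exact hasSum_zero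
  | insert a s ha ih =>
    simp only [Finset.sum_insert ha]
    exact t_QMUL.2.1 _ _ _ _ _ (h a (Finset.mem_insert_self _ _))
      (ih fun i hi => h i (Finset.mem_insert_of_mem hi))

lemma prsum (hCLO : S_CLO) (k : ℤ) (f f' : ℕ → ℍ → ℂ) (N : ℕ)
    (h : ∀ n ≤ N, Pr k (f n) (f' n)) :
    Pr k (fun τ => ∑ n ∈ Finset.range (N + 1), f n τ)
      (fun τ => ∑ n ∈ Finset.range (N + 1), f' n τ) := by
  induction N with
  | zero => simpa using h 0 le_rfl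
  | succ N ih =>
    have h1 := hCLO.2.1 k _ _ _ _ (ih fun n hn => h n (by omega)) (h (N + 1) le_rfl)
    simp only [Finset.sum_range_succ _ (N + 1)]
    exact h1

/-- The form `K = ∑_{n ≤ m} u_n Δ₈^n P^(4(m-n)+2)`. -/
noncomputable def KK (m : ℕ) (τ : ℍ) : ℂ :=
  ∑ n ∈ Finset.range (m + 1), (uu n : ℂ) * (fD τ ^ n * fP τ ^ (2 * (2 * (m - n) + 1)))

lemma KK_pr (hCLO : S_CLO) (hPRE : S_PRE) (hBAS : S_BAS) (m : ℕ) :
    Pr (4 * m + 2) (KK m) (KK m) := by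
  refine prsum hCLO _ (fun n τ => (uu n : ℂ) * (fD τ ^ n * fP τ ^ (2 * (2 * (m - n) + 1))))
    (fun n τ => (uu n : ℂ) * (fD τ ^ n * fP τ ^ (2 * (2 * (m - n) + 1)))) m ?_
  intro n hn
  refine hCLO.2.2.1 _ _ _ _ ?_
  have h1 := hCLO.2.2.2.2.1 _ _ _ n hPRE.2.2.1
  have h2 := hCLO.2.2.2.2.1 _ _ _ (2 * (2 * (m - n) + 1)) hBAS.2.1
  have h3 := hCLO.1 _ _ _ _ _ _ h1 h2
  have h4 : (n : ℤ) * 4 + ((2 * (2 * (m - n) + 1) : ℕ) : ℤ) * 1 = 4 * m + 2 := by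
    push_cast [Nat.cast_sub hn]
    ring
  rw [h4] at h3
  convert h3 using 2
  rw [pow_mul (-fP _), neg_sq, ← pow_mul]

lemma KK_q (hLUC : S_LUC) (hEXP : S_EXP) {m : ℕ} (hp : (4 * m + 3).Prime) :
    ∃ W : PowerSeries ℂ, IsInt W ∧ QExp (KK m) 0 (1 + PowerSeries.C ((4 * m + 3 : ℕ) : ℂ) * W) := by
  obtain ⟨W, hW, h1⟩ := hLUC _ hp (by omega)
  refine ⟨W, hW, ?_⟩
  rw [← h1]
  have h2 : (4 * m + 3) / 4 + 1 = m + 1 := by omega
  rw [h2]
  refine qsum (Finset.range (m + 1)) (fun n τ => (uu n : ℂ) *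
    (fD τ ^ n * fP τ ^ (2 * (2 * (m - n) + 1)))) 0 _ ?_
  intro n hn
  rw [Finset.mem_range] at hn
  have h3 : 4 * m + 3 - 1 - 4 * n = 2 * (2 * (m - n) + 1) := by omega
  rw [h3, mul_assoc]
  refine t_QMUL.2.2.2.1 _ _ _ _ ?_
  have h4 : QExp fD 0 (ce * cs) := t_QMUL.1 _ _ _ _ _ _ hEXP.1 hEXP.2.1
  have h5 := t_QMUL.1 _ _ _ _ _ _ (qpow h4 n) (qpow hEXP.2.2.1 (2 * (2 * (m - n) + 1)))
  rw [mul_zero, mul_zero] at h5
  exact h5

/-- The value of `K` at a point with `P⁴ = c Δ₈`. -/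
lemma KK_val {m : ℕ} {τ : ℍ} {c : ℤ} (h : fP τ ^ 4 = c * fD τ) :
    KK m τ ^ 2 = c * fD τ ^ (2 * m + 1) * (NN m c : ℂ) ^ 2 := by
  have h1 : KK m τ = fP τ ^ 2 * fD τ ^ m * (NN m c : ℂ) := by
    unfold KK NN
    rw [Int.cast_sum, Finset.mul_sum]
    refine Finset.sum_congr rfl fun n hn => ?_
    rw [Finset.mem_range] at hn
    obtain ⟨j, rfl⟩ : ∃ j, m = n + j := ⟨m - n, by omega⟩
    have h2 : n + j - n = j := by omega
    rw [h2]
    have h3 : fP τ ^ (2 * (2 * j + 1)) = (c * fD τ) ^ j * fP τ ^ 2 := by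
      rw [← h]
      ring
    rw [h3]
    push_cast
    ring
  rw [h1]
  have h4 : (fP τ ^ 2 * fD τ ^ m * (NN m c : ℂ)) ^ 2 = fP τ ^ 4 * fD τ ^ (2 * m) * (NN m c : ℂ) ^ 2 := by
    ring
  rw [h4, h]
  ring

theorem t_INR1 (hLUC : S_LUC) (hEVL : S_EVL) (hT3P : S_T3P) (hHK : S_HK2) (hPR2 : S_PR2)
    (hPRE : S_PRE) (hEXP : S_EXP) (hCLO : S_CLO) (hBAS : S_BAS) (hREL : S_REL) : S_INR1 := by
  intro p hp hp4 hp3
  obtain ⟨m, rfl⟩ : ∃ m, p = 4 * m + 3 := ⟨p / 4, by omega⟩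
  have hm : (4 * m + 3) / 4 = m := by omega
  rw [hm]
  obtain ⟨-, -, -, -, -, -, -, he0, hs0⟩ := hREL
  have hD0 : ∀ τ, fD τ ≠ 0 := fun τ => mul_ne_zero (he0 τ) (hs0 τ)
  obtain ⟨W, hW, hK⟩ := KK_q hLUC hEXP hp
  obtain ⟨q, hq⟩ : ∃ q : ℂ, q = ((4 * m + 3 : ℕ) : ℂ) := ⟨_, rfl⟩
  have hq0 : q ≠ 0 := by
    rw [hq]
    exact_mod_cast hp.ne_zero
  rw [← hq] at hK
  have hKp := KK_pr hCLO hPRE hBAS m
  -- the square
  have hK2 := qpow hK 2
  rw [mul_zero] at hK2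
  have hK2p := hCLO.2.2.2.2.1 _ _ _ 2 hKp
  obtain ⟨k, hk⟩ : ∃ k : ℤ, k = ((2 : ℕ) : ℤ) * (4 * m + 2) := ⟨_, rfl⟩
  rw [← hk] at hK2p
  obtain ⟨W', hW'⟩ : ∃ W' : PowerSeries ℂ, W' = 2 * W + PowerSeries.C q * W ^ 2 := ⟨_, rfl⟩
  have hqi : PowerSeries.C q ∈ intR := by
    rw [hq]
    exact_mod_cast isInt_C ((4 * m + 3 : ℕ) : ℤ)
  have h2i : (2 : PowerSeries ℂ) ∈ intR := ofNat_mem intR 2
  have hW'i : W' ∈ intR := by
    rw [hW']
    exact add_mem (mul_mem h2i (isInt_iff.1 hW)) (mul_mem hqi (pow_mem (isInt_iff.1 hW) 2))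
  have hc : (1 + PowerSeries.C q * W) ^ 2 = 1 + PowerSeries.C q * W' := by
    rw [hW']
    ring
  rw [hc] at hK2
  -- the Hecke sum
  have h3p : Nat.Prime 3 := by norm_num
  have hH := hq_prime0 h3p (2 * k) _ _ hK2
  have hHp := hHK k _ _ 3 (by norm_num) (by decide) hK2p
  -- the form G
  obtain ⟨T, hT⟩ : ∃ T : ℂ, T = (3 : ℂ) ^ (16 * m + 7) := ⟨_, rfl⟩
  have hG1 := t_QMUL.2.2.2.1 _ _ _ T (t_QMUL.2.1 _ _ _ _ _ hH (t_QMUL.2.2.2.1 _ _ _ (-4 : ℂ) hK2))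
  have hG1p := hCLO.2.2.1 _ _ _ T (hCLO.2.1 _ _ _ _ _ hHp (hCLO.2.2.1 _ _ _ (-4 : ℂ) hK2p))
  -- divisibility
  have hferm : ∃ z : ℤ, (1 : ℂ) - 3 * T = q * z := by
    have h1 : ((4 * m + 3 : ℕ) : ℤ) ∣ 1 - 3 ^ (16 * m + 8) := by
      have h2 : (3 : ℤ) ^ ((4 * m + 3) - 1) ≡ 1 [ZMOD ((4 * m + 3 : ℕ) : ℤ)] := by
        refine Int.ModEq.pow_card_sub_one_eq_one hp ?_
        rw [Int.isCoprime_iff_gcd_eq_one]
        have h3 : Nat.Coprime 3 (4 * m + 3) := by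
          rw [Nat.coprime_primes h3p hp]
          omega
        exact_mod_cast h3
      have h3 : (3 : ℤ) ^ (16 * m + 8) ≡ 1 [ZMOD ((4 * m + 3 : ℕ) : ℤ)] := by
        have h4 : 16 * m + 8 = ((4 * m + 3) - 1) * 4 := by omega
        rw [h4, pow_mul]
        simpa using h2.pow 4
      exact h3.dvd
    obtain ⟨z, hz⟩ := h1
    refine ⟨z, ?_⟩
    rw [hT, hq, show (3 : ℂ) * 3 ^ (16 * m + 7) = 3 ^ (16 * m + 8) by ring]
    have := congrArg (Int.cast : ℤ → ℂ) hz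
    push_cast at this ⊢
    exact this
  obtain ⟨z0, hz0⟩ := hferm
  have hser : ∃ g1 : PowerSeries ℂ, IsInt g1 ∧ PowerSeries.C T *
      (vps 3 (1 + PowerSeries.C q * W') + PowerSeries.C (((3 : ℕ) : ℂ) ^ (1 - 2 * k)) *
        (PowerSeries.mk fun n : ℕ => PowerSeries.coeff (3 * n) (1 + PowerSeries.C q * W')) +
      PowerSeries.C (-4 : ℂ) * (1 + PowerSeries.C q * W')) = PowerSeries.C q * g1 := by
    obtain ⟨V, hV⟩ : ∃ V : PowerSeries ℂ, V = PowerSeries.mk fun n : ℕ =>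
      PowerSeries.coeff (3 * n) W' := ⟨_, rfl⟩
    have hVi : V ∈ intR := by
      rw [← isInt_iff]
      intro n
      rw [hV, PowerSeries.coeff_mk]
      exact isInt_iff.2 hW'i _
    have hvi : vps 3 W' ∈ intR := by
      rw [← isInt_iff]
      intro n
      rw [vps, PowerSeries.coeff_mk]
      split_ifs
      · exact isInt_iff.2 hW'i _
      · exact ⟨0, by simp⟩
    have hTi : PowerSeries.C T ∈ intR := by
      rw [hT]
      have := isInt_C (3 ^ (16 * m + 7))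
      push_cast at this
      exact this
    have e1 : vps 3 (1 + PowerSeries.C q * W') = 1 + PowerSeries.C q * vps 3 W' := by
      ext n
      rw [map_add, PowerSeries.coeff_C_mul, vps, vps, PowerSeries.coeff_mk, PowerSeries.coeff_mk,
        PowerSeries.coeff_one]
      split_ifs with h1 h2
      · subst h2
        simp
      · rw [map_add, PowerSeries.coeff_C_mul, PowerSeries.coeff_one, if_neg (by omega)]
      · exfalso
        exact h1 (by simp_all)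
      · simp
    have e2 : (PowerSeries.mk fun n : ℕ => PowerSeries.coeff (3 * n) (1 + PowerSeries.C q * W')) =
        1 + PowerSeries.C q * V := by
      ext n
      rw [map_add, PowerSeries.coeff_C_mul, hV, PowerSeries.coeff_mk, PowerSeries.coeff_mk,
        map_add, PowerSeries.coeff_C_mul, PowerSeries.coeff_one, PowerSeries.coeff_one]
      congr 1
      by_cases h : n = 0
      · subst h
        simp
      · rw [if_neg h, if_neg (by omega)]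
    have e3 : T * ((3 : ℕ) : ℂ) ^ (1 - 2 * k) = 1 := by
      rw [hT, hk]
      have : (1 - 2 * (((2 : ℕ) : ℤ) * (4 * (m : ℤ) + 2))) = -((16 * m + 7 : ℕ) : ℤ) := by
        push_cast
        ring
      rw [this, _root_.zpow_neg, zpow_natCast]
      push_cast
      exact mul_inv_cancel₀ (pow_ne_zero _ (by norm_num))
    have e3' : PowerSeries.C T * PowerSeries.C (((3 : ℕ) : ℂ) ^ (1 - 2 * k)) = 1 := by
      rw [← map_mul, e3, map_one]
    have e4 : (1 : PowerSeries ℂ) - 3 * PowerSeries.C T = PowerSeries.C q * PowerSeries.C (z0 : ℂ) := by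
      rw [← map_mul, ← hz0, map_sub, map_mul, map_one, map_ofNat]
    have e5 : PowerSeries.C (-4 : ℂ) = (-4 : PowerSeries ℂ) := by
      rw [map_neg, map_ofNat]
    refine ⟨PowerSeries.C (z0 : ℂ) + PowerSeries.C T * vps 3 W' + V - 4 * PowerSeries.C T * W', ?_, ?_⟩
    · rw [isInt_iff]
      have h4i : (4 : PowerSeries ℂ) ∈ intR := ofNat_mem intR 4
      exact sub_mem (add_mem (add_mem (isInt_C z0) (mul_mem hTi hvi)) hVi)
        (mul_mem (mul_mem h4i hTi) hW'i)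
    · rw [e1, e2, e5]
      linear_combination (1 + PowerSeries.C q * V) * e3' + e4
  obtain ⟨g1, hg1, hser⟩ := hser
  rw [hser] at hG1
  have hG2 := t_QMUL.2.2.2.1 _ _ _ q⁻¹ hG1
  have hG2p := hCLO.2.2.1 _ _ _ q⁻¹ hG1p
  rw [← mul_assoc, ← map_mul, inv_mul_cancel₀ hq0, map_one, one_mul] at hG2
  -- the inverse of Δ₈
  obtain ⟨c1, hc1, hc1i, -, -⟩ := hPRE.2.2.2.2.2.1
  obtain ⟨c2, hc2, hc2i, -, -⟩ := hPRE.2.2.2.2.2.2.1
  have hDi := qpow (t_QMUL.1 _ _ _ _ _ _ hc1 hc2) (2 * m + 1)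
  have hDip := hCLO.2.2.2.2.1 _ _ _ (2 * m + 1) (hCLO.2.2.2.2.2.1 _ _ _ hPRE.2.2.1 hD0 hD0)
  have hF := t_QMUL.1 _ _ _ _ _ _ hG2 hDi
  have hFp := hCLO.1 _ _ _ _ _ _ hG2p hDip
  have hk0 : k + ((2 * m + 1 : ℕ) : ℤ) * -4 = 0 := by
    rw [hk]
    push_cast
    ring
  rw [hk0] at hFp
  have hint : IsInt (g1 * (c1 * c2) ^ (2 * m + 1)) :=
    isInt_iff.2 (mul_mem (isInt_iff.1 hg1)
      (pow_mem (mul_mem (isInt_iff.1 hc1i) (isInt_iff.1 hc2i)) _))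
  have hfun : (fun τ => q⁻¹ * (T * (hsum (2 * k) 3 (fun τ => KK m τ ^ 2) τ + -4 * KK m τ ^ 2)) *
      ((fe τ)⁻¹ * (fs τ)⁻¹) ^ (2 * m + 1)) = fun τ =>
      q⁻¹ * (T * (hsum (2 * k) 3 (fun τ => KK m τ ^ 2) τ + -4 * KK m τ ^ 2)) *
      (fD τ)⁻¹ ^ (2 * m + 1) := by
    funext τ
    rw [fD, mul_inv]
  rw [hfun] at hF
  obtain ⟨Q1, Q2, hQ⟩ := hPR2 _ _ _ _ _ _ hFp hF hF (fun i _ => hint i) (fun i _ => hint i)
  have hev := hQ tau0
  obtain ⟨v1, v2, v3, v4⟩ := hEVL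
  have hK0 : KK m tau0 = 0 := by
    unfold KK
    refine Finset.sum_eq_zero fun n _ => ?_
    rw [v4, zero_pow (by omega), mul_zero, mul_zero]
  have hKX := KK_val (m := m) (τ := tauX) (c := -12288) (by
    rw [v1, fD]
    push_cast
    ring)
  have hHs : hsum (2 * k) 3 (fun τ => KK m τ ^ 2) tau0 = 4 * KK m tauX ^ 2 := by
    unfold hsum
    rw [Finset.sum_congr rfl fun t ht => hT3P.1 k (fun τ => KK m τ ^ 2) (by rw [hk]; push_cast; omega)
      hK2p t ht, Finset.sum_const, hT3P.2.2]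
    simp
  simp only [hHs, hK0, v3] at hev
  have h64 : (4096 : ℂ) / -64 = -64 := by norm_num
  rw [h64] at hev
  obtain ⟨z, hz⟩ : ∃ z : ℤ, Polynomial.aeval (-64 : ℂ) Q1 + Polynomial.aeval (-64 : ℂ) Q2 = z := by
    refine ⟨Polynomial.eval (-64) Q1 + Polynomial.eval (-64) Q2, ?_⟩
    have h : ∀ Q : Polynomial ℤ, Polynomial.aeval (-64 : ℂ) Q = ((Polynomial.eval (-64) Q : ℤ) : ℂ) := by
      intro Q
      have := Polynomial.aeval_algebraMap_apply ℂ (-64 : ℤ) Q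
      simp only [algebraMap_int_eq, eq_intCast, Int.cast_neg, Int.cast_ofNat] at this
      rw [this, Polynomial.coe_aeval_eq_eval]
    rw [h, h]
    push_cast
    rfl
  rw [hz, hKX, v2] at hev
  have hX := hD0 tauX
  have key : (4 : ℂ) * (-12288) * 3 ^ (4 * m + 1) * (NN m (-12288) : ℂ) ^ 2 = q * z := by
    rw [← hev, hT]
    have h1 : (729 : ℂ) = 3 ^ 6 := by norm_num
    rw [h1, mul_inv, mul_pow, inv_pow, inv_pow, ← pow_mul]
    have h2 : (3 : ℂ) ^ (16 * m + 7) = 3 ^ (4 * m + 1) * 3 ^ (6 * (2 * m + 1)) := by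
      rw [← pow_add]
      congr 1
      ring
    rw [h2]
    have h3 : (3 : ℂ) ^ (6 * (2 * m + 1)) ≠ 0 := pow_ne_zero _ (by norm_num)
    have h4 : fD tauX ^ (2 * m + 1) ≠ 0 := pow_ne_zero _ hX
    push_cast
    field_simp
    ring
  have key' : (4 : ℤ) * (-12288) * 3 ^ (4 * m + 1) * (NN m (-12288)) ^ 2 =
      ((4 * m + 3 : ℕ) : ℤ) * z := by
    rw [hq] at key
    exact_mod_cast key
  have hpp : Prime (((4 * m + 3 : ℕ) : ℤ)) := Nat.prime_iff_prime_int.1 hp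
  have hdvd : ((4 * m + 3 : ℕ) : ℤ) ∣ (4 : ℤ) * (-12288) * 3 ^ (4 * m + 1) * (NN m (-12288)) ^ 2 :=
    ⟨z, key'⟩
  rcases hpp.dvd_or_dvd hdvd with h | h
  · exfalso
    have h2 : ¬ ((4 * m + 3 : ℕ) : ℤ) ∣ 2 := by
      intro h
      have := Int.le_of_dvd (by norm_num) h
      omega
    have h3 : ¬ ((4 * m + 3 : ℕ) : ℤ) ∣ 3 := by
      intro h
      have := Int.le_of_dvd (by norm_num) h
      omega
    have e : (4 : ℤ) * (-12288) * 3 ^ (4 * m + 1) = -(2 ^ 14 * 3 ^ (4 * m + 2)) := by ring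
    rw [e, dvd_neg] at h
    rcases hpp.dvd_or_dvd h with h | h
    · exact h2 (hpp.dvd_of_dvd_pow h)
    · exact h3 (hpp.dvd_of_dvd_pow h)
  · exact hpp.dvd_of_dvd_pow h

end Pool.Agent.HS37.CQ
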