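import Pool.Agent.HS37.CQ.Stm
import Pool.Agent.HS37.SP.Mom

/-!
# Project CQ, piece INTL: the integrality lemma
-/

set_option autoImplicit false

open UpperHalfPlane Pool.Agent.HS37.SP

namespace Pool.Agent.HS37.CQ

namespace INTLP

lemma pr_cast {k l : ℤ} {g g' : ℍ → ℂ} (h : Pr k g g') (e : k = l) : Pr l g g' := e ▸ h

lemma pr_prod (hC : S_CLO) {ι : Type} (s : Finset ι) (k : ι → ℤ) (g g' : ι → ℍ → ℂ)
    (h : ∀ i ∈ s, Pr (k i) (g i) (g' i)) :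
    Pr (∑ i ∈ s, k i) (fun τ => ∏ i ∈ s, g i τ) (fun τ => ∏ i ∈ s, g' i τ) := by
  classical
  induction s using Finset.induction_on with
  | empty =>
    simp only [Finset.sum_empty, Finset.prod_empty]
    exact hC.2.2.2.1 1
  | insert a s ha ih =>
    have h1 := hC.1 _ _ _ _ _ _ (h a (Finset.mem_insert_self a s))
      (ih fun i hi => h i (Finset.mem_insert_of_mem hi))
    simp only [Finset.sum_insert ha, Finset.prod_insert ha]
    exact h1

lemma pr_sum (hC : S_CLO) {ι : Type} (s : Finset ι) (g g' : ι → ℍ → ℂ)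
    (h : ∀ i ∈ s, Pr 0 (g i) (g' i)) :
    Pr 0 (fun τ => ∑ i ∈ s, g i τ) (fun τ => ∑ i ∈ s, g' i τ) := by
  classical
  induction s using Finset.induction_on with
  | empty =>
    simp only [Finset.sum_empty]
    exact hC.2.2.2.1 0
  | insert a s ha ih =>
    have h1 := hC.2.1 _ _ _ _ _ (h a (Finset.mem_insert_self a s))
      (ih fun i hi => h i (Finset.mem_insert_of_mem hi))
    simp only [Finset.sum_insert ha]
    exact h1

lemma qx_cast {g : ℍ → ℂ} {e e' : ℕ} {c c' : PowerSeries ℂ} (h : QExp g e c) (he : e = e')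
    (hc : c = c') : QExp g e' c' := by
  subst he
  subst hc
  exact h

lemma qx_prod {ι : Type} (s : Finset ι) (g : ι → ℍ → ℂ) (e : ι → ℕ) (c : ι → PowerSeries ℂ)
    (h : ∀ i ∈ s, QExp (g i) (e i) (c i)) :
    QExp (fun τ => ∏ i ∈ s, g i τ) (∑ i ∈ s, e i) (∏ i ∈ s, c i) := by
  classical
  induction s using Finset.induction_on with
  | empty =>
    simp only [Finset.sum_empty, Finset.prod_empty]
    exact qexp_one
  | insert a s ha ih =>
    have h1 := t_QMUL.1 _ _ _ _ _ _ (h a (Finset.mem_insert_self a s))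
      (ih fun i hi => h i (Finset.mem_insert_of_mem hi))
    simp only [Finset.sum_insert ha, Finset.prod_insert ha]
    exact h1

lemma qx_zero (e : ℕ) : QExp (fun _ => 0) e 0 := by
  intro τ
  simp only [map_zero, zero_mul, mul_zero]
  exact hasSum_zero

lemma qx_sum {ι : Type} (s : Finset ι) (g : ι → ℍ → ℂ) (e : ℕ) (c : ι → PowerSeries ℂ)
    (h : ∀ i ∈ s, QExp (g i) e (c i)) :
    QExp (fun τ => ∑ i ∈ s, g i τ) e (∑ i ∈ s, c i) := by
  classical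
  induction s using Finset.induction_on with
  | empty =>
    simp only [Finset.sum_empty]
    exact qx_zero e
  | insert a s ha ih =>
    have h1 := t_QMUL.2.1 _ _ _ _ _ (h a (Finset.mem_insert_self a s))
      (ih fun i hi => h i (Finset.mem_insert_of_mem hi))
    simp only [Finset.sum_insert ha]
    exact h1

lemma vps_eq {p : ℕ} (hp : p ≠ 0) (c : PowerSeries ℂ) : vps p c = PowerSeries.expand p hp c := by
  ext n
  rw [PowerSeries.coeff_expand, vps, PowerSeries.coeff_mk]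

lemma vps_prod {p : ℕ} (hp : p ≠ 0) {ι : Type} (s : Finset ι) (c : ι → PowerSeries ℂ) :
    vps p (∏ i ∈ s, c i) = ∏ i ∈ s, vps p (c i) := by
  rw [vps_eq hp, map_prod]
  exact Finset.prod_congr rfl fun i _ => (vps_eq hp _).symm

/-- the value of a product of functions -/
lemma val_prod {m : ℕ} (k : Fin m → ℤ) (g : Fin m → ℍ → ℂ) {A : Matrix (Fin 2) (Fin 2) ℤ}
    (hA : 0 < A.det) (τ : ℍ) (s : Finset (Fin m)) :
    val (2 * ∑ j ∈ s, k j) (fun z => ∏ j ∈ s, g j z) A τ =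
      ∏ j ∈ s, val (2 * k j) (g j) A τ := by
  classical
  induction s using Finset.induction_on with
  | empty => simp [val]
  | insert a s ha ih =>
    simp only [Finset.sum_insert ha, Finset.prod_insert ha]
    rw [← ih, ← val_mul _ _ hA τ, mul_add]

/-- polynomials in a pair of weight zero -/
lemma pr_poly (hC : S_CLO) {u v : ℍ → ℂ} (h : Pr 0 u v) (Q : Polynomial ℤ) :
    Pr 0 (fun τ => Polynomial.aeval (u τ) Q) (fun τ => Polynomial.aeval (v τ) Q) := by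
  have e : ∀ w : ℂ, Polynomial.aeval w Q =
      ∑ i ∈ Finset.range (Q.natDegree + 1), ((Q.coeff i : ℤ) : ℂ) * w ^ i := by
    intro w
    rw [Polynomial.aeval_eq_sum_range]
    exact Finset.sum_congr rfl fun i _ => by rw [zsmul_eq_mul]
  simp only [e]
  refine pr_sum hC _ _ _ fun i _ => hC.2.2.1 _ _ _ _ ?_
  exact pr_cast (hC.2.2.2.2.1 _ _ _ i h) (by simp)

lemma int_poly {u : ℂ} (hu : IsIntegral ℤ u) (Q : Polynomial ℤ) :
    IsIntegral ℤ (Polynomial.aeval u Q) := by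
  rw [Polynomial.aeval_eq_sum_range]
  refine IsIntegral.sum _ fun i _ => ?_
  rw [zsmul_eq_mul]
  exact (isIntegral_algebraMap (R := ℤ) (A := ℂ) (x := Q.coeff i)).mul (hu.pow i)

/-- the `X_t` -/
noncomputable def XX {p : ℕ} (k : Fin 3 → ℤ) (ε : Fin 3 → ℕ) (A B : Fin 3 → ℍ → ℂ)
    (t : ℕ × ℕ × ℕ) (τ : ℍ) : ℂ :=
  ∑ i, (p : ℂ) ^ ε i * (A i τ * val (2 * k i) (B i) (mat t) τ)

/-- power sums of the `X_t` -/
lemma pow_XX {p : ℕ} (hp : 0 < p) (k : Fin 3 → ℤ) (ε : Fin 3 → ℕ) (A B : Fin 3 → ℍ → ℂ) (m : ℕ)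
    (τ : ℍ) :
    ∑ t ∈ reps p, XX (p := p) k ε A B t τ ^ m =
      ∑ f : Fin m → Fin 3, (p : ℂ) ^ (∑ j, ε (f j)) * ((∏ j, A (f j) τ) *
        hsum (2 * ∑ j, k (f j)) p (fun z => ∏ j, B (f j) z) τ) := by
  have h1 : ∀ t ∈ reps p, XX (p := p) k ε A B t τ ^ m =
      ∑ f : Fin m → Fin 3, (p : ℂ) ^ (∑ j, ε (f j)) * ((∏ j, A (f j) τ) *
        val (2 * ∑ j, k (f j)) (fun z => ∏ j, B (f j) z) (mat t) τ) := by
    intro t ht
    have hd : 0 < (mat t).det := by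
      rw [det_mat_of_mem hp ht]
      exact_mod_cast hp
    have h2 : XX (p := p) k ε A B t τ ^ m = ∏ _j : Fin m, XX (p := p) k ε A B t τ := by
      rw [Finset.prod_const, Finset.card_univ, Fintype.card_fin]
    rw [h2]
    unfold XX
    rw [Finset.prod_univ_sum]
    rw [Fintype.piFinset_univ]
    refine Finset.sum_congr rfl fun f _ => ?_
    rw [val_prod (fun j => k (f j)) (fun j => B (f j)) hd τ Finset.univ,
      Finset.prod_mul_distrib, Finset.prod_mul_distrib, Finset.prod_pow_eq_pow_sum]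
  rw [Finset.sum_congr rfl h1, Finset.sum_comm]
  refine Finset.sum_congr rfl fun f _ => ?_
  rw [← Finset.mul_sum, ← Finset.mul_sum]
  rfl

/-- the power sums are a pair of weight zero -/
lemma pr_XX (hT : S_TRC) (hC : S_CLO) {p : ℕ} (hp : p.Prime) (hp2 : p ≠ 2) (k : Fin 3 → ℤ)
    (ε : Fin 3 → ℕ)
    (A A' B B' : Fin 3 → ℍ → ℂ) (hA : ∀ i, Pr (-(k i)) (A i) (A' i))
    (hB : ∀ i, Pr (k i) (B i) (B' i)) (m : ℕ) :
    Pr 0 (fun τ => ∑ f : Fin m → Fin 3,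
        (p : ℂ) ^ (∑ j, ε (f j)) * ((∏ j, A (f j) τ) *
        hsum (2 * ∑ j, k (f j)) p (fun z => ∏ j, B (f j) z) τ))
      (fun τ => ∑ f : Fin m → Fin 3,
        (p : ℂ) ^ (∑ j, ε (f j)) * ((∏ j, A' (f j) τ) *
        hsum (2 * ∑ j, k (f j)) p (fun z => ∏ j, B' (f j) z) τ)) := by
  refine pr_sum hC _ _ _ fun f _ => hC.2.2.1 _ _ _ _ ?_
  have hPA : Pr (-(∑ j, k (f j))) (fun τ => ∏ j, A (f j) τ) (fun τ => ∏ j, A' (f j) τ) :=
    pr_cast (pr_prod hC Finset.univ (fun j => -(k (f j))) (fun j => A (f j)) (fun j => A' (f j))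
      fun j _ => hA _) (by rw [Finset.sum_neg_distrib])
  have hPB : Pr (∑ j, k (f j)) (fun τ => ∏ j, B (f j) τ) (fun τ => ∏ j, B' (f j) τ) :=
    pr_prod hC Finset.univ (fun j => k (f j)) (fun j => B (f j)) (fun j => B' (f j))
      fun j _ => hB _
  exact (hT p hp hp2 _ _ _ _ _ hPA hPB).1

/-- the expansion of the power sums, one cusp -/
lemma exp_XX (hT : S_TRC) (hC : S_CLO) {p : ℕ} (hp : p.Prime) (hp2 : p ≠ 2) (k : Fin 3 → ℤ)
    (ε : Fin 3 → ℕ)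
    (A A' B B' : Fin 3 → ℍ → ℂ) (hA : ∀ i, Pr (-(k i)) (A i) (A' i))
    (hB : ∀ i, Pr (k i) (B i) (B' i)) (hk : ∀ i, 2 + 2 * k i ≤ ε i)
    (x y : Fin 3 → ℕ) (a b : Fin 3 → PowerSeries ℂ) (hqa : ∀ i, QExp (A i) (x i) (a i))
    (hqb : ∀ i, QExp (B i) (y i) (b i)) (ha : ∀ i, IsInt (a i)) (hb : ∀ i, IsInt (b i))
    (R : ℕ) (hR : ∀ i, x i + p * y i = R) (m : ℕ) :
    ∃ r : PowerSeries ℂ, IsInt r ∧ QExp (fun τ => ∑ f : Fin m → Fin 3,
        (p : ℂ) ^ (∑ j, ε (f j)) * ((∏ j, A (f j) τ) *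
        hsum (2 * ∑ j, k (f j)) p (fun z => ∏ j, B (f j) z) τ)) (m * R)
      ((∑ i, PowerSeries.C ((p : ℂ) ^ ε i) * (a i * vps p (b i))) ^ m +
        PowerSeries.C ((p : ℂ) ^ (2 * m)) * r) := by
  have hp0 : (p : ℂ) ≠ 0 := by exact_mod_cast hp.ne_zero
  have h1 : ∀ f : Fin m → Fin 3, ∃ r : PowerSeries ℂ, IsInt r ∧
      QExp (fun τ => (p : ℂ) ^ (∑ j, ε (f j)) * ((∏ j, A (f j) τ) *
        hsum (2 * ∑ j, k (f j)) p (fun z => ∏ j, B (f j) z) τ)) (m * R)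
      ((∏ j, (PowerSeries.C ((p : ℂ) ^ ε (f j)) * (a (f j) * vps p (b (f j))))) +
        PowerSeries.C ((p : ℂ) ^ (2 * m)) * r) := by
    intro f
    have hPA : Pr (-(∑ j, k (f j))) (fun τ => ∏ j, A (f j) τ) (fun τ => ∏ j, A' (f j) τ) :=
      pr_cast (pr_prod hC Finset.univ (fun j => -(k (f j))) (fun j => A (f j)) (fun j => A' (f j))
        fun j _ => hA _) (by rw [Finset.sum_neg_distrib])
    have hPB : Pr (∑ j, k (f j)) (fun τ => ∏ j, B (f j) τ) (fun τ => ∏ j, B' (f j) τ) :=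
      pr_prod hC Finset.univ (fun j => k (f j)) (fun j => B (f j)) (fun j => B' (f j))
        fun j _ => hB _
    have hxa : QExp (fun τ => ∏ j, A (f j) τ) (∑ j, x (f j)) (∏ j, a (f j)) :=
      qx_prod Finset.univ (fun j => A (f j)) _ _ fun j _ => hqa _
    have hxb : QExp (fun τ => ∏ j, B (f j) τ) (∑ j, y (f j)) (∏ j, b (f j)) :=
      qx_prod Finset.univ (fun j => B (f j)) _ _ fun j _ => hqb _
    have hia : IsInt (∏ j, a (f j)) :=
      isInt_iff.2 (Subring.prod_mem _ fun j _ => isInt_iff.1 (ha _))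
    have hib : IsInt (∏ j, b (f j)) :=
      isInt_iff.2 (Subring.prod_mem _ fun j _ => isInt_iff.1 (hb _))
    obtain ⟨r, hr, hq⟩ := (hT p hp hp2 _ _ _ _ _ hPA hPB).2 _ _ _ _ hxa hxb hia hib
    have hR' : ∑ j, x (f j) + p * ∑ j, y (f j) = m * R := by
      rw [Finset.mul_sum, ← Finset.sum_add_distrib, Finset.sum_congr rfl fun j _ => hR (f j),
        Finset.sum_const, Finset.card_univ, Fintype.card_fin, smul_eq_mul]
    -- the exponent
    obtain ⟨N, hN⟩ : ∃ N : ℕ, ((∑ j, ε (f j) : ℕ) : ℤ) + (1 - 2 * ∑ j, k (f j)) =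
        ((2 * m : ℕ) : ℤ) + (N : ℕ) := by
      have h3 : ((2 * m : ℕ) : ℤ) ≤ ((∑ j, ε (f j) : ℕ) : ℤ) - 2 * ∑ j, k (f j) := by
        have h4 : ∑ _j : Fin m, (2 : ℤ) ≤ ∑ j : Fin m, ((ε (f j) : ℤ) - 2 * k (f j)) :=
          Finset.sum_le_sum fun j _ => by have := hk (f j); omega
        rw [Finset.sum_const, Finset.card_univ, Fintype.card_fin, Finset.sum_sub_distrib,
          ← Finset.mul_sum, nsmul_eq_mul] at h4
        push_cast
        linarith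
      exact ⟨(((∑ j, ε (f j) : ℕ) : ℤ) + (1 - 2 * ∑ j, k (f j)) - ((2 * m : ℕ) : ℤ)).toNat, by omega⟩
    refine ⟨PowerSeries.C (((p : ℤ) ^ N : ℤ) : ℂ) * r, isInt_iff.2 (mul_mem (isInt_C _)
      (isInt_iff.1 hr)), ?_⟩
    refine qx_cast (t_QMUL.2.2.2.1 _ _ _ ((p : ℂ) ^ (∑ j, ε (f j))) hq) hR' ?_
    rw [vps_prod hp.ne_zero, mul_add, Finset.prod_mul_distrib, Finset.prod_mul_distrib,
      ← map_prod, Finset.prod_pow_eq_pow_sum]
    congr 1
    rw [← mul_assoc, ← mul_assoc, ← map_mul, ← map_mul]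
    congr 2
    rw [← zpow_natCast (p : ℂ) (∑ j, ε (f j)), ← zpow_add₀ hp0, hN, zpow_add₀ hp0, zpow_natCast,
      zpow_natCast]
    push_cast
    rfl
  choose r hr hq using h1
  refine ⟨∑ f, r f, isInt_iff.2 (Subring.sum_mem _ fun f _ => isInt_iff.1 (hr f)), ?_⟩
  refine qx_cast (qx_sum Finset.univ _ _ _ fun f _ => hq f) rfl ?_
  rw [Finset.sum_add_distrib, ← Finset.mul_sum]
  congr 1
  have h2 : (∑ i, PowerSeries.C ((p : ℂ) ^ ε i) * (a i * vps p (b i))) ^ m =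
      ∏ _j : Fin m, ∑ i, PowerSeries.C ((p : ℂ) ^ ε i) * (a i * vps p (b i)) := by
    rw [Finset.prod_const, Finset.card_univ, Fintype.card_fin]
  rw [h2, Finset.prod_univ_sum, Fintype.piFinset_univ]

/-- low coefficients of the expansion -/
lemma low_coeff {p : ℕ} (hp : p.Prime) {Y r : PowerSeries ℂ} (hr : IsInt r) {S m : ℕ}
    (hY : ∀ n < S, PowerSeries.coeff n Y = 0) (n : ℕ) (hn : n < m * S) :
    ∃ z : ℤ, PowerSeries.coeff n (PowerSeries.C (((p : ℂ) ^ (2 * m))⁻¹) *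
      (Y ^ m + PowerSeries.C ((p : ℂ) ^ (2 * m)) * r)) = z := by
  have hp0 : (p : ℂ) ≠ 0 := by exact_mod_cast hp.ne_zero
  obtain ⟨z, hz⟩ := hr n
  refine ⟨z, ?_⟩
  have h1 : PowerSeries.X ^ S ∣ Y := PowerSeries.X_pow_dvd_iff.2 hY
  have h2 : PowerSeries.X ^ (m * S) ∣ Y ^ m := by
    rw [mul_comm, pow_mul]
    exact pow_dvd_pow_of_dvd h1 m
  have h3 := PowerSeries.X_pow_dvd_iff.1 h2 n hn
  rw [PowerSeries.coeff_C_mul, map_add, h3, PowerSeries.coeff_C_mul, zero_add, ← mul_assoc,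
    inv_mul_cancel₀ (pow_ne_zero _ hp0), one_mul, hz]

end INTLP

open INTLP in
theorem t_INTL (hT : S_TRC) (hG : S_GEX) (hP2 : S_PR2) (hPS : S_PSM) (hC : S_CLO) (hP : S_PRE) :
    S_INTL := by
  intro p hp hp2 k A A' B B' a a' b b' M hk hA hB hqA hqA' hqB hqB' hia hia' hib hib' hY hY' τ
    hh hh' t ht
  have hp0 : (p : ℂ) ≠ 0 := by exact_mod_cast hp.ne_zero
  choose! z hz using hY
  choose! z' hz' using hY'
  obtain ⟨G₁, G₂, g, g', hqg, hqg', hig, hig', hcg, hcg'⟩ := hG M p z z'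
  have hPG : Pr 0 (fun τ => Polynomial.aeval (fh τ) G₁ + Polynomial.aeval (4096 / fh τ) G₂)
      (fun τ => Polynomial.aeval (4096 / fh τ) G₁ + Polynomial.aeval (fh τ) G₂) :=
    hC.2.1 _ _ _ _ _ (pr_poly hC hP.2.2.2.1 G₁)
      (pr_poly hC (hC.2.2.2.2.2.2 _ _ _ hP.2.2.2.1) G₂)
  set G : ℍ → ℂ := fun τ => Polynomial.aeval (fh τ) G₁ + Polynomial.aeval (4096 / fh τ) G₂ with hGd
  set G' : ℍ → ℂ := fun τ => Polynomial.aeval (4096 / fh τ) G₁ + Polynomial.aeval (fh τ) G₂ with hGd'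
  -- the three terms
  let k3 : Fin 3 → ℤ := ![k 0, k 1, 0]
  let ε : Fin 3 → ℕ := ![0, 0, 2]
  let A3 : Fin 3 → ℍ → ℂ := ![A 0, A 1, fun τ => (-1) * G τ]
  let A3' : Fin 3 → ℍ → ℂ := ![A' 0, A' 1, fun τ => (-1) * G' τ]
  let B3 : Fin 3 → ℍ → ℂ := ![B 0, B 1, fun _ => 1]
  let B3' : Fin 3 → ℍ → ℂ := ![B' 0, B' 1, fun _ => 1]
  let a3 : Fin 3 → PowerSeries ℂ := ![a 0, a 1, PowerSeries.C (-1 : ℂ) * g]
  let a3' : Fin 3 → PowerSeries ℂ := ![a' 0, a' 1, PowerSeries.C (-1 : ℂ) * g']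
  let b3 : Fin 3 → PowerSeries ℂ := ![b 0, b 1, 1]
  let b3' : Fin 3 → PowerSeries ℂ := ![b' 0, b' 1, 1]
  have hm1 : PowerSeries.C (-1 : ℂ) ∈ intR := by simp
  have hA3 : ∀ i, Pr (-(k3 i)) (A3 i) (A3' i) := by
    intro i
    fin_cases i
    · exact hA 0
    · exact hA 1
    · exact pr_cast (hC.2.2.1 _ _ _ (-1) hPG) (by simp [k3])
  have hB3 : ∀ i, Pr (k3 i) (B3 i) (B3' i) := by
    intro i
    fin_cases i
    · exact hB 0
    · exact hB 1
    · exact hC.2.2.2.1 1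
  have hk3 : ∀ i, 2 + 2 * k3 i ≤ ε i := by
    intro i
    have h0 := hk 0
    have h1 := hk 1
    fin_cases i
    · change 2 + 2 * k 0 ≤ ((0 : ℕ) : ℤ)
      omega
    · change 2 + 2 * k 1 ≤ ((0 : ℕ) : ℤ)
      omega
    · change 2 + 2 * (0 : ℤ) ≤ ((2 : ℕ) : ℤ)
      omega
  have ha3 : ∀ i, IsInt (a3 i) := by
    intro i
    fin_cases i
    · exact hia 0
    · exact hia 1
    · exact isInt_iff.2 (mul_mem hm1 (isInt_iff.1 hig))
  have ha3' : ∀ i, IsInt (a3' i) := by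
    intro i
    fin_cases i
    · exact hia' 0
    · exact hia' 1
    · exact isInt_iff.2 (mul_mem hm1 (isInt_iff.1 hig'))
  have hb3 : ∀ i, IsInt (b3 i) := by
    intro i
    fin_cases i
    · exact hib 0
    · exact hib 1
    · exact isInt_iff.2 (one_mem _)
  have hb3' : ∀ i, IsInt (b3' i) := by
    intro i
    fin_cases i
    · exact hib' 0
    · exact hib' 1
    · exact isInt_iff.2 (one_mem _)
  have hqa3 : ∀ i, QExp (A3 i) ((fun _ => M : Fin 3 → ℕ) i) (a3 i) := by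
    intro i
    fin_cases i
    · exact hqA 0
    · exact hqA 1
    · exact t_QMUL.2.2.2.1 _ _ _ (-1) hqg
  have hqb3 : ∀ i, QExp (B3 i) ((fun _ => 0 : Fin 3 → ℕ) i) (b3 i) := by
    intro i
    fin_cases i
    · exact hqB 0
    · exact hqB 1
    · exact qexp_one
  have hqa3' : ∀ i, QExp (A3' i) ((![0, 0, p] : Fin 3 → ℕ) i) (a3' i) := by
    intro i
    fin_cases i
    · exact hqA' 0
    · exact hqA' 1
    · exact t_QMUL.2.2.2.1 _ _ _ (-1) hqg'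
  have hqb3' : ∀ i, QExp (B3' i) ((![1, 1, 0] : Fin 3 → ℕ) i) (b3' i) := by
    intro i
    fin_cases i
    · exact hqB' 0
    · exact hqB' 1
    · exact qexp_one
  have hv1 : vps p 1 = 1 := by rw [vps_eq hp.ne_zero, map_one]
  -- the series
  set Y3 : PowerSeries ℂ := ∑ i, PowerSeries.C ((p : ℂ) ^ ε i) * (a3 i * vps p (b3 i)) with hY3
  set Y3' : PowerSeries ℂ := ∑ i, PowerSeries.C ((p : ℂ) ^ ε i) * (a3' i * vps p (b3' i)) with hY3'
  have e3 : Y3 = ∑ i, a i * vps p (b i) - PowerSeries.C ((p : ℂ) ^ 2) * g := by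
    rw [hY3, Fin.sum_univ_three, Fin.sum_univ_two]
    change PowerSeries.C ((p : ℂ) ^ 0) * (a 0 * vps p (b 0)) +
      PowerSeries.C ((p : ℂ) ^ 0) * (a 1 * vps p (b 1)) +
      PowerSeries.C ((p : ℂ) ^ 2) * (PowerSeries.C (-1 : ℂ) * g * vps p 1) = _
    rw [hv1, pow_zero, map_one, map_neg, map_one]
    ring
  have e3' : Y3' = ∑ i, a' i * vps p (b' i) - PowerSeries.C ((p : ℂ) ^ 2) * g' := by
    rw [hY3', Fin.sum_univ_three, Fin.sum_univ_two]
    change PowerSeries.C ((p : ℂ) ^ 0) * (a' 0 * vps p (b' 0)) +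
      PowerSeries.C ((p : ℂ) ^ 0) * (a' 1 * vps p (b' 1)) +
      PowerSeries.C ((p : ℂ) ^ 2) * (PowerSeries.C (-1 : ℂ) * g' * vps p 1) = _
    rw [hv1, pow_zero, map_one, map_neg, map_one]
    ring
  have hlow : ∀ n < M, PowerSeries.coeff n Y3 = 0 := by
    intro n hn
    rw [e3, map_sub, hz n hn, PowerSeries.coeff_C_mul, hcg n hn, sub_self]
  have hlow' : ∀ n < p + 1, PowerSeries.coeff n Y3' = 0 := by
    intro n hn
    rw [e3', map_sub, hz' n (by omega), PowerSeries.coeff_C_mul, hcg' n (by omega), sub_self]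
  -- the power sums
  have key : ∀ m : ℕ, 1 ≤ m → ∃ Q₁ Q₂ : Polynomial ℤ,
      ∑ t ∈ reps p, (XX (p := p) k3 ε A3 B3 t τ / (p : ℂ) ^ 2) ^ m =
        Polynomial.aeval (fh τ) Q₁ + Polynomial.aeval (4096 / fh τ) Q₂ := by
    intro m hm
    obtain ⟨r, hr, hq⟩ := exp_XX hT hC hp hp2 k3 ε A3 A3' B3 B3' hA3 hB3 hk3 _ _ a3 b3 hqa3 hqb3
      ha3 hb3 M (fun _ => by simp) m
    obtain ⟨r', hr', hq'⟩ := exp_XX hT hC hp hp2 k3 ε A3' A3 B3' B3
      (fun i => hC.2.2.2.2.2.2 _ _ _ (hA3 i)) (fun i => hC.2.2.2.2.2.2 _ _ _ (hB3 i)) hk3 _ _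
      a3' b3' hqa3' hqb3' ha3' hb3' p (fun i => by fin_cases i <;> simp) m
    rw [← hY3] at hq
    rw [← hY3'] at hq'
    have hpr := hC.2.2.1 _ _ _ (((p : ℂ) ^ (2 * m))⁻¹)
      (pr_XX hT hC hp hp2 k3 ε A3 A3' B3 B3' hA3 hB3 m)
    obtain ⟨Q₁, Q₂, hQ⟩ := hP2 _ _ _ _ _ _ hpr (t_QMUL.2.2.2.1 _ _ _ (((p : ℂ) ^ (2 * m))⁻¹) hq)
      (t_QMUL.2.2.2.1 _ _ _ (((p : ℂ) ^ (2 * m))⁻¹) hq')
      (fun n hn => low_coeff hp hr hlow n hn)
      (fun n hn => low_coeff hp hr' hlow' n (by nlinarith))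
    refine ⟨Q₁, Q₂, ?_⟩
    rw [← hQ τ, ← pow_XX hp.pos, Finset.mul_sum]
    refine Finset.sum_congr rfl fun t _ => ?_
    rw [div_pow, ← pow_mul]
    field_simp
  obtain hint := hPS (reps p) (fun t => XX (p := p) k3 ε A3 B3 t τ / (p : ℂ) ^ 2) _ _ hh hh' key t ht
  refine ⟨XX (p := p) k3 ε A3 B3 t τ / (p : ℂ) ^ 2 + G τ, hint.add
    ((int_poly hh G₁).add (int_poly hh' G₂)), ?_⟩
  have e4 : XX (p := p) k3 ε A3 B3 t τ = ∑ i, A i τ * val (2 * k i) (B i) (mat t) τ -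
      (p : ℂ) ^ 2 * G τ := by
    unfold XX
    rw [Fin.sum_univ_three, Fin.sum_univ_two]
    change (p : ℂ) ^ 0 * (A 0 τ * val (2 * k 0) (B 0) (mat t) τ) +
      (p : ℂ) ^ 0 * (A 1 τ * val (2 * k 1) (B 1) (mat t) τ) +
      (p : ℂ) ^ 2 * (((-1) * G τ) * val (2 * 0) (fun _ => 1) (mat t) τ) = _
    have e5 : val (2 * 0) (fun _ => 1) (mat t) τ = 1 := by simp [val]
    rw [e5, pow_zero]
    ring
  rw [e4]
  field_simp
  ring

end Pool.Agent.HS37.CQ
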