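import Pool.Agent.HS37.CQ.Hyp

set_option autoImplicit false

open Pool.Agent.HS37.SP

namespace Pool.Agent.HS37.CQ

namespace LUC

open HYP

lemma split_sum {R : Type*} [CommRing R] (p : ℕ) (u : ℕ → R) (T : R)
    (hu : ∀ a b, a < p → u (a + p * b) = u a * u b) (N : ℕ) :
    ∑ n ∈ Finset.range (p * N), u n * T ^ n =
      (∑ a ∈ Finset.range p, u a * T ^ a) * ∑ b ∈ Finset.range N, u b * T ^ (p * b) := by
  induction N with
  | zero => simp
  | succ N ih =>
    rw [Nat.mul_succ, Finset.sum_range_add, ih, Finset.sum_range_succ, mul_add]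
    congr 1
    rw [Finset.sum_mul]
    refine Finset.sum_congr rfl fun a ha => ?_
    rw [Finset.mem_range] at ha
    rw [add_comm (p * N) a, hu a N ha, pow_add]
    ring

lemma key (p : ℕ) [hp : Fact p.Prime] (u : ℕ → ℕ) (P T : PowerSeries (ZMod p))
    (hu : ∀ a b, a < p → ((u (a + p * b) : ℕ) : ZMod p) = (u a : ZMod p) * (u b : ZMod p))
    (hPT : ∀ N : ℕ, PowerSeries.X ^ N ∣ P - ∑ n ∈ Finset.range N, PowerSeries.C ((u n : ℕ) : ZMod p) * T ^ n)
    (hP0 : P ≠ 0) :
    (∑ a ∈ Finset.range p, PowerSeries.C ((u a : ℕ) : ZMod p) * T ^ a) * P ^ (p - 1) = 1 := by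
  haveI hch : CharP (PowerSeries (ZMod p)) p :=
    charP_of_injective_ringHom (PowerSeries.C_injective (R := ZMod p)) p
  set A := ∑ a ∈ Finset.range p, PowerSeries.C ((u a : ℕ) : ZMod p) * T ^ a with hA
  have hfrob : ∀ N : ℕ, (∑ b ∈ Finset.range N, PowerSeries.C ((u b : ℕ) : ZMod p) * T ^ b) ^ p =
      ∑ b ∈ Finset.range N, PowerSeries.C ((u b : ℕ) : ZMod p) * T ^ (p * b) := by
    intro N
    rw [sum_pow_char]
    refine Finset.sum_congr rfl fun b _ => ?_
    rw [mul_pow, ← map_pow, ZMod.pow_card, ← pow_mul, mul_comm b p]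
  have hdvd : ∀ N : ℕ, PowerSeries.X ^ N ∣ P - A * P ^ p := by
    intro N
    have h1 := hPT (p * N)
    rw [split_sum p (fun n => PowerSeries.C ((u n : ℕ) : ZMod p)) T
      (fun a b hab => by rw [← map_mul, hu a b hab]) N, ← hfrob N] at h1
    have h2 := hPT N
    have h3 : PowerSeries.X ^ N ∣ P ^ p -
        (∑ b ∈ Finset.range N, PowerSeries.C ((u b : ℕ) : ZMod p) * T ^ b) ^ p :=
      h2.trans (sub_dvd_pow_sub_pow _ _ p)
    have h4 : (PowerSeries.X : PowerSeries (ZMod p)) ^ N ∣ PowerSeries.X ^ (p * N) :=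
      pow_dvd_pow _ (Nat.le_mul_of_pos_left N hp.out.pos)
    have h5 := dvd_sub (h4.trans h1) (Dvd.dvd.mul_left h3 A)
    convert h5 using 1
    ring
  have hz : P - A * P ^ p = 0 := by
    ext n
    have h1 := hdvd (n + 1)
    rw [PowerSeries.X_pow_dvd_iff] at h1
    rw [h1 n (Nat.lt_succ_self n), map_zero]
  have h1 : P * (A * P ^ (p - 1)) = P * 1 := by
    have h2 : P ^ p = P * P ^ (p - 1) := by
      rw [← pow_succ', Nat.sub_add_cancel hp.out.one_le]
    rw [h2] at hz
    have h3 : P - P * (A * P ^ (p - 1)) = 0 := by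
      rw [← hz]
      ring
    rw [mul_one]
    exact (sub_eq_zero.1 h3).symm
  exact mul_left_cancel₀ hP0 h1

end LUC

open HYP LUC in
theorem t_LUC (hP : S_PAR) (hU : S_UDV) (hE : S_EXP) : S_LUC := by
  intro p hp hp2
  have hct := ct_int hE
  obtain ⟨-, -, -, -, -, h6, -, -, -, h10⟩ := hE
  rw [isInt_iff] at h6
  obtain ⟨-, hU2, hU3, -⟩ := hU
  haveI : Fact p.Prime := ⟨hp⟩
  have h10' : PowerSeries.constantCoeff cP = 1 := by
    rw [← PowerSeries.coeff_zero_eq_constantCoeff_apply]
    exact h10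
  obtain ⟨T, hT⟩ := hct
  obtain ⟨P, hPz⟩ := h6
  have hinj : Function.Injective (Int.castRingHom ℂ) := Int.cast_injective
  -- over the integers
  have hint : ∀ N : ℕ, PowerSeries.X ^ N ∣ P - ∑ n ∈ Finset.range N, PowerSeries.C ((uu n : ℕ) : ℤ) * T ^ n := by
    intro N
    have h1 := hP N
    rw [PowerSeries.X_pow_dvd_iff] at h1 ⊢
    intro m hm
    have h2 := h1 m hm
    have h3 : cP - ∑ n ∈ Finset.range N, PowerSeries.C (uu n : ℂ) * ct ^ n =
        PowerSeries.map (Int.castRingHom ℂ) (P - ∑ n ∈ Finset.range N, PowerSeries.C ((uu n : ℕ) : ℤ) * T ^ n) := by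
      rw [map_sub, map_sum, hPz]
      congr 1
      refine Finset.sum_congr rfl fun n _ => ?_
      rw [map_mul, map_pow, hT, PowerSeries.map_C]
      simp
    rw [h3, PowerSeries.coeff_map] at h2
    exact hinj (by rw [h2, map_zero])
  set φ := PowerSeries.map (Int.castRingHom (ZMod p)) with hφ
  have hmod : ∀ N : ℕ, PowerSeries.X ^ N ∣ φ P - ∑ n ∈ Finset.range N, PowerSeries.C ((uu n : ℕ) : ZMod p) * (φ T) ^ n := by
    intro N
    have h1 := map_dvd φ (hint N)
    rw [map_pow, map_sub, map_sum] at h1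
    have h2 : φ (PowerSeries.X : PowerSeries ℤ) = PowerSeries.X := by
      rw [hφ, PowerSeries.map_X]
    rw [h2] at h1
    convert h1 using 2
    refine Finset.sum_congr rfl fun n _ => ?_
    rw [map_mul, map_pow, hφ, PowerSeries.map_C]
    simp
  have hPc : PowerSeries.constantCoeff P = 1 := by
    have h1 : PowerSeries.coeff 0 cP = (PowerSeries.coeff 0 P : ℤ) := by
      rw [← hPz, PowerSeries.coeff_map]
      rfl
    rw [h10] at h1
    rw [← PowerSeries.coeff_zero_eq_constantCoeff_apply]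
    exact_mod_cast h1.symm
  have hP0 : φ P ≠ 0 := by
    intro h
    have h1 : PowerSeries.coeff 0 (φ P) = 1 := by
      rw [hφ, PowerSeries.coeff_map, PowerSeries.coeff_zero_eq_constantCoeff_apply, hPc, map_one]
    rw [h, map_zero] at h1
    exact zero_ne_one h1
  have hk := key p uu (φ P) (φ T) (fun a b hab => by
    have h1 := hU3 p a b hp hp2 hab
    have h2 := (ZMod.natCast_eq_natCast_iff _ _ _).2 h1
    rw [h2, Nat.cast_mul]) hmod hP0
  -- only the terms with 4 a < p
  have hA : ∑ a ∈ Finset.range p, PowerSeries.C ((uu a : ℕ) : ZMod p) * (φ T) ^ a =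
      ∑ a ∈ Finset.range (p / 4 + 1), PowerSeries.C ((uu a : ℕ) : ZMod p) * (φ T) ^ a := by
    have hle : p / 4 + 1 ≤ p := by
      have := hp.two_le
      omega
    rw [← Finset.sum_range_add_sum_Ico _ hle]
    rw [add_eq_left]
    refine Finset.sum_eq_zero fun a ha => ?_
    rw [Finset.mem_Ico] at ha
    have h1 := hU2 p a hp hp2 ha.2 (by omega)
    rw [(ZMod.natCast_eq_zero_iff _ _).2 h1, map_zero, zero_mul]
  rw [hA] at hk
  -- divisibility over the integers
  set G : PowerSeries ℤ := (∑ a ∈ Finset.range (p / 4 + 1), PowerSeries.C ((uu a : ℕ) : ℤ) * T ^ a) * P ^ (p - 1) - 1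
    with hG
  have hGφ : φ G = 0 := by
    rw [hG, map_sub, map_mul, map_pow, map_one, map_sum, sub_eq_zero, ← hk]
    congr 1
    refine Finset.sum_congr rfl fun n _ => ?_
    rw [map_mul, map_pow, hφ, PowerSeries.map_C]
    simp
  have hGd : ∀ n, (p : ℤ) ∣ PowerSeries.coeff n G := by
    intro n
    have h1 : PowerSeries.coeff n (φ G) = 0 := by rw [hGφ, map_zero]
    rw [hφ, PowerSeries.coeff_map] at h1
    exact (ZMod.intCast_zmod_eq_zero_iff_dvd _ _).1 (by simpa using h1)
  choose w hw using hGd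
  refine ⟨PowerSeries.map (Int.castRingHom ℂ) (PowerSeries.mk w), ?_, ?_⟩
  · intro n
    exact ⟨w n, by simp⟩
  · have hGw : G = PowerSeries.C (p : ℤ) * PowerSeries.mk w := by
      ext n
      rw [PowerSeries.coeff_C_mul, PowerSeries.coeff_mk, hw n]
    have h1 : PowerSeries.map (Int.castRingHom ℂ) G =
        (∑ a ∈ Finset.range (p / 4 + 1), PowerSeries.C (uu a : ℂ) * ct ^ a) * cP ^ (p - 1) - 1 := by
      rw [hG, map_sub, map_mul, map_pow, map_one, map_sum, hPz]
      congr 2
      refine Finset.sum_congr rfl fun n _ => ?_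
      rw [map_mul, map_pow, hT, PowerSeries.map_C]
      simp
    have h2 : PowerSeries.map (Int.castRingHom ℂ) G = PowerSeries.C (p : ℂ) *
        PowerSeries.map (Int.castRingHom ℂ) (PowerSeries.mk w) := by
      rw [hGw, map_mul, PowerSeries.map_C]
      simp
    rw [← h2, h1, add_sub_cancel, Finset.sum_mul]
    refine Finset.sum_congr rfl fun n hn => ?_
    rw [Finset.mem_range] at hn
    have h3 : 4 * n ≤ p - 1 := by
      have h4 : 4 * n ≤ p := by omega
      rcases hp.eq_two_or_odd with h5 | h5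
      · exact absurd h5 hp2
      · omega
    have h4 : ct * cP ^ 4 = ce * cs := by
      unfold ct
      rw [mul_assoc, PowerSeries.inv_mul_cancel, mul_one]
      rw [map_pow, h10', one_pow]
      exact one_ne_zero
    obtain ⟨m, hm⟩ := Nat.exists_eq_add_of_le h3
    rw [hm, Nat.add_sub_cancel_left, pow_add, pow_mul, ← h4, mul_pow]
    ring

end Pool.Agent.HS37.CQ
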