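import Pool.Agent.HS37.CQ.Stm

set_option autoImplicit false

open PowerSeries

namespace Pool.Agent.HS37.CQ

namespace Par

/-! ### the recursion of the coefficients -/

theorem uu_mul (n : ℕ) : uu n * n.factorial ^ 4 = (4 * n).factorial := by
  have h := Nat.prod_factorial_dvd_factorial_sum (Finset.range 4) (fun _ => n)
  simp only [Finset.prod_const, Finset.card_range, Finset.sum_const, smul_eq_mul] at h
  exact Nat.div_mul_cancel h

theorem uu_rec (n : ℕ) :
    (n + 1) ^ 3 * uu (n + 1) = 8 * (2 * n + 1) * (4 * n + 1) * (4 * n + 3) * uu n := by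
  have h1 := uu_mul n
  have h2 := uu_mul (n + 1)
  have e1 : (4 * (n + 1)).factorial =
      (4 * n + 4) * ((4 * n + 3) * ((4 * n + 2) * ((4 * n + 1) * (4 * n).factorial))) := by
    rw [show 4 * (n + 1) = 4 * n + 4 by ring, Nat.factorial_succ, Nat.factorial_succ,
      Nat.factorial_succ, Nat.factorial_succ]
  rw [e1, ← h1, Nat.factorial_succ] at h2
  have h3 : 0 < (n + 1) * n.factorial ^ 4 := by positivity
  apply Nat.eq_of_mul_eq_mul_left h3
  calc (n + 1) * n.factorial ^ 4 * ((n + 1) ^ 3 * uu (n + 1))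
      = uu (n + 1) * ((n + 1) * n.factorial) ^ 4 := by ring
    _ = _ := by rw [h2]; ring

/-! ### the derivation -/

theorem tht_eq (c : PowerSeries ℂ) : tht c = X * PowerSeries.derivative ℂ c := by
  ext n
  unfold tht
  rw [coeff_mk]
  cases n with
  | zero => simp
  | succ n =>
    rw [coeff_succ_X_mul, PowerSeries.coeff_derivative]
    push_cast
    ring

theorem tht_add (a b : PowerSeries ℂ) : tht (a + b) = tht a + tht b := by
  rw [tht_eq, tht_eq, tht_eq, map_add, mul_add]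

theorem tht_mul (a b : PowerSeries ℂ) : tht (a * b) = tht a * b + a * tht b := by
  rw [tht_eq, tht_eq, tht_eq, Derivation.leibniz, smul_eq_mul, smul_eq_mul]
  ring

theorem tht_C (z : ℂ) : tht (C z) = 0 := by
  rw [tht_eq, PowerSeries.derivative_C, mul_zero]

theorem tht_zero : tht 0 = 0 := by
  have := tht_C 0
  rwa [map_zero] at this

theorem tht_neg (a : PowerSeries ℂ) : tht (-a) = - tht a := by
  rw [tht_eq, tht_eq, map_neg, mul_neg]

theorem tht_sub (a b : PowerSeries ℂ) : tht (a - b) = tht a - tht b := by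
  rw [sub_eq_add_neg, tht_add, tht_neg, ← sub_eq_add_neg]

theorem tht_pow (a : PowerSeries ℂ) (n : ℕ) : tht (a ^ n) = n * a ^ (n - 1) * tht a := by
  rw [tht_eq, tht_eq, PowerSeries.derivative_pow]
  ring

theorem tht_ofNat (n : ℕ) [n.AtLeastTwo] : tht (OfNat.ofNat n : PowerSeries ℂ) = 0 := by
  have h : (OfNat.ofNat n : PowerSeries ℂ) = C (OfNat.ofNat n : ℂ) := by
    rw [map_ofNat]
  rw [h, tht_C]

theorem tht_nat (n : ℕ) : tht (n : PowerSeries ℂ) = 0 := by
  have h : (n : PowerSeries ℂ) = C (n : ℂ) := by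
    rw [map_natCast]
  rw [h, tht_C]

/-- the differential equation -/
theorem ode (P A e q t s Q : PowerSeries ℂ) (hs : P ^ 2 = s + 64 * e) (he : tht e = e * A)
    (hP : 2 * tht P = P * A - P ^ 2 + 64 * e) (hA : 4 * tht A = A ^ 2 - P ^ 2 + 64 * e)
    (hQ : Q = P ^ 2 - 128 * e) (hq : Q * q = 1) (ht : t * P ^ 4 = e * s) (hP0 : P ≠ 0)
    (D : PowerSeries ℂ → PowerSeries ℂ) (hD : ∀ f, D f = P * q * tht f) :
    D (D (D P)) - 256 * t * (D (D (D P)) + C (3 / 2 : ℂ) * D (D P) + C (11 / 16 : ℂ) * D P +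
      C (3 / 32 : ℂ) * P) = 0 := by
  obtain ⟨a, ha⟩ : ∃ a, a = P * A - P ^ 2 + 64 * e := ⟨_, rfl⟩
  obtain ⟨b, hb⟩ : ∃ b, b = A ^ 2 - P ^ 2 + 64 * e := ⟨_, rfl⟩
  obtain ⟨r, hr⟩ : ∃ r, r = P * a - 128 * e * A := ⟨_, rfl⟩
  obtain ⟨a1, ha1⟩ : ∃ a1, a1 = 2 * a * A + P * b - 4 * P * a + 256 * e * A := ⟨_, rfl⟩
  obtain ⟨b1, hb1⟩ : ∃ b1, b1 = 2 * A * b - 4 * P * a + 256 * e * A := ⟨_, rfl⟩
  obtain ⟨eb, heb⟩ : ∃ eb, eb = 4 * e * A ^ 2 + e * b := ⟨_, rfl⟩
  obtain ⟨a2, ha2⟩ : ∃ a2, a2 = 2 * (a1 * A + a * b) + (2 * a * b + P * b1) -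
    4 * (2 * a * a + P * a1) + 256 * eb := ⟨_, rfl⟩
  obtain ⟨m1, hm1⟩ : ∃ m1, m1 = P * a := ⟨_, rfl⟩
  obtain ⟨c1, hc1⟩ : ∃ c1, c1 = 2 * a * a + P * a1 := ⟨_, rfl⟩
  obtain ⟨cr, hcr⟩ : ∃ cr, cr = 2 * a * a + P * a1 - 128 * eb := ⟨_, rfl⟩
  obtain ⟨cc, hcc⟩ : ∃ cc, cc = 4 * a * a1 + 2 * a * a1 + P * a2 := ⟨_, rfl⟩
  obtain ⟨m2, hm2⟩ : ∃ m2, m2 = P * (c1 * Q - 4 * m1 * r) := ⟨_, rfl⟩
  obtain ⟨c2, hc2⟩ : ∃ c2, c2 = 2 * a * (c1 * Q - 4 * m1 * r) + P * (cc * Q - 4 * m1 * cr) :=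
    ⟨_, rfl⟩
  obtain ⟨m3, hm3⟩ : ∃ m3, m3 = P * (c2 * Q - 12 * m2 * r) := ⟨_, rfl⟩
  rw [← ha] at hP
  rw [← hb] at hA
  -- derivatives
  have dP2 : tht (P ^ 2) = P * a := by
    rw [tht_pow]; push_cast; linear_combination P * hP
  have dA2 : 4 * tht (A ^ 2) = 2 * A * b := by
    rw [tht_pow]; push_cast; linear_combination 2 * A * hA
  have dQ : tht Q = r := by
    rw [hQ, tht_sub, tht_mul, tht_ofNat, dP2, he, hr]; ring
  have da : 4 * tht a = a1 := by
    rw [ha, tht_add, tht_sub, tht_mul, tht_mul, tht_ofNat, dP2, he, ha1]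
    linear_combination 2 * A * hP + P * hA
  have db : 4 * tht b = b1 := by
    rw [hb, tht_add, tht_sub, tht_mul, tht_ofNat, dP2, he, hb1]
    linear_combination dA2
  have deA : 4 * tht (e * A) = eb := by
    rw [tht_mul, he, heb]
    linear_combination e * hA
  have da1 : 4 * tht a1 = a2 := by
    have e1 : a1 = 2 * (a * A) + P * b - 4 * (P * a) + 256 * (e * A) := by rw [ha1]; ring
    rw [e1, tht_add, tht_sub, tht_add, tht_mul 2, tht_mul 4, tht_mul 256, tht_mul P b,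
      tht_mul P a, tht_mul a A, tht_ofNat, tht_ofNat, tht_ofNat, ha2]
    linear_combination (2 * A) * da + (2 * a) * hA + (2 * b) * hP + P * db - (8 * a) * hP -
      (4 * P) * da + 256 * deA
  have dm1 : 4 * tht m1 = c1 := by
    rw [hm1, tht_mul, hc1]
    linear_combination 2 * a * hP + P * da
  have dr : 4 * tht r = cr := by
    have e1 : r = P * a - 128 * (e * A) := by rw [hr]; ring
    rw [e1, tht_sub, tht_mul 128, tht_mul P a, tht_ofNat, hcr]
    linear_combination 2 * a * hP + P * da - 128 * deA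
  have dc1 : 4 * tht c1 = cc := by
    have e1 : c1 = 2 * (a * a) + P * a1 := by rw [hc1]; ring
    rw [e1, tht_add, tht_mul 2, tht_mul a a, tht_mul P a1, tht_ofNat, hcc]
    linear_combination 4 * a * da + 2 * a1 * hP + P * da1
  have dm2 : 4 * tht m2 = c2 := by
    have e1 : m2 = P * (c1 * Q - 4 * (m1 * r)) := by rw [hm2]; ring
    rw [e1, tht_mul P, tht_sub, tht_mul c1 Q, tht_mul 4, tht_mul m1 r, tht_ofNat, dQ, hc2]
    linear_combination 2 * (c1 * Q - 4 * (m1 * r)) * hP + P * Q * dc1 - 4 * P * r * dm1 -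
      4 * P * m1 * dr
  have dq : tht q = - r * q ^ 2 := by
    have h1 : tht (Q * q) = 0 := by
      rw [hq]
      have := tht_C 1
      rwa [map_one] at this
    rw [tht_mul, dQ] at h1
    linear_combination q * h1 - (tht q) * hq
  -- the operators
  have D1 : 2 * D P = m1 * q := by
    rw [hD, hm1]
    linear_combination P * q * hP
  have D2 : 8 * D (D P) = m2 * q ^ 3 := by
    have h1 : 2 * tht (D P) = tht m1 * q + m1 * (- r * q ^ 2) := by
      rw [← dq, ← tht_mul, ← D1, tht_mul, tht_ofNat]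
      ring
    rw [hD (D P), hm2]
    linear_combination 4 * P * q * h1 + P * q ^ 2 * dm1 - (P * c1 * q ^ 2) * hq
  have D3 : 32 * D (D (D P)) = m3 * q ^ 5 := by
    have h1 : 8 * tht (D (D P)) = tht m2 * q ^ 3 + m2 * (3 * q ^ 2 * (- r * q ^ 2)) := by
      rw [← dq]
      have h2 : tht (q ^ 3) = 3 * q ^ 2 * tht q := by
        rw [tht_pow]; push_cast; ring
      rw [← h2, ← tht_mul, ← D2, tht_mul, tht_ofNat]
      ring
    rw [hD (D (D P)), hm3]
    linear_combination 4 * P * q * h1 + P * q ^ 4 * dm2 - (P * c2 * q ^ 4) * hq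
  have key : m3 = 256 * e * s * (6 * m2 + 11 * m1 * Q ^ 2 + 3 * P * Q ^ 3) := by
    have hs' : s = P ^ 2 - 64 * e := by rw [hs]; ring
    rw [hm3, hc2, hm2, hcc, hcr, hc1, hm1, ha2, heb, hb1, ha1, hr, hb, ha, hQ, hs']
    ring
  have hQ2 : P ^ 4 - 256 * (e * s) = Q ^ 2 := by
    have hs' : s = P ^ 2 - 64 * e := by rw [hs]; ring
    rw [hs', hQ]
    ring
  have h32 : (32 : PowerSeries ℂ) = C (32 : ℂ) := by rw [map_ofNat]
  have c1' : (32 : PowerSeries ℂ) * C (3 / 2 : ℂ) = 48 := by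
    rw [h32, ← map_mul, show (32 : ℂ) * (3 / 2) = 48 by norm_num, map_ofNat]
  have c2' : (32 : PowerSeries ℂ) * C (11 / 16 : ℂ) = 22 := by
    rw [h32, ← map_mul, show (32 : ℂ) * (11 / 16) = 22 by norm_num, map_ofNat]
  have c3' : (32 : PowerSeries ℂ) * C (3 / 32 : ℂ) = 3 := by
    rw [h32, ← map_mul, show (32 : ℂ) * (3 / 32) = 3 by norm_num, map_ofNat]
  have hQ0 : Q ≠ 0 := by
    intro h
    rw [h, zero_mul] at hq
    exact zero_ne_one hq
  have h320 : (32 : PowerSeries ℂ) ≠ 0 := by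
    rw [h32]
    intro h
    have := congrArg (constantCoeff (R := ℂ)) h
    rw [constantCoeff_C, map_zero] at this
    norm_num at this
  have hne : (32 : PowerSeries ℂ) * P ^ 4 * Q ^ 5 ≠ 0 :=
    mul_ne_zero (mul_ne_zero h320 (pow_ne_zero _ hP0)) (pow_ne_zero _ hQ0)
  apply mul_left_cancel₀ hne
  rw [mul_zero]
  have q5 : q ^ 5 * Q ^ 5 = 1 := by rw [← mul_pow, mul_comm q Q, hq, one_pow]
  have q3 : q ^ 3 * Q ^ 3 = 1 := by rw [← mul_pow, mul_comm q Q, hq, one_pow]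
  have f1 : 32 * P ^ 4 * Q ^ 5 * (D (D (D P)) - 256 * t * (D (D (D P)) +
      C (3 / 2 : ℂ) * D (D P) + C (11 / 16 : ℂ) * D P + C (3 / 32 : ℂ) * P)) =
      P ^ 4 * Q ^ 5 * (32 * D (D (D P))) - 256 * (t * P ^ 4) * Q ^ 5 * ((32 * D (D (D P))) +
      (32 * C (3 / 2 : ℂ)) * D (D P) + (32 * C (11 / 16 : ℂ)) * D P +
      (32 * C (3 / 32 : ℂ)) * P) := by ring
  rw [f1, c1', c2', c3', ht, D3]
  have f2 : P ^ 4 * Q ^ 5 * (m3 * q ^ 5) - 256 * (e * s) * Q ^ 5 * (m3 * q ^ 5 +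
      48 * D (D P) + 22 * D P + 3 * P) =
      (P ^ 4 - 256 * (e * s)) * m3 * (q ^ 5 * Q ^ 5) - 256 * (e * s) * Q ^ 5 *
      (6 * (8 * D (D P)) + 11 * (2 * D P) + 3 * P) := by ring
  rw [f2, D1, D2, q5, hQ2, key]
  linear_combination (-256 * (e * s) * Q ^ 2 * 6 * m2) * q3 -
    (256 * (e * s) * Q ^ 4 * 11 * m1) * hq

/-- lowest terms -/
theorem low (u : PowerSeries ℂ) (hu : constantCoeff u = 1) (m : ℕ) (f : PowerSeries ℂ)
    (hf : X ^ m ∣ f) : X ^ m ∣ u * tht f ∧ coeff m (u * tht f) = m * coeff m f := by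
  obtain ⟨f', rfl⟩ := hf
  have hX : tht (X : PowerSeries ℂ) = X := by
    rw [tht_eq, PowerSeries.derivative_X, mul_one]
  have h1 : tht (X ^ m : PowerSeries ℂ) = (m : PowerSeries ℂ) * (X : PowerSeries ℂ) ^ m := by
    rw [tht_pow, hX]
    cases m with
    | zero => simp
    | succ m => rw [Nat.add_sub_cancel]; push_cast; ring
  have h2 : u * tht (X ^ m * f') = X ^ m * (u * ((m : PowerSeries ℂ) * f' + tht f')) := by
    rw [tht_mul, h1]
    ring
  have h3 : constantCoeff (tht f') = 0 := by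
    rw [tht_eq, map_mul, constantCoeff_X, zero_mul]
  refine ⟨⟨_, h2⟩, ?_⟩
  rw [h2]
  have e1 := coeff_X_pow_mul (u * ((m : PowerSeries ℂ) * f' + tht f')) m 0
  have e2 := coeff_X_pow_mul f' m 0
  rw [zero_add] at e1 e2
  rw [e1, e2, coeff_zero_eq_constantCoeff_apply, coeff_zero_eq_constantCoeff_apply, map_mul,
    map_add, map_mul, hu, h3, map_natCast]
  ring

end Par

open Par in
/-- **PAR**: `P = ∑ u_n t^n` -/
theorem t_PAR (hRAM : S_RAM) (hEXP : S_EXP) : S_PAR := by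
  obtain ⟨hs, he, hP, hA⟩ := hRAM
  obtain ⟨-, -, -, -, -, -, ze, -, zs, zP⟩ := hEXP
  rw [coeff_zero_eq_constantCoeff_apply] at ze zs zP
  -- the series
  obtain ⟨Q, hQ⟩ : ∃ Q, Q = cP ^ 2 - 128 * ce := ⟨_, rfl⟩
  have hQc : constantCoeff Q = 1 := by
    rw [hQ, map_sub, map_pow, map_mul, zP, ze]
    simp
  have hq : Q * Q⁻¹ = 1 := PowerSeries.mul_inv_cancel Q (by rw [hQc]; exact one_ne_zero)
  have hqc : constantCoeff Q⁻¹ = 1 := by
    have := congrArg (constantCoeff (R := ℂ)) hq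
    rw [map_mul, hQc, one_mul, map_one] at this
    exact this
  have hP0 : cP ≠ 0 := by
    intro h
    rw [h, map_zero] at zP
    exact zero_ne_one zP
  have ht : ct * cP ^ 4 = ce * cs := by
    unfold ct
    rw [mul_assoc, PowerSeries.inv_mul_cancel _ (by rw [map_pow, zP]; norm_num), mul_one]
  have hcs : cs = cP ^ 2 - 64 * ce := by rw [hs]; ring
  have dP2 : tht (cP ^ 2) = cP * (cP * cA - cP ^ 2 + 64 * ce) := by
    rw [tht_pow]; push_cast; linear_combination cP * hP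
  have ds : tht cs = cs * (cA - cP) := by
    rw [hcs, tht_sub, tht_mul, tht_ofNat, dP2, he]; ring
  have dt : cP * tht ct = ct * Q := by
    have h1 : tht (ct * cP ^ 4) = tht (ce * cs) := by rw [ht]
    rw [tht_mul, tht_mul, ds, he, tht_pow] at h1
    push_cast at h1
    have h2 : cP ^ 3 ≠ 0 := pow_ne_zero _ hP0
    apply mul_left_cancel₀ h2
    rw [hQ]
    linear_combination h1 - 2 * ct * cP ^ 3 * hP + (2 * cA - cP) * (-ht)
  -- the operator
  obtain ⟨u, hu⟩ : ∃ u, u = cP * Q⁻¹ := ⟨_, rfl⟩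
  have huc : constantCoeff u = 1 := by rw [hu, map_mul, zP, hqc, one_mul]
  let D : PowerSeries ℂ → PowerSeries ℂ := fun f => u * tht f
  have hD : ∀ f, D f = u * tht f := fun f => rfl
  have hDadd : ∀ f g, D (f + g) = D f + D g := by
    intro f g
    rw [hD, hD, hD, tht_add]; ring
  have hDC : ∀ (z : ℂ) f, D (C z * f) = C z * D f := by
    intro z f
    rw [hD, hD, tht_mul, tht_C]; ring
  have hDt : D ct = ct := by
    rw [hD, hu]
    linear_combination Q⁻¹ * dt + ct * hq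
  have hDtn : ∀ n : ℕ, D (ct ^ n) = C (n : ℂ) * ct ^ n := by
    intro n
    rw [hD] at hDt ⊢
    rw [tht_pow, map_natCast]
    cases n with
    | zero => simp
    | succ n =>
      rw [Nat.add_sub_cancel]
      linear_combination ((n + 1 : ℕ) : PowerSeries ℂ) * ct ^ n * hDt
  let Lo : PowerSeries ℂ → PowerSeries ℂ := fun f => D (D (D f)) - 256 * ct * (D (D (D f)) +
    C (3 / 2 : ℂ) * D (D f) + C (11 / 16 : ℂ) * D f + C (3 / 32 : ℂ) * f)
  have hLo : ∀ f, Lo f = D (D (D f)) - 256 * ct * (D (D (D f)) +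
    C (3 / 2 : ℂ) * D (D f) + C (11 / 16 : ℂ) * D f + C (3 / 32 : ℂ) * f) := fun f => rfl
  have hLadd : ∀ f g, Lo (f + g) = Lo f + Lo g := by
    intro f g
    rw [hLo, hLo, hLo, hDadd f g, hDadd (D f), hDadd (D (D f))]
    ring
  have hLP : Lo cP = 0 := ode cP cA ce Q⁻¹ ct cs Q hs he hP hA hQ hq ht hP0 D (fun f => by
    rw [hD, hu])
  have hLt : ∀ (n : ℕ) (z : ℂ), Lo (C z * ct ^ n) = C (z * n ^ 3) * ct ^ n -
      C (z * (256 * ((n : ℂ) + 1 / 2) * (n + 1 / 4) * (n + 3 / 4))) * ct ^ (n + 1) := by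
    intro n z
    have h256 : (256 : PowerSeries ℂ) = C (256 : ℂ) := by rw [map_ofNat]
    have k1 : D (C z * ct ^ n) = C z * (C (n : ℂ) * ct ^ n) := by rw [hDC, hDtn]
    have k2 : D (D (C z * ct ^ n)) = C z * (C (n : ℂ) * (C (n : ℂ) * ct ^ n)) := by
      rw [k1, hDC, hDC, hDtn]
    have k3 : D (D (D (C z * ct ^ n))) =
        C z * (C (n : ℂ) * (C (n : ℂ) * (C (n : ℂ) * ct ^ n))) := by
      rw [k2, hDC, hDC, hDC, hDtn]
    rw [hLo, k3, k2, k1]
    have e1 : C (z * (n : ℂ) ^ 3) = C z * (C (n : ℂ) * (C (n : ℂ) * C (n : ℂ))) := by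
      rw [← map_mul, ← map_mul, ← map_mul]; congr 1; ring
    have e2 : C (z * (256 * ((n : ℂ) + 1 / 2) * (n + 1 / 4) * (n + 3 / 4))) =
        C (256 : ℂ) * C z * (C (n : ℂ) * (C (n : ℂ) * C (n : ℂ)) +
          C (3 / 2 : ℂ) * (C (n : ℂ) * C (n : ℂ)) + C (11 / 16 : ℂ) * C (n : ℂ) +
          C (3 / 32 : ℂ)) := by
      rw [← map_mul, ← map_mul, ← map_mul, ← map_mul, ← map_mul, ← map_add, ← map_add,
        ← map_add, ← map_mul]
      congr 1
      ring
    rw [e1, e2, h256]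
    ring
  -- partial sums
  let F : ℕ → PowerSeries ℂ := fun N => ∑ n ∈ Finset.range N, C (uu n : ℂ) * ct ^ n
  have hF : ∀ N, F (N + 1) = F N + C (uu N : ℂ) * ct ^ N := fun N =>
    Finset.sum_range_succ _ N
  have hLF : ∀ N : ℕ, Lo (F N) = - (C ((uu N : ℂ) * (N : ℂ) ^ 3) * ct ^ N) := by
    intro N
    induction N with
    | zero =>
      have h0 : F 0 = 0 := Finset.sum_range_zero _
      have hD0 : D 0 = 0 := by rw [hD, tht_zero, mul_zero]
      rw [h0, hLo, hD0, hD0, hD0]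
      simp
    | succ N ih =>
      rw [hF, hLadd, ih, hLt]
      have h1 : ((uu (N + 1) : ℕ) : ℂ) * ((N + 1 : ℕ) : ℂ) ^ 3 =
          (uu N : ℂ) * (256 * ((N : ℂ) + 1 / 2) * (N + 1 / 4) * (N + 3 / 4)) := by
        have h2 : ((((N + 1) ^ 3 * uu (N + 1) : ℕ)) : ℂ) =
            ((8 * (2 * N + 1) * (4 * N + 1) * (4 * N + 3) * uu N : ℕ) : ℂ) := by
          rw [uu_rec]
        push_cast at h2 ⊢
        linear_combination h2
      rw [h1]
      ring
  -- lowest terms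
  have htX : X ∣ ct := by
    rw [X_dvd_iff]
    unfold ct
    rw [map_mul, map_mul, ze, zero_mul, zero_mul]
  intro N
  rcases Nat.eq_zero_or_pos N with rfl | hN
  · rw [pow_zero]
    exact one_dvd _
  obtain ⟨g, hg⟩ : ∃ g, g = cP - F N := ⟨_, rfl⟩
  have hgL : Lo g = C ((uu N : ℂ) * (N : ℂ) ^ 3) * ct ^ N := by
    have h1 : Lo (g + F N) = 0 := by
      rw [hg, sub_add_cancel, hLP]
    rw [hLadd, hLF] at h1
    linear_combination h1
  have hXN : X ^ N ∣ Lo g := by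
    rw [hgL]
    exact (pow_dvd_pow_of_dvd htX N).mul_left _
  have hg0 : constantCoeff g = 0 := by
    obtain ⟨M, rfl⟩ : ∃ M, N = M + 1 := ⟨N - 1, by omega⟩
    have h1 : F (M + 1) = ∑ n ∈ Finset.range M, C (uu (n + 1) : ℂ) * ct ^ (n + 1) +
        C (uu 0 : ℂ) * ct ^ 0 := Finset.sum_range_succ' _ M
    rw [hg, h1, map_sub, map_add, map_sum, zP]
    have h2 : ∑ n ∈ Finset.range M, constantCoeff (C (uu (n + 1) : ℂ) * ct ^ (n + 1)) = 0 := by
      refine Finset.sum_eq_zero fun n _ => ?_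
      rw [map_mul, map_pow, X_dvd_iff.1 htX]
      simp
    rw [h2]
    simp [uu]
  have main : ∀ m, m ≤ N → X ^ m ∣ g := by
    intro m
    induction m with
    | zero =>
      intro _
      rw [pow_zero]
      exact one_dvd _
    | succ m ih =>
      intro hm
      rcases Nat.eq_zero_or_pos m with rfl | hm0
      · rw [zero_add, pow_one]
        exact X_dvd_iff.2 hg0
      have h0 := ih (by omega)
      obtain ⟨d1, e1⟩ := low u huc m g h0
      obtain ⟨d2, e2⟩ := low u huc m (D g) d1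
      obtain ⟨d3, e3⟩ := low u huc m (D (D g)) d2
      have h1 : coeff m (Lo g) = 0 := by
        exact (X_pow_dvd_iff.1 hXN) m (by omega)
      have h2 : X ^ (m + 1) ∣ 256 * ct * (D (D (D g)) +
          C (3 / 2 : ℂ) * D (D g) + C (11 / 16 : ℂ) * D g + C (3 / 32 : ℂ) * g) := by
        rw [pow_succ']
        refine mul_dvd_mul (htX.mul_left _) ?_
        exact dvd_add (dvd_add (dvd_add d3 (d2.mul_left _)) (d1.mul_left _)) (h0.mul_left _)
      have h3 := (X_pow_dvd_iff.1 h2) m (by omega)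
      rw [hLo, map_sub, h3, sub_zero] at h1
      have h4 : coeff m g = 0 := by
        have h5 : (m : ℂ) * (m * (m * coeff m g)) = 0 := by
          rw [← e1]
          change (m : ℂ) * (m * coeff m (D g)) = 0
          rw [← e2]
          change (m : ℂ) * coeff m (D (D g)) = 0
          rw [← e3]
          exact h1
        have hm' : (m : ℂ) ≠ 0 := by exact_mod_cast hm0.ne'
        have h6 := (mul_eq_zero.1 h5).resolve_left hm'
        have h7 := (mul_eq_zero.1 h6).resolve_left hm'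
        exact (mul_eq_zero.1 h7).resolve_left hm'
      rw [X_pow_dvd_iff]
      intro i hi
      rcases Nat.lt_succ_iff_lt_or_eq.1 hi with h | h
      · exact (X_pow_dvd_iff.1 h0) i h
      · rw [h, h4]
  have hfin := main N le_rfl
  rw [hg] at hfin
  exact hfin

end Pool.Agent.HS37.CQ
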