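import Pool.Agent.HS37.CQ.Stm

/-!
# Project CQ, piece CLA: the truncated Clausen formula modulo `p²`
-/

set_option autoImplicit false

open Polynomial

namespace Pool.Agent.HS37.CQ

namespace CLAP

/-- `w = X - X²` -/
noncomputable def w : ℤ[X] := X - X ^ 2

/-- `w' = 1 - 2 X` -/
noncomputable def w1 : ℤ[X] := 1 - 2 * X

theorem dw : derivative w = w1 := by
  simp [w, w1]

theorem dw1 : derivative w1 = -2 := by
  simp [w1]

/-- The third order operator. -/
noncomputable def L (n : ℤ) (g : ℤ[X]) : ℤ[X] :=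
  w ^ 2 * derivative (derivative (derivative g)) + 3 * w * w1 * derivative (derivative g) +
    (-2 * w + w1 ^ 2 + 4 * C n * w) * derivative g + 2 * C n * w1 * g

theorem L_add (n : ℤ) (f g : ℤ[X]) : L n (f + g) = L n f + L n g := by
  simp only [L, map_add]; ring

theorem L_sub (n : ℤ) (f g : ℤ[X]) : L n (f - g) = L n f - L n g := by
  simp only [L, map_sub]; ring

theorem L_zero (n : ℤ) : L n 0 = 0 := by
  simp [L]

theorem L_C_mul (n c : ℤ) (g : ℤ[X]) : L n (C c * g) = C c * L n g := by
  simp only [L, derivative_C_mul]; ring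

theorem L_sum (n : ℤ) (s : Finset ℕ) (f : ℕ → ℤ[X]) : L n (∑ k ∈ s, f k) = ∑ k ∈ s, L n (f k) := by
  classical
  induction s using Finset.induction_on with
  | empty => simp [L_zero]
  | insert a s ha ih => rw [Finset.sum_insert ha, Finset.sum_insert ha, L_add, ih]

/-- The square of a solution of the second order equation. -/
theorem L_sq (n : ℤ) (f : ℤ[X])
    (hf : w * derivative (derivative f) + w1 * derivative f + C n * f = 0) : L n (f ^ 2) = 0 := by
  have h1 := congrArg derivative hf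
  simp only [derivative_add, derivative_mul, dw, dw1, derivative_C, derivative_zero, zero_mul,
    zero_add] at h1
  have e1 : derivative (f ^ 2) = 2 * f * derivative f := by
    rw [sq, derivative_mul]; ring
  have e2 : derivative (derivative (f ^ 2)) = 2 * derivative f ^ 2 +
      2 * f * derivative (derivative f) := by
    rw [e1, derivative_mul, derivative_mul]
    simp only [derivative_ofNat, zero_mul, zero_add]
    ring
  have e3 : derivative (derivative (derivative (f ^ 2))) =
      6 * derivative f * derivative (derivative f) +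
      2 * f * derivative (derivative (derivative f)) := by
    rw [e2, derivative_add, derivative_mul, derivative_mul, derivative_mul, sq, derivative_mul]
    simp only [derivative_ofNat, zero_mul, zero_add]
    ring
  rw [L, e3, e2, e1]
  linear_combination (2 * w * f) * h1 + (6 * w * derivative f + 2 * w1 * f) * hf

/-- the second order operator on powers of `X` -/
theorem S_pow (n : ℤ) (k : ℕ) :
    X * (w * derivative (derivative (X ^ k : ℤ[X])) + w1 * derivative (X ^ k : ℤ[X]) +
      C n * X ^ k) = C ((k : ℤ) ^ 2) * X ^ k - C ((k : ℤ) * (k + 1) - n) * X ^ (k + 1) := by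
  rcases k with _ | _ | k
  · simp [w, w1]
    ring
  · simp [w, w1]
    ring
  · simp only [derivative_X_pow, derivative_mul, derivative_natCast, zero_mul, zero_add, w, w1,
      Nat.add_sub_cancel, map_natCast, map_pow, map_sub, map_mul, map_add, map_one]
    push_cast
    ring

/-- the third order operator on powers of `w` -/
theorem L_pow (n : ℤ) (k : ℕ) :
    w * L n (w ^ k) = w1 * (C ((k : ℤ) ^ 3) * w ^ k -
      C (2 * (2 * (k : ℤ) + 1) * ((k : ℤ) * (k + 1) - n)) * w ^ (k + 1)) := by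
  have hw1 : w1 ^ 2 = 1 - 4 * w := by simp only [w, w1]; ring
  rcases k with _ | _ | _ | k
  · simp [L]
    ring
  · simp [L, dw, dw1]
    linear_combination (w * w1) * hw1
  · have e1 : derivative (w ^ 2) = 2 * w * w1 := by rw [derivative_pow, dw]; simp
    have e2 : derivative (derivative (w ^ 2)) = 2 * w1 ^ 2 - 4 * w := by
      rw [e1, derivative_mul, derivative_mul, dw, dw1]
      simp only [derivative_ofNat]; ring
    have e3 : derivative (derivative (derivative (w ^ 2))) = -12 * w1 := by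
      rw [e2, derivative_sub, derivative_mul, derivative_mul, sq, derivative_mul, dw, dw1]
      simp only [derivative_ofNat]; ring
    simp only [L, zero_add, Nat.reduceAdd]
    rw [e3, e2, e1]
    push_cast
    simp only [map_mul, map_sub, map_add, map_one, map_ofNat, map_pow]
    linear_combination (8 * w ^ 2 * w1) * hw1
  · have e1 : derivative (w ^ (k + 3)) = ((k : ℤ[X]) + 3) * w ^ (k + 2) * w1 := by
      rw [derivative_pow, dw]; simp
    have e1' : derivative (w ^ (k + 2)) = ((k : ℤ[X]) + 2) * w ^ (k + 1) * w1 := by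
      rw [derivative_pow, dw]; simp
    have e1'' : derivative (w ^ (k + 1)) = ((k : ℤ[X]) + 1) * w ^ k * w1 := by
      rw [derivative_pow, dw]; simp
    have e2 : derivative (derivative (w ^ (k + 3))) = ((k : ℤ[X]) + 3) * ((k + 2) * w ^ (k + 1) *
        w1 ^ 2 - 2 * w ^ (k + 2)) := by
      rw [e1, derivative_mul, derivative_mul, e1', dw1]
      simp only [derivative_add, derivative_natCast, derivative_ofNat]
      ring
    have e3 : derivative (derivative (derivative (w ^ (k + 3)))) = ((k : ℤ[X]) + 3) * ((k + 2) *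
        ((k + 1) * w ^ k * w1 ^ 3 - 4 * w ^ (k + 1) * w1) - 2 * ((k + 2) * w ^ (k + 1) * w1)) := by
      rw [e2, derivative_mul, derivative_sub, derivative_mul, derivative_mul, derivative_mul, e1',
        e1'', sq, derivative_mul, dw1]
      simp only [derivative_add, derivative_natCast, derivative_ofNat]
      ring
    have h3 : w1 ^ 3 = w1 - 4 * w * w1 := by linear_combination w1 * hw1
    have h2 : w1 ^ 2 = 1 - 4 * w := hw1
    have hk : k + 1 + 1 + 1 = k + 3 := rfl
    rw [hk, L, e3, e2, e1, h3]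
    push_cast
    simp only [map_mul, map_sub, map_add, map_one, map_ofNat, map_pow, map_natCast]
    rw [h2]
    ring

/-- uniqueness -/
theorem uniq (n : ℤ) (g : ℤ[X]) (hL : L n g = 0) (h0 : g.coeff 0 = 0) : g = 0 := by
  have step : ∀ m : ℕ, X ^ (m + 1) ∣ g := by
    intro m
    induction m with
    | zero =>
      rw [zero_add, pow_one]
      exact X_dvd_iff.2 h0
    | succ m ih =>
      obtain ⟨q, hq⟩ := ih
      have d1 : derivative g = X ^ m * (((m : ℤ[X]) + 1) * q + X * derivative q) := by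
        rw [hq, derivative_mul, derivative_X_pow]
        simp only [Nat.add_sub_cancel, map_natCast]
        push_cast
        ring
      -- `θ`
      obtain ⟨q1, hq1⟩ : ∃ q1 : ℤ[X], X * derivative g = X ^ (m + 1) *
          (((m : ℤ[X]) + 1) * q + X * q1) := ⟨derivative q, by rw [d1]; ring⟩
      have key : ∀ (c : ℤ[X]) (r s : ℤ[X]), r = X ^ (m + 1) * (c * q + X * s) →
          derivative c = 0 → ∃ s' : ℤ[X], X * derivative r =
            X ^ (m + 1) * (((m : ℤ[X]) + 1) * c * q + X * s') := by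
        intro c r s hr hc
        refine ⟨((m : ℤ[X]) + 1) * s + derivative (c * q + X * s), ?_⟩
        rw [hr, derivative_mul, derivative_X_pow]
        simp only [Nat.add_sub_cancel, map_natCast]
        push_cast
        ring
      have hc1 : derivative ((m : ℤ[X]) + 1) = 0 := by simp
      obtain ⟨q2, hq2⟩ := key _ _ _ hq1 hc1
      have hc2 : derivative (((m : ℤ[X]) + 1) * ((m : ℤ[X]) + 1)) = 0 := by simp
      obtain ⟨q3, hq3⟩ := key _ _ _ hq2 hc2
      have t2 : X * derivative (X * derivative g) = X ^ 2 * derivative (derivative g) +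
          X * derivative g := by
        rw [derivative_mul, derivative_X]; ring
      have t3 : X * derivative (X * derivative (X * derivative g)) =
          X ^ 3 * derivative (derivative (derivative g)) + 3 * (X ^ 2 * derivative (derivative g)) +
          X * derivative g := by
        simp only [one_mul, derivative_add, derivative_mul, derivative_X]
        ring
      have e1 := hq1
      have e2 : X ^ 2 * derivative (derivative g) = X ^ (m + 1) *
          ((((m : ℤ[X]) + 1) * ((m : ℤ[X]) + 1) - ((m : ℤ[X]) + 1)) * q + X * (q2 - q1)) := by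
        linear_combination hq2 - t2 - hq1
      have e3 : X ^ 3 * derivative (derivative (derivative g)) = X ^ (m + 1) *
          ((((m : ℤ[X]) + 1) ^ 3 - 3 * ((m : ℤ[X]) + 1) ^ 2 + 2 * ((m : ℤ[X]) + 1)) * q +
          X * (q3 - 3 * q2 + 2 * q1)) := by
        linear_combination hq3 - t3 - 3 * e2 - hq1
      obtain ⟨gg, hgg⟩ : ∃ gg, gg = X * L n g := ⟨_, rfl⟩
      have e4 : gg = (1 - X) ^ 2 * (X ^ 3 * derivative (derivative (derivative g))) +
          3 * (1 - X) * w1 * (X ^ 2 * derivative (derivative g)) +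
          (-2 * w + w1 ^ 2 + 4 * C n * w) * (X * derivative g) + 2 * C n * w1 * (X * g) := by
        rw [hgg]; simp only [L, w]; ring
      rw [e3, e2, e1, hq] at e4
      have hgg0 : gg = 0 := by rw [hgg, hL, mul_zero]
      have e5 : X ^ (m + 1) * (((m : ℤ[X]) + 1) ^ 3 * q + X * ((q3 - 3 * q2 + 2 * q1) +
          (-2 + X) * ((((m : ℤ[X]) + 1) ^ 3 - 3 * ((m : ℤ[X]) + 1) ^ 2 + 2 * ((m : ℤ[X]) + 1)) * q +
            X * (q3 - 3 * q2 + 2 * q1)) + 3 * (q2 - q1) +
          (-9 + 6 * X) * ((((m : ℤ[X]) + 1) * ((m : ℤ[X]) + 1) - ((m : ℤ[X]) + 1)) * q +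
            X * (q2 - q1)) + q1 +
          (-2 * (1 - X) - 4 + 4 * X + 4 * C n * (1 - X)) * (((m : ℤ[X]) + 1) * q + X * q1) +
          2 * C n * w1 * q)) = 0 := by
        rw [← hgg0, e4]
        simp only [w, w1]
        ring
      have e6 := (mul_eq_zero.1 e5).resolve_left (pow_ne_zero _ X_ne_zero)
      have e7 := congrArg (fun r : ℤ[X] => r.coeff 0) e6
      have e8 : (((m : ℤ[X]) + 1) ^ 3 * q).coeff 0 = ((m : ℤ) + 1) ^ 3 * q.coeff 0 := by
        have : ((m : ℤ[X]) + 1) ^ 3 = C (((m : ℤ) + 1) ^ 3) := by simp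
        rw [this, coeff_C_mul]
      simp only [coeff_add, e8, mul_coeff_zero X, coeff_X_zero, zero_mul, add_zero, coeff_zero] at e7
      have e9 : q.coeff 0 = 0 := by
        rcases mul_eq_zero.1 e7 with h | h
        · exfalso
          have : (0 : ℤ) < ((m : ℤ) + 1) ^ 3 := by positivity
          omega
        · exact h
      obtain ⟨r, hr⟩ := X_dvd_iff.2 e9
      exact ⟨r, by rw [hq, hr]; ring⟩
  by_contra hg
  have h1 := step g.natDegree
  have h2 := natDegree_le_of_dvd h1 hg
  rw [natDegree_X_pow] at h2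
  omega

/-- `b_k = (-1)^k C(a, k) C(a + k, k)` -/
def bb (a k : ℕ) : ℤ := (-1 : ℤ) ^ k * (a.choose k : ℤ) * ((a + k).choose k : ℤ)

theorem bb_zero (a : ℕ) : bb a 0 = 1 := by simp [bb]

theorem bb_rec (a k : ℕ) :
    ((k : ℤ) + 1) ^ 2 * bb a (k + 1) = ((k : ℤ) * (k + 1) - (a : ℤ) * (a + 1)) * bb a k := by
  have h1 : (a.choose (k + 1) : ℤ) * ((k : ℤ) + 1) = (a.choose k : ℤ) * ((a : ℤ) - k) := by
    have h := Nat.choose_succ_right_eq a k
    rcases le_or_gt k a with hk | hk
    · have h' := congrArg (Nat.cast : ℕ → ℤ) h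
      push_cast [Nat.cast_sub hk] at h'
      exact h'
    · rw [Nat.choose_eq_zero_of_lt hk, Nat.choose_eq_zero_of_lt (Nat.lt_succ_of_lt hk)]
      simp
  have h2 : ((a + (k + 1)).choose (k + 1) : ℤ) * ((k : ℤ) + 1) =
      ((a : ℤ) + k + 1) * ((a + k).choose k : ℤ) := by
    have h := Nat.add_one_mul_choose_eq (a + k) k
    have h' := congrArg (Nat.cast : ℕ → ℤ) h
    push_cast at h'
    have e : a + (k + 1) = a + k + 1 := rfl
    rw [e, ← h']
  have h0 : (-1 : ℤ) ^ (k + 1) = (-1) ^ k * -1 := pow_succ _ _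
  rw [bb, bb, h0]
  calc ((k : ℤ) + 1) ^ 2 * ((-1) ^ k * -1 * (a.choose (k + 1) : ℤ) *
        ((a + (k + 1)).choose (k + 1) : ℤ)) =
      -(-1) ^ k * ((a.choose (k + 1) : ℤ) * ((k : ℤ) + 1)) *
        (((a + (k + 1)).choose (k + 1) : ℤ) * ((k : ℤ) + 1)) := by ring
    _ = _ := by rw [h1, h2]; ring

/-- the sum `∑ b_k X^k` -/
noncomputable def ff (N a : ℕ) : ℤ[X] := ∑ k ∈ Finset.range N, C (bb a k) * X ^ k

/-- the sum `∑ b_k C(2k, k) w^k` -/
noncomputable def hh (N a : ℕ) : ℤ[X] :=
  ∑ k ∈ Finset.range N, C (bb a k * ((2 * k).choose k : ℤ)) * w ^ k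

theorem ff_ode (N a : ℕ) (hN : a < N) :
    w * derivative (derivative (ff N a)) + w1 * derivative (ff N a) +
      C ((a : ℤ) * (a + 1)) * ff N a = 0 := by
  apply (mul_eq_zero.1 (_ : X * _ = 0)).resolve_left X_ne_zero
  have e : X * (w * derivative (derivative (ff N a)) + w1 * derivative (ff N a) +
      C ((a : ℤ) * (a + 1)) * ff N a) = ∑ k ∈ Finset.range N, C (bb a k) *
        (X * (w * derivative (derivative (X ^ k : ℤ[X])) + w1 * derivative (X ^ k : ℤ[X]) +
          C ((a : ℤ) * (a + 1)) * X ^ k)) := by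
    rw [ff]
    simp only [derivative_sum, derivative_C_mul, Finset.mul_sum, ← Finset.sum_add_distrib]
    refine Finset.sum_congr rfl fun k _ => ?_
    ring
  rw [e]
  have e2 : ∀ k ∈ Finset.range N, C (bb a k) *
        (X * (w * derivative (derivative (X ^ k : ℤ[X])) + w1 * derivative (X ^ k : ℤ[X]) +
          C ((a : ℤ) * (a + 1)) * X ^ k)) =
      (fun k : ℕ => C ((k : ℤ) ^ 2 * bb a k) * X ^ k) k -
        (fun k : ℕ => C ((k : ℤ) ^ 2 * bb a k) * X ^ k) (k + 1) := by
    intro k _
    rw [S_pow]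
    have h := bb_rec a k
    simp only
    push_cast
    rw [h]
    simp only [map_mul, map_sub, map_add, map_one, map_pow, map_natCast]
    ring
  rw [Finset.sum_congr rfl e2, Finset.sum_range_sub']
  have hb : bb a N = 0 := by rw [bb, Nat.choose_eq_zero_of_lt hN]; simp
  simp [hb]

theorem cb_rec (k : ℕ) : ((k : ℤ) + 1) * ((2 * (k + 1)).choose (k + 1) : ℤ) =
    2 * (2 * (k : ℤ) + 1) * ((2 * k).choose k : ℤ) := by
  have h := Nat.succ_mul_centralBinom_succ k
  rw [Nat.centralBinom, Nat.centralBinom] at h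
  have h' := congrArg (Nat.cast : ℕ → ℤ) h
  push_cast at h'
  linear_combination h'

theorem hh_ode (N a : ℕ) (hN : a < N) : L ((a : ℤ) * (a + 1)) (hh N a) = 0 := by
  have hw0 : w ≠ 0 := by
    intro h
    have := congrArg (fun r : ℤ[X] => r.coeff 1) h
    simp [w, coeff_X_pow] at this
  apply (mul_eq_zero.1 (_ : w * _ = 0)).resolve_left hw0
  rw [hh, L_sum, Finset.mul_sum]
  have e2 : ∀ k ∈ Finset.range N, w * L ((a : ℤ) * (a + 1))
        (C (bb a k * ((2 * k).choose k : ℤ)) * w ^ k) =
      (fun k : ℕ => w1 * (C ((k : ℤ) ^ 3 * (bb a k * ((2 * k).choose k : ℤ))) * w ^ k)) k -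
      (fun k : ℕ => w1 * (C ((k : ℤ) ^ 3 * (bb a k * ((2 * k).choose k : ℤ))) * w ^ k)) (k + 1) := by
    intro k _
    have h1 := bb_rec a k
    have h2 := cb_rec k
    have h3 : (((k + 1 : ℕ) : ℤ)) ^ 3 * (bb a (k + 1) * ((2 * (k + 1)).choose (k + 1) : ℤ)) =
        (2 * (2 * (k : ℤ) + 1) * ((k : ℤ) * (k + 1) - (a : ℤ) * (a + 1))) *
          (bb a k * ((2 * k).choose k : ℤ)) := by
      push_cast
      calc ((k : ℤ) + 1) ^ 3 * (bb a (k + 1) * ((2 * (k + 1)).choose (k + 1) : ℤ)) =
          (((k : ℤ) + 1) ^ 2 * bb a (k + 1)) *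
            (((k : ℤ) + 1) * ((2 * (k + 1)).choose (k + 1) : ℤ)) := by ring
        _ = _ := by rw [h1, h2]; ring
    simp only
    rw [h3, L_C_mul]
    calc w * (C (bb a k * ((2 * k).choose k : ℤ)) * L ((a : ℤ) * (a + 1)) (w ^ k)) =
        C (bb a k * ((2 * k).choose k : ℤ)) * (w * L ((a : ℤ) * (a + 1)) (w ^ k)) := by ring
      _ = _ := by
        rw [L_pow]
        simp only [map_mul, map_sub, map_add, map_one, map_pow, map_natCast, map_ofNat]
        ring
  rw [Finset.sum_congr rfl e2, Finset.sum_range_sub']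
  have hb : bb a N = 0 := by rw [bb, Nat.choose_eq_zero_of_lt hN]; simp
  simp [hb]

/-- Clausen's formula. -/
theorem clausen (N a : ℕ) (hN : a < N) : hh N a - ff N a ^ 2 = 0 := by
  apply uniq ((a : ℤ) * (a + 1))
  · rw [L_sub, hh_ode N a hN, L_sq _ _ (ff_ode N a hN), sub_zero]
  · have h0 : 0 < N := by omega
    have e1 : (ff N a).coeff 0 = 1 := by
      rw [ff, finsetSum_coeff, Finset.sum_eq_single_of_mem 0 (Finset.mem_range.2 h0)]
      · simp [bb_zero]
      · intro k _ hk
        rw [coeff_C_mul, coeff_X_pow, if_neg (Ne.symm hk), mul_zero]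
    have e2 : (hh N a).coeff 0 = 1 := by
      rw [hh, finsetSum_coeff, Finset.sum_eq_single_of_mem 0 (Finset.mem_range.2 h0)]
      · simp [bb_zero]
      · intro k _ hk
        rw [coeff_C_mul, coeff_zero_eq_eval_zero, eval_pow]
        simp [w, hk]
    rw [coeff_sub, e2, sq, mul_coeff_zero, e1]
    norm_num

/-- `q_k² ∏_{j < k} (j (j + 1) - x)` -/
noncomputable def bx (P k : ℕ) : ℤ[X] :=
  C (((P / k.factorial : ℕ) : ℤ) ^ 2) * ∏ j ∈ Finset.range k, (C ((j : ℤ) * (j + 1)) - X)

theorem bx_eval (P k a : ℕ) (hk : k.factorial ∣ P) :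
    (bx P k).eval ((a : ℤ) * (a + 1)) = (P : ℤ) ^ 2 * bb a k := by
  have h1 : ∀ k : ℕ, ∏ j ∈ Finset.range k, (((j : ℤ) * (j + 1)) - (a : ℤ) * (a + 1)) =
      (k.factorial : ℤ) ^ 2 * bb a k := by
    intro k
    induction k with
    | zero => simp [bb_zero]
    | succ k ih =>
      rw [Finset.prod_range_succ, ih, Nat.factorial_succ]
      have h := bb_rec a k
      push_cast
      calc (k.factorial : ℤ) ^ 2 * bb a k * ((k : ℤ) * (k + 1) - (a : ℤ) * (a + 1)) =
          (k.factorial : ℤ) ^ 2 * (((k : ℤ) * (k + 1) - (a : ℤ) * (a + 1)) * bb a k) := by ring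
        _ = _ := by rw [← h]; ring
  rw [bx, eval_mul, eval_C, eval_prod]
  simp only [eval_sub, eval_C, eval_X]
  rw [h1 k]
  obtain ⟨q, rfl⟩ := hk
  rw [Nat.mul_div_cancel_left _ k.factorial_pos]
  push_cast
  ring

/-- the difference with variable `a (a + 1)` -/
noncomputable def TT (p : ℕ) : ℤ[X][X] :=
  C (C (((p - 1).factorial : ℤ) ^ 2)) * (∑ k ∈ Finset.range p,
    C (bx (p - 1).factorial k * C ((2 * k).choose k : ℤ)) * (X - X ^ 2) ^ k) -
  (∑ k ∈ Finset.range p, C (bx (p - 1).factorial k) * X ^ k) ^ 2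

theorem TT_map (p a : ℕ) (hp : 0 < p) :
    (TT p).map (evalRingHom ((a : ℤ) * (a + 1))) =
      C (((p - 1).factorial : ℤ) ^ 4) * (hh p a - ff p a ^ 2) := by
  have hk : ∀ k ∈ Finset.range p, k.factorial ∣ (p - 1).factorial := fun k hk =>
    Nat.factorial_dvd_factorial (by rw [Finset.mem_range] at hk; omega)
  have e1 : (∑ k ∈ Finset.range p, C (bx (p - 1).factorial k) * X ^ k : ℤ[X][X]).map
      (evalRingHom ((a : ℤ) * (a + 1))) = C (((p - 1).factorial : ℤ) ^ 2) * ff p a := by
    rw [Polynomial.map_sum, ff, Finset.mul_sum]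
    refine Finset.sum_congr rfl fun k hk' => ?_
    rw [Polynomial.map_mul, Polynomial.map_C, Polynomial.map_pow, Polynomial.map_X,
      coe_evalRingHom, bx_eval _ _ _ (hk k hk'), C_mul]
    ring
  have e2 : (∑ k ∈ Finset.range p,
      C (bx (p - 1).factorial k * C ((2 * k).choose k : ℤ)) * (X - X ^ 2) ^ k : ℤ[X][X]).map
      (evalRingHom ((a : ℤ) * (a + 1))) = C (((p - 1).factorial : ℤ) ^ 2) * hh p a := by
    rw [Polynomial.map_sum, hh, Finset.mul_sum]
    refine Finset.sum_congr rfl fun k hk' => ?_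
    rw [Polynomial.map_mul, Polynomial.map_C, Polynomial.map_pow, Polynomial.map_sub,
      Polynomial.map_pow, Polynomial.map_X, coe_evalRingHom, eval_mul, eval_C,
      bx_eval _ _ _ (hk k hk'), w, C_mul, C_mul, C_mul]
    ring
  rw [TT, Polynomial.map_sub, Polynomial.map_mul, Polynomial.map_pow, e1, e2, Polynomial.map_C,
    coe_evalRingHom, eval_C]
  simp only [map_pow]
  ring

theorem prod_dvd (p : ℕ) (g : ℤ[X]) (h : ∀ i < p, g.eval ((i : ℤ) * (i + 1)) = 0) :
    ∏ i ∈ Finset.range p, (X - C ((i : ℤ) * (i + 1))) ∣ g := by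
  induction p with
  | zero => simp
  | succ p ih =>
    obtain ⟨q, hq⟩ := ih fun i hi => h i (Nat.lt_succ_of_lt hi)
    rw [Finset.prod_range_succ, hq]
    apply mul_dvd_mul_left
    rw [dvd_iff_isRoot, IsRoot]
    have h1 := h p (Nat.lt_succ_self p)
    rw [hq, eval_mul, eval_prod] at h1
    rcases mul_eq_zero.1 h1 with h2 | h2
    · exfalso
      rw [Finset.prod_eq_zero_iff] at h2
      obtain ⟨i, hi, h3⟩ := h2
      rw [Finset.mem_range] at hi
      simp only [eval_sub, eval_X, eval_C] at h3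
      have h4 : ((p : ℤ) - i) * (p + i + 1) = 0 := by linear_combination h3
      have hi' : (i : ℤ) < p := by exact_mod_cast hi
      have hi0 : (0 : ℤ) ≤ i := by positivity
      rcases mul_eq_zero.1 h4 with h5 | h5 <;> omega
    · exact h2

theorem sq_dvd (p a : ℕ) (hp : 0 < p) : (p : ℤ) ^ 2 ∣
    ∏ i ∈ Finset.range p, ((a : ℤ) * (a + 1) - (i : ℤ) * (i + 1)) := by
  have e : ∏ i ∈ Finset.range p, ((a : ℤ) * (a + 1) - (i : ℤ) * (i + 1)) =
      (∏ i ∈ Finset.range p, ((a : ℤ) - i)) * ∏ i ∈ Finset.range p, ((a : ℤ) + i + 1) := by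
    rw [← Finset.prod_mul_distrib]
    refine Finset.prod_congr rfl fun i _ => ?_
    ring
  rw [e, sq]
  apply mul_dvd_mul
  · have hm : a % p ∈ Finset.range p := Finset.mem_range.2 (Nat.mod_lt _ hp)
    refine dvd_trans ?_ (Finset.dvd_prod_of_mem _ hm)
    refine ⟨(a / p : ℕ), ?_⟩
    have := Nat.div_add_mod a p
    have h' : (a : ℤ) = (p : ℤ) * ((a / p : ℕ) : ℤ) + ((a % p : ℕ) : ℤ) := by exact_mod_cast this.symm
    linear_combination h'
  · have hlt : a % p < p := Nat.mod_lt _ hp
    have hm : p - 1 - a % p ∈ Finset.range p := Finset.mem_range.2 (by omega)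
    refine dvd_trans ?_ (Finset.dvd_prod_of_mem _ hm)
    refine ⟨(a / p : ℕ) + 1, ?_⟩
    have := Nat.div_add_mod a p
    have h' : (a : ℤ) = (p : ℤ) * ((a / p : ℕ) : ℤ) + ((a % p : ℕ) : ℤ) := by exact_mod_cast this.symm
    have h2 : (((p - 1 - a % p : ℕ)) : ℤ) = (p : ℤ) - 1 - ((a % p : ℕ) : ℤ) := by
      omega
    rw [h2]
    linear_combination h'

end CLAP

open CLAP in
theorem t_CLA : S_CLA := by
  intro p a hp
  have hp0 := hp.pos
  have key : C ((p : ℤ) ^ 2) ∣ hh p a - ff p a ^ 2 := by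
    rw [C_dvd_iff_dvd_coeff]
    intro m
    have h1 : ∏ i ∈ Finset.range p, (X - C ((i : ℤ) * (i + 1))) ∣ (TT p).coeff m := by
      apply prod_dvd
      intro i hi
      have h2 := congrArg (fun r : ℤ[X] => r.coeff m) (TT_map p i hp0)
      simp only [clausen p i hi, mul_zero, coeff_zero, coeff_map, coe_evalRingHom] at h2
      exact h2
    have h2 : (∏ i ∈ Finset.range p, ((a : ℤ) * (a + 1) - (i : ℤ) * (i + 1))) ∣
        ((TT p).coeff m).eval ((a : ℤ) * (a + 1)) := by
      obtain ⟨q, hq⟩ := h1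
      rw [hq, eval_mul, eval_prod]
      simp only [eval_sub, eval_X, eval_C]
      exact dvd_mul_right _ _
    have h3 := congrArg (fun r : ℤ[X] => r.coeff m) (TT_map p a hp0)
    simp only [coeff_map, coe_evalRingHom, coeff_C_mul] at h3
    rw [h3] at h2
    have h4 := (sq_dvd p a hp0).trans h2
    have hpp : Prime (p : ℤ) := Nat.prime_iff_prime_int.1 hp
    have cop : IsCoprime ((p : ℤ) ^ 2) (((p - 1).factorial : ℤ) ^ 4) := by
      apply IsCoprime.pow
      rw [Prime.coprime_iff_not_dvd hpp]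
      intro h
      have h5 : p ∣ (p - 1).factorial := by exact_mod_cast h
      rw [hp.dvd_factorial] at h5
      omega
    exact cop.dvd_of_dvd_mul_left h4
  obtain ⟨W, hW⟩ := key
  refine ⟨W, ?_⟩
  rw [← hW]
  rfl

end Pool.Agent.HS37.CQ
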