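import Pool.Agent.HS37.CQ.Stm
import Pool.Agent.HS37.SP.Val

/-!
# Project CQ, piece CLO: closure properties of pairs
-/

set_option autoImplicit false

open UpperHalfPlane MatrixGroups Complex
open Pool.Agent.HS37.SP

namespace Pool.Agent.HS37.CQ

theorem clo_two (τ : ℍ) : (2 * (τ : ℂ) ^ 2) ≠ 0 :=
  mul_ne_zero two_ne_zero (pow_ne_zero _ τ.ne_zero)

theorem clo_mul {k l : ℤ} {g g' f f' : ℍ → ℂ} (hg : Pr k g g') (hf : Pr l f f') :
    Pr (k + l) (fun τ => g τ * f τ) (fun τ => g' τ * f' τ) := by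
  refine ⟨?_, ?_, ?_, ?_, ?_, ?_⟩
  · intro γ τ h
    have hw := sl_den_ne γ τ
    rw [hg.sl γ τ h, hf.sl γ τ h, mul_add, zpow_add₀ hw]
    ring
  · intro γ τ h
    have hw := sl_den_ne γ τ
    rw [hg.sl' γ τ h, hf.sl' γ τ h, mul_add, zpow_add₀ hw]
    ring
  · intro τ
    rw [hg.fr, hf.fr, zpow_add₀ (clo_two τ)]
    ring
  · intro τ
    rw [hg.fr', hf.fr', zpow_add₀ (clo_two τ)]
    ring
  · exact hg.holo.mul hf.holo
  · exact hg.holo'.mul hf.holo'

theorem clo_const (z : ℂ) : Pr 0 (fun _ => z) (fun _ => z) := by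
  refine ⟨?_, ?_, ?_, ?_, ?_, ?_⟩
  · intro γ τ _; simp
  · intro γ τ _; simp
  · intro τ; simp
  · intro τ; simp
  · exact differentiableOn_const z
  · exact differentiableOn_const z

theorem clo_smul {k : ℤ} {g g' : ℍ → ℂ} (z : ℂ) (hg : Pr k g g') :
    Pr k (fun τ => z * g τ) (fun τ => z * g' τ) := by
  have h := clo_mul (clo_const z) hg
  rwa [zero_add] at h

theorem clo_pow {k : ℤ} {g g' : ℍ → ℂ} (hg : Pr k g g') (n : ℕ) :
    Pr (n * k) (fun τ => g τ ^ n) (fun τ => g' τ ^ n) := by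
  induction n with
  | zero =>
    have h := clo_const 1
    simpa using h
  | succ n ih =>
    have h := clo_mul ih hg
    have e1 : (fun τ => g τ ^ (n + 1)) = fun τ => g τ ^ n * g τ := by
      funext τ; rw [pow_succ]
    have e2 : (fun τ => g' τ ^ (n + 1)) = fun τ => g' τ ^ n * g' τ := by
      funext τ; rw [pow_succ]
    have e3 : ((n + 1 : ℕ) : ℤ) * k = (n : ℤ) * k + k := by push_cast; ring
    rw [e1, e2, e3]
    exact h

theorem t_CLO : S_CLO := by
  refine ⟨fun k l g g' f f' hg hf => clo_mul hg hf, ?_, fun k g g' z hg => clo_smul z hg, clo_const,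
    fun k g g' n hg => clo_pow hg n, ?_, ?_⟩
  · intro k g g' f f' hg hf
    refine ⟨?_, ?_, ?_, ?_, ?_, ?_⟩
    · intro γ τ h
      rw [hg.sl γ τ h, hf.sl γ τ h, mul_add]
    · intro γ τ h
      rw [hg.sl' γ τ h, hf.sl' γ τ h, mul_add]
    · intro τ
      rw [hg.fr, hf.fr, mul_add]
    · intro τ
      rw [hg.fr', hf.fr', mul_add]
    · exact hg.holo.add hf.holo
    · exact hg.holo'.add hf.holo'
  · intro k g g' hg h0 h0'
    refine ⟨?_, ?_, ?_, ?_, ?_, ?_⟩
    · intro γ τ h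
      rw [hg.sl γ τ h, mul_inv, mul_neg, zpow_neg]
    · intro γ τ h
      rw [hg.sl' γ τ h, mul_inv, mul_neg, zpow_neg]
    · intro τ
      rw [hg.fr, mul_inv, zpow_neg]
    · intro τ
      rw [hg.fr', mul_inv, zpow_neg]
    · exact hg.holo.inv fun z _ => h0 _
    · exact hg.holo'.inv fun z _ => h0' _
  · intro k g g' hg
    exact ⟨hg.sl', hg.sl, hg.fr', hg.fr, hg.holo', hg.holo⟩

end Pool.Agent.HS37.CQ
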