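import Pool.Agent.HS37.CQ.Stm
import Pool.Agent.HS37.SP.Neg
import Pool.Agent.HS37.SP.Qmul

/-!
# Project CQ, piece CON: invariant functions which are holomorphic at both cusps are constant
-/

set_option autoImplicit false

open Matrix MatrixGroups UpperHalfPlane ModularForm ModularFormClass OnePoint CongruenceSubgroup
open Pool.Agent.HS37.SP

namespace Pool.Agent.HS37.CQ

lemma con_even {γ : SL(2, ℤ)} (h : γ ∈ Gamma0 2) : (2 : ℤ) ∣ γ 1 0 := by
  rw [Gamma0_mem] at h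
  exact (ZMod.intCast_zmod_eq_zero_iff_dvd _ 2).1 h

lemma con_half_im (τ : ℍ) (j : ℤ) : 0 < (((τ : ℂ) + j) / 2).im := by
  have h := τ.im_pos
  have h2 : (((τ : ℂ) + j) / 2).im = τ.im / 2 := by
    simp
  rw [h2]
  linarith

lemma con_fri (τ : ℍ) (j : ℤ) :
    (ModularGroup.S * ModularGroup.T ^ j) • τ = fri ⟨((τ : ℂ) + j) / 2, con_half_im τ j⟩ := by
  have h0 : ((τ : ℂ) + j) ≠ 0 := by
    intro h
    have h1 := congrArg Complex.im h
    have h2 := τ.im_pos
    simp at h1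
    linarith
  have hval : -1 / (2 * (((τ : ℂ) + j) / 2)) = (-((τ : ℂ) + j))⁻¹ := by
    rw [mul_div_cancel₀ _ (two_ne_zero : (2 : ℂ) ≠ 0), inv_neg, neg_div, one_div]
  have e1 : (((ModularGroup.S * ModularGroup.T ^ j) • τ : ℍ) : ℂ) = (-((τ : ℂ) + j))⁻¹ := by
    rw [mul_smul, modular_T_zpow_smul, modular_S_smul]
    simp [add_comm]
  have him : 0 < ((-((τ : ℂ) + j))⁻¹).im := by
    rw [← e1]
    exact UpperHalfPlane.im_pos _
  apply UpperHalfPlane.ext
  rw [e1]
  show _ = ((ofComplex (-1 / (2 * (((τ : ℂ) + j) / 2))) : ℍ) : ℂ)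
  rw [hval, ofComplex_apply_of_im_pos him]

lemma con_val {F F' : ℍ → ℂ} (h : Pr 0 F F') (γ : SL(2, ℤ)) (hγ : ¬ (2 : ℤ) ∣ γ 1 0) :
    ∃ j : ℤ, ∀ τ : ℍ, F (γ • τ) = F' ⟨((τ : ℂ) + j) / 2, con_half_im τ j⟩ := by
  obtain ⟨j, hj⟩ : ∃ j : ℤ, (2 : ℤ) ∣ γ 1 0 * j - γ 1 1 := by
    by_cases h1 : (2 : ℤ) ∣ γ 1 1
    · exact ⟨0, by rw [mul_zero, zero_sub]; exact (dvd_neg).2 h1⟩
    · refine ⟨1, ?_⟩
      rw [mul_one]
      omega
  refine ⟨j, fun τ => ?_⟩
  have e1 : (γ * (ModularGroup.S * ModularGroup.T ^ j)⁻¹) 1 0 = γ 1 0 * j - γ 1 1 := by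
    simp [Matrix.SpecialLinearGroup.coe_inv, Matrix.adjugate_fin_two,
      ModularGroup.coe_T_zpow, ModularGroup.S, Matrix.mul_apply, Fin.sum_univ_two]
    ring
  have e2 : γ • τ = (γ * (ModularGroup.S * ModularGroup.T ^ j)⁻¹) •
      ((ModularGroup.S * ModularGroup.T ^ j) • τ) := by
    rw [← mul_smul, inv_mul_cancel_right]
  rw [e2, h.sl _ _ (by rw [e1]; exact hj), mul_zero, zpow_zero, one_mul, con_fri, h.fr, zpow_zero,
    one_mul]

theorem t_CON : S_CON := by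
  intro F F' c c' hP hq hq' τ
  have hb := bounded_of_qexp hq
  have hb' := bounded_of_qexp hq'
  have hinv : ∀ γ : SL(2, ℤ), (2 : ℤ) ∣ γ 1 0 → F ∣[(0 : ℤ)] γ = F := by
    intro γ hγ
    ext z
    rw [ModularForm.SL_slash_apply, hP.sl γ z hγ]
    simp
  obtain ⟨z, hz⟩ := ModularForm.eq_const_of_weight_zero (𝒢 := ((Gamma0 2 : Subgroup SL(2, ℤ)) :
      Subgroup (GL (Fin 2) ℝ)))
    { toFun := F
      slash_action_eq' := by
        rintro _ ⟨γ, hγ, rfl⟩
        exact hinv γ (con_even hγ)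
      holo' := UpperHalfPlane.mdifferentiable_iff.2 hP.holo
      bdd_at_cusps' := by
        intro x hx
        rw [Subgroup.IsArithmetic.isCusp_iff_isCusp_SL2Z] at hx
        rw [isBoundedAt_iff_forall_SL2Z hx]
        intro γ _
        show IsBoundedAtImInfty (F ∣[(0 : ℤ)] γ)
        by_cases hγ : (2 : ℤ) ∣ γ 1 0
        · rw [hinv γ hγ]
          exact hb
        · obtain ⟨j, hj⟩ := con_val hP γ hγ
          rw [UpperHalfPlane.isBoundedAtImInfty_iff] at hb' ⊢
          obtain ⟨M, A, hM⟩ := hb'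
          refine ⟨M, 2 * A, fun w hw => ?_⟩
          have e : (F ∣[(0 : ℤ)] γ) w = F' ⟨((w : ℂ) + j) / 2, con_half_im w j⟩ := by
            rw [ModularForm.SL_slash_apply, hj w]
            simp
          rw [e]
          apply hM
          show A ≤ (((w : ℂ) + j) / 2).im
          have h2 : (((w : ℂ) + j) / 2).im = w.im / 2 := by
            simp
          rw [h2]
          linarith }
  have hF : ∀ τ, F τ = z := fun τ => congrFun hz τ
  have hc : c = PowerSeries.C z := by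
    refine t_QMUL.2.2.1 F 0 c (PowerSeries.C z) hq ?_
    intro τ
    rw [pow_zero, one_mul, hF]
    have h3 := hasSum_single (f := fun i : ℕ => PowerSeries.coeff i (PowerSeries.C z) * qq τ ^ i) 0
      (by
        intro i hi
        rw [PowerSeries.coeff_C, if_neg hi, zero_mul])
    simpa using h3
  rw [hF, hc]
  simp

end Pool.Agent.HS37.CQ
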