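import Pool.Agent.HS37.CQ.Stm

set_option autoImplicit false

/-! Piece EVL of project CQ (helper55). -/

open UpperHalfPlane ModularForm ModularFormClass MatrixGroups EisensteinSeries Complex
open Pool.Agent.HS37.SP

namespace Pool.Agent.HS37.CQ

theorem t_EVL (hf : S_T3F) (ht : S_T3P) (hp : S_PRE) (hr : S_REL) (hb : S_BAS) (hc : S_CLO) :
    S_EVL := by
  obtain ⟨f1, f2⟩ := hf
  obtain ⟨t1, t2, t3⟩ := ht
  obtain ⟨-, -, pD, -, py, -⟩ := hp
  obtain ⟨r1, -, -, -, -, -, -, e0, s0⟩ := hr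
  obtain ⟨-, -, -, -, -, hinv, -⟩ := hc
  have hD0 : ∀ τ, fD τ ≠ 0 := fun τ => mul_ne_zero (e0 τ) (s0 τ)
  have hP0 : fP tau0 = 0 := t2 hb.2.1
  have pDi : Pr (-4) (fun τ => (fD τ)⁻¹) (fun τ => (fD τ)⁻¹) := hinv 4 _ _ pD hD0 hD0
  have hy0 : fy tau0 = 0 := by rw [fy, hP0]; simp
  have s1 : hsum 0 3 fy tau0 = 4 * fy tauX := by
    rw [hsum, Finset.sum_congr rfl (g := fun _ => fy tauX), Finset.sum_const, t3, nsmul_eq_mul]
    · norm_num
    · intro t h
      have := t1 0 fy (by norm_num) py t h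
      rwa [mul_zero] at this
  have s2 : hsum (-8) 3 (fun τ => (fD τ)⁻¹) tau0 = 4 * (fD tauX)⁻¹ := by
    rw [hsum, Finset.sum_congr rfl (g := fun _ => (fD tauX)⁻¹), Finset.sum_const, t3,
      nsmul_eq_mul]
    · norm_num
    · intro t h
      exact t1 (-4) (fun τ => (fD τ)⁻¹) (by norm_num) pDi t h
  have g1 := f1 tau0
  have g2 := f2 tau0
  rw [s1, hy0] at g1
  rw [s2, hy0] at g2
  have hy1 : fy tauX = -12288 := by linear_combination g1 / 4
  refine ⟨?_, ?_, ?_, hP0⟩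
  · rw [fy, div_eq_iff (hD0 tauX)] at hy1
    exact hy1
  · have h1 : fD tau0 * 4 = 2916 * fD tauX := by
      have h2 := hD0 tauX
      field_simp at g2
      linear_combination g2
    linear_combination h1 / 4
  · have h1 := r1 tau0
    rw [hP0] at h1
    rw [fh, div_eq_iff (e0 tau0)]
    linear_combination -h1

end Pool.Agent.HS37.CQ
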