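import Pool.Agent.HS37.CQ.Stm

set_option autoImplicit false

/-! Piece EXP of project CQ (helper55). -/

open UpperHalfPlane ModularForm ModularFormClass MatrixGroups EisensteinSeries Complex
open Pool.Agent.HS37.SP

namespace Pool.Agent.HS37.CQ

namespace ExpPiece

lemma bern4 : bernoulli 4 = -1 / 30 := by
  rw [bernoulli_eq_bernoulli'_of_ne_one (by norm_num), bernoulli'_four]

lemma bern2 : bernoulli 2 = 1 / 6 := by
  rw [bernoulli_eq_bernoulli'_of_ne_one (by norm_num), bernoulli'_two]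

lemma eis4 (n : ℕ) : PowerSeries.coeff n (eis 4) =
    if n = 0 then 1 else 240 * (ArithmeticFunction.sigma 3 n : ℂ) := by
  rw [eis, PowerSeries.coeff_mk]
  split_ifs with h
  · rfl
  · rw [bern4]
    push_cast
    norm_num

lemma eis2 (n : ℕ) : PowerSeries.coeff n (eis 2) =
    if n = 0 then 1 else -24 * (ArithmeticFunction.sigma 1 n : ℂ) := by
  rw [eis, PowerSeries.coeff_mk]
  split_ifs with h
  · rfl
  · rw [bern2]
    push_cast
    norm_num

lemma vps_coeff (c : PowerSeries ℂ) (n : ℕ) : PowerSeries.coeff n (vps 2 c) =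
    if 2 ∣ n then PowerSeries.coeff (n / 2) c else 0 := by
  rw [vps, PowerSeries.coeff_mk]

lemma congr {g h : ℍ → ℂ} {c d : PowerSeries ℂ} {e f : ℕ} (hg : QExp g e c) (h1 : ∀ τ, g τ = h τ)
    (h2 : c = d) (h3 : e = f) : QExp h f d := by
  have : g = h := funext h1
  rw [← this, ← h2, ← h3]
  exact hg

lemma ce_coeff (n : ℕ) : ∃ z : ℤ, PowerSeries.coeff n ce = z := by
  have h4 : PowerSeries.coeff n ce = 1 / 240 * (PowerSeries.coeff n (eis 4) -
      PowerSeries.coeff n (vps 2 (eis 4))) := by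
    rw [ce, PowerSeries.coeff_C_mul, map_sub]
  rw [h4, vps_coeff, eis4, eis4]
  by_cases hn : n = 0
  · subst hn
    exact ⟨0, by simp⟩
  · by_cases h2 : 2 ∣ n
    · have h5 : n / 2 ≠ 0 := by omega
      rw [if_neg hn, if_pos h2, if_neg h5]
      exact ⟨(ArithmeticFunction.sigma 3 n : ℤ) - (ArithmeticFunction.sigma 3 (n / 2) : ℤ), by
        push_cast; ring⟩
    · rw [if_neg hn, if_neg h2]
      exact ⟨(ArithmeticFunction.sigma 3 n : ℤ), by push_cast; ring⟩

lemma cs_coeff (n : ℕ) : ∃ z : ℤ, PowerSeries.coeff n cs = z := by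
  have h4 : PowerSeries.coeff n cs = 1 / 15 * (16 * PowerSeries.coeff n (vps 2 (eis 4)) -
      PowerSeries.coeff n (eis 4)) := by
    rw [cs, PowerSeries.coeff_C_mul, map_sub,
      show (16 : PowerSeries ℂ) = PowerSeries.C (16 : ℂ) from (map_ofNat PowerSeries.C 16).symm, PowerSeries.coeff_C_mul]
  rw [h4, vps_coeff, eis4, eis4]
  by_cases hn : n = 0
  · subst hn
    exact ⟨1, by simp; norm_num⟩
  · by_cases h2 : 2 ∣ n
    · have h5 : n / 2 ≠ 0 := by omega
      rw [if_neg hn, if_pos h2, if_neg h5]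
      exact ⟨256 * (ArithmeticFunction.sigma 3 (n / 2) : ℤ) -
        16 * (ArithmeticFunction.sigma 3 n : ℤ), by push_cast; ring⟩
    · rw [if_neg hn, if_neg h2]
      exact ⟨-16 * (ArithmeticFunction.sigma 3 n : ℤ), by push_cast; ring⟩

lemma cP_coeff' (n : ℕ) : PowerSeries.coeff n cP = 2 * PowerSeries.coeff n (vps 2 (eis 2)) -
      PowerSeries.coeff n (eis 2) := by
  rw [cP, map_sub, show (2 : PowerSeries ℂ) = PowerSeries.C (2 : ℂ) from (map_ofNat PowerSeries.C 2).symm,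
    PowerSeries.coeff_C_mul]

lemma cP_coeff (n : ℕ) : ∃ z : ℤ, PowerSeries.coeff n cP = z := by
  rw [cP_coeff', vps_coeff, eis2, eis2]
  by_cases hn : n = 0
  · subst hn
    exact ⟨1, by simp; norm_num⟩
  · by_cases h2 : 2 ∣ n
    · have h5 : n / 2 ≠ 0 := by omega
      rw [if_neg hn, if_pos h2, if_neg h5]
      exact ⟨24 * (ArithmeticFunction.sigma 1 n : ℤ) -
        48 * (ArithmeticFunction.sigma 1 (n / 2) : ℤ), by push_cast; ring⟩
    · rw [if_neg hn, if_neg h2]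
      exact ⟨24 * (ArithmeticFunction.sigma 1 n : ℤ), by push_cast; ring⟩

end ExpPiece

open ExpPiece

theorem t_EXP (hb : S_BAS) (he : S_EIS) (hq : S_QMUL) : S_EXP := by
  obtain ⟨-, -, hdbl, hE2⟩ := hb
  obtain ⟨⟨-, hE4, -⟩, -⟩ := he
  obtain ⟨-, hadd, -, hsc, -, -⟩ := hq
  have hE4d : QExp (fun τ => E₄ (dbl τ)) 0 (vps 2 (eis 4)) := hdbl _ 0 _ hE4
  have hE2d : QExp (fun τ => E2 (dbl τ)) 0 (vps 2 (eis 2)) := hdbl _ 0 _ hE2
  refine ⟨?_, ?_, ?_, ce_coeff, cs_coeff, cP_coeff, ?_, ?_, ?_, ?_⟩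
  · refine congr (hsc _ 0 _ (1 / 240) (hadd _ _ 0 _ _ hE4 (hsc _ 0 _ (-1) hE4d))) ?_ ?_ rfl
    · intro τ
      rw [fe]
      ring
    · rw [ce, show PowerSeries.C (-1 : ℂ) = -1 by simp]
      ring
  · refine congr (hsc _ 0 _ (1 / 15) (hadd _ _ 0 _ _ (hsc _ 0 _ 16 hE4d) (hsc _ 0 _ (-1) hE4)))
      ?_ ?_ rfl
    · intro τ
      rw [fs]
      ring
    · rw [cs, show PowerSeries.C (-1 : ℂ) = -1 by simp, show PowerSeries.C (16 : ℂ) = 16 from map_ofNat PowerSeries.C 16]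
      ring
  · refine congr (hadd _ _ 0 _ _ (hsc _ 0 _ 2 hE2d) (hsc _ 0 _ (-1) hE2)) ?_ ?_ rfl
    · intro τ
      rw [fP]
      ring
    · rw [cP, show PowerSeries.C (-1 : ℂ) = -1 by simp, show PowerSeries.C (2 : ℂ) = 2 from map_ofNat PowerSeries.C 2]
      ring
  · rw [ce, PowerSeries.coeff_C_mul, map_sub, vps_coeff, eis4]
    simp
  · rw [ce, PowerSeries.coeff_C_mul, map_sub, vps_coeff, eis4]
    norm_num
  · rw [cs, PowerSeries.coeff_C_mul, map_sub,
      show (16 : PowerSeries ℂ) = PowerSeries.C (16 : ℂ) from (map_ofNat PowerSeries.C 16).symm, PowerSeries.coeff_C_mul,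
      vps_coeff, eis4]
    norm_num
  · rw [cP_coeff', vps_coeff, eis2]
    norm_num

end Pool.Agent.HS37.CQ
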