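import Pool.Agent.HS37.CQ.Stm

/-!
# Project CQ, piece EXT
-/

set_option autoImplicit false

open Pool.Agent.HS37.SP

namespace Pool.Agent.HS37.CQ

namespace EXTP

theorem int_conj {w : ℂ} (hw : IsIntegral ℤ w) : IsIntegral ℤ ((starRingEnd ℂ) w) :=
  map_isIntegral_int (starRingEnd ℂ) hw

/-- A real algebraic integer `w + w̄` with `p² (w + w̄ + z)` an integer prime to ... -/
theorem key (p : ℕ) (hp : p.Prime) (w : ℂ) (hw : IsIntegral ℤ w) (z M : ℤ)
    (h : (p : ℂ) ^ 2 * (w + (starRingEnd ℂ) w + z) = M) : (p : ℤ) ^ 2 ∣ M := by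
  have hp0 : (p : ℂ) ≠ 0 := by exact_mod_cast hp.ne_zero
  have hs : IsIntegral ℤ (w + (starRingEnd ℂ) w + z) :=
    (hw.add (int_conj hw)).add (isIntegral_algebraMap (R := ℤ) (x := z))
  have he : w + (starRingEnd ℂ) w + z = algebraMap ℚ ℂ ((M : ℚ) / (p : ℚ) ^ 2) := by
    rw [eq_comm]
    simp only [eq_ratCast, Rat.cast_div, Rat.cast_intCast, Rat.cast_pow, Rat.cast_natCast]
    rw [div_eq_iff (pow_ne_zero _ hp0), ← h]
    ring
  rw [he] at hs
  have hq : IsIntegral ℤ ((M : ℚ) / (p : ℚ) ^ 2) :=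
    (isIntegral_algebraMap_iff (algebraMap ℚ ℂ).injective).1 hs
  obtain ⟨m, hm⟩ := IsIntegrallyClosed.isIntegral_iff.1 hq
  refine ⟨m, ?_⟩
  have hpq : (p : ℚ) ≠ 0 := by exact_mod_cast hp.ne_zero
  have h1 : (M : ℚ) = (p : ℚ) ^ 2 * m := by
    have : (m : ℚ) = (M : ℚ) / (p : ℚ) ^ 2 := by
      rw [← hm]; simp
    rw [this]
    field_simp
  exact_mod_cast h1

end EXTP

open EXTP in
theorem t_EXT : S_EXT := by
  intro p N T K c' l w hp hw hT hK hl
  have hpp : Prime (p : ℤ) := Nat.prime_iff_prime_int.1 hp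
  have cop : IsCoprime ((p : ℤ) ^ 2) (K * T) := by
    apply IsCoprime.pow_left
    rw [Prime.coprime_iff_not_dvd hpp]
    intro h
    rcases hpp.dvd_or_dvd h with h | h
    · exact hK h
    · exact hT h
  have hcK : ∀ z : ℤ, (starRingEnd ℂ) (z : ℂ) = z := fun z => map_intCast _ z
  have hcp : (starRingEnd ℂ) (p : ℂ) = p := map_natCast _ p
  constructor
  · intro h1 h2
    have h2' := congrArg (starRingEnd ℂ) h2
    simp only [map_mul, map_sub, map_pow, hcK, hcp] at h2'
    have h3 : (p : ℤ) ^ 2 ∣ (N - c' * T) * (K * T) := by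
      apply key p hp w hw (-(2 * K * c'))
      push_cast
      generalize (starRingEnd ℂ) l = m at *
      generalize (starRingEnd ℂ) w = w' at *
      rw [← hl, ← h1]
      rw [← h1] at h2 h2'
      linear_combination -h2 - h2'
    exact cop.dvd_of_dvd_mul_right h3
  · intro h1 h2
    have h2' := congrArg (starRingEnd ℂ) h2
    simp only [map_mul, map_add, map_pow, hcK, hcp, map_ofNat] at h2'
    have h3 : (p : ℤ) ^ 2 ∣ (N + 2 * c' * T) * (K * T) := by
      apply key p hp w hw (K * c')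
      push_cast
      generalize (starRingEnd ℂ) l = m at *
      generalize (starRingEnd ℂ) w = w' at *
      rw [← hl, ← h1]
      rw [← h1] at h2 h2'
      linear_combination -h2 - h2'
    exact cop.dvd_of_dvd_mul_right h3

end Pool.Agent.HS37.CQ
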