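import Pool.Agent.HS37.CQ.Stm

/-!
# Project CQ: assembly
-/

set_option autoImplicit false

open UpperHalfPlane ModularForm ModularFormClass MatrixGroups EisensteinSeries Complex
open Pool.Agent.HS37.SP

namespace Pool.Agent.HS37.CQ

lemma coe_tauX : ((tauX : ℍ) : ℂ) = (1 + 3 * Complex.I) / 2 := by
  unfold tauX
  rw [ofComplex_apply_of_im_pos (by norm_num)]

/-- the sum without denominators -/
def SN (p : ℕ) (c : ℤ) : ℤ := ∑ k ∈ Finset.range p, (uu k : ℤ) * c ^ (p - 1 - k)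

lemma SN_half (hU : S_UDV) {p δ : ℕ} (hp : p.Prime) (hpδ : p = 2 * δ + 1) (c : ℤ) :
    (p : ℤ) ^ 2 ∣ SN p c - c ^ δ * NN δ c := by
  have h2 : p ≠ 2 := by omega
  have hsub : Finset.range (δ + 1) ⊆ Finset.range p := by
    intro i hi
    rw [Finset.mem_range] at hi ⊢
    omega
  unfold SN NN
  rw [← Finset.sum_sdiff hsub, Finset.mul_sum]
  have e : ∑ n ∈ Finset.range (δ + 1), c ^ δ * ((uu n : ℤ) * c ^ (δ - n)) =
      ∑ k ∈ Finset.range (δ + 1), (uu k : ℤ) * c ^ (p - 1 - k) := by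
    apply Finset.sum_congr rfl
    intro n hn
    rw [Finset.mem_range] at hn
    have : p - 1 - n = δ + (δ - n) := by omega
    rw [this, pow_add]
    ring
  rw [e, add_sub_cancel_right]
  apply Finset.dvd_sum
  intro k hk
  rw [Finset.mem_sdiff, Finset.mem_range, Finset.mem_range] at hk
  apply Dvd.dvd.mul_right
  have := hU.1 p k hp h2 hk.1 (by omega)
  exact_mod_cast this

lemma SN_quarter (hU : S_UDV) {p : ℕ} (hp : p.Prime) (h2 : p ≠ 2) (c : ℤ)
    (h : (p : ℤ) ∣ NN (p / 4) c) : (p : ℤ) ∣ SN p c := by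
  have hodd : p % 2 = 1 := by
    rcases hp.eq_two_or_odd with h | h
    · exact absurd h h2
    · exact h
  have hp1 : 1 < p := hp.one_lt
  have hsub : Finset.range (p / 4 + 1) ⊆ Finset.range p := by
    intro i hi
    rw [Finset.mem_range] at hi ⊢
    omega
  unfold SN
  rw [← Finset.sum_sdiff hsub]
  apply dvd_add
  · apply Finset.dvd_sum
    intro k hk
    rw [Finset.mem_sdiff, Finset.mem_range, Finset.mem_range] at hk
    apply Dvd.dvd.mul_right
    have := hU.2.1 p k hp h2 hk.1 (by omega)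
    exact_mod_cast this
  · have e : ∑ k ∈ Finset.range (p / 4 + 1), (uu k : ℤ) * c ^ (p - 1 - k) =
        c ^ (p - 1 - p / 4) * NN (p / 4) c := by
      unfold NN
      rw [Finset.mul_sum]
      apply Finset.sum_congr rfl
      intro n hn
      rw [Finset.mem_range] at hn
      have : p - 1 - n = (p - 1 - p / 4) + (p / 4 - n) := by omega
      rw [this, pow_add]
      ring
    rw [e]
    exact Dvd.dvd.mul_left h _

/-- the value for type one -/
lemma type_one (hY : S_INTY) (hX : S_EXT) (hE : S_EVL) {p δ : ℕ} (hp : p.Prime) (hpδ : p = 2 * δ + 1)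
    (hp3 : 3 < p) {x b : ℤ} (hxb : x ^ 2 + 9 * b ^ 2 = p) :
    (p : ℤ) ^ 2 ∣ NN δ (-12288) - (-12288) ^ δ * (2 * (x ^ 2 - 9 * b ^ 2)) := by
  have hpZ : Prime (p : ℤ) := Nat.prime_iff_prime_int.1 hp
  have hsm : ∀ q : ℕ, q.Prime → q < 4 → ¬ (p : ℤ) ∣ (q : ℤ) := by
    intro q hq hq4 h
    have h1 : p ∣ q := by exact_mod_cast h
    have h2 := Nat.le_of_dvd hq.pos h1
    omega
  have hp2 : ¬ (p : ℤ) ∣ 2 := hsm 2 Nat.prime_two (by norm_num)
  have hp33 : ¬ (p : ℤ) ∣ 3 := hsm 3 Nat.prime_three (by norm_num)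
  have hI2 : Complex.I ^ 2 = -1 := Complex.I_sq
  obtain ⟨l, hl⟩ : ∃ l : ℂ, l = x + 3 * b * Complex.I := ⟨_, rfl⟩
  have hlc : (starRingEnd ℂ) l = x - 3 * b * Complex.I := by
    rw [hl]
    simp only [map_add, map_mul, map_intCast, Complex.conj_I]
    have : (starRingEnd ℂ) (3 : ℂ) = 3 := by
      have := Complex.conj_ofReal 3
      exact_mod_cast this
    rw [this]
    ring
  have hll : l * (starRingEnd ℂ) l = p := by
    rw [hlc, hl]
    have h1 : ((x ^ 2 + 9 * b ^ 2 : ℤ) : ℂ) = ((p : ℤ) : ℂ) := by rw [hxb]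
    push_cast at h1
    linear_combination h1 - 9 * (b : ℂ) ^ 2 * hI2
  have hp0 : (p : ℂ) ≠ 0 := by exact_mod_cast hp.ne_zero
  have hl0 : l ≠ 0 := by
    intro h
    rw [h, zero_mul] at hll
    exact hp0 hll.symm
  obtain ⟨h1, -⟩ := hY p δ tauX (-12288) !![x + b, -(5 * b); 2 * b, x - b] l hp hpδ
    (by have := hE.1; push_cast; linear_combination this)
    (by rw [Matrix.det_fin_two_of]; linear_combination hxb) (by simp) hl0
  obtain ⟨w, hw, hww⟩ := h1
    (by simp; rw [coe_tauX, hl]; linear_combination (-(9 : ℂ) * b / 2) * hI2)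
    (by simp; rw [coe_tauX, hl]; ring)
  obtain ⟨h3, -⟩ := hX p (NN δ (-12288)) (2 * (x ^ 2 - 9 * b ^ 2)) (64 * (-12288) * 4096 ^ (δ + 1))
    ((-12288) ^ δ) l w hp hw
    (by
      intro h
      have h4 : (p : ℤ) ∣ 4 * x ^ 2 := by
        have : 4 * x ^ 2 = 2 * (x ^ 2 - 9 * b ^ 2) + p * 2 := by linear_combination (2 : ℤ) * hxb
        rw [this]
        exact dvd_add h (Dvd.intro _ rfl)
      have h5 : (p : ℤ) ∣ x := by
        rcases hpZ.dvd_or_dvd h4 with h6 | h6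
        · exfalso
          have : (4 : ℤ) = 2 ^ 2 := by norm_num
          rw [this] at h6
          exact hp2 (hpZ.dvd_of_dvd_pow h6)
        · exact hpZ.dvd_of_dvd_pow h6
      obtain ⟨x', rfl⟩ := h5
      have h6 : (p : ℤ) ∣ 9 * b ^ 2 := ⟨1 - p * x' ^ 2, by linear_combination hxb⟩
      have h7 : (p : ℤ) ∣ b := by
        rcases hpZ.dvd_or_dvd h6 with h8 | h8
        · exfalso
          have : (9 : ℤ) = 3 ^ 2 := by norm_num
          rw [this] at h8
          exact hp33 (hpZ.dvd_of_dvd_pow h8)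
        · exact hpZ.dvd_of_dvd_pow h8
      obtain ⟨b', rfl⟩ := h7
      have h8 : (p : ℤ) * (p * (x' ^ 2 + 9 * b' ^ 2)) = p * 1 := by linear_combination hxb
      have h9 := mul_left_cancel₀ hpZ.ne_zero h8
      exact hpZ.not_dvd_one ⟨_, h9.symm⟩)
    (by
      intro h
      have : (64 * (-12288) * 4096 ^ (δ + 1) : ℤ) = - (2 ^ (18 + 12 * (δ + 1)) * 3) := by
        have h4 : (4096 : ℤ) = 2 ^ 12 := by norm_num
        rw [h4, ← pow_mul, pow_add]
        ring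
      rw [this, dvd_neg] at h
      rcases hpZ.dvd_or_dvd h with h4 | h4
      · exact hp2 (hpZ.dvd_of_dvd_pow h4)
      · exact hp33 h4)
    (by
      rw [hlc, hl]
      push_cast
      linear_combination (18 * (b : ℂ) ^ 2) * hI2)
  refine h3 hll ?_
  rw [← hww]
  push_cast
  ring

/-- the value for type two; `a² + 9 b² = 2 p`, `b - a = 2 d` -/
lemma type_two (hY : S_INTY) (hX : S_EXT) (hE : S_EVL) {p δ : ℕ} (hp : p.Prime) (hpδ : p = 2 * δ + 1)
    (hp3 : 3 < p) {a b d T : ℤ} (hab : a ^ 2 + 9 * b ^ 2 = 2 * p) (hd : b - a = 2 * d)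
    (hT : a ^ 2 - 9 * b ^ 2 = 2 * T) (hpT : ¬ (p : ℤ) ∣ T) :
    (p : ℤ) ^ 2 ∣ NN δ (-12288) + 2 * (-12288) ^ δ * T := by
  have hpZ : Prime (p : ℤ) := Nat.prime_iff_prime_int.1 hp
  have hsm : ∀ q : ℕ, q.Prime → q < 4 → ¬ (p : ℤ) ∣ (q : ℤ) := by
    intro q hq hq4 h
    have h1 : p ∣ q := by exact_mod_cast h
    have h2 := Nat.le_of_dvd hq.pos h1
    omega
  have hp2 : ¬ (p : ℤ) ∣ 2 := hsm 2 Nat.prime_two (by norm_num)
  have hp33 : ¬ (p : ℤ) ∣ 3 := hsm 3 Nat.prime_three (by norm_num)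
  have hI2 : Complex.I ^ 2 = -1 := Complex.I_sq
  obtain ⟨l, hl⟩ : ∃ l : ℂ, l = (a + 3 * b * Complex.I) / 2 := ⟨_, rfl⟩
  have hlc : (starRingEnd ℂ) l = (a - 3 * b * Complex.I) / 2 := by
    rw [hl]
    simp only [map_add, map_mul, map_intCast, Complex.conj_I, map_div₀]
    have h1 : (starRingEnd ℂ) (3 : ℂ) = 3 := by
      have := Complex.conj_ofReal 3
      exact_mod_cast this
    have h2 : (starRingEnd ℂ) (2 : ℂ) = 2 := by
      have := Complex.conj_ofReal 2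
      exact_mod_cast this
    rw [h1, h2]
    ring
  have habC : (a : ℂ) ^ 2 + 9 * b ^ 2 = 2 * p := by exact_mod_cast hab
  have hdC : (b : ℂ) - a = 2 * d := by exact_mod_cast hd
  have hTC : (a : ℂ) ^ 2 - 9 * b ^ 2 = 2 * T := by exact_mod_cast hT
  have hll : 2 * (l * (starRingEnd ℂ) l) = p := by
    rw [hlc, hl]
    linear_combination (1 / 2 : ℂ) * habC - (9 / 2 : ℂ) * (b : ℂ) ^ 2 * hI2
  have hp0 : (p : ℂ) ≠ 0 := by exact_mod_cast hp.ne_zero
  have hl0 : l ≠ 0 := by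
    intro h
    rw [h, zero_mul, mul_zero] at hll
    exact hp0 hll.symm
  have hdet : (-b) * (-(5 * b)) - d * (a + b) = p := by
    have : 2 * ((-b) * (-(5 * b)) - d * (a + b)) = 2 * (p : ℤ) := by
      linear_combination hab + (a + b) * hd
    linarith
  obtain ⟨-, h1⟩ := hY p δ tauX (-12288) !![-b, d; a + b, -(5 * b)] l hp hpδ
    (by have := hE.1; push_cast; linear_combination this)
    (by rw [Matrix.det_fin_two_of]; exact hdet)
    (by simp; exact ⟨b - d, by linarith⟩) hl0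
  obtain ⟨w, hw, hww⟩ := h1
    (by simp; rw [coe_tauX, hl]; linear_combination (-1 / 2 : ℂ) * hdC)
    (by simp; rw [coe_tauX, hl]; linear_combination (-(9 : ℂ) * b / 2) * hI2)
  obtain ⟨-, h3⟩ := hX p (NN δ (-12288)) T (2 * (-12288) * 4096 ^ (δ + 2))
    ((-12288) ^ δ) l w hp hw hpT
    (by
      intro h
      have : (2 * (-12288) * 4096 ^ (δ + 2) : ℤ) = - (2 ^ (13 + 12 * (δ + 2)) * 3) := by
        have h4 : (4096 : ℤ) = 2 ^ 12 := by norm_num
        rw [h4, ← pow_mul, pow_add]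
        ring
      rw [this, dvd_neg] at h
      rcases hpZ.dvd_or_dvd h with h4 | h4
      · exact hp2 (hpZ.dvd_of_dvd_pow h4)
      · exact hp33 h4)
    (by
      rw [hlc, hl]
      linear_combination (1 / 2 : ℂ) * hTC + ((9 / 2 : ℂ) * (b : ℂ) ^ 2) * hI2)
  refine h3 hll ?_
  rw [← hww]
  push_cast
  ring

/-- from the half sum to the full sum -/
lemma full_of_half (hU : S_UDV) {p δ : ℕ} (hp : p.Prime) (hpδ : p = 2 * δ + 1) {c T : ℤ}
    (h : (p : ℤ) ^ 2 ∣ NN δ c - c ^ δ * T) : (p : ℤ) ^ 2 ∣ SN p c - c ^ (p - 1) * T := by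
  have h1 := SN_half hU hp hpδ c
  have e : SN p c - c ^ (p - 1) * T = (SN p c - c ^ δ * NN δ c) + c ^ δ * (NN δ c - c ^ δ * T) := by
    have : p - 1 = δ + δ := by omega
    rw [this, pow_add]
    ring
  rw [e]
  exact dvd_add h1 (Dvd.dvd.mul_left h _)

theorem main (hY : S_INTY) (hX : S_EXT) (hE : S_EVL) (hU : S_UDV) (h1 : S_INR1) (h2 : S_INR2)
    {p : ℕ} (hp : p.Prime) (hp3 : 3 < p) :
    (∀ x y : ℤ, p % 12 = 1 → x ^ 2 + y ^ 2 = p → x % 4 = 1 → 2 ∣ y →
      (¬ (3 : ℤ) ∣ x → (p : ℤ) ^ 2 ∣ SN p (-12288) - (-12288) ^ (p - 1) * (4 * x ^ 2 - 2 * p)) ∧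
      ((3 : ℤ) ∣ x → (p : ℤ) ^ 2 ∣ SN p (-12288) - (-12288) ^ (p - 1) * (-(4 * x ^ 2 - 2 * p)))) ∧
    (∀ x y : ℤ, p % 12 = 5 → x ^ 2 + y ^ 2 = p → x % 4 = 1 → 2 ∣ y →
      ((3 : ℤ) ∣ x + y → (p : ℤ) ^ 2 ∣ SN p (-12288) - (-12288) ^ (p - 1) * (4 * x * y)) ∧
      ((3 : ℤ) ∣ x - y → (p : ℤ) ^ 2 ∣ SN p (-12288) - (-12288) ^ (p - 1) * (-(4 * x * y)))) ∧
    (p % 4 = 3 → (p : ℤ) ^ 2 ∣ SN p (-12288)) := by
  have hpZ : Prime (p : ℤ) := Nat.prime_iff_prime_int.1 hp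
  have hp2' : p ≠ 2 := by omega
  have hodd : p % 2 = 1 := by
    rcases hp.eq_two_or_odd with h | h
    · exact absurd h hp2'
    · exact h
  obtain ⟨δ, hδ⟩ : ∃ δ, p = 2 * δ + 1 := ⟨p / 2, by omega⟩
  have hsm : ∀ q : ℕ, q.Prime → q < 4 → ¬ (p : ℤ) ∣ (q : ℤ) := by
    intro q hq hq4 h
    have h1 : p ∣ q := by exact_mod_cast h
    have h2 := Nat.le_of_dvd hq.pos h1
    omega
  have hp2 : ¬ (p : ℤ) ∣ 2 := hsm 2 Nat.prime_two (by norm_num)
  have hp33 : ¬ (p : ℤ) ∣ 3 := hsm 3 Nat.prime_three (by norm_num)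
  refine ⟨fun x y h12 hxy hx4 hy2 => ⟨fun hx3 => ?_, fun hx3 => ?_⟩,
    fun x y h12 hxy hx4 hy2 => ⟨fun hxy3 => ?_, fun hxy3 => ?_⟩, fun h4 => ?_⟩
  · have h3 : (3 : ℤ) ∣ y := by
      have h5 : (x ^ 2 + y ^ 2) % 3 = 1 := by rw [hxy]; omega
      have hx : x % 3 = 1 ∨ x % 3 = 2 := by omega
      have hy : y % 3 = 0 ∨ y % 3 = 1 ∨ y % 3 = 2 := by omega
      rcases hx with hx | hx <;> rcases hy with hy | hy | hy <;>
        first
        | exact Int.dvd_of_emod_eq_zero hy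
        | (exfalso; rw [pow_two, pow_two, Int.add_emod, Int.mul_emod, Int.mul_emod y, hx, hy] at h5
           norm_num at h5)
    obtain ⟨b, rfl⟩ := h3
    have h5 := type_one hY hX hE hp hδ hp3 (x := x) (b := b) (by linear_combination hxy)
    have h6 := full_of_half hU hp hδ h5
    have h7 : (2 * (x ^ 2 - 9 * b ^ 2) : ℤ) = 4 * x ^ 2 - 2 * p := by linear_combination (-2 : ℤ) * hxy
    rw [h7] at h6
    exact h6
  · obtain ⟨b, rfl⟩ := hx3
    have h5 := type_one hY hX hE hp hδ hp3 (x := -y) (b := b) (by linear_combination hxy)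
    have h6 := full_of_half hU hp hδ h5
    have h7 : (2 * ((-y) ^ 2 - 9 * b ^ 2) : ℤ) = -(4 * (3 * b) ^ 2 - 2 * p) := by
      linear_combination (2 : ℤ) * hxy
    rw [h7] at h6
    exact h6
  · obtain ⟨b, hb⟩ := hxy3
    obtain ⟨y', rfl⟩ := hy2
    have hpT : ¬ (p : ℤ) ∣ -(2 * x * (2 * y')) := by
      intro h
      rw [dvd_neg] at h
      have key : ¬ ((p : ℤ) ∣ x ∨ (p : ℤ) ∣ y') := by
        intro h
        have : (p : ℤ) ∣ x ∧ (p : ℤ) ∣ 2 * y' := by
          rcases h with h | h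
          · refine ⟨h, ?_⟩
            obtain ⟨x', rfl⟩ := h
            exact hpZ.dvd_of_dvd_pow (n := 2) ⟨1 - p * x' ^ 2, by linear_combination hxy⟩
          · refine ⟨?_, Dvd.dvd.mul_left h _⟩
            obtain ⟨x', rfl⟩ := h
            exact hpZ.dvd_of_dvd_pow (n := 2) ⟨1 - 4 * p * x' ^ 2, by linear_combination hxy⟩
        obtain ⟨⟨u, hu⟩, ⟨v, hv⟩⟩ := this
        rw [hu, hv] at hxy
        have h8 : (p : ℤ) * (p * (u ^ 2 + v ^ 2)) = p * 1 := by linear_combination hxy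
        have h9 := mul_left_cancel₀ hpZ.ne_zero h8
        exact hpZ.not_dvd_one ⟨_, h9.symm⟩
      rcases hpZ.dvd_or_dvd h with h5 | h5
      · rcases hpZ.dvd_or_dvd h5 with h6 | h6
        · exact hp2 h6
        · exact key (Or.inl h6)
      · rcases hpZ.dvd_or_dvd h5 with h6 | h6
        · exact hp2 h6
        · exact key (Or.inr h6)
    have hpar : ∃ d : ℤ, b - (x - 2 * y') = 2 * d := ⟨(b - (x - 2 * y')) / 2, by omega⟩
    obtain ⟨d, hd⟩ := hpar
    have hb9 : 9 * b ^ 2 = (x + 2 * y') ^ 2 := by rw [hb]; ring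
    have h5 := type_two hY hX hE hp hδ hp3 (a := x - 2 * y') (b := b) (d := d)
      (T := -(2 * x * (2 * y'))) (by rw [hb9]; linear_combination 2 * hxy) hd
      (by rw [hb9]; ring) hpT
    have h6 : (p : ℤ) ^ 2 ∣ NN δ (-12288) - (-12288) ^ δ * (4 * x * (2 * y')) := by
      have : NN δ (-12288) - (-12288) ^ δ * (4 * x * (2 * y')) =
        NN δ (-12288) + 2 * (-12288) ^ δ * (-(2 * x * (2 * y'))) := by ring
      rw [this]
      exact h5
    exact full_of_half hU hp hδ h6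
  · obtain ⟨b, hb⟩ := hxy3
    obtain ⟨y', rfl⟩ := hy2
    have hpT : ¬ (p : ℤ) ∣ 2 * x * (2 * y') := by
      intro h
      have key : ¬ ((p : ℤ) ∣ x ∨ (p : ℤ) ∣ y') := by
        intro h
        have : (p : ℤ) ∣ x ∧ (p : ℤ) ∣ 2 * y' := by
          rcases h with h | h
          · refine ⟨h, ?_⟩
            obtain ⟨x', rfl⟩ := h
            exact hpZ.dvd_of_dvd_pow (n := 2) ⟨1 - p * x' ^ 2, by linear_combination hxy⟩
          · refine ⟨?_, Dvd.dvd.mul_left h _⟩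
            obtain ⟨x', rfl⟩ := h
            exact hpZ.dvd_of_dvd_pow (n := 2) ⟨1 - 4 * p * x' ^ 2, by linear_combination hxy⟩
        obtain ⟨⟨u, hu⟩, ⟨v, hv⟩⟩ := this
        rw [hu, hv] at hxy
        have h8 : (p : ℤ) * (p * (u ^ 2 + v ^ 2)) = p * 1 := by linear_combination hxy
        have h9 := mul_left_cancel₀ hpZ.ne_zero h8
        exact hpZ.not_dvd_one ⟨_, h9.symm⟩
      rcases hpZ.dvd_or_dvd h with h5 | h5
      · rcases hpZ.dvd_or_dvd h5 with h6 | h6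
        · exact hp2 h6
        · exact key (Or.inl h6)
      · rcases hpZ.dvd_or_dvd h5 with h6 | h6
        · exact hp2 h6
        · exact key (Or.inr h6)
    have hpar : ∃ d : ℤ, -b - (x + 2 * y') = 2 * d := ⟨(-b - (x + 2 * y')) / 2, by omega⟩
    obtain ⟨d, hd⟩ := hpar
    have hb9 : 9 * (-b) ^ 2 = (x - 2 * y') ^ 2 := by rw [hb]; ring
    have h5 := type_two hY hX hE hp hδ hp3 (a := x + 2 * y') (b := -b) (d := d)
      (T := 2 * x * (2 * y')) (by rw [hb9]; linear_combination 2 * hxy) hd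
      (by rw [hb9]; ring) hpT
    have h6 : (p : ℤ) ^ 2 ∣ NN δ (-12288) - (-12288) ^ δ * (-(4 * x * (2 * y'))) := by
      have : NN δ (-12288) - (-12288) ^ δ * (-(4 * x * (2 * y'))) =
        NN δ (-12288) + 2 * (-12288) ^ δ * (2 * x * (2 * y')) := by ring
      rw [this]
      exact h5
    exact full_of_half hU hp hδ h6
  · refine h2 p (-12288) 12 7 3 hp hp2' (by norm_num) ?_ ?_ hp33
      (SN_quarter hU hp hp2' _ (h1 p hp h4 hp3))
    · intro h
      have : (-12288 : ℤ) = - (2 ^ 12 * 3) := by norm_num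
      rw [this, dvd_neg] at h
      rcases hpZ.dvd_or_dvd h with h5 | h5
      · exact hp2 (hpZ.dvd_of_dvd_pow h5)
      · exact hp33 h5
    · intro h
      have : (12 : ℤ) = 2 ^ 2 * 3 := by norm_num
      rw [this] at h
      rcases hpZ.dvd_or_dvd h with h5 | h5
      · exact hp2 (hpZ.dvd_of_dvd_pow h5)
      · exact hp33 h5

end Pool.Agent.HS37.CQ
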