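import Pool.Agent.HS37.CQ.Stm

/-!
# Project CQ, piece INR2
-/

set_option autoImplicit false

namespace Pool.Agent.HS37.CQ

/-- the coefficient `64^k b_k C(2k, k)` -/
theorem inr2_coef (hU : S_UDV) (p a : ℕ) (hp : p.Prime) (ha : (p : ℤ) ^ 2 ∣ 4 * (a : ℤ) + 1) :
    ∀ k : ℕ, k < p → (p : ℤ) ^ 2 ∣ (-1 : ℤ) ^ k * (a.choose k : ℤ) * ((a + k).choose k : ℤ) *
        ((2 * k).choose k : ℤ) * 64 ^ k - (uu k : ℤ) := by
  obtain ⟨-, -, -, -, hrec⟩ := hU
  intro k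
  induction k with
  | zero =>
    intro _
    simp [uu]
  | succ k ih =>
    intro hk
    have h1 := ih (by omega)
    -- coprimality
    have hcop : IsCoprime ((p : ℤ) ^ 2) (((k : ℤ) + 1) ^ 3) := by
      apply IsCoprime.pow
      have h2 : Nat.Coprime p (k + 1) := by
        rw [Nat.Prime.coprime_iff_not_dvd hp]
        intro h3
        exact absurd (Nat.le_of_dvd (Nat.succ_pos k) h3) (by omega)
      have h3 := Nat.isCoprime_iff_coprime.2 h2
      simpa using h3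
    refine hcop.dvd_of_dvd_mul_left ?_
    -- recursions
    have e1 : ((a.choose (k + 1) : ℕ) : ℤ) * (k + 1) = (a.choose k : ℤ) * (a - k) := by
      have h2 := Nat.choose_succ_right_eq a k
      rcases Nat.lt_or_ge a k with h3 | h3
      · rw [Nat.choose_eq_zero_of_lt h3, Nat.choose_eq_zero_of_lt (by omega)]
        simp
      · have h4 : ((a.choose (k + 1) * (k + 1) : ℕ) : ℤ) = ((a.choose k * (a - k) : ℕ) : ℤ) := by
          rw [h2]
        push_cast [Nat.cast_sub h3] at h4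
        exact h4
    have e2 : (((a + (k + 1)).choose (k + 1) : ℕ) : ℤ) * (k + 1) =
        ((a + k).choose k : ℤ) * (a + k + 1) := by
      have h2 := Nat.add_one_mul_choose_eq (a + k) k
      have h4 : (((a + k + 1) * (a + k).choose k : ℕ) : ℤ) =
          (((a + k + 1).choose (k + 1) * (k + 1) : ℕ) : ℤ) := by rw [h2]
      push_cast at h4
      rw [← add_assoc]
      linarith
    have e3 : (((2 * (k + 1)).choose (k + 1) : ℕ) : ℤ) * (k + 1) =
        ((2 * k).choose k : ℤ) * (2 * (2 * k + 1)) := by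
      have h2 := Nat.succ_mul_centralBinom_succ k
      rw [Nat.centralBinom_eq_two_mul_choose, Nat.centralBinom_eq_two_mul_choose] at h2
      have h4 : (((k + 1) * (2 * (k + 1)).choose (k + 1) : ℕ) : ℤ) =
          ((2 * (2 * k + 1) * (2 * k).choose k : ℕ) : ℤ) := by rw [h2]
      push_cast at h4
      linarith
    have e4 : ((k : ℤ) + 1) ^ 3 * (uu (k + 1) : ℤ) =
        8 * (2 * k + 1) * (4 * k + 1) * (4 * k + 3) * (uu k : ℤ) := by
      have h2 := hrec k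
      exact_mod_cast h2
    set x : ℤ := ((a.choose (k + 1) : ℕ) : ℤ) with hx
    set y : ℤ := (((a + (k + 1)).choose (k + 1) : ℕ) : ℤ) with hy
    set z : ℤ := (((2 * (k + 1)).choose (k + 1) : ℕ) : ℤ) with hz
    set x0 : ℤ := ((a.choose k : ℕ) : ℤ)
    set y0 : ℤ := (((a + k).choose k : ℕ) : ℤ)
    set z0 : ℤ := (((2 * k).choose k : ℕ) : ℤ)
    have e5 : ((k : ℤ) + 1) ^ 3 * ((-1 : ℤ) ^ (k + 1) * x * y * z * 64 ^ (k + 1) -
        (uu (k + 1) : ℤ)) =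
        8 * (2 * k + 1) * (4 * k - 4 * a) * (4 * a + 4 * k + 4) *
          ((-1 : ℤ) ^ k * x0 * y0 * z0 * 64 ^ k) -
        8 * (2 * k + 1) * (4 * k + 1) * (4 * k + 3) * (uu k : ℤ) := by
      have : ((k : ℤ) + 1) ^ 3 * ((-1 : ℤ) ^ (k + 1) * x * y * z * 64 ^ (k + 1)) =
          (-1 : ℤ) ^ (k + 1) * 64 ^ (k + 1) * ((x * (k + 1)) * (y * (k + 1)) * (z * (k + 1))) := by
        ring
      rw [mul_sub, this, e1, e2, e3, e4]
      ring
    have e5' : ((k : ℤ) + 1) ^ 3 * ((-1 : ℤ) ^ (k + 1) * x * y * z * 64 ^ (k + 1) -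
        (uu (k + 1) : ℤ)) =
        (4 * a + 1) * (8 * (2 * k + 1) * (-(4 * a + 4 * k + 4) + (4 * k + 1)) *
          ((-1 : ℤ) ^ k * x0 * y0 * z0 * 64 ^ k)) +
        (8 * (2 * k + 1) * (4 * k + 1) * (4 * k + 3)) *
          ((-1 : ℤ) ^ k * x0 * y0 * z0 * 64 ^ k - (uu k : ℤ)) := by
      rw [e5]
      ring
    rw [e5']
    exact dvd_add (Dvd.dvd.mul_right ha _) (Dvd.dvd.mul_left h1 _)

/-- **INR2** -/
theorem t_INR2 (hC : S_CLA) (hU : S_UDV) : S_INR2 := by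
  intro p c m n d hp hp2 hc hpc hpm hpd hS
  have hpP : Prime (p : ℤ) := Nat.prime_iff_prime_int.1 hp
  -- the number a
  have hodd : IsCoprime (4 : ℤ) ((p : ℤ) ^ 2) := by
    apply IsCoprime.pow_right
    have h2 : Nat.Coprime 4 p := by
      have h3 : Nat.Coprime 2 p := (Nat.coprime_primes Nat.prime_two hp).2 (Ne.symm hp2)
      exact Nat.Coprime.pow_left 2 h3
    exact_mod_cast Nat.isCoprime_iff_coprime.2 h2
  obtain ⟨a, ha⟩ : ∃ a : ℕ, (p : ℤ) ^ 2 ∣ 4 * (a : ℤ) + 1 := by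
    obtain ⟨u, v, huv⟩ := hodd
    -- u * 4 + v * p ^ 2 = 1
    have hpos : 0 < (p : ℤ) ^ 2 := by
      have := hp.pos
      positivity
    refine ⟨((-u) % ((p : ℤ) ^ 2)).toNat, ?_⟩
    have h1 : 0 ≤ (-u) % ((p : ℤ) ^ 2) := Int.emod_nonneg _ hpos.ne'
    rw [Int.toNat_of_nonneg h1]
    have h2 : (p : ℤ) ^ 2 ∣ (-u) - (-u) % ((p : ℤ) ^ 2) := Int.dvd_self_sub_emod
    obtain ⟨w, hw⟩ := h2
    refine ⟨v - 4 * w, ?_⟩
    linear_combination (-4) * hw - huv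
  -- the number f
  obtain ⟨f, e, hf⟩ : ∃ f e : ℤ, 2 * m * f = 1 + (p : ℤ) ^ 2 * e := by
    have h2 : IsCoprime (2 * m) ((p : ℤ) ^ 2) := by
      apply IsCoprime.pow_right
      have h3 : ¬ (p : ℤ) ∣ 2 * m := by
        intro h4
        rcases hpP.dvd_or_dvd h4 with h5 | h5
        · have h6 : p ∣ 2 := by exact_mod_cast h5
          exact hp2 ((Nat.prime_dvd_prime_iff_eq hp Nat.prime_two).1 h6)
        · exact hpm h5
      exact ((Prime.coprime_iff_not_dvd hpP).2 h3).symm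
    obtain ⟨u, v, huv⟩ := h2
    exact ⟨u, -v, by linear_combination huv⟩
  set z : Zsqrtd d := ⟨f * m, f * n⟩ with hz
  -- c z (1 - z) = 64 mod p^2
  have hcz : (((p : ℤ) ^ 2 : ℤ) : Zsqrtd d) ∣ (c : Zsqrtd d) * (z - z ^ 2) - 64 := by
    rw [Zsqrtd.intCast_dvd]
    constructor
    · have h1 : ((c : Zsqrtd d) * (z - z ^ 2) - 64).re =
          c * (f * m - (f * m * (f * m) + d * (f * n) * (f * n))) - 64 := by
        simp [hz, sq]
      rw [h1]
      refine ⟨64 * e * (2 * m * f + 1) - c * f * m * e, ?_⟩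
      linear_combination (-c * f * m) * hf + f ^ 2 * hc + (64 * (2 * m * f + 1)) * hf
    · have h1 : ((c : Zsqrtd d) * (z - z ^ 2) - 64).im =
          c * (f * n - (f * m * (f * n) + f * n * (f * m))) := by
        simp [hz, sq]
      rw [h1]
      refine ⟨-c * f * n * e, ?_⟩
      linear_combination (-c * f * n) * hf
  -- the formula of CLA at z
  obtain ⟨W, hW⟩ := hC p a hp
  have hW2 := congrArg (Polynomial.aeval z) hW
  simp only [map_sub, map_sum, map_mul, map_pow, Polynomial.aeval_X,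
    map_natCast, map_neg, map_one] at hW2
  set H : Zsqrtd d := ∑ k ∈ Finset.range p,
    (((-1 : ℤ) ^ k * (a.choose k : ℤ) * ((a + k).choose k : ℤ) : ℤ) : Zsqrtd d) * z ^ k with hH
  set S : ℤ := ∑ k ∈ Finset.range p, (uu k : ℤ) * c ^ (p - 1 - k) with hSdef
  have key : (((p : ℤ) ^ 2 : ℤ) : Zsqrtd d) ∣ (S : Zsqrtd d) - (c : Zsqrtd d) ^ (p - 1) * H ^ 2 := by
    have h1 : (S : Zsqrtd d) - (c : Zsqrtd d) ^ (p - 1) * H ^ 2 =
        ((S : Zsqrtd d) - (c : Zsqrtd d) ^ (p - 1) * ∑ k ∈ Finset.range p,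
          (((-1 : ℤ) ^ k * (a.choose k : ℤ) * ((a + k).choose k : ℤ) *
            ((2 * k).choose k : ℤ) : ℤ) : Zsqrtd d) * (z - z ^ 2) ^ k) +
        (c : Zsqrtd d) ^ (p - 1) * ((((p : ℤ) ^ 2 : ℤ) : Zsqrtd d) * Polynomial.aeval z W) := by
      have hW3 : (∑ k ∈ Finset.range p, (((-1 : ℤ) ^ k * (a.choose k : ℤ) *
          ((a + k).choose k : ℤ) * ((2 * k).choose k : ℤ) : ℤ) : Zsqrtd d) * (z - z ^ 2) ^ k) -
          H ^ 2 = (((p : ℤ) ^ 2 : ℤ) : Zsqrtd d) * Polynomial.aeval z W := by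
        rw [hH]
        push_cast
        exact hW2
      rw [← hW3]
      ring
    rw [h1]
    refine dvd_add ?_ (Dvd.dvd.mul_left (Dvd.intro _ rfl) _)
    rw [hSdef, Int.cast_sum, Finset.mul_sum, ← Finset.sum_sub_distrib]
    refine Finset.dvd_sum fun k hk => ?_
    have hkp : k < p := Finset.mem_range.1 hk
    have h2 := inr2_coef hU p a hp ha k hkp
    set B : ℤ := (-1 : ℤ) ^ k * (a.choose k : ℤ) * ((a + k).choose k : ℤ) *
        ((2 * k).choose k : ℤ) with hB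
    have h3 : (((p : ℤ) ^ 2 : ℤ) : Zsqrtd d) ∣ ((B * 64 ^ k - (uu k : ℤ) : ℤ) : Zsqrtd d) :=
      (Int.castRingHom (Zsqrtd d)).map_dvd h2
    have h4 : (((p : ℤ) ^ 2 : ℤ) : Zsqrtd d) ∣ ((c : Zsqrtd d) * (z - z ^ 2)) ^ k - 64 ^ k :=
      dvd_trans hcz (sub_dvd_pow_sub_pow _ _ _)
    have h5 : (c : Zsqrtd d) ^ (p - 1) = (c : Zsqrtd d) ^ (p - 1 - k) * (c : Zsqrtd d) ^ k := by
      rw [← pow_add]
      congr 1
      omega
    have h6 : (((uu k : ℤ) * c ^ (p - 1 - k) : ℤ) : Zsqrtd d) -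
        (c : Zsqrtd d) ^ (p - 1) * ((B : Zsqrtd d) * (z - z ^ 2) ^ k) =
        -((c : Zsqrtd d) ^ (p - 1 - k) * ((B * 64 ^ k - (uu k : ℤ) : ℤ) : Zsqrtd d)) -
        (c : Zsqrtd d) ^ (p - 1 - k) * (B : Zsqrtd d) *
          (((c : Zsqrtd d) * (z - z ^ 2)) ^ k - 64 ^ k) := by
      rw [h5, mul_pow]
      push_cast
      ring
    rw [h6]
    exact dvd_sub (Dvd.dvd.neg_right (Dvd.dvd.mul_left h3 _)) (Dvd.dvd.mul_left h4 _)
  rw [Zsqrtd.intCast_dvd] at key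
  have hcast : (c : Zsqrtd d) ^ (p - 1) = ((c ^ (p - 1) : ℤ) : Zsqrtd d) := by push_cast; rfl
  rw [hcast] at key
  obtain ⟨k1, k2⟩ := key
  have r1 : ((S : Zsqrtd d) - ((c ^ (p - 1) : ℤ) : Zsqrtd d) * H ^ 2).re =
      S - c ^ (p - 1) * (H.re * H.re + d * H.im * H.im) := by
    rw [sq, Zsqrtd.re_sub, Zsqrtd.re_intCast, Zsqrtd.re_mul, Zsqrtd.re_intCast, Zsqrtd.im_intCast,
      Zsqrtd.re_mul]
    ring
  have r2 : ((S : Zsqrtd d) - ((c ^ (p - 1) : ℤ) : Zsqrtd d) * H ^ 2).im =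
      -(c ^ (p - 1) * (2 * H.re * H.im)) := by
    rw [sq, Zsqrtd.im_sub, Zsqrtd.im_intCast, Zsqrtd.im_mul, Zsqrtd.re_intCast, Zsqrtd.im_intCast,
      Zsqrtd.im_mul]
    ring
  rw [r1] at k1
  rw [r2] at k2
  have hcp : ¬ (p : ℤ) ∣ c ^ (p - 1) := fun h => hpc (hpP.dvd_of_dvd_pow h)
  have hp1 : (p : ℤ) ∣ (p : ℤ) ^ 2 := dvd_pow_self _ two_ne_zero
  have hnorm : (p : ℤ) ∣ H.re * H.re + d * H.im * H.im := by
    have h1 : (p : ℤ) ∣ c ^ (p - 1) * (H.re * H.re + d * H.im * H.im) := by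
      have := dvd_sub hS (dvd_trans hp1 k1)
      rwa [sub_sub_cancel] at this
    exact (hpP.dvd_or_dvd h1).resolve_left hcp
  have hprod : (p : ℤ) ∣ H.re ∨ (p : ℤ) ∣ H.im := by
    have h1 : (p : ℤ) ∣ c ^ (p - 1) * (2 * H.re * H.im) := by
      have := dvd_trans hp1 k2
      rwa [dvd_neg] at this
    rcases hpP.dvd_or_dvd h1 with h2 | h2
    · exact absurd h2 hcp
    · rcases hpP.dvd_or_dvd h2 with h3 | h3
      · rcases hpP.dvd_or_dvd h3 with h4 | h4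
        · have h6 : p ∣ 2 := by exact_mod_cast h4
          exact absurd ((Nat.prime_dvd_prime_iff_eq hp Nat.prime_two).1 h6) hp2
        · exact Or.inl h4
      · exact Or.inr h3
  have hboth : (p : ℤ) ∣ H.re ∧ (p : ℤ) ∣ H.im := by
    rcases hprod with h1 | h1
    · refine ⟨h1, ?_⟩
      have h2 : (p : ℤ) ∣ d * H.im * H.im := by
        have := dvd_sub hnorm (Dvd.dvd.mul_right h1 H.re)
        rwa [add_sub_cancel_left] at this
      rcases hpP.dvd_or_dvd h2 with h3 | h3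
      · exact (hpP.dvd_or_dvd h3).resolve_left hpd
      · exact h3
    · refine ⟨?_, h1⟩
      have h2 : (p : ℤ) ∣ H.re * H.re := by
        have := dvd_sub hnorm (Dvd.dvd.mul_left h1 (d * H.im))
        rwa [add_sub_cancel_right] at this
      rcases hpP.dvd_or_dvd h2 with h3 | h3 <;> exact h3
  obtain ⟨⟨x, hx⟩, ⟨y, hy⟩⟩ := hboth
  have h2 : (p : ℤ) ^ 2 ∣ c ^ (p - 1) * (H.re * H.re + d * H.im * H.im) := by
    refine ⟨c ^ (p - 1) * (x * x + d * y * y), ?_⟩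
    rw [hx, hy]
    ring
  have h3 := dvd_add k1 h2
  rwa [sub_add_cancel] at h3

end Pool.Agent.HS37.CQ
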