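import Pool.Agent.HS37.CQ.Stm

set_option autoImplicit false

/-! Piece PRE of project CQ (helper55). -/

open UpperHalfPlane ModularForm ModularFormClass MatrixGroups EisensteinSeries Complex
open Pool.Agent.HS37.SP

namespace Pool.Agent.HS37.CQ

namespace PrePiece

lemma isInt_iff (c : PowerSeries ℂ) :
    IsInt c ↔ c ∈ (PowerSeries.map (Int.castRingHom ℂ)).range := by
  constructor
  · intro h
    choose z hz using h
    refine ⟨PowerSeries.mk z, ?_⟩
    ext n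
    rw [PowerSeries.coeff_map, PowerSeries.coeff_mk, hz]
    rfl
  · rintro ⟨D, rfl⟩ n
    exact ⟨PowerSeries.coeff n D, by rw [PowerSeries.coeff_map]; rfl⟩

lemma inv_int {c : PowerSeries ℂ} (hc : IsInt c) (h0 : PowerSeries.coeff 0 c = 1) :
    IsInt c⁻¹ ∧ c * c⁻¹ = 1 ∧ PowerSeries.coeff 0 c⁻¹ = 1 := by
  have h0' : PowerSeries.constantCoeff c ≠ 0 := by
    rw [← PowerSeries.coeff_zero_eq_constantCoeff_apply, h0]
    exact one_ne_zero
  have hm : c * c⁻¹ = 1 := PowerSeries.mul_inv_cancel c h0'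
  refine ⟨?_, hm, ?_⟩
  · rw [isInt_iff] at hc ⊢
    obtain ⟨D, rfl⟩ := hc
    have h1 : PowerSeries.constantCoeff D = 1 := by
      rw [PowerSeries.coeff_map] at h0
      rw [← PowerSeries.coeff_zero_eq_constantCoeff_apply]
      exact_mod_cast (show ((PowerSeries.coeff 0 D : ℤ) : ℂ) = 1 from h0)
    have h2 : D * PowerSeries.invOfUnit D 1 = 1 := PowerSeries.mul_invOfUnit D 1 (by simp [h1])
    refine ⟨PowerSeries.invOfUnit D 1, ?_⟩
    have h3 : PowerSeries.map (Int.castRingHom ℂ) D *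
        PowerSeries.map (Int.castRingHom ℂ) (PowerSeries.invOfUnit D 1) = 1 := by
      rw [← map_mul, h2, map_one]
    rw [PowerSeries.eq_inv_iff_mul_eq_one h0', mul_comm]
    exact h3
  · rw [PowerSeries.coeff_zero_eq_constantCoeff_apply, PowerSeries.constantCoeff_inv,
      ← PowerSeries.coeff_zero_eq_constantCoeff_apply, h0, inv_one]

lemma coeff0_mul (c d : PowerSeries ℂ) : PowerSeries.coeff 0 (c * d) =
    PowerSeries.coeff 0 c * PowerSeries.coeff 0 d := by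
  simp

lemma congr {g h : ℍ → ℂ} {c d : PowerSeries ℂ} {e f : ℕ} (hg : QExp g e c)
    (h1 : ∀ τ, g τ = h τ) (h2 : c = d) (h3 : e = f) : QExp h f d := by
  have : g = h := funext h1
  rw [← this, ← h2, ← h3]
  exact hg

lemma prc {g g' h h' : ℍ → ℂ} {k l : ℤ} (hg : Pr k g g') (h1 : ∀ τ, g τ = h τ)
    (h2 : ∀ τ, g' τ = h' τ) (h3 : k = l) : Pr l h h' := by
  have e1 : g = h := funext h1
  have e2 : g' = h' := funext h2
  rw [← e1, ← e2, ← h3]
  exact hg

end PrePiece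

open PrePiece

theorem t_PRE (hr : S_REL) (hb : S_BAS) (hx : S_EXP) (hc : S_CLO) (he : S_EIS) (hq : S_QMUL) :
    S_PRE := by
  obtain ⟨-, -, -, -, -, hD, -, e0, s0⟩ := hr
  obtain ⟨hbas, hP, -, -⟩ := hb
  obtain ⟨qe, qs, -, ie, is, -, ce0, ce1, cs0, -⟩ := hx
  obtain ⟨hmul, hadd, hsc, hconst, hpow, hinv, hsym⟩ := hc
  obtain ⟨⟨w4, -, -⟩, -, ⟨-, qD, -, -, -⟩, -, ⟨c, -, qDi, iDi, hDi⟩⟩ := he
  obtain ⟨qmul, -, quni, qsc, -, qsh⟩ := hq
  have p4 : Pr 2 (fun τ => E₄ τ) (fun τ => 2 ^ (2 : ℤ) * E₄ (dbl τ)) :=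
    hbas 2 (fun τ => E₄ τ) (by exact_mod_cast w4)
  have pe : Pr 2 fe (fun τ => fs τ / 64) := by
    refine prc (hsc 2 _ _ (1 / 240) (hadd 2 _ _ _ _ p4 (hsc 2 _ _ (-1 / 4) (hsym 2 _ _ p4))))
      ?_ ?_ rfl
    · intro τ
      rw [fe]
      norm_num
      ring
    · intro τ
      rw [fs]
      norm_num
      ring
  have ps : Pr 2 fs (fun τ => 64 * fe τ) := by
    refine prc (hsc 2 _ _ 64 (hsym 2 _ _ pe)) ?_ ?_ rfl
    · intro τ
      ring
    · intro τ
      rfl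
  have pD : Pr 4 fD fD := by
    refine prc (hmul 2 2 _ _ _ _ pe ps) ?_ ?_ rfl
    · intro τ
      rfl
    · intro τ
      rw [fD]
      ring
  have hD0 : ∀ τ, fD τ ≠ 0 := fun τ => mul_ne_zero (e0 τ) (s0 τ)
  have pei : Pr (-2) (fun τ => (fe τ)⁻¹) (fun τ => (fs τ / 64)⁻¹) :=
    hinv 2 _ _ pe e0 (fun τ => div_ne_zero (s0 τ) (by norm_num))
  have ph : Pr 0 fh (fun τ => 4096 / fh τ) := by
    refine prc (hmul 2 (-2) _ _ _ _ ps pei) ?_ ?_ rfl
    · intro τ
      rw [fh]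
      rfl
    · intro τ
      rw [fh]
      have h1 := e0 τ
      have h2 := s0 τ
      field_simp
      norm_num
  have py : Pr 0 fy fy := by
    refine prc (hmul _ _ _ _ _ _ (hpow 1 _ _ 4 hP) (hinv 4 _ _ pD hD0 hD0)) ?_ ?_ (by norm_num)
    · intro τ
      rfl
    · intro τ
      rw [fy]
      rw [show (-fP τ) ^ 4 = fP τ ^ 4 by ring]
      rfl
  -- expansions
  have hdel : ce * cs * cs = del := by
    refine quni discriminant 0 _ _ (congr (qmul _ _ 0 0 _ _ (qmul _ _ 0 0 _ _ qe qs) qs) ?_ rfl rfl)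
      qD
    intro τ
    rw [hD τ]
    ring
  have hX : ce * (cs * cs * c) = PowerSeries.X := by
    rw [hDi, ← hdel]
    ring
  have qei : QExp (fun τ => (fe τ)⁻¹) 1 (cs * cs * c) := by
    refine congr (qmul _ _ _ _ _ _ (qmul _ _ 0 0 _ _ qs qs) qDi) ?_ rfl rfl
    intro τ
    rw [hD τ]
    have h1 := e0 τ
    have h2 := s0 τ
    field_simp
  obtain ⟨isi, hsi, csi0⟩ := inv_int is cs0
  have hXs : ce * cs * c = PowerSeries.X ^ 1 * cs⁻¹ := by
    rw [pow_one, ← hX]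
    calc ce * cs * c = (ce * cs * c) * (cs * cs⁻¹) := by rw [hsi, mul_one]
      _ = ce * (cs * cs * c) * cs⁻¹ := by ring
  have qsi : QExp (fun τ => (fs τ)⁻¹) 0 cs⁻¹ := by
    refine qsh _ 0 1 _ ?_
    refine congr (qmul _ _ _ _ _ _ (qmul _ _ 0 0 _ _ qe qs) qDi) ?_ hXs rfl
    intro τ
    rw [hD τ]
    have h1 := e0 τ
    have h2 := s0 τ
    field_simp
  have iei : IsInt (cs * cs * c) := by
    rw [isInt_iff] at *
    exact mul_mem (mul_mem is is) iDi
  have cei0 : PowerSeries.coeff 0 (cs * cs * c) = 1 := by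
    have h1 := congrArg (PowerSeries.coeff 1) hX
    rw [PowerSeries.coeff_mul,
      show Finset.HasAntidiagonal.antidiagonal 1 = ({(0, 1), (1, 0)} : Finset (ℕ × ℕ)) from rfl,
      Finset.sum_insert (by decide), Finset.sum_singleton, ce0, ce1, zero_mul, zero_add, one_mul,
      PowerSeries.coeff_one_X] at h1
    exact h1
  refine ⟨pe, ps, pD, ph, py, ⟨_, qei, iei, hX, cei0⟩, ⟨_, qsi, isi, hsi, csi0⟩, ?_, ?_⟩
  · refine ⟨cs * (cs * cs * c), ?_, ?_, ?_⟩
    · exact congr (qmul _ _ 0 1 _ _ qs qei) (fun τ => rfl) rfl rfl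
    · rw [isInt_iff] at *
      exact mul_mem is iei
    · rw [coeff0_mul, cs0, cei0, one_mul]
  · refine ⟨PowerSeries.C 4096 * (ce * cs⁻¹), ?_, ?_, ?_⟩
    · refine congr (qsc _ 0 _ 4096 (qmul _ _ 0 0 _ _ qe qsi)) ?_ rfl rfl
      intro τ
      rw [fh]
      have h1 := e0 τ
      have h2 := s0 τ
      field_simp
    · rw [isInt_iff] at *
      refine mul_mem ⟨PowerSeries.C 4096, ?_⟩ (mul_mem ie isi)
      rw [PowerSeries.map_C]
      norm_num
    · rw [coeff0_mul, coeff0_mul, ce0, zero_mul, mul_zero]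

end Pool.Agent.HS37.CQ
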