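import Pool.Agent.HS37.CQ.Gex

/-!
# Project CQ, piece PR2: the theorem `t_PR2` is in `Pool.Agent.HS37.CQ.Gex`
-/
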