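import Pool.Agent.HS37.CQ.Stm

/-!
# Project CQ, piece REL: the relations between `e`, `s`, `P`, `E₄`, `E₆`, `Δ`
-/

set_option autoImplicit false

open UpperHalfPlane ModularForm ModularFormClass MatrixGroups EisensteinSeries Complex
open Pool.Agent.HS37.SP

namespace Pool.Agent.HS37.CQ

namespace RelAux

theorem eis_coeff0 (k : ℕ) : PowerSeries.coeff 0 (eis k) = 1 := by
  rw [eis, PowerSeries.coeff_mk, if_pos rfl]

theorem vps_coeff0 (m : ℕ) (c : PowerSeries ℂ) :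
    PowerSeries.coeff 0 (vps m c) = PowerSeries.coeff 0 c := by
  rw [vps, PowerSeries.coeff_mk, if_pos (dvd_zero m), Nat.zero_div]

theorem qpow (hQ : S_QMUL) {g : ℍ → ℂ} {c : PowerSeries ℂ} (h : QExp g 0 c) (n : ℕ) :
    QExp (fun τ => g τ ^ (n + 1)) 0 (c ^ (n + 1)) := by
  induction n with
  | zero => simpa using h
  | succ n ih =>
    have h1 := hQ.1 _ _ 0 0 _ _ ih h
    simpa only [pow_succ, add_zero] using h1

theorem coeff0_X_mul (c : PowerSeries ℂ) : PowerSeries.coeff 0 (PowerSeries.X * c) = 0 := by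
  rw [PowerSeries.coeff_zero_eq_constantCoeff_apply, map_mul, PowerSeries.constantCoeff_X, zero_mul]

theorem exists_X_mul {c : PowerSeries ℂ} (h : PowerSeries.coeff 0 c = 0) :
    ∃ b, c = PowerSeries.X * b := by
  rw [PowerSeries.coeff_zero_eq_constantCoeff_apply] at h
  exact PowerSeries.X_dvd_iff.mpr h

theorem vanish (hCON : S_CON) (hBAS : S_BAS) (hCLO : S_CLO) (hEIS : S_EIS) (hQ : S_QMUL)
    {k : ℤ} {F F' : ℍ → ℂ} {c c' : PowerSeries ℂ} (n : ℕ) (hkn : ((n + 2 : ℕ) : ℤ) * k = 6)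
    (hP : Pr k F F') (hF : QExp F 0 c) (hF' : QExp F' 0 c')
    (h0 : PowerSeries.coeff 0 c = 0) (h0' : PowerSeries.coeff 0 c' = 0) : ∀ τ, F τ = 0 := by
  obtain ⟨cΔ, hw, hqΔ, _, _⟩ := hEIS.2.2.2.2
  obtain ⟨hmul, _, _, _, hpow, _, _⟩ := hCLO
  obtain ⟨b, rfl⟩ := exists_X_mul h0
  obtain ⟨b', rfl⟩ := exists_X_mul h0'
  have hΔ : Pr (-6) (fun τ => (discriminant τ)⁻¹)
      (fun τ => (2 : ℂ) ^ (-6 : ℤ) * (discriminant (dbl τ))⁻¹) :=
    hBAS.1 (-6) (fun τ => (discriminant τ)⁻¹) (by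
      have e : (2 * (-6) : ℤ) = -12 := by norm_num
      rw [e]
      exact hw)
  have hPr := hmul _ _ _ _ _ _ (hpow k F F' (n + 2) hP) hΔ
  rw [hkn, add_neg_cancel] at hPr
  -- expansions
  have q1 := hQ.1 _ _ 0 1 _ _ (qpow hQ hF (n + 1)) hqΔ
  have q2 : QExp (fun τ => F τ ^ (n + 2) * (discriminant τ)⁻¹) 0
      (PowerSeries.X * (PowerSeries.X ^ n * b ^ (n + 2) * cΔ)) := by
    refine hQ.2.2.2.2.2 _ 0 1 _ ?_
    have e : PowerSeries.X ^ 1 * (PowerSeries.X * (PowerSeries.X ^ n * b ^ (n + 2) * cΔ)) =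
        (PowerSeries.X * b) ^ (n + 1 + 1) * cΔ := by ring
    rw [e]
    exact q1
  have d1 := hBAS.2.2.1 (fun τ => (discriminant τ)⁻¹) 1 cΔ hqΔ
  have d2 := hQ.2.2.2.1 _ _ _ ((2 : ℂ) ^ (-6 : ℤ)) d1
  have q3 := hQ.1 _ _ 0 (2 * 1) _ _ (qpow hQ hF' (n + 1)) d2
  have q4 : QExp (fun τ => F' τ ^ (n + 2) *
      ((2 : ℂ) ^ (-6 : ℤ) * (discriminant (dbl τ))⁻¹)) 0
      (PowerSeries.X ^ n * b' ^ (n + 2) * (PowerSeries.C ((2 : ℂ) ^ (-6 : ℤ)) * vps 2 cΔ)) := by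
    refine hQ.2.2.2.2.2 _ 0 2 _ ?_
    have e : PowerSeries.X ^ 2 * (PowerSeries.X ^ n * b' ^ (n + 2) *
        (PowerSeries.C ((2 : ℂ) ^ (-6 : ℤ)) * vps 2 cΔ)) =
        (PowerSeries.X * b') ^ (n + 1 + 1) * (PowerSeries.C ((2 : ℂ) ^ (-6 : ℤ)) * vps 2 cΔ) := by
      ring
    rw [e]
    exact q3
  intro τ
  have h := hCON _ _ _ _ hPr q2 q4 τ
  rw [coeff0_X_mul] at h
  have h' : F τ ^ (n + 2) = 0 := by
    rcases mul_eq_zero.mp h with h1 | h1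
    · exact h1
    · exact absurd h1 (inv_ne_zero (discriminant_ne_zero τ))
  exact pow_eq_zero_iff (by omega) |>.mp h'

theorem Pr_congr {k : ℤ} {g g' f f' : ℍ → ℂ} (h : Pr k g g') (e : ∀ τ, f τ = g τ)
    (e' : ∀ τ, f' τ = g' τ) : Pr k f f' := by
  rw [show f = g from funext e, show f' = g' from funext e']
  exact h

theorem QExp_congr {m : ℕ} {g f : ℍ → ℂ} {c : PowerSeries ℂ} (h : QExp g m c)
    (e : ∀ τ, f τ = g τ) : QExp f m c := by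
  rw [show f = g from funext e]
  exact h

end RelAux

open RelAux

theorem t_REL (hCON : S_CON) (hBAS : S_BAS) (hEXP : S_EXP) (hCLO : S_CLO) (hEIS : S_EIS)
    (hQ : S_QMUL) : S_REL := by
  obtain ⟨⟨hw4, hq4, _⟩, ⟨hw6, hq6, _⟩, _⟩ := id hEIS
  obtain ⟨hmul, hadd, hsc, hconst, hpow, hinv, hswap⟩ := id hCLO
  obtain ⟨qe, qs, qP, _, _, _, ce0, _, cs0, cP0⟩ := hEXP
  obtain ⟨hBw, pP, hBd, _⟩ := id hBAS
  obtain ⟨qmul, qadd, _, qsc, _, _⟩ := id hQ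
  rw [PowerSeries.coeff_zero_eq_constantCoeff_apply] at ce0 cs0 cP0
  have e40 : PowerSeries.constantCoeff (eis 4) = 1 := by
    rw [← PowerSeries.coeff_zero_eq_constantCoeff_apply, eis_coeff0]
  have e60 : PowerSeries.constantCoeff (eis 6) = 1 := by
    rw [← PowerSeries.coeff_zero_eq_constantCoeff_apply, eis_coeff0]
  have v40 : PowerSeries.constantCoeff (vps 2 (eis 4)) = 1 := by
    rw [← PowerSeries.coeff_zero_eq_constantCoeff_apply, vps_coeff0, eis_coeff0]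
  have v60 : PowerSeries.constantCoeff (vps 2 (eis 6)) = 1 := by
    rw [← PowerSeries.coeff_zero_eq_constantCoeff_apply, vps_coeff0, eis_coeff0]
  have p4 : Pr 2 (fun τ => E₄ τ) (fun τ => 4 * E₄ (dbl τ)) :=
    Pr_congr (hBw 2 (fun τ => E₄ τ) (by
      have e : (2 * 2 : ℤ) = 4 := by norm_num
      rw [e]
      exact hw4)) (fun τ => rfl) (fun τ => by norm_num)
  have p6 : Pr 3 (fun τ => E₆ τ) (fun τ => 8 * E₆ (dbl τ)) :=
    Pr_congr (hBw 3 (fun τ => E₆ τ) (by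
      have e : (2 * 3 : ℤ) = 6 := by norm_num
      rw [e]
      exact hw6)) (fun τ => rfl) (fun τ => by norm_num)
  have p4d : Pr 2 (fun τ => E₄ (dbl τ)) (fun τ => (1 / 4) * E₄ τ) :=
    Pr_congr (hsc 2 _ _ (1 / 4) (hswap _ _ _ p4)) (fun τ => by ring) (fun τ => rfl)
  have p6d : Pr 3 (fun τ => E₆ (dbl τ)) (fun τ => (1 / 8) * E₆ τ) :=
    Pr_congr (hsc 3 _ _ (1 / 8) (hswap _ _ _ p6)) (fun τ => by ring) (fun τ => rfl)
  have q4d : QExp (fun τ => E₄ (dbl τ)) 0 (vps 2 (eis 4)) := hBd (fun τ => E₄ τ) 0 _ hq4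
  have q6d : QExp (fun τ => E₆ (dbl τ)) 0 (vps 2 (eis 6)) := hBd (fun τ => E₆ τ) 0 _ hq6
  -- the first relation
  have pF : Pr 2 (fun τ => 5 * fP τ ^ 2 + ((-1) * E₄ τ + (-4) * E₄ (dbl τ)))
      (fun τ => 5 * fP τ ^ 2 + ((-1) * E₄ τ + (-4) * E₄ (dbl τ))) := by
    have h1 := hsc _ _ _ 5 (hpow 1 _ _ 2 pP)
    have h2 := hsc _ _ _ (-1) p4
    have h3 := hsc _ _ _ (-4) p4d
    have h4 := hadd 2 _ _ _ _ h1 (hadd 2 _ _ _ _ h2 h3)
    exact Pr_congr h4 (fun τ => rfl) (fun τ => by ring)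
  have qF : QExp (fun τ => 5 * fP τ ^ 2 + ((-1) * E₄ τ + (-4) * E₄ (dbl τ))) 0
      (PowerSeries.C 5 * cP ^ 2 + (PowerSeries.C (-1) * eis 4 +
        PowerSeries.C (-4) * vps 2 (eis 4))) :=
    qadd _ _ _ _ _ (qsc _ _ _ 5 (qpow hQ qP 1)) (qadd _ _ _ _ _ (qsc _ _ _ (-1) hq4)
      (qsc _ _ _ (-4) q4d))
  have cF : PowerSeries.coeff 0 (PowerSeries.C 5 * cP ^ 2 + (PowerSeries.C (-1) * eis 4 +
        PowerSeries.C (-4) * vps 2 (eis 4))) = 0 := by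
    rw [PowerSeries.coeff_zero_eq_constantCoeff_apply]
    simp only [map_add, map_mul, map_pow, PowerSeries.constantCoeff_C, cP0, e40, v40]
    norm_num
  have R1 : ∀ τ, 5 * fP τ ^ 2 + ((-1) * E₄ τ + (-4) * E₄ (dbl τ)) = 0 :=
    vanish hCON hBAS hCLO hEIS hQ 1 (by norm_num) pF qF qF cF cF
  have rP : ∀ τ, fP τ ^ 2 = fs τ + 64 * fe τ := by
    intro τ
    unfold fs fe
    linear_combination (1 / 5) * R1 τ
  have r4 : ∀ τ, E₄ τ = fP τ ^ 2 + 192 * fe τ := by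
    intro τ
    rw [rP]
    unfold fs fe
    ring
  have r4d : ∀ τ, E₄ (dbl τ) = fP τ ^ 2 - 48 * fe τ := by
    intro τ
    rw [rP]
    unfold fs fe
    ring
  -- the second relation
  have pe : Pr 2 fe (fun τ => fs τ / 64) := by
    have h1 := hadd 2 _ _ _ _ (hsc _ _ _ (1 / 240) p4) (hsc _ _ _ (-1 / 240) p4d)
    refine Pr_congr h1 (fun τ => ?_) (fun τ => ?_)
    · unfold fe
      ring
    · unfold fs
      ring
  have pF2 : Pr 3 (fun τ => E₆ (dbl τ) + ((-1) * fP τ ^ 3 + 72 * (fP τ * fe τ)))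
      (fun τ => (1 / 8) * E₆ τ + ((-1) * (- fP τ) ^ 3 + 72 * (- fP τ * (fs τ / 64)))) := by
    have h1 := hsc _ _ _ (-1) (hpow 1 _ _ 3 pP)
    have h2 := hsc _ _ _ 72 (hmul _ _ _ _ _ _ pP pe)
    exact hadd 3 _ _ _ _ p6d (hadd 3 _ _ _ _ h1 h2)
  have qF2 : QExp (fun τ => E₆ (dbl τ) + ((-1) * fP τ ^ 3 + 72 * (fP τ * fe τ))) 0
      (vps 2 (eis 6) + (PowerSeries.C (-1) * cP ^ 3 + PowerSeries.C 72 * (cP * ce))) :=
    qadd _ _ _ _ _ q6d (qadd _ _ _ _ _ (qsc _ _ _ (-1) (qpow hQ qP 2))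
      (qsc _ _ _ 72 (qmul _ _ 0 0 _ _ qP qe)))
  have qnP : QExp (fun τ => - fP τ) 0 (PowerSeries.C (-1) * cP) :=
    QExp_congr (qsc _ _ _ (-1) qP) (fun τ => by ring)
  have qs64 : QExp (fun τ => fs τ / 64) 0 (PowerSeries.C (1 / 64) * cs) :=
    QExp_congr (qsc _ _ _ (1 / 64) qs) (fun τ => by ring)
  have qF2' : QExp (fun τ => (1 / 8) * E₆ τ + ((-1) * (- fP τ) ^ 3 +
        72 * (- fP τ * (fs τ / 64)))) 0
      (PowerSeries.C (1 / 8) * eis 6 + (PowerSeries.C (-1) * (PowerSeries.C (-1) * cP) ^ 3 +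
        PowerSeries.C 72 * ((PowerSeries.C (-1) * cP) * (PowerSeries.C (1 / 64) * cs)))) :=
    qadd _ _ _ _ _ (qsc _ _ _ (1 / 8) hq6) (qadd _ _ _ _ _ (qsc _ _ _ (-1) (qpow hQ qnP 2))
      (qsc _ _ _ 72 (qmul _ _ 0 0 _ _ qnP qs64)))
  have cF2 : PowerSeries.coeff 0 (vps 2 (eis 6) + (PowerSeries.C (-1) * cP ^ 3 +
      PowerSeries.C 72 * (cP * ce))) = 0 := by
    rw [PowerSeries.coeff_zero_eq_constantCoeff_apply]
    simp only [map_add, map_mul, map_pow, PowerSeries.constantCoeff_C, cP0, v60, ce0]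
    norm_num
  have cF2' : PowerSeries.coeff 0 (PowerSeries.C (1 / 8) * eis 6 +
      (PowerSeries.C (-1) * (PowerSeries.C (-1) * cP) ^ 3 +
        PowerSeries.C 72 * ((PowerSeries.C (-1) * cP) * (PowerSeries.C (1 / 64) * cs)))) = 0 := by
    rw [PowerSeries.coeff_zero_eq_constantCoeff_apply]
    simp only [map_add, map_mul, map_pow, PowerSeries.constantCoeff_C, cP0, e60, cs0]
    norm_num
  have R2 : ∀ τ, E₆ (dbl τ) + ((-1) * fP τ ^ 3 + 72 * (fP τ * fe τ)) = 0 :=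
    vanish hCON hBAS hCLO hEIS hQ 0 (by norm_num) pF2 qF2 qF2' cF2 cF2'
  have R3 : ∀ τ, (1 / 8) * E₆ τ + ((-1) * (- fP τ) ^ 3 + 72 * (- fP τ * (fs τ / 64))) = 0 :=
    vanish hCON hBAS hCLO hEIS hQ 0 (by norm_num) (hswap _ _ _ pF2) qF2' qF2 cF2' cF2
  have rs : ∀ τ, fs τ = fP τ ^ 2 - 64 * fe τ := fun τ => by rw [rP]; ring
  have r6 : ∀ τ, E₆ τ = fP τ ^ 3 - 576 * fP τ * fe τ := by
    intro τ
    have h := R3 τ
    rw [rs] at h
    linear_combination 8 * h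
  have r6d : ∀ τ, E₆ (dbl τ) = fP τ ^ 3 - 72 * fP τ * fe τ := by
    intro τ
    linear_combination R2 τ
  have rD : ∀ τ, discriminant τ = fe τ * fs τ ^ 2 := by
    intro τ
    rw [discriminant_eq_E₄_cube_sub_E₆_sq, r4, r6, rs]
    ring
  have rDd : ∀ τ, discriminant (dbl τ) = fe τ ^ 2 * fs τ := by
    intro τ
    rw [discriminant_eq_E₄_cube_sub_E₆_sq, r4d, r6d, rs]
    ring
  refine ⟨rP, r4, r4d, r6, r6d, rD, rDd, fun τ h => ?_, fun τ h => ?_⟩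
  · have h1 := discriminant_ne_zero τ
    rw [rD, h, zero_mul] at h1
    exact h1 rfl
  · have h1 := discriminant_ne_zero τ
    rw [rD, h] at h1
    exact h1 (by ring)

end Pool.Agent.HS37.CQ
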