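import Pool.Agent.HS37.SP.Stm

/-!
# Project CQ: the supercongruences modulo `p²` attached to Ramanujan's `28 k + 3` series
(MP_b6d9c9_nt, Q2, full answer)

`u_n = (4 n)! / n!⁴`, `c = -3 · 2^12`, `S(p) = ∑_{k < p} u_k c^(-k)`.

Functions on `ℍ`: `e = (E₄(τ) - E₄(2 τ)) / 240`, `s = (16 E₄(2 τ) - E₄(τ)) / 15`, `P = 2 E₂(2 τ) - E₂(τ)`,
`h = s / e`, `Δ₈ = e s`, `y = P⁴ / (e s)`, `t = 1 / y`. Relations (REL): `P² = s + 64 e`, `Δ(τ) = e s²`,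
`Δ(2 τ) = e² s`; so `y = (h + 64)² / h`; expansion (PAR): `P = ∑ u_n t^n`. A pair `(g, g')` (structure `Pr`)
consists of a function and its image under the Fricke involution: `e' = s / 64`, `s' = 64 e`, `P' = -P`,
`h' = 4096 / h`, `y' = y`.

**Split primes.** With `p = 2 δ + 1`, `Φ(h) = ∑_{n ≤ δ} u_n h^n (h + 64)^(2 (δ - n))` the functions
`Y_Λ' = Φ(h) (s P / e)(τ) (64 P / s)(Λ') - s (h + 64)^p (64 / s)(Λ')` of the sublattices of index `p` are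
`p²` times algebraic integers (INTL) since `P ≡ ∑_{n ≤ δ} u_n t^n mod (p², q^p)`. At a CM point with
`Λ' = λ Λ` this gives `N ≡ c^δ λ² mod λ̄²`, `N = ∑_{n ≤ δ} u_n c^(δ - n)`. **Inert primes**: `p ∣ S(p)` by a Hecke
argument (INR1), and `S(p)` is the square of an element of `(ℤ / p²)[√3]` by a truncated Clausen formula
modulo `p²` (CLA), so that `p ∣ S(p)` gives `p² ∣ S(p)` (INR2).

Every piece: file `Pool/Agent/HS37/CQ/XXX.lean`, `import Pool.Agent.HS37.CQ.Stm` (and if useful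
`Pool.Agent.HS37.SP.Lem`, which has lemmas on `QExp`), theorem `t_XXX : S_XXX` or with hypotheses
`(h : S_YYY)` as indicated.
-/

set_option autoImplicit false

open UpperHalfPlane ModularForm ModularFormClass MatrixGroups EisensteinSeries Complex
open Pool.Agent.HS37.SP

namespace Pool.Agent.HS37.CQ

noncomputable section

/-- `(4 n)! / n!⁴` -/
def uu (n : ℕ) : ℕ := (4 * n).factorial / n.factorial ^ 4

/-- `2 τ` -/
def dbl (τ : ℍ) : ℍ := ofComplex (2 * (τ : ℂ))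

/-- the Fricke involution `-1 / (2 τ)` -/
def fri (τ : ℍ) : ℍ := ofComplex (-1 / (2 * (τ : ℂ)))

/-- `e` -/
def fe (τ : ℍ) : ℂ := (E₄ τ - E₄ (dbl τ)) / 240

/-- `s` -/
def fs (τ : ℍ) : ℂ := (16 * E₄ (dbl τ) - E₄ τ) / 15

/-- `P` -/
def fP (τ : ℍ) : ℂ := 2 * E2 (dbl τ) - E2 τ

/-- `h = s / e` -/
def fh (τ : ℍ) : ℂ := fs τ / fe τ

/-- `Δ₈ = e s` -/
def fD (τ : ℍ) : ℂ := fe τ * fs τ

/-- `y = P⁴ / (e s)` -/
def fy (τ : ℍ) : ℂ := fP τ ^ 4 / fD τ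

/-- `c(q^m)` -/
def vps (m : ℕ) (c : PowerSeries ℂ) : PowerSeries ℂ :=
  PowerSeries.mk fun n => if m ∣ n then PowerSeries.coeff (n / m) c else 0

/-- expansion of `e` -/
def ce : PowerSeries ℂ := PowerSeries.C (1 / 240 : ℂ) * (eis 4 - vps 2 (eis 4))

/-- expansion of `s` -/
def cs : PowerSeries ℂ := PowerSeries.C (1 / 15 : ℂ) * (16 * vps 2 (eis 4) - eis 4)

/-- expansion of `P` -/
def cP : PowerSeries ℂ := 2 * vps 2 (eis 2) - eis 2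

/-- expansion of `A = (4 E₂(2 τ) - E₂(τ)) / 3` -/
def cA : PowerSeries ℂ := PowerSeries.C (1 / 3 : ℂ) * (4 * vps 2 (eis 2) - eis 2)

/-- expansion of `t = e s / P⁴` -/
def ct : PowerSeries ℂ := ce * cs * (cP ^ 4)⁻¹

/-- `q d / dq` -/
def tht (c : PowerSeries ℂ) : PowerSeries ℂ := PowerSeries.mk fun n => (n : ℂ) * PowerSeries.coeff n c

/-- `g`, `g'` are holomorphic on the upper half plane, transform like forms of weight `2 k` for `Γ₀(2)`, and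
are exchanged by the Fricke involution: `g(-1/(2 τ)) = (2 τ²)^k g'(τ)`. -/
structure Pr (k : ℤ) (g g' : ℍ → ℂ) : Prop where
  sl : ∀ (γ : SL(2, ℤ)) (τ : ℍ), (2 : ℤ) ∣ γ 1 0 →
    g (γ • τ) = ((γ 1 0 : ℂ) * τ + (γ 1 1 : ℂ)) ^ (2 * k) * g τ
  sl' : ∀ (γ : SL(2, ℤ)) (τ : ℍ), (2 : ℤ) ∣ γ 1 0 →
    g' (γ • τ) = ((γ 1 0 : ℂ) * τ + (γ 1 1 : ℂ)) ^ (2 * k) * g' τ
  fr : ∀ τ : ℍ, g (fri τ) = (2 * (τ : ℂ) ^ 2) ^ k * g' τ
  fr' : ∀ τ : ℍ, g' (fri τ) = (2 * (τ : ℂ) ^ 2) ^ k * g τ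
  holo : DifferentiableOn ℂ (g ∘ ofComplex) {z | 0 < z.im}
  holo' : DifferentiableOn ℂ (g' ∘ ofComplex) {z | 0 < z.im}

/-! ### Foundations -/

/-- **CLO** (closure properties of `Pr`; all by `mul_zpow`, `zpow_add₀`; `τ ≠ 0`,
`(γ 1 0 : ℂ) * τ + γ 1 1 ≠ 0` is `UpperHalfPlane.denom_ne_zero`). -/
def S_CLO : Prop :=
  (∀ (k l : ℤ) (g g' f f' : ℍ → ℂ), Pr k g g' → Pr l f f' →
    Pr (k + l) (fun τ => g τ * f τ) (fun τ => g' τ * f' τ)) ∧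
  (∀ (k : ℤ) (g g' f f' : ℍ → ℂ), Pr k g g' → Pr k f f' →
    Pr k (fun τ => g τ + f τ) (fun τ => g' τ + f' τ)) ∧
  (∀ (k : ℤ) (g g' : ℍ → ℂ) (z : ℂ), Pr k g g' → Pr k (fun τ => z * g τ) (fun τ => z * g' τ)) ∧
  (∀ z : ℂ, Pr 0 (fun _ => z) (fun _ => z)) ∧
  (∀ (k : ℤ) (g g' : ℍ → ℂ) (n : ℕ), Pr k g g' → Pr (n * k) (fun τ => g τ ^ n) (fun τ => g' τ ^ n)) ∧
  (∀ (k : ℤ) (g g' : ℍ → ℂ), Pr k g g' → (∀ τ, g τ ≠ 0) → (∀ τ, g' τ ≠ 0) →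
    Pr (-k) (fun τ => (g τ)⁻¹) (fun τ => (g' τ)⁻¹)) ∧
  (∀ (k : ℤ) (g g' : ℍ → ℂ), Pr k g g' → Pr k g' g)

/-- **BAS**. (1) A weak form `g` of weight `2 k` of level one gives `Pr k g (2^k g(2 τ))`:
`g(-1/(2τ)) = (2 τ)^(2 k) g(2 τ)` (slash rule of `S` at `2 τ`); `g(2 γ τ) = g(γ' (2 τ))` with
`γ' = (a, 2 b; c / 2, d)`; `2 · (-1/(2τ)) = -1/τ = S τ`. (2) `P`: for `γ` even below on the left,
`E₂(γ τ) = (c τ + d)² E₂(τ) + (12 / (2 π i)) c (c τ + d)` (`E2_slash_action`, `D2`), the terms with `c` cancel in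
`2 E₂(2 τ) - E₂(τ)`; and `E₂(-1/τ) = τ² E₂(τ) + 6 τ / (π i)` gives `P(-1/(2 τ)) = - 2 τ² P(τ)`. (3) the expansion
of `g(2 τ)`: `qq (2 τ) = qq τ ^ 2`, reindexing by `n ↦ 2 n`; (4) the expansion of `E₂`: Mathlib's
`hasSum_qExpansion_E2` or `E2_eq_tsum_cexp`, `bernoulli 2 = 1/6`. -/
def S_BAS : Prop :=
  (∀ (k : ℤ) (g : ℍ → ℂ), IsWeak (2 * k) g → Pr k g (fun τ => 2 ^ k * g (dbl τ))) ∧
  Pr 1 fP (fun τ => - fP τ) ∧
  (∀ (g : ℍ → ℂ) (e : ℕ) (c : PowerSeries ℂ), QExp g e c → QExp (fun τ => g (dbl τ)) (2 * e) (vps 2 c)) ∧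
  QExp E2 0 (eis 2)

/-- **EXP**. The expansions of `e`, `s`, `P` with integral coefficients: `e = q + ...`, `s = 1 + ...`, `P = 1 + ...`.
(`eis 4 = 1 + 240 ∑ σ₃(n) q^n`, `eis 2 = 1 - 24 ∑ σ₁(n) q^n`.) Uses `S_BAS`, `S_EIS`, `S_QMUL`. -/
def S_EXP : Prop :=
  QExp fe 0 ce ∧ QExp fs 0 cs ∧ QExp fP 0 cP ∧ IsInt ce ∧ IsInt cs ∧ IsInt cP ∧
  PowerSeries.coeff 0 ce = 0 ∧ PowerSeries.coeff 1 ce = 1 ∧ PowerSeries.coeff 0 cs = 1 ∧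
  PowerSeries.coeff 0 cP = 1

/-- **CON**. A `Γ₀(2)`-invariant holomorphic function which is holomorphic at both cusps is constant.
Proof: either Mathlib (`ModularForm.eq_const_of_weight_zero` for `Γ₀(2)`), or: `F₀ = F(τ)`,
`F₁ = F(-1/τ) = F'(τ / 2)`, `F₂ = F(-1/(τ + 1)) = F'((τ + 1) / 2)` are permuted by `SL(2, ℤ)`; the elementary
symmetric functions of them are level one functions of weight `0`, bounded at the cusp, so constant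
(`S_NEG`, second part); so `F` takes only finitely many values; `F` is continuous and `ℍ` connected, so `F` is
constant, and it is the limit at `i ∞`, `coeff 0 c`. -/
def S_CON : Prop :=
  ∀ (F F' : ℍ → ℂ) (c c' : PowerSeries ℂ), Pr 0 F F' → QExp F 0 c → QExp F' 0 c' →
    ∀ τ, F τ = PowerSeries.coeff 0 c

/-- **REL** (from `S_CON`, `S_BAS`, `S_EXP`, `S_CLO`, `S_EIS`, `S_QMUL`). The relations.
Proof: `F = 5 P² - E₄ - 4 E₄(2 τ)` (`Pr 2 F F`) has an expansion without constant term, so `F³ / Δ` with partner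
`F³ / (64 Δ(2 τ))` has expansions in `q² (...)` and `q (...)` (`1 / Δ` has an expansion with pole `1` by `S_EIS`), so it
is constant `0` by CON: `5 P² = E₄ + 4 E₄(2 τ)`. With `E₄ = s + 256 e`, `E₄(2 τ) = s + 16 e` (definition of `e`, `s`) this is
`P² = s + 64 e`. Next `F = E₆(2 τ) - P³ + 72 P e` (weight 6), `8 F' = E₆ - P³ + 576 P e` (partner of `E₆(2 τ)` is
`E₆ / 8`, of `P³` is `-P³`, of `P e` is `- P s / 64`), no constant terms, `F² / Δ = O(q)`, its partner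
`F'² / (64 Δ(2 τ)) = O(1)`, so `F² / Δ` is constant `0`. Then `1728 Δ = E₄³ - E₆²` gives
`1728 Δ = (P² + 192 e)³ - (P³ - 576 P e)² = 1728 e s²`, and at `2 τ`: `(P² - 48 e)³ - (P³ - 72 P e)² = 1728 e² s`. -/
def S_REL : Prop :=
  (∀ τ, fP τ ^ 2 = fs τ + 64 * fe τ) ∧ (∀ τ, E₄ τ = fP τ ^ 2 + 192 * fe τ) ∧
  (∀ τ, E₄ (dbl τ) = fP τ ^ 2 - 48 * fe τ) ∧ (∀ τ, E₆ τ = fP τ ^ 3 - 576 * fP τ * fe τ) ∧
  (∀ τ, E₆ (dbl τ) = fP τ ^ 3 - 72 * fP τ * fe τ) ∧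
  (∀ τ, discriminant τ = fe τ * fs τ ^ 2) ∧ (∀ τ, discriminant (dbl τ) = fe τ ^ 2 * fs τ) ∧
  (∀ τ, fe τ ≠ 0) ∧ (∀ τ, fs τ ≠ 0)

/-- **PRE** (from `S_REL`, `S_BAS`, `S_EXP`, `S_CLO`, `S_EIS`, `S_QMUL`). `e' = s / 64` (from `E₄' = 4 E₄(2 τ)`) and the
expansions of `1 / e = s² / Δ` and `1 / s = e s / Δ` (`1 / Δ` has an integral expansion with pole `1`, `S_EIS`). -/
def S_PRE : Prop :=
  Pr 2 fe (fun τ => fs τ / 64) ∧ Pr 2 fs (fun τ => 64 * fe τ) ∧ Pr 4 fD fD ∧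
  Pr 0 fh (fun τ => 4096 / fh τ) ∧ Pr 0 fy fy ∧
  (∃ c, QExp (fun τ => (fe τ)⁻¹) 1 c ∧ IsInt c ∧ ce * c = PowerSeries.X ∧ PowerSeries.coeff 0 c = 1) ∧
  (∃ c, QExp (fun τ => (fs τ)⁻¹) 0 c ∧ IsInt c ∧ cs * c = 1 ∧ PowerSeries.coeff 0 c = 1) ∧
  (∃ c, QExp fh 1 c ∧ IsInt c ∧ PowerSeries.coeff 0 c = 1) ∧
  (∃ c, QExp (fun τ => 4096 / fh τ) 0 c ∧ IsInt c ∧ PowerSeries.coeff 0 c = 0)

/-- **GEX** (from `S_PRE`, `S_QMUL`). Prescribed polar parts. There are integral polynomials `G₁`, `G₂` such that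
`G = G₁(h) + G₂(4096 / h)` has at `i ∞` (pole order `≤ M`) the given integral coefficients with index `< M` and
its partner `G' = G₁(4096 / h) + G₂(h)` at the other cusp (pole order `≤ R`) the given coefficients with index `≤ R`.
Proof: `h = q⁻¹ + ...` is integral, `4096 / h = O(q)`. Choose `G₁` without constant term, of degree `≤ M`, by
descending induction (only `h^i`, `i ≥ 1`, matter for the polar part, and `G₂(4096 / h)` has no polar part);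
then `G₂` (with constant term) of degree `≤ R` for the partner, where the contribution of `G₁(4096 / h)` to the
coefficient of index `R` is `0`, as `4096 / h = O(q)` and `G₁(0) = 0`. -/
def S_GEX : Prop :=
  ∀ (M R : ℕ) (z z' : ℕ → ℤ), ∃ (G₁ G₂ : Polynomial ℤ) (g g' : PowerSeries ℂ),
    QExp (fun τ => Polynomial.aeval (fh τ) G₁ + Polynomial.aeval (4096 / fh τ) G₂) M g ∧
    QExp (fun τ => Polynomial.aeval (4096 / fh τ) G₁ + Polynomial.aeval (fh τ) G₂) R g' ∧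
    IsInt g ∧ IsInt g' ∧ (∀ i < M, PowerSeries.coeff i g = z i) ∧
    (∀ i ≤ R, PowerSeries.coeff i g' = z' i)

/-- **PR2** (from `S_GEX`, `S_CON`, `S_PRE`, `S_CLO`, `S_QMUL`). The `q`-expansion principle: subtract the `G` of GEX; the
difference has no poles (QExp with pole `0`: last part of `S_QMUL`, the first `M` coefficients vanish), so it is
constant, and its partner is the same constant and has constant term `0`. -/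
def S_PR2 : Prop :=
  ∀ (F F' : ℍ → ℂ) (m m' : ℕ) (c c' : PowerSeries ℂ), Pr 0 F F' → QExp F m c → QExp F' m' c' →
    (∀ i < m, ∃ z : ℤ, PowerSeries.coeff i c = z) → (∀ i ≤ m', ∃ z : ℤ, PowerSeries.coeff i c' = z) →
    ∃ Q₁ Q₂ : Polynomial ℤ, ∀ τ, F τ = Polynomial.aeval (fh τ) Q₁ + Polynomial.aeval (4096 / fh τ) Q₂

/-! ### Hecke operators on `Γ₀(2)` -/

/-- **VR2** (from `S_RED`). (1) the value does not change under `γ ∈ Γ₀(2)` on the left; (2) an integral matrix of odd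
determinant `N > 0`, even below on the left, is `γ * mat t` with `γ ∈ Γ₀(2)` (`γ 1 0 * a = B 1 0`, `a` odd).
(3), (4) the values at CM points: `M (τ, 1) = l (τ, 1)`: `val (2 k) g M τ = l^(-2k) g(τ)`;
`M (τ, 1) = l (-1, 2 τ)`: `val (2 k) g M τ = (2 l τ)^(-2k) g(-1/(2τ)) = (2 l²)^(-k) g'(τ)`; for `M = γ * mat t`. -/
def S_VR2 : Prop :=
  (∀ (k : ℤ) (g g' : ℍ → ℂ), Pr k g g' → ∀ (A : Matrix (Fin 2) (Fin 2) ℤ) (γ : SL(2, ℤ)) (τ : ℍ),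
    0 < A.det → (2 : ℤ) ∣ γ 1 0 →
    val (2 * k) g ((γ : Matrix (Fin 2) (Fin 2) ℤ) * A) τ = val (2 * k) g A τ) ∧
  (∀ (N : ℕ), 0 < N → Odd N → ∀ B : Matrix (Fin 2) (Fin 2) ℤ, B.det = N → (2 : ℤ) ∣ B 1 0 →
    ∃ t ∈ reps N, ∃ γ : SL(2, ℤ), (2 : ℤ) ∣ γ 1 0 ∧ B = (γ : Matrix (Fin 2) (Fin 2) ℤ) * mat t) ∧
  (∀ (N : ℕ), 0 < N → Odd N → ∀ (M : Matrix (Fin 2) (Fin 2) ℤ) (τ : ℍ) (l : ℂ), M.det = N →
    (2 : ℤ) ∣ M 1 0 → (M 0 0 : ℂ) * τ + (M 0 1 : ℂ) = l * τ → (M 1 0 : ℂ) * τ + (M 1 1 : ℂ) = l →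
    ∃ t ∈ reps N, ∀ (k : ℤ) (g g' : ℍ → ℂ), Pr k g g' → val (2 * k) g (mat t) τ = l ^ (-(2 * k)) * g τ) ∧
  (∀ (N : ℕ), 0 < N → Odd N → ∀ (M : Matrix (Fin 2) (Fin 2) ℤ) (τ : ℍ) (l : ℂ), M.det = N →
    (2 : ℤ) ∣ M 1 0 → (M 0 0 : ℂ) * τ + (M 0 1 : ℂ) = - l → (M 1 0 : ℂ) * τ + (M 1 1 : ℂ) = 2 * l * τ →
    ∃ t ∈ reps N, ∀ (k : ℤ) (g g' : ℍ → ℂ), Pr k g g' →
      val (2 * k) g (mat t) τ = (2 * l ^ 2) ^ (-k) * g' τ)

/-- **HK2** (from `S_VR2`, `S_MAP`, `S_RED`; compare `Pool/Agent/HS37/SP/Weak.lean`). Hecke sums for odd `N`.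
Proof: for `γ ∈ Γ₀(2)`: `mat t * γ = γ' * mat (ι t)` with `γ' 1 0 * a' = (mat t * γ) 1 0 = d (γ 1 0)`, even, `a'` odd, so
`γ' ∈ Γ₀(2)`. Fricke: `W = (0, -1; 2, 0)`, `mat (a, b, d) * W = W * M'` with `M' = (d, 0; -2 b, a)` of determinant `N`, even
below on the left, `M' = γ * mat t'`, and `t ↦ t'` is injective (`S_RED`) on `reps N`, so bijective. In coordinates:
`(a w + b) / d` for `w = -1/(2 τ)` is `-1/(2 τ')`, `τ' = M' τ = d τ / (a - 2 b τ)`, so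
`d^(-2k) g((a w + b) / d) = d^(-2k) (2 τ'^2)^k g'(τ') = (2 τ²)^k (a - 2 b τ)^(-2k) g'(τ') = (2 τ²)^k val (2 k) g' M' τ`. -/
def S_HK2 : Prop :=
  ∀ (k : ℤ) (g g' : ℍ → ℂ) (N : ℕ), 0 < N → Odd N → Pr k g g' →
    Pr k (hsum (2 * k) N g) (hsum (2 * k) N g')

/-- **TRC** (from `S_HK2`, `S_HQ`, `S_QMUL`, `S_CLO`). The trace of one term `A(τ) B(Λ')`: its expansion is
`a(q) b(q^p)` plus `p^(1 - 2 k)` times an integral series. (In `S_HQ` the term `(a, d) = (p, 1)` gives `b(q^p)` and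
the term `(1, p)` has the factor `p^(1 - 2k)`.) -/
def S_TRC : Prop :=
  ∀ (p : ℕ), p.Prime → p ≠ 2 → ∀ (k : ℤ) (A A' B B' : ℍ → ℂ), Pr (-k) A A' → Pr k B B' →
    Pr 0 (fun τ => A τ * hsum (2 * k) p B τ) (fun τ => A' τ * hsum (2 * k) p B' τ) ∧
    ∀ (x y : ℕ) (a b : PowerSeries ℂ), QExp A x a → QExp B y b → IsInt a → IsInt b →
      ∃ r : PowerSeries ℂ, IsInt r ∧ QExp (fun τ => A τ * hsum (2 * k) p B τ) (x + p * y)
        (a * vps p b + PowerSeries.C ((p : ℂ) ^ (1 - 2 * k)) * r)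

/-- **PSM**. If all power sums lie in `ℤ[u, v]`, with `u`, `v` algebraic integers, then the numbers are algebraic
integers. Proof: as `Pool/Agent/HS37/SP/Psum.lean` with `ℤ` replaced by `A = ℤ[u, v] ⊆ ℂ`, a finitely generated
`ℤ`-module: the `A`-linear map `A[x] → A^r`, `h ↦ (∑_i h_i x_i^b)_b` (`A[x] ⊆ ℂ^r` generated by `x = (x_i)`) is well
defined and injective (Vandermonde), so `A[x]` is a finitely generated `ℤ`-module. -/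
def S_PSM : Prop :=
  ∀ (T : Finset (ℕ × ℕ × ℕ)) (x : ℕ × ℕ × ℕ → ℂ) (u v : ℂ), IsIntegral ℤ u → IsIntegral ℤ v →
    (∀ M : ℕ, 1 ≤ M → ∃ Q₁ Q₂ : Polynomial ℤ,
      ∑ i ∈ T, x i ^ M = Polynomial.aeval u Q₁ + Polynomial.aeval v Q₂) →
    ∀ i ∈ T, IsIntegral ℤ (x i)

/-- **INTL** (from `S_TRC`, `S_GEX`, `S_PR2`, `S_PSM`, `S_CLO`, `S_PRE`, `S_QMUL`). The integrality lemma.
Proof: `Y = ∑ a_i b_i(q^p)` (pole `M`), `Y' = ∑ a'_i b'_i(q^p)` (pole `p`). Let `G` be as in GEX with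
`Y - p² g` zero in degrees `< M` and `Y' - p² g'` zero in degrees `≤ p`. Add a third term `p^2 · (-G) · 1` of weight
`0` (exponents `ε₀ = ε₁ = 0`, `ε₂ = 2`, `k₂ = 0`, `A₂ = - G`, `B₂ = 1`, poles of `A₂` `M`, of `A₂'` `p`):
`X_t = ∑_{i < 3} p^ε_i A_i(τ) val (2 k_i) B_i (mat t) τ`. Then
`∑_t X_t^m = ∑_{f : Fin m → Fin 3} p^(∑ ε) (∏ A_(f j))(τ) hsum (2 ∑ k) p (∏ B_(f j)) τ` (`Fintype.sum_pow`; `val` is
multiplicative), which by TRC has the expansion `(Y - p² g)^m + ∑_f p^(∑ ε + 1 - 2 ∑ k) (...)`, and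
`∑ ε - 2 ∑ k ≥ 2 m` as `ε_i - 2 k_i ≥ 2`. The first part vanishes in degrees `< m M` (pole `m M`), and for the
partner in degrees `≤ m p` (pole `m p`, `m ≥ 1`). So `p^(-2m) ∑_t X_t^m` satisfies the hypotheses of PR2, and by PSM
the `X_t / p²` are algebraic integers, if `h` and `4096 / h` are. And `G(τ)` is an algebraic integer. -/
def S_INTL : Prop :=
  ∀ (p : ℕ), p.Prime → p ≠ 2 → ∀ (k : Fin 2 → ℤ) (A A' B B' : Fin 2 → ℍ → ℂ)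
    (a a' b b' : Fin 2 → PowerSeries ℂ) (M : ℕ),
    (∀ i, k i ≤ -1) → (∀ i, Pr (-(k i)) (A i) (A' i)) → (∀ i, Pr (k i) (B i) (B' i)) →
    (∀ i, QExp (A i) M (a i)) → (∀ i, QExp (A' i) 0 (a' i)) → (∀ i, QExp (B i) 0 (b i)) →
    (∀ i, QExp (B' i) 1 (b' i)) → (∀ i, IsInt (a i)) → (∀ i, IsInt (a' i)) → (∀ i, IsInt (b i)) →
    (∀ i, IsInt (b' i)) →
    (∀ n < M, ∃ z : ℤ, PowerSeries.coeff n (∑ i, a i * vps p (b i)) = (p : ℂ) ^ 2 * z) →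
    (∀ n ≤ p, ∃ z : ℤ, PowerSeries.coeff n (∑ i, a' i * vps p (b' i)) = (p : ℂ) ^ 2 * z) →
    ∀ τ : ℍ, IsIntegral ℤ (fh τ) → IsIntegral ℤ (4096 / fh τ) → ∀ t ∈ reps p,
      ∃ w : ℂ, IsIntegral ℤ w ∧
        ∑ i, A i τ * val (2 * k i) (B i) (mat t) τ = (p : ℂ) ^ 2 * w

/-! ### The parametrization `P = ∑ u_n t^n` -/

/-- **RAM** (from `S_REL`, `S_EXP`, `S_EIS`, `S_BAS`, `S_QMUL`). Ramanujan's differential equations for the series.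
Proof: `ram2`, `ram4` of `Pool/Agent/Y949/J/Ram2.lean` (start library; functions on `ℍ`) give
`12 θ E₂ = E₂² - E₄`, `3 θ E₄ = E₂ E₄ - E₆` as series (uniqueness of expansions; `D` is `(2 π i)⁻¹ d / dz`, and the
derivative of an absolutely convergent series). With `V = vps 2`, `θ (V c) = 2 V (θ c)`. Put
`E₂ = 3 A - 2 P`, `V E₂ = (3 A - P) / 2`, `E₄ = P² + 192 e`, `V E₄ = P² - 48 e`, `E₆ = P³ - 576 P e`,
`V E₆ = P³ - 72 P e` (`S_REL` and uniqueness). -/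
def S_RAM : Prop :=
  cP ^ 2 = cs + 64 * ce ∧
  tht ce = ce * cA ∧
  2 * tht cP = cP * cA - cP ^ 2 + 64 * ce ∧
  4 * tht cA = cA ^ 2 - cP ^ 2 + 64 * ce

/-- **PAR** (from `S_RAM`, `S_EXP`). `P = ∑ u_n t^n`, in the form that `X^N` divides the difference with the partial sum.
Proof: write `P, A, e, s` for the series, `Q = P² - 128 e` (constant term `1`), `s = P² - 64 e`. `θ` is a derivation,
`θ t = t Q / P`. Put `D f = (P / Q) θ f`, so `D t^n = n t^n`. With `n₁ = P (P A - P² + 64 e) / 2`,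
`n₂ = P ((θ n₁) Q - n₁ θ Q)`, `n₃ = P ((θ n₂) Q - 3 n₂ θ Q)` one has `D P = n₁ / Q`, `D² P = n₂ / Q³`,
`D³ P = n₃ / Q⁵`, and `P⁴ - 256 e s = Q²`, and `ring` proves
`n₃ = 256 e s ((3/2) n₂ + (11/16) n₁ Q² + (3/32) P Q³)` (after expressing all `θ` by `S_RAM`), i.e.
`L P = 0` for `L = D³ - 256 t (D + 1/2) (D + 1/4) (D + 3/4)`. For `F_N = ∑_{n < N} u_n t^n`:
`L F_N = - N³ u_N t^N` since `(n + 1)³ u_(n+1) = 256 (n + 1/2) (n + 1/4) (n + 3/4) u_n`. If `g = P - F_N` had a lowest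
term `g_m q^m`, `m < N`, then `L g = m³ g_m q^m + ...` (`t = q + ...`, `P / Q = 1 + ...`) is divisible by `q^N`, so
`m³ g_m = 0`, `m = 0`; but `g` has no constant term for `N ≥ 1`. -/
def S_PAR : Prop :=
  ∀ N : ℕ, PowerSeries.X ^ N ∣
    cP - ∑ n ∈ Finset.range N, PowerSeries.C (uu n : ℂ) * ct ^ n

/-- **UDV**. Divisibility of `u_n = C(4n, 2n) C(2n, n)²`. (1) `p < 2 n < 2 p`: `p ∣ C(2n, n)`. (2) `p < 4 n < 4 p`:
`p ∣ C(4n, 2n)` or `p ∣ C(2n, n)`. (3) Lucas (`Choose.choose_modEq_choose_mod_mul_choose_div`): for `4 a < p`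
directly, and for `4 a > p` both sides vanish modulo `p` (for `2 a < p < 4 a` a digit of `2 n` exceeds the one of
`4 n`, for `p < 2 a` a digit of `n` exceeds the one of `2 n`). (4) `u_n` as a quotient, and the recursion. -/
def S_UDV : Prop :=
  (∀ p n : ℕ, p.Prime → p ≠ 2 → n < p → p < 2 * n → p ^ 2 ∣ uu n) ∧
  (∀ p n : ℕ, p.Prime → p ≠ 2 → n < p → p < 4 * n → p ∣ uu n) ∧
  (∀ p a b : ℕ, p.Prime → p ≠ 2 → a < p → uu (a + p * b) ≡ uu a * uu b [MOD p]) ∧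
  (∀ n : ℕ, uu n * n.factorial ^ 4 = (4 * n).factorial) ∧
  (∀ n : ℕ, (n + 1) ^ 3 * uu (n + 1) = 8 * (2 * n + 1) * (4 * n + 1) * (4 * n + 3) * uu n)

/-! ### Split primes -/

/-- `N = ∑_{n ≤ δ} u_n c^(δ - n)` -/
def NN (δ : ℕ) (c : ℤ) : ℤ := ∑ n ∈ Finset.range (δ + 1), (uu n : ℤ) * c ^ (δ - n)

/-- **HYP** (from `S_PAR`, `S_UDV`, `S_RAM`, `S_EXP`, `S_PRE`). The two series of the application are divisible by `p²` in
low degrees. `p = 2 δ + 1`. With `1 / s = c₀` and `1 / e = q^(-1) c₁` the expansions are given by the series below: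
type one `64 Φ(h) (s P / e) · V(P / s) - s (h + 64)^p · V(64 / s)`, `h = s / e`. Stated without denominators:
for all integral series `κ` (the unit `64 (h+64)^(2 δ) ...`) it is enough to know that the bracket
`Br = (∑_{n ≤ δ} u_n t^n) P(q^p) - P(q)` is `p²` times an integral series plus `X^p` times an integral series.
Proof: `P(q^p) ≡ 1 mod X^p`; `P ≡ ∑_{n < p} u_n t^n mod X^p` (PAR), and `p² ∣ u_n` for `δ < n < p` (UDV). `ct` is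
integral (inverse of an integral series with constant term `1`). -/
def S_HYP : Prop :=
  ∀ (p δ : ℕ), p.Prime → p = 2 * δ + 1 → ∃ r₁ r₂ : PowerSeries ℂ, IsInt r₁ ∧ IsInt r₂ ∧
    (∑ n ∈ Finset.range (δ + 1), PowerSeries.C (uu n : ℂ) * ct ^ n) * vps p cP - cP =
      PowerSeries.C ((p : ℂ) ^ 2) * r₁ + PowerSeries.X ^ p * r₂

/-- **INTY** (from `S_INTL`, `S_HYP`, `S_VR2`, `S_REL`, `S_PRE`, `S_EXP`, `S_RAM`, `S_CLO`, `S_BAS`, `S_QMUL`). Application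
of INTL to the CM points. `p = 2 δ + 1`, `y(τ) = c`, i.e. `P⁴ = c e s`.
Proof: `Φ(h) = ∑_{n ≤ δ} u_n h^n (h + 64)^(2 (δ - n))`, `A₀ = Φ(h) s P / e` (`k₀ = -1`), `B₀ = 64 P / s`,
`A₁ = - s (h + 64)^p` (`k₁ = -2`), `B₁ = 64 / s`, `M = p`; partners `A₀' = - 4096 Φ(4096/h) e P / s`, `B₀' = - P / e`,
`A₁' = - 64 e (4096/h + 64)^p`, `B₁' = 1 / e`. As `e (h + 64) = P²` and `Φ(h) = (h + 64)^(2δ) ∑ u_n t^n`,
`t = h / (h + 64)² = t'`, the series `∑ a_i V(b_i)` is `64 (h + 64)^(2δ) (s P / e) V(1 / s) · Br` and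
`∑ a'_i V(b'_i)` is `4096 (4096/h + 64)^(2δ) (e P / s) V(1 / e) · Br`, `Br` the bracket of HYP; the first has pole
`p`, the second is `X ·` integral `· Br` with pole `p`; so the hypotheses of INTL hold. `h² + (128 - c) h + 4096 = 0`
(from `(h + 64)² = c h`), so `h` and `4096 / h` (the other root) are algebraic integers. For `M (τ, 1) = l (τ, 1)`,
by VR2, `X_t = 64 l² (h + 64) h^δ (N - c^δ l²)` (use `(h + 64)² = c h`); multiply by `(h + 64) (4096 / h)^(δ + 1)`.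
For `M (τ, 1) = l (-1, 2 τ)`: `X_t = - 2 l² h^(δ + 1) (h + 64) (N + 2 l² c^δ)`; multiply by
`- (h + 64) (4096 / h)^(δ + 2)`. -/
def S_INTY : Prop :=
  ∀ (p δ : ℕ) (τ : ℍ) (c : ℤ) (M : Matrix (Fin 2) (Fin 2) ℤ) (l : ℂ), p.Prime → p = 2 * δ + 1 →
    fP τ ^ 4 = c * (fe τ * fs τ) → M.det = p → (2 : ℤ) ∣ M 1 0 → l ≠ 0 →
    ((M 0 0 : ℂ) * τ + (M 0 1 : ℂ) = l * τ → (M 1 0 : ℂ) * τ + (M 1 1 : ℂ) = l →
      ∃ w : ℂ, IsIntegral ℤ w ∧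
        64 * c * 4096 ^ (δ + 1) * ((NN δ c : ℂ) - c ^ δ * l ^ 2) * l ^ 2 = (p : ℂ) ^ 2 * w) ∧
    ((M 0 0 : ℂ) * τ + (M 0 1 : ℂ) = - l → (M 1 0 : ℂ) * τ + (M 1 1 : ℂ) = 2 * l * τ →
      ∃ w : ℂ, IsIntegral ℤ w ∧
        2 * c * 4096 ^ (δ + 2) * ((NN δ c : ℂ) + 2 * c ^ δ * l ^ 2) * l ^ 2 = (p : ℂ) ^ 2 * w)

/-- **EXT**. Extraction of a congruence between rational integers. `l² + l̄² = T`, `l l̄ = p` resp. `p / 2`.
Proof of (1): `K N l² - K c' l⁴ = p² w`; add the conjugate (`l⁴ + l̄⁴ = T² - 2 p²`):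
`K T (N - c' T) = p² (w + w̄ - 2 K c')`; `w + w̄` is an algebraic integer (the conjugate of an algebraic integer is
one) and rational, so an integer. (2): `K N l² + 2 K c' l⁴ = p² w`, `l⁴ + l̄⁴ = T² - p² / 2`,
`K T (N + 2 c' T) = p² (w + w̄ + K c')`. -/
def S_EXT : Prop :=
  ∀ (p : ℕ) (N T K c' : ℤ) (l w : ℂ), p.Prime → IsIntegral ℤ w → ¬ (p : ℤ) ∣ T → ¬ (p : ℤ) ∣ K →
    l ^ 2 + (starRingEnd ℂ) l ^ 2 = T →
    (l * (starRingEnd ℂ) l = p → K * (N - c' * l ^ 2) * l ^ 2 = (p : ℂ) ^ 2 * w →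
      (p : ℤ) ^ 2 ∣ N - c' * T) ∧
    (2 * (l * (starRingEnd ℂ) l) = p → K * (N + 2 * c' * l ^ 2) * l ^ 2 = (p : ℂ) ^ 2 * w →
      (p : ℤ) ^ 2 ∣ N + 2 * c' * T)

/-! ### Inert primes, modulo `p²` -/

/-- **CLA**. Truncated Clausen formula modulo `p²`, for every prime `p` and every natural number `a` (checked
numerically). Write `b_k = (-1)^k C(a, k) C(a + k, k)`, `w = X - X²`.
Proof. (i) For `a < p` the sums are complete and the difference is `0` (terminating Clausen, i.e. `P_a(1 - 2X)² =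
∑_k b_k C(2k, k) (X - X²)^k`; e.g. both sides satisfy the third order equation
`L f = w² f''' + 3 w w' f'' + (w w'' + w'^2 + 4 a (a+1) w) f' + 2 a (a + 1) w' f = 0` (symmetric square of
`w f'' + w' f' + a (a + 1) f = 0`) and have the same value `1` at `X = 0`; lowest coefficient recursion determines a
polynomial (power series over `ℚ`) solution from its value at `0`).
(ii) The coefficients of the difference are polynomials in `a` with denominators prime to `p` (`k < p`), and they are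
symmetric under `a ↦ -1 - a`, as `b_k = ∏_{j ≤ k} (j (j - 1) - a (a + 1)) / j!²` is a polynomial in `n = a (a + 1)` of
degree `k` over `ℤ_(p)`; so each coefficient is `D(n)`, `D ∈ ℤ_(p)[x]`, of degree `≤ 2 (p - 1)`, which vanishes for `n = a (a + 1)`,
`a = 0, ..., p - 1`. These `p` numbers are different, `D(x) = ∏_{i < p} (x - i (i + 1)) D₁(x)` with `D₁` over `ℤ_(p)` (monic
division). For every `a`, `a (a + 1) - i (i + 1) = (a - i) (a + i + 1)`, and the product over `0 ≤ i < p` contains a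
factor `a - i ≡ 0` and a factor `a + i + 1 ≡ 0 mod p`, so it is divisible by `p²`. -/
def S_CLA : Prop :=
  ∀ (p a : ℕ), p.Prime → ∃ W : Polynomial ℤ,
    ∑ k ∈ Finset.range p, Polynomial.C ((-1 : ℤ) ^ k * (a.choose k : ℤ) * ((a + k).choose k : ℤ) *
        ((2 * k).choose k : ℤ)) * (Polynomial.X - Polynomial.X ^ 2) ^ k
      - (∑ k ∈ Finset.range p, Polynomial.C ((-1 : ℤ) ^ k * (a.choose k : ℤ) * ((a + k).choose k : ℤ)) *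
        Polynomial.X ^ k) ^ 2 = Polynomial.C ((p : ℤ) ^ 2) * W

/-- **INR2** (from `S_CLA`, `S_UDV`). If `c (m² - n² d) = 256 m²` and `p` divides the sum, then `p²` divides it.
Proof: choose a natural number `a` with `4 a + 1 ≡ 0 mod p²`, and `f` with `2 m f ≡ 1 mod p²`, and work in `ℤ√d`
(`Zsqrtd d`) modulo `p²`: `z = f (m + n √d)`, `z (1 - z) ≡ (m² - n² d) f² ≡ 64 / c`, i.e. `c z (1 - z) ≡ 64`. Modulo `p²`
`k!² 16^k b_k ≡ ∏_{j ≤ k} (4 j - 3) (4 j - 1)`, so `64^k b_k C(2k, k) ≡ u_k` for `k < p` (`p ∤ k!`), and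
`∑_{k < p} u_k c^(p-1-k) ≡ c^(p-1) ∑ b_k C(2k, k) (z - z²)^k ≡ c^(p-1) H²` (CLA), `H = ∑_{k < p} b_k z^k = α + β √d`.
So `p² ∣ 2 α β` and `α² + d β² ≡ c^(1-p) ∑ ≡ 0 mod p`; so `p ∣ α` or `p ∣ β`, hence both (`p ∤ d`), and
`p² ∣ α² + d β²`. -/
def S_INR2 : Prop :=
  ∀ (p : ℕ) (c m n d : ℤ), p.Prime → p ≠ 2 → c * (m ^ 2 - n ^ 2 * d) = 256 * m ^ 2 →
    ¬ (p : ℤ) ∣ c → ¬ (p : ℤ) ∣ m → ¬ (p : ℤ) ∣ d →
    (p : ℤ) ∣ ∑ k ∈ Finset.range p, (uu k : ℤ) * c ^ (p - 1 - k) →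
    (p : ℤ) ^ 2 ∣ ∑ k ∈ Finset.range p, (uu k : ℤ) * c ^ (p - 1 - k)

/-! ### Inert primes, modulo `p` -/

/-- **LUC** (from `S_PAR`, `S_UDV`, `S_EXP`). `K = ∑_{n ≤ p/4} u_n Δ₈^n P^(p-1-4n) ≡ 1 mod p`.
Proof: modulo `(p, X^N)`: `P ≡ ∑_{n < p N} u_n t^n ≡ (∑_{a < p} u_a t^a) (∑_{b < N} u_b t^(p b))` (Lucas) and
`∑_b u_b t^(pb) ≡ (∑_{b<N} u_b t^b)^p ≡ P^p`, `∑_{a < p} u_a t^a ≡ ∑_{a ≤ p/4} u_a t^a`. So
`P^(p-1) ∑_{a ≤ p/4} u_a t^a ≡ 1`, and `t = e s / P⁴`. (Transfer to `PowerSeries ℤ`, `PowerSeries (ZMod p)`.) -/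
def S_LUC : Prop :=
  ∀ p : ℕ, p.Prime → p ≠ 2 → ∃ W : PowerSeries ℂ, IsInt W ∧
    ∑ n ∈ Finset.range (p / 4 + 1), PowerSeries.C (uu n : ℂ) * (ce * cs) ^ n * cP ^ (p - 1 - 4 * n) =
      1 + PowerSeries.C (p : ℂ) * W

/-- `τ₀ = (1 + i) / 2` -/
def tau0 : ℍ := ofComplex ((1 + Complex.I) / 2)

/-- `τ_X = (1 + 3 i) / 2` -/
def tauX : ℍ := ofComplex ((1 + 3 * Complex.I) / 2)

/-- **T3F** (from `S_CON`, `S_HK2`, `S_HQ`, `S_PRE`, `S_EXP`, `S_CLO`, `S_QMUL`, `S_RAM`). Two modular equations.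
Proof: `y = q⁻¹ + 104 + 4372 q + 96256 q² + 1240002 q³ + ...` (from `y Δ₈ = P⁴`: compute the first coefficients of
`ce`, `cs`, `cP`), so `T y = hsum 0 3 y = q⁻³ + 4 · 104 + O(q)`, and the difference of both sides has no pole and no constant
term at `i ∞`, and the same at the other cusp (`y' = y`). Similarly
`1 / Δ₈ = q⁻¹ + 8 + 52 q + ...`, `Δ₈ = q - 8 q² + 12 q³ + ...`, `hsum (-8) 3 (1 / Δ₈) = q⁻³ + 8 + 3⁹ · 8 + O(q)` (no terms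
`q⁻²`, `q⁻¹`), so the weight `0` function `Δ₈ · hsum (-8) 3 (1 / Δ₈) = q⁻² - 8 q⁻¹ + 12 + O(q)` equals
`y² - 216 y + 2916` (checked numerically). -/
def S_T3F : Prop :=
  (∀ τ, hsum 0 3 fy τ = fy τ ^ 3 - 312 * fy τ ^ 2 + 19332 * fy τ - 49152) ∧
  (∀ τ, fD τ * hsum (-8) 3 (fun τ => (fD τ)⁻¹) τ = fy τ ^ 2 - 216 * fy τ + 2916)

/-- **T3P** (elementary). The four lattices of index `3`. `g` of weight `2 k`, `4 ∣ k`, invariant under Fricke.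
Proof: `3 τ₀ = τ_X + 1`; `-1 / (2 τ₀ / 3) = τ_X - 2` and `2 (τ₀/3)² = i / 9`; `(τ₀ + 2) / 3 = (τ₀ - 1) / 3 + 1`,
`-1 / (2 (τ₀ - 1) / 3) = τ_X + 1`, `2 ((τ₀ - 1) / 3)² = - i / 9`; for `z = (τ₀ + 1) / 3 = (3 + i) / 6` and
`γ = (1, -1; 2, -1)`: `γ z = τ_X`, `2 z - 1 = i / 3`. And `γ τ₀ = τ₀`, `2 τ₀ - 1 = i` gives `P(τ₀) = - P(τ₀)`. -/
def S_T3P : Prop :=
  (∀ (k : ℤ) (g : ℍ → ℂ), (4 : ℤ) ∣ k → Pr k g g → ∀ t ∈ reps 3, val (2 * k) g (mat t) tau0 = g tauX) ∧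
  (Pr 1 fP (fun τ => - fP τ) → fP tau0 = 0) ∧ (reps 3).card = 4

/-- **EVL** (from `S_T3F`, `S_T3P`, `S_PRE`, `S_REL`, `S_BAS`). `y(τ_X) = -12288` (as `y(τ₀) = 0` and
`4 y(τ_X) = -49152`), `Δ₈(τ₀) = 3⁶ Δ₈(τ_X)` (as `4 Δ₈(τ₀) / Δ₈(τ_X) = 2916`), `h(τ₀) = -64`. -/
def S_EVL : Prop :=
  fP tauX ^ 4 = -12288 * (fe tauX * fs tauX) ∧ fD tau0 = 729 * fD tauX ∧ fh tau0 = -64 ∧ fP tau0 = 0

/-- **INR1** (from `S_LUC`, `S_EVL`, `S_T3P`, `S_HK2`, `S_HQ`, `S_PR2`, `S_PRE`, `S_EXP`, `S_CLO`, `S_BAS`, `S_QMUL`,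
`S_REL`). For `p ≡ 3 mod 4`, `p > 3`, `p` divides `N₄ = ∑_{n ≤ p/4} u_n c^(p/4 - n)`, `c = -12288`.
Proof: `K = ∑_{n ≤ p/4} u_n Δ₈^n P^(p-1-4n)` (`Pr (p-1) K K`: `p - 1 - 4 n` is even), `K ≡ 1 mod p` (LUC), `κ = 4 (p-1)`,
`G = 3^(κ-1) (hsum κ 3 K² - 4 K²)`. By HQ the expansion of `3^(κ-1) hsum κ 3 g` is
`3^(κ-1) g(q³) + U₃ g`, for `g = K² = 1 + p (...)` it is `≡ 3^(κ-1) + 1`, and `3^κ ≡ 1`, so
`3 G ≡ 3^κ + 3 - 4 · 3^κ ≡ 0 mod p`, and `3` is invertible modulo `p`. So `p⁻¹ G / Δ₈^((p-1)/2)` (weight `0`, equal to its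
partner, poles `(p-1)/2`) is `Q₁(h) + Q₂(4096/h)` by PR2, an integer at `τ₀`, where `h = 4096 / h = -64`. At `τ₀`
`K = 0` (`P(τ₀) = 0`, `p - 1 - 4 n ≥ 2`), `hsum κ 3 K² (τ₀) = 4 K(τ_X)²` (T3P), and
`K² = P⁴ Δ₈^((p-3)/2) (∑ u_n y^(p/4-n))² = Δ₈^((p-1)/2) y (∑ ...)²`, at `τ_X`: `Δ₈(τ_X)^((p-1)/2) c N₄²`, and
`Δ₈(τ_X) = 3⁻⁶ Δ₈(τ₀)`. So `4 · 3^(4(p-1) - 1 - 3 (p-1)) c N₄² ∈ p ℤ`. -/
def S_INR1 : Prop :=
  ∀ p : ℕ, p.Prime → p % 4 = 3 → 3 < p → (p : ℤ) ∣ NN (p / 4) (-12288)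

end

end Pool.Agent.HS37.CQ
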