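import Pool.Agent.HS37.CQ.Stm

/-!
# Piece T3F of project CQ (helper61): two modular equations of level three
-/

set_option autoImplicit false
set_option linter.unusedSimpArgs false

open UpperHalfPlane ModularForm ModularFormClass MatrixGroups EisensteinSeries Complex
open Pool.Agent.HS37.SP

namespace Pool.Agent.HS37.CQ
namespace T3F

lemma e4 (m : ℕ) : PowerSeries.coeff m (eis 4) = if m = 0 then 1 else
    240 * (ArithmeticFunction.sigma 3 m : ℂ) := by
  unfold eis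
  rw [PowerSeries.coeff_mk]
  split_ifs with h
  · rfl
  · have : bernoulli 4 = -1 / 30 := by
      rw [bernoulli_eq_bernoulli'_of_ne_one (by norm_num), bernoulli'_four]
    rw [this]
    norm_num

lemma e2 (m : ℕ) : PowerSeries.coeff m (eis 2) = if m = 0 then 1 else
    -24 * (ArithmeticFunction.sigma 1 m : ℂ) := by
  unfold eis
  rw [PowerSeries.coeff_mk]
  split_ifs with h
  · rfl
  · have : bernoulli 2 = 1 / 6 := by
      rw [bernoulli_eq_bernoulli'_of_ne_one (by norm_num), bernoulli'_two]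
      try norm_num
    rw [this]
    norm_num

lemma cov (c : PowerSeries ℂ) (n : ℕ) : PowerSeries.coeff n (vps 2 c) =
    if 2 ∣ n then PowerSeries.coeff (n / 2) c else 0 := by
  unfold vps
  rw [PowerSeries.coeff_mk]

lemma s31 : ArithmeticFunction.sigma 3 1 = 1 := by decide
lemma s32 : ArithmeticFunction.sigma 3 2 = 9 := by decide
lemma s33 : ArithmeticFunction.sigma 3 3 = 28 := by decide
lemma s34 : ArithmeticFunction.sigma 3 4 = 73 := by decide
lemma s11 : ArithmeticFunction.sigma 1 1 = 1 := by decide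
lemma s12 : ArithmeticFunction.sigma 1 2 = 3 := by decide
lemma s13 : ArithmeticFunction.sigma 1 3 = 4 := by decide

lemma coe (n : ℕ) : PowerSeries.coeff n ce = 1 / 240 * (PowerSeries.coeff n (eis 4) -
    if 2 ∣ n then PowerSeries.coeff (n / 2) (eis 4) else 0) := by
  unfold ce
  rw [PowerSeries.coeff_C_mul, map_sub, cov]

lemma cos (n : ℕ) : PowerSeries.coeff n cs = 1 / 15 * (16 * (if 2 ∣ n then
    PowerSeries.coeff (n / 2) (eis 4) else 0) - PowerSeries.coeff n (eis 4)) := by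
  unfold cs
  have h : (16 : PowerSeries ℂ) = PowerSeries.C 16 := (map_ofNat _ 16).symm
  rw [PowerSeries.coeff_C_mul, map_sub, h, PowerSeries.coeff_C_mul, cov]

lemma coP (n : ℕ) : PowerSeries.coeff n cP = 2 * (if 2 ∣ n then
    PowerSeries.coeff (n / 2) (eis 2) else 0) - PowerSeries.coeff n (eis 2) := by
  unfold cP
  have h : (2 : PowerSeries ℂ) = PowerSeries.C 2 := (map_ofNat _ 2).symm
  rw [map_sub, h, PowerSeries.coeff_C_mul, cov]

lemma expd (f : PowerSeries ℂ) (n : ℕ) : ∃ g, f = ∑ i ∈ Finset.range n,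
    PowerSeries.C (PowerSeries.coeff i f) * PowerSeries.X ^ i + PowerSeries.X ^ n * g := by
  have h : (PowerSeries.X : PowerSeries ℂ) ^ n ∣ f - ∑ i ∈ Finset.range n,
      PowerSeries.C (PowerSeries.coeff i f) * PowerSeries.X ^ i := by
    rw [PowerSeries.X_pow_dvd_iff]
    intro m hm
    rw [map_sub, map_sum, Finset.sum_eq_single m]
    · rw [PowerSeries.coeff_C_mul, PowerSeries.coeff_X_pow, if_pos rfl, mul_one, sub_self]
    · intro b _ hb
      rw [PowerSeries.coeff_C_mul, PowerSeries.coeff_X_pow, if_neg hb.symm, mul_zero]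
    · intro h
      exact absurd (Finset.mem_range.2 hm) h
  obtain ⟨g, hg⟩ := h
  exact ⟨g, by rw [← hg]; ring⟩

lemma ex_e : ∃ g, ce = PowerSeries.X + 8 * PowerSeries.X ^ 2 + 28 * PowerSeries.X ^ 3 +
    64 * PowerSeries.X ^ 4 + PowerSeries.X ^ 5 * g := by
  obtain ⟨g, hg⟩ := expd ce 5
  refine ⟨g, ?_⟩
  have h0 : PowerSeries.coeff 0 ce = 0 := by rw [coe]; simp [e4]
  have h1 : PowerSeries.coeff 1 ce = 1 := by rw [coe]; simp [e4, s31]
  have h2 : PowerSeries.coeff 2 ce = 8 := by rw [coe]; simp [e4, s31, s32]; norm_num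
  have h3 : PowerSeries.coeff 3 ce = 28 := by rw [coe]; simp [e4, s33]; 
  have h4 : PowerSeries.coeff 4 ce = 64 := by rw [coe]; simp [e4, s34, s32]; norm_num
  simp only [Finset.sum_range_succ, Finset.sum_range_zero, h0, h1, h2, h3, h4, map_zero, map_one,
    map_ofNat] at hg
  rw [hg]
  ring

lemma ex_s : ∃ g, cs = 1 - 16 * PowerSeries.X + 112 * PowerSeries.X ^ 2 - 448 * PowerSeries.X ^ 3 +
    PowerSeries.X ^ 4 * g := by
  obtain ⟨g, hg⟩ := expd cs 4
  refine ⟨g, ?_⟩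
  have h0 : PowerSeries.coeff 0 cs = 1 := by rw [cos]; simp [e4]; norm_num
  have h1 : PowerSeries.coeff 1 cs = -16 := by rw [cos]; simp [e4, s31]; norm_num
  have h2 : PowerSeries.coeff 2 cs = 112 := by rw [cos]; simp [e4, s31, s32]; norm_num
  have h3 : PowerSeries.coeff 3 cs = -448 := by rw [cos]; simp [e4, s33]; norm_num
  simp only [Finset.sum_range_succ, Finset.sum_range_zero, h0, h1, h2, h3, map_zero, map_one,
    map_ofNat, map_neg] at hg
  rw [hg]
  ring

lemma ex_P : ∃ g, cP = 1 + 24 * PowerSeries.X + 24 * PowerSeries.X ^ 2 + 96 * PowerSeries.X ^ 3 +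
    PowerSeries.X ^ 4 * g := by
  obtain ⟨g, hg⟩ := expd cP 4
  refine ⟨g, ?_⟩
  have h0 : PowerSeries.coeff 0 cP = 1 := by rw [coP]; simp [e2]; norm_num
  have h1 : PowerSeries.coeff 1 cP = 24 := by rw [coP]; simp [e2, s11]
  have h2 : PowerSeries.coeff 2 cP = 24 := by rw [coP]; simp [e2, s11, s12]; norm_num
  have h3 : PowerSeries.coeff 3 cP = 96 := by rw [coP]; simp [e2, s13]; norm_num
  simp only [Finset.sum_range_succ, Finset.sum_range_zero, h0, h1, h2, h3, map_zero, map_one,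
    map_ofNat] at hg
  rw [hg]
  ring


/-- the ideal of the power series divisible by the fourth power -/
noncomputable abbrev I4 : Ideal (PowerSeries ℂ) := Ideal.span {(PowerSeries.X : PowerSeries ℂ) ^ 4}

/-- reduction modulo the fourth power -/
noncomputable abbrev pi4 : PowerSeries ℂ →+* PowerSeries ℂ ⧸ I4 := Ideal.Quotient.mk I4

lemma pi_zero (f : PowerSeries ℂ) : pi4 f = 0 ↔ (PowerSeries.X : PowerSeries ℂ) ^ 4 ∣ f :=
  Ideal.Quotient.eq_zero_iff_dvd _ _

lemma hx : pi4 PowerSeries.X ^ 4 = 0 := by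
  rw [← map_pow, pi_zero]

lemma pi_e : pi4 ce = pi4 PowerSeries.X + 8 * pi4 PowerSeries.X ^ 2 +
    28 * pi4 PowerSeries.X ^ 3 := by
  obtain ⟨g, hg⟩ := ex_e
  rw [hg]
  simp only [map_add, map_mul, map_pow, map_ofNat]
  linear_combination (64 + pi4 PowerSeries.X * pi4 g) * hx

lemma pi_s : pi4 cs = 1 - 16 * pi4 PowerSeries.X + 112 * pi4 PowerSeries.X ^ 2 -
    448 * pi4 PowerSeries.X ^ 3 := by
  obtain ⟨g, hg⟩ := ex_s
  rw [hg]
  simp only [map_add, map_sub, map_mul, map_pow, map_ofNat, map_one]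
  linear_combination pi4 g * hx

lemma pi_P : pi4 cP = 1 + 24 * pi4 PowerSeries.X + 24 * pi4 PowerSeries.X ^ 2 +
    96 * pi4 PowerSeries.X ^ 3 := by
  obtain ⟨g, hg⟩ := ex_P
  rw [hg]
  simp only [map_add, map_sub, map_mul, map_pow, map_ofNat, map_one]
  linear_combination pi4 g * hx

lemma pi_E {cE : PowerSeries ℂ} (hE : ce * cE = PowerSeries.X) :
    pi4 cE = 1 - 8 * pi4 PowerSeries.X + 36 * pi4 PowerSeries.X ^ 2 -
      128 * pi4 PowerSeries.X ^ 3 := by
  obtain ⟨g, hg⟩ := ex_e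
  have h1 : PowerSeries.X - (1 - 8 * PowerSeries.X + 36 * PowerSeries.X ^ 2 -
      128 * PowerSeries.X ^ 3) * ce = PowerSeries.X ^ 5 * (528 + 1280 * PowerSeries.X +
        8192 * PowerSeries.X ^ 2 - (1 - 8 * PowerSeries.X + 36 * PowerSeries.X ^ 2 -
      128 * PowerSeries.X ^ 3) * g) := by
    rw [hg]
    ring
  have h2 : (PowerSeries.X : PowerSeries ℂ) * (cE - (1 - 8 * PowerSeries.X +
      36 * PowerSeries.X ^ 2 - 128 * PowerSeries.X ^ 3)) = PowerSeries.X * (PowerSeries.X ^ 4 *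
        ((528 + 1280 * PowerSeries.X +
        8192 * PowerSeries.X ^ 2 - (1 - 8 * PowerSeries.X + 36 * PowerSeries.X ^ 2 -
      128 * PowerSeries.X ^ 3) * g) * cE)) := by
    linear_combination cE * h1 + (1 - 8 * PowerSeries.X + 36 * PowerSeries.X ^ 2 -
      128 * PowerSeries.X ^ 3) * hE
  have h3 := mul_left_cancel₀ PowerSeries.X_ne_zero h2
  have h4 : pi4 (cE - (1 - 8 * PowerSeries.X +
      36 * PowerSeries.X ^ 2 - 128 * PowerSeries.X ^ 3)) = 0 := by
    rw [pi_zero, h3]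
    exact dvd_mul_right _ _
  simp only [map_add, map_sub, map_mul, map_pow, map_ofNat, map_one] at h4
  linear_combination h4

lemma pi_S {cS : PowerSeries ℂ} (hS : cs * cS = 1) :
    pi4 cS = 1 + 16 * pi4 PowerSeries.X + 144 * pi4 PowerSeries.X ^ 2 +
      960 * pi4 PowerSeries.X ^ 3 := by
  have h1 := congrArg pi4 hS
  rw [map_mul, map_one, pi_s] at h1
  linear_combination (1 + 16 * pi4 PowerSeries.X + 144 * pi4 PowerSeries.X ^ 2 +
      960 * pi4 PowerSeries.X ^ 3) * h1 + pi4 cS * (6400 - 43008 * pi4 PowerSeries.X +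
        430080 * pi4 PowerSeries.X ^ 2) * hx

lemma pi_D : pi4 (ce * cs) = pi4 PowerSeries.X - 8 * pi4 PowerSeries.X ^ 2 +
    12 * pi4 PowerSeries.X ^ 3 := by
  rw [map_mul, pi_e, pi_s]
  linear_combination (-448 * pi4 PowerSeries.X - 12544 * pi4 PowerSeries.X ^ 2) * hx

lemma pi_ES {cE cS : PowerSeries ℂ} (hE : ce * cE = PowerSeries.X) (hS : cs * cS = 1) :
    pi4 (cE * cS) = 1 + 8 * pi4 PowerSeries.X + 52 * pi4 PowerSeries.X ^ 2 +
      256 * pi4 PowerSeries.X ^ 3 := by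
  rw [map_mul, pi_E hE, pi_S hS]
  linear_combination (-4544 + 16128 * pi4 PowerSeries.X -
    122880 * pi4 PowerSeries.X ^ 2) * hx

lemma pi_P4 : pi4 cP ^ 4 = 1 + 96 * pi4 PowerSeries.X + 3552 * pi4 PowerSeries.X ^ 2 +
    62592 * pi4 PowerSeries.X ^ 3 := by
  have h2 : pi4 cP ^ 2 = 1 + 48 * pi4 PowerSeries.X + 624 * pi4 PowerSeries.X ^ 2 +
      1344 * pi4 PowerSeries.X ^ 3 := by
    rw [pi_P]
    linear_combination (5184 + 4608 * pi4 PowerSeries.X + 9216 * pi4 PowerSeries.X ^ 2) * hx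
  have h3 : pi4 cP ^ 4 = (pi4 cP ^ 2) ^ 2 := by ring
  rw [h3, h2]
  linear_combination (518400 + 1677312 * pi4 PowerSeries.X +
    1806336 * pi4 PowerSeries.X ^ 2) * hx

lemma pi_y {cE cS : PowerSeries ℂ} (hE : ce * cE = PowerSeries.X) (hS : cs * cS = 1) :
    pi4 (cP ^ 4 * (cE * cS)) = 1 + 104 * pi4 PowerSeries.X + 4372 * pi4 PowerSeries.X ^ 2 +
      96256 * pi4 PowerSeries.X ^ 3 := by
  rw [map_mul, map_pow, pi_P4, pi_ES hE hS]
  linear_combination (710016 + 4164096 * pi4 PowerSeries.X +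
    16023552 * pi4 PowerSeries.X ^ 2) * hx

lemma co01 {c k : PowerSeries ℂ} (h : pi4 c = pi4 k) (n : ℕ) (hn : n < 4) :
    PowerSeries.coeff n c = PowerSeries.coeff n k := by
  have h1 : pi4 (c - k) = 0 := by rw [map_sub, h, sub_self]
  rw [pi_zero, PowerSeries.X_pow_dvd_iff] at h1
  have h2 := h1 n hn
  rw [map_sub] at h2
  exact sub_eq_zero.1 h2

/-- the first coefficients of the Hecke sum -/
lemma hecke (hHQ : S_HQ) {κ : ℤ} {g : ℍ → ℂ} {c : PowerSeries ℂ} (hg : QExp g 1 c)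
    (h0 : PowerSeries.coeff 0 c = 1) {a z : ℂ} (h1 : PowerSeries.coeff 1 c = a)
    (hz : (3 : ℂ) ^ (1 - κ) * a + a = z) :
    ∃ H, QExp (hsum κ 3 g) 3 H ∧
      pi4 H = 1 + pi4 (PowerSeries.C z) * pi4 PowerSeries.X ^ 3 := by
  subst hz
  have h := hHQ κ g 1 3 c (by norm_num) hg
  refine ⟨_, h, ?_⟩
  rw [← map_pow, ← map_mul, ← map_one pi4, ← map_add, ← sub_eq_zero, ← map_sub, pi_zero,
    PowerSeries.X_pow_dvd_iff]
  have hdiv : Nat.divisorsAntidiagonal 3 = {(1, 3), (3, 1)} := by decide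
  intro m hm
  rw [map_sub, map_add, PowerSeries.coeff_mk, PowerSeries.coeff_one, PowerSeries.coeff_C_mul,
    PowerSeries.coeff_X_pow, hdiv, Finset.sum_pair (by decide)]
  interval_cases m
  · norm_num [h0]
  · norm_num
  · norm_num
  · norm_num [h1]


lemma q_congr {g g' : ℍ → ℂ} {e e' : ℕ} {c c' : PowerSeries ℂ} (h : QExp g e c)
    (hg : ∀ τ, g τ = g' τ) (he : e = e') (hc : c = c') : QExp g' e' c' := by
  have : g = g' := funext hg
  subst this he hc
  exact h

lemma q_const (z : ℂ) : QExp (fun _ => z) 0 (PowerSeries.C z) := by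
  intro τ
  have h := hasSum_single (f := fun i : ℕ => PowerSeries.coeff i (PowerSeries.C z) * qq τ ^ i) 0
    (fun i hi => by
      rw [PowerSeries.coeff_C, if_neg hi, zero_mul])
  rw [PowerSeries.coeff_C, if_pos rfl, pow_zero, mul_one] at h
  rw [pow_zero, one_mul]
  exact h

lemma conc (hC : S_CON) (hQ : S_QMUL) {F : ℍ → ℂ} {c : PowerSeries ℂ} (hP : Pr 0 F F)
    (hF : QExp F 3 c) (hd : pi4 c = 0) : ∀ τ, F τ = 0 := by
  rw [pi_zero] at hd
  obtain ⟨g, rfl⟩ := hd
  have h1 : QExp F (0 + 3) (PowerSeries.X ^ 3 * (PowerSeries.X * g)) :=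
    q_congr hF (fun _ => rfl) rfl (by ring)
  have h2 := hQ.2.2.2.2.2 F 0 3 _ h1
  intro τ
  rw [hC F F _ _ hP h2 h2 τ]
  rw [PowerSeries.coeff_zero_eq_constantCoeff_apply, map_mul, PowerSeries.constantCoeff_X,
    zero_mul]

lemma ne_of (hQ : S_QMUL) {g : ℍ → ℂ} {e e' n : ℕ} {c c' : PowerSeries ℂ} (h : QExp g e c)
    (h' : QExp (fun τ => (g τ)⁻¹) e' c') (hc : c * c' = PowerSeries.X ^ n) (τ : ℍ) :
    g τ ≠ 0 := by
  intro h0
  have h1 := hQ.1 _ _ _ _ _ _ h h' τ
  rw [hc] at h1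
  beta_reduce at h1
  rw [h0, zero_mul, mul_zero] at h1
  have h2 := hasSum_single (f := fun i : ℕ =>
    PowerSeries.coeff i ((PowerSeries.X : PowerSeries ℂ) ^ n) * qq τ ^ i) n
    (fun i hi => by
      rw [PowerSeries.coeff_X_pow, if_neg hi, zero_mul])
  rw [PowerSeries.coeff_X_pow, if_pos rfl, one_mul] at h2
  have h3 := h1.unique h2
  exact pow_ne_zero n (Complex.exp_ne_zero _) h3.symm

end T3F

open T3F in
theorem t_T3F (hCON : S_CON) (hHK2 : S_HK2) (hHQ : S_HQ) (hPRE : S_PRE) (hEXP : S_EXP)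
    (hCLO : S_CLO) (hQ : S_QMUL) : S_T3F := by
  obtain ⟨cmul, cadd, csmul, cconst, cpow, cinv, -⟩ := hCLO
  obtain ⟨qmul, qadd, -, qsmul, qshift, -⟩ := id hQ
  obtain ⟨-, -, pD, -, py, ⟨cE, qE, -, hE, -⟩, ⟨cS, qS, -, hS, -⟩, -⟩ := hPRE
  obtain ⟨qe, qs, qP, -⟩ := hEXP
  -- the expansion of `y`
  have qES := qmul _ _ _ _ _ _ qE qS
  have qy : QExp fy 1 (cP ^ 4 * (cE * cS)) := by
    have h := qmul _ _ _ _ _ _ (qmul _ _ _ _ _ _ (qmul _ _ _ _ _ _ qP qP)
      (qmul _ _ _ _ _ _ qP qP)) qES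
    refine q_congr h (fun τ => ?_) rfl (by ring)
    unfold fy fD
    rw [div_eq_mul_inv, mul_inv]
    ring
  have hy := pi_y hE hS
  have hy0 : PowerSeries.coeff 0 (cP ^ 4 * (cE * cS)) = 1 := by
    rw [co01 (k := 1 + PowerSeries.C 104 * PowerSeries.X + PowerSeries.C 4372 *
      PowerSeries.X ^ 2 + PowerSeries.C 96256 * PowerSeries.X ^ 3) (by
        rw [hy]
        simp only [map_add, map_mul, map_pow, map_one, map_ofNat]) 0 (by norm_num)]
    simp [PowerSeries.coeff_X, PowerSeries.coeff_X_pow, PowerSeries.coeff_one]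
  have hy1 : PowerSeries.coeff 1 (cP ^ 4 * (cE * cS)) = 104 := by
    rw [co01 (k := 1 + PowerSeries.C 104 * PowerSeries.X + PowerSeries.C 4372 *
      PowerSeries.X ^ 2 + PowerSeries.C 96256 * PowerSeries.X ^ 3) (by
        rw [hy]
        simp only [map_add, map_mul, map_pow, map_one, map_ofNat]) 1 (by norm_num)]
    rw [map_add, map_add, map_add, PowerSeries.coeff_C_mul, PowerSeries.coeff_C_mul,
      PowerSeries.coeff_C_mul, PowerSeries.coeff_one, PowerSeries.coeff_X_pow,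
      PowerSeries.coeff_X_pow, PowerSeries.coeff_one_X]
    norm_num
  have hes := pi_ES hE hS
  have hd0 : PowerSeries.coeff 0 (cE * cS) = 1 := by
    rw [co01 (k := 1 + PowerSeries.C 8 * PowerSeries.X + PowerSeries.C 52 *
      PowerSeries.X ^ 2 + PowerSeries.C 256 * PowerSeries.X ^ 3) (by
        rw [hes]
        simp only [map_add, map_mul, map_pow, map_one, map_ofNat]) 0 (by norm_num)]
    simp [PowerSeries.coeff_X, PowerSeries.coeff_X_pow, PowerSeries.coeff_one]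
  have hd1 : PowerSeries.coeff 1 (cE * cS) = 8 := by
    rw [co01 (k := 1 + PowerSeries.C 8 * PowerSeries.X + PowerSeries.C 52 *
      PowerSeries.X ^ 2 + PowerSeries.C 256 * PowerSeries.X ^ 3) (by
        rw [hes]
        simp only [map_add, map_mul, map_pow, map_one, map_ofNat]) 1 (by norm_num)]
    rw [map_add, map_add, map_add, PowerSeries.coeff_C_mul, PowerSeries.coeff_C_mul,
      PowerSeries.coeff_C_mul, PowerSeries.coeff_one, PowerSeries.coeff_X_pow,
      PowerSeries.coeff_X_pow, PowerSeries.coeff_one_X]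
    norm_num
  -- powers of `y`
  have qy2 := qmul _ _ _ _ _ _ qy qy
  have qy3 := qmul _ _ _ _ _ _ qy2 qy
  have py2 : Pr 0 (fun τ => fy τ * fy τ) (fun τ => fy τ * fy τ) := by
    have h := cmul 0 0 _ _ _ _ py py
    rwa [add_zero] at h
  have py3 : Pr 0 (fun τ => fy τ * fy τ * fy τ) (fun τ => fy τ * fy τ * fy τ) := by
    have h := cmul 0 0 _ _ _ _ py2 py
    rwa [add_zero] at h
  constructor
  · obtain ⟨H, qH, hH⟩ := hecke hHQ (κ := 0) (z := 416) qy hy0 hy1 (by norm_num)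
    have pH : Pr 0 (hsum 0 3 fy) (hsum 0 3 fy) := by
      have h := hHK2 0 fy fy 3 (by norm_num) ⟨1, rfl⟩ py
      rwa [mul_zero] at h
    have pF := cadd 0 _ _ _ _ (cadd 0 _ _ _ _ (cadd 0 _ _ _ _ (cadd 0 _ _ _ _ pH
      (csmul 0 _ _ (-1) py3)) (csmul 0 _ _ 312 py2)) (csmul 0 _ _ (-19332) py)) (cconst 49152)
    have q2 := qshift _ _ 1 _ qy2
    have q1 := qshift _ _ 2 _ qy
    have q0 := qshift _ _ 3 _ (q_const 49152)
    have qF := qadd _ _ _ _ _ (qadd _ _ _ _ _ (qadd _ _ _ _ _ (qadd _ _ _ _ _ qH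
      (qsmul _ _ _ (-1) qy3)) (qsmul _ _ _ 312 q2)) (qsmul _ _ _ (-19332) q1)) q0
    have hz := conc hCON hQ pF qF (by
      simp only [map_add, map_mul, map_pow, map_neg, map_one, map_ofNat] at hy hH ⊢
      rw [hH, hy]
      linear_combination (-1262493696 * pi4 PowerSeries.X - 111363739456 * pi4 PowerSeries.X ^ 2 -
        5519622438912 * pi4 PowerSeries.X ^ 3 - 121522593202176 * pi4 PowerSeries.X ^ 4 -
        891832779145216 * pi4 PowerSeries.X ^ 5) * hx)
    intro τ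
    have := hz τ
    linear_combination this
  · have hne : ∀ τ, fD τ ≠ 0 := fun τ => mul_ne_zero
      (ne_of hQ (n := 1) qe qE (by rw [pow_one]; exact hE) τ)
      (ne_of hQ (n := 0) qs qS (by rw [pow_zero]; exact hS) τ)
    have qDi : QExp (fun τ => (fD τ)⁻¹) 1 (cE * cS) := by
      refine q_congr qES (fun τ => ?_) rfl rfl
      unfold fD
      rw [mul_inv]
    have qD : QExp fD 0 (ce * cs) := qmul _ _ _ _ _ _ qe qs
    have pDi := cinv 4 _ _ pD hne hne
    obtain ⟨H, qH, hH⟩ := hecke hHQ (κ := -8) (z := 157472) qDi hd0 hd1 (by norm_num)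
    have pH : Pr (-4) (hsum (-8) 3 fun τ => (fD τ)⁻¹) (hsum (-8) 3 fun τ => (fD τ)⁻¹) := by
      have h := hHK2 (-4) _ _ 3 (by norm_num) ⟨1, rfl⟩ pDi
      rwa [show (2 * (-4) : ℤ) = -8 by norm_num] at h
    have pDH : Pr 0 (fun τ => fD τ * hsum (-8) 3 (fun τ => (fD τ)⁻¹) τ)
        (fun τ => fD τ * hsum (-8) 3 (fun τ => (fD τ)⁻¹) τ) := by
      have h := cmul 4 (-4) _ _ _ _ pD pH
      rwa [show (4 + -4 : ℤ) = 0 by norm_num] at h
    have pF := cadd 0 _ _ _ _ (cadd 0 _ _ _ _ (cadd 0 _ _ _ _ pDH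
      (csmul 0 _ _ (-1) py2)) (csmul 0 _ _ 216 py)) (cconst (-2916))
    have q2 := qshift _ _ 1 _ qy2
    have q1 := qshift _ _ 2 _ qy
    have q0 := qshift _ _ 3 _ (q_const (-2916))
    have qDH : QExp (fun τ => fD τ * hsum (-8) 3 (fun τ => (fD τ)⁻¹) τ) 3 (ce * cs * H) :=
      q_congr (qmul _ _ _ _ _ _ qD qH) (fun _ => rfl) (by norm_num) rfl
    have qF := qadd _ _ _ _ _ (qadd _ _ _ _ _ (qadd _ _ _ _ _ qDH
      (qsmul _ _ _ (-1) q2)) (qsmul _ _ _ 216 q1)) q0
    have hD := pi_D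
    have hz := conc hCON hQ pF qF (by
      simp only [map_add, map_mul, map_pow, map_neg, map_one, map_ofNat] at hy hH hD ⊢
      rw [hH, hy, hD]
      linear_combination (-64 - 19604112 * pi4 PowerSeries.X - 839772800 * pi4 PowerSeries.X ^ 2 -
        9265217536 * pi4 PowerSeries.X ^ 3) * hx)
    intro τ
    have := hz τ
    linear_combination this

end Pool.Agent.HS37.CQ
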