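import Pool.Agent.HS37.CQ.Stm

/-!
# Project CQ, piece T3P
-/

set_option autoImplicit false

open UpperHalfPlane MatrixGroups Complex
open Pool.Agent.HS37.SP

namespace Pool.Agent.HS37.CQ

namespace T3PP

/-- `(1, 1; 0, 1)` -/
def gT : SL(2, ℤ) := ⟨!![1, 1; 0, 1], by simp⟩

/-- `(1, -1; 2, -1)` -/
def gG : SL(2, ℤ) := ⟨!![1, -1; 2, -1], by simp [Matrix.det_fin_two_of]⟩

theorem smul_eq (γ : SL(2, ℤ)) (τ : ℍ) (z : ℂ)
    (h : ((γ 0 0 : ℂ) * τ + (γ 0 1 : ℂ)) / ((γ 1 0 : ℂ) * τ + (γ 1 1 : ℂ)) = z) :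
    γ • τ = ofComplex z := by
  have h1 : ((γ • τ : ℍ) : ℂ) = z := by
    rw [← h, UpperHalfPlane.specialLinearGroup_apply]
    simp
  rw [← h1, ofComplex_apply]

theorem coe_of {z : ℂ} (hz : 0 < z.im) : ((ofComplex z : ℍ) : ℂ) = z := by
  rw [ofComplex_apply_of_im_pos hz]

theorem t0 : ((tau0 : ℍ) : ℂ) = (1 + Complex.I) / 2 := by
  rw [tau0, ofComplex_apply_of_im_pos (by simp)]

theorem tX : ((tauX : ℍ) : ℂ) = (1 + 3 * Complex.I) / 2 := by
  rw [tauX, ofComplex_apply_of_im_pos (by simp)]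

theorem shift {k : ℤ} {g g' : ℍ → ℂ} (h : Pr k g g') (z : ℂ) (hz : 0 < z.im) :
    g (ofComplex (z + 1)) = g (ofComplex z) := by
  have h1 := h.sl gT (ofComplex z) (by simp [gT])
  have h2 : gT • (ofComplex z) = ofComplex (z + 1) := by
    apply smul_eq
    rw [ofComplex_apply_of_im_pos hz]
    simp [gT]
  rw [h2] at h1
  rw [h1]
  simp [gT]

theorem I4 {k : ℤ} (hk : (4 : ℤ) ∣ k) (x : ℂ) (hx : x ^ 4 = 1) : x ^ k = 1 := by
  obtain ⟨j, rfl⟩ := hk
  rw [zpow_mul]
  have : x ^ (4 : ℤ) = 1 := by exact_mod_cast hx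
  rw [this, one_zpow]

end T3PP

open T3PP in
theorem t_T3P : S_T3P := by
  refine ⟨?_, ?_, by decide⟩
  · intro k g hk hg t ht
    have hI : Complex.I ^ 2 = -1 := Complex.I_sq
    have hI4 : Complex.I ^ 4 = 1 := Complex.I_pow_four
    -- the value at `tauX`
    have hX1 : g (ofComplex ((3 + 3 * Complex.I) / 2)) = g tauX := by
      have h := shift hg ((1 + 3 * Complex.I) / 2) (by simp)
      rw [← tX, ofComplex_apply, tX] at h
      rw [← h]
      congr 2
      ring
    have hX2 : g (ofComplex ((-3 + 3 * Complex.I) / 2)) = g tauX := by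
      have h := shift hg ((-3 + 3 * Complex.I) / 2) (by simp)
      have h' := shift hg ((-1 + 3 * Complex.I) / 2) (by simp)
      rw [← h]
      have e : (-3 + 3 * Complex.I) / 2 + 1 = (-1 + 3 * Complex.I) / 2 := by ring
      rw [e, ← h']
      have e' : (-1 + 3 * Complex.I) / 2 + 1 = ((tauX : ℍ) : ℂ) := by rw [tX]; ring
      rw [e', ofComplex_apply]
    have hk2 : (3 : ℂ) ^ (-(2 * k)) = (9 : ℂ) ^ (-k) := by
      have : -(2 * k) = 2 * (-k) := by ring
      rw [this, zpow_mul]
      norm_num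
    have hcases : t = (3, 0, 1) ∨ t = (1, 0, 3) ∨ t = (1, 1, 3) ∨ t = (1, 2, 3) := by
      have : ∀ t ∈ reps 3, t = (3, 0, 1) ∨ t = (1, 0, 3) ∨ t = (1, 1, 3) ∨ t = (1, 2, 3) := by
        decide
      exact this t ht
    rcases hcases with rfl | rfl | rfl | rfl
    · -- (3, 0, 1)
      simp only [val, mat, Matrix.of_apply, Matrix.cons_val_zero, Matrix.cons_val_one,
        Matrix.cons_val', Matrix.cons_val_fin_one]
      rw [← hX1]
      have e : ((((3 : ℕ) : ℤ) : ℂ) * ((tau0 : ℍ) : ℂ) + (((0 : ℕ) : ℤ) : ℂ)) /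
          (((0 : ℤ) : ℂ) * ((tau0 : ℍ) : ℂ) + (((1 : ℕ) : ℤ) : ℂ)) = (3 + 3 * Complex.I) / 2 := by
        rw [t0]; push_cast; ring
      rw [e]
      simp
    · -- (1, 0, 3)
      simp only [val, mat, Matrix.of_apply, Matrix.cons_val_zero, Matrix.cons_val_one,
        Matrix.cons_val', Matrix.cons_val_fin_one]
      have e : ((((1 : ℕ) : ℤ) : ℂ) * ((tau0 : ℍ) : ℂ) + (((0 : ℕ) : ℤ) : ℂ)) /
          (((0 : ℤ) : ℂ) * ((tau0 : ℍ) : ℂ) + (((3 : ℕ) : ℤ) : ℂ)) = (1 + Complex.I) / 6 := by
        rw [t0]; push_cast; ring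
      rw [e]
      have h := hg.fr (ofComplex ((1 + Complex.I) / 6))
      have e2 : fri (ofComplex ((1 + Complex.I) / 6)) = ofComplex ((-3 + 3 * Complex.I) / 2) := by
        rw [fri, coe_of (by simp : 0 < ((1 + Complex.I) / 6).im)]
        congr 1
        have h0 : (1 + Complex.I) ≠ 0 := by
          intro h; have := congrArg Complex.im h; simp at this
        field_simp
        linear_combination (-3) * hI
      rw [e2, hX2, coe_of (by simp : 0 < ((1 + Complex.I) / 6).im)] at h
      rw [h]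
      have e3 : 2 * ((1 + Complex.I) / 6) ^ 2 = 9⁻¹ * Complex.I := by
        linear_combination (1 / 18) * hI
      rw [e3, mul_zpow, I4 hk _ hI4]
      simp only [Int.cast_zero, zero_mul, zero_add]
      push_cast
      rw [hk2, zpow_neg, inv_zpow]
      ring
    · -- (1, 1, 3)
      simp only [val, mat, Matrix.of_apply, Matrix.cons_val_zero, Matrix.cons_val_one,
        Matrix.cons_val', Matrix.cons_val_fin_one]
      have e : ((((1 : ℕ) : ℤ) : ℂ) * ((tau0 : ℍ) : ℂ) + (((1 : ℕ) : ℤ) : ℂ)) /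
          (((0 : ℤ) : ℂ) * ((tau0 : ℍ) : ℂ) + (((3 : ℕ) : ℤ) : ℂ)) = (3 + Complex.I) / 6 := by
        rw [t0]; push_cast; ring
      rw [e]
      have him : 0 < ((3 + Complex.I) / 6).im := by simp
      have h := hg.sl gG (ofComplex ((3 + Complex.I) / 6)) (by simp [gG])
      have e2 : gG • (ofComplex ((3 + Complex.I) / 6)) = tauX := by
        have : gG • (ofComplex ((3 + Complex.I) / 6)) = ofComplex ((tauX : ℍ) : ℂ) := by
          apply smul_eq
          rw [ofComplex_apply_of_im_pos him, tX]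
          simp only [gG, Matrix.SpecialLinearGroup.coe_mk, Matrix.of_apply, Matrix.cons_val_zero,
            Matrix.cons_val_one, Matrix.cons_val', Matrix.cons_val_fin_one]
          push_cast
          have h0 : (2 * ((3 + Complex.I) / 6) + -1) ≠ 0 := by
            intro h; have := congrArg Complex.im h; simp at this
          rw [div_eq_iff h0]
          linear_combination (-1 / 2) * hI
        rw [this, ofComplex_apply]
      rw [e2, coe_of him] at h
      rw [h]
      have e3 : (((gG 1 0 : ℤ) : ℂ) * ((3 + Complex.I) / 6) + ((gG 1 1 : ℤ) : ℂ)) = Complex.I / 3 := by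
        simp only [gG, Matrix.SpecialLinearGroup.coe_mk, Matrix.of_apply, Matrix.cons_val_zero,
          Matrix.cons_val_one, Matrix.cons_val', Matrix.cons_val_fin_one]
        push_cast
        ring
      rw [e3, div_zpow, zpow_mul Complex.I]
      have e4 : Complex.I ^ (2 : ℤ) = -1 := by exact_mod_cast hI
      rw [e4, I4 hk (-1) (by norm_num)]
      simp only [Int.cast_zero, zero_mul, zero_add]
      push_cast
      rw [zpow_neg]
      ring
    · -- (1, 2, 3)
      simp only [val, mat, Matrix.of_apply, Matrix.cons_val_zero, Matrix.cons_val_one,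
        Matrix.cons_val', Matrix.cons_val_fin_one]
      have e : ((((1 : ℕ) : ℤ) : ℂ) * ((tau0 : ℍ) : ℂ) + (((2 : ℕ) : ℤ) : ℂ)) /
          (((0 : ℤ) : ℂ) * ((tau0 : ℍ) : ℂ) + (((3 : ℕ) : ℤ) : ℂ)) = (-1 + Complex.I) / 6 + 1 := by
        rw [t0]; push_cast; ring
      have him : 0 < ((-1 + Complex.I) / 6).im := by simp
      rw [e, shift hg _ him]
      have h := hg.fr (ofComplex ((-1 + Complex.I) / 6))
      have e2 : fri (ofComplex ((-1 + Complex.I) / 6)) = ofComplex ((3 + 3 * Complex.I) / 2) := by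
        rw [fri, coe_of him]
        congr 1
        have h0 : (-1 + Complex.I) ≠ 0 := by
          intro h; have := congrArg Complex.im h; simp at this
        field_simp
        linear_combination (-3) * hI
      rw [e2, hX1, coe_of him] at h
      rw [h]
      have e3 : 2 * ((-1 + Complex.I) / 6) ^ 2 = 9⁻¹ * (-Complex.I) := by
        linear_combination (1 / 18) * hI
      rw [e3, mul_zpow, I4 hk (-Complex.I) (by rw [neg_pow, hI4]; norm_num)]
      simp only [Int.cast_zero, zero_mul, zero_add]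
      push_cast
      rw [hk2, zpow_neg, inv_zpow]
      ring
  · intro hP
    have h := hP.sl gG tau0 (by simp [gG])
    have hI : Complex.I ^ 2 = -1 := Complex.I_sq
    have e2 : gG • tau0 = tau0 := by
      have : gG • tau0 = ofComplex ((tau0 : ℍ) : ℂ) := by
        apply smul_eq
        rw [t0]
        simp only [gG, Matrix.SpecialLinearGroup.coe_mk, Matrix.of_apply, Matrix.cons_val_zero,
          Matrix.cons_val_one, Matrix.cons_val', Matrix.cons_val_fin_one]
        push_cast
        have h0 : (2 * ((1 + Complex.I) / 2) + -1) ≠ 0 := by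
          intro h; have := congrArg Complex.im h; simp at this
        rw [div_eq_iff h0]
        linear_combination (-1 / 2) * hI
      rw [this, ofComplex_apply]
    have e3 : (((gG 1 0 : ℤ) : ℂ) * ((tau0 : ℍ) : ℂ) + ((gG 1 1 : ℤ) : ℂ)) = Complex.I := by
      rw [t0]
      simp only [gG, Matrix.SpecialLinearGroup.coe_mk, Matrix.of_apply, Matrix.cons_val_zero,
        Matrix.cons_val_one, Matrix.cons_val', Matrix.cons_val_fin_one]
      push_cast
      ring
    rw [e2, e3] at h
    have e4 : Complex.I ^ (2 * (1 : ℤ)) = -1 := by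
      rw [mul_one]; exact_mod_cast hI
    rw [e4] at h
    have : 2 * fP tau0 = 0 := by linear_combination h
    simpa using this

end Pool.Agent.HS37.CQ
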