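import Pool.Agent.HS37.CQ.Stm

/-!
# Project CQ, piece UDV
-/

set_option autoImplicit false

open Pool.Agent.HS37.SP

namespace Pool.Agent.HS37.CQ

namespace UDVP

theorem fac2 (n : ℕ) : (2 * n).factorial = (2 * n).choose n * n.factorial ^ 2 := by
  have h := Nat.choose_mul_factorial_mul_factorial (n := 2 * n) (k := n) (by omega)
  have e : 2 * n - n = n := by omega
  rw [e] at h
  rw [← h]
  ring

theorem fac4 (n : ℕ) : (4 * n).factorial =
    ((4 * n).choose (2 * n) * (2 * n).choose n ^ 2) * n.factorial ^ 4 := by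
  have h := fac2 (2 * n)
  have e : 2 * (2 * n) = 4 * n := by ring
  rw [e, fac2 n] at h
  rw [h]
  ring

theorem uu_eq (n : ℕ) : uu n = (4 * n).choose (2 * n) * (2 * n).choose n ^ 2 := by
  rw [uu, fac4]
  exact Nat.mul_div_cancel _ (pow_pos n.factorial_pos 4)

theorem uu_mul (n : ℕ) : uu n * n.factorial ^ 4 = (4 * n).factorial := by
  rw [uu_eq, fac4]

theorem cop {p n : ℕ} (hp : p.Prime) (hn : n < p) : p.Coprime (n.factorial ^ 4) := by
  apply Nat.Coprime.pow_right
  rw [hp.coprime_iff_not_dvd, hp.dvd_factorial]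
  omega

theorem one {p n : ℕ} (hp : p.Prime) (hn : n < p) (h : p < 2 * n) : p ^ 2 ∣ uu n := by
  have h1 : p ^ 2 ∣ uu n * n.factorial ^ 4 := by
    rw [uu_mul]
    have h2 : p.factorial * p.factorial ∣ (p + p).factorial :=
      Nat.factorial_mul_factorial_dvd_factorial_add p p
    have h3 : (p + p).factorial ∣ (4 * n).factorial := Nat.factorial_dvd_factorial (by omega)
    rw [sq]
    exact ((mul_dvd_mul (Nat.dvd_factorial hp.pos le_rfl) (Nat.dvd_factorial hp.pos le_rfl)).trans
      h2).trans h3
  exact (Nat.Coprime.pow_left 2 (cop hp hn)).dvd_of_dvd_mul_right h1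

theorem two {p n : ℕ} (hp : p.Prime) (hn : n < p) (h : p < 4 * n) : p ∣ uu n := by
  have h1 : p ∣ uu n * n.factorial ^ 4 := by
    rw [uu_mul]
    exact Nat.dvd_factorial hp.pos h.le
  exact (cop hp hn).dvd_of_dvd_mul_right h1

theorem four (n : ℕ) :
    (n + 1) ^ 3 * uu (n + 1) = 8 * (2 * n + 1) * (4 * n + 1) * (4 * n + 3) * uu n := by
  have h1 := uu_mul (n + 1)
  have e : 4 * (n + 1) = 4 * n + 3 + 1 := by ring
  rw [e, Nat.factorial_succ (4 * n + 3), Nat.factorial_succ (4 * n + 2),
    Nat.factorial_succ (4 * n + 1), Nat.factorial_succ (4 * n), ← uu_mul n,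
    Nat.factorial_succ] at h1
  have h0 : 0 < (n + 1) * n.factorial ^ 4 := by
    have := n.factorial_pos
    positivity
  apply Nat.eq_of_mul_eq_mul_left h0
  linear_combination h1

theorem lucas (p : ℕ) [Fact p.Prime] (n k : ℕ) : n.choose k ≡
    (n % p).choose (k % p) * (n / p).choose (k / p) [MOD p] :=
  Choose.choose_modEq_choose_mod_mul_choose_div_nat

theorem three {p a b : ℕ} (hp : p.Prime) (hp2 : p ≠ 2) (ha : a < p) :
    uu (a + p * b) ≡ uu a * uu b [MOD p] := by
  have : Fact p.Prime := ⟨hp⟩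
  have hp0 := hp.pos
  have hodd : p % 2 = 1 := by
    rcases hp.eq_two_or_odd with h | h
    · exact absurd h hp2
    · exact h
  have key : ∀ c m : ℕ, m < p → (c * (a + p * b) = m + p * (c * b + (c * a - m) / p)) →
      (c * (a + p * b)) % p = m ∧ (c * (a + p * b)) / p = c * b + (c * a - m) / p := by
    intro c m hm h
    rw [h]
    constructor
    · rw [Nat.add_mul_mod_self_left, Nat.mod_eq_of_lt hm]
    · rw [Nat.add_mul_div_left _ _ hp0, Nat.div_eq_of_lt hm, zero_add]
  by_cases h4 : 4 * a < p
  · -- no carries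
    have e4 : (4 * (a + p * b)) % p = 4 * a ∧ (4 * (a + p * b)) / p = 4 * b := by
      have e : 4 * (a + p * b) = 4 * a + p * (4 * b) := by ring
      rw [e]
      exact ⟨by rw [Nat.add_mul_mod_self_left, Nat.mod_eq_of_lt h4],
        by rw [Nat.add_mul_div_left _ _ hp0, Nat.div_eq_of_lt h4, zero_add]⟩
    have e2 : (2 * (a + p * b)) % p = 2 * a ∧ (2 * (a + p * b)) / p = 2 * b := by
      have e : 2 * (a + p * b) = 2 * a + p * (2 * b) := by ring
      rw [e]
      exact ⟨by rw [Nat.add_mul_mod_self_left, Nat.mod_eq_of_lt (by omega)],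
        by rw [Nat.add_mul_div_left _ _ hp0, Nat.div_eq_of_lt (by omega), zero_add]⟩
    have e1 : (a + p * b) % p = a ∧ (a + p * b) / p = b := by
      exact ⟨by rw [Nat.add_mul_mod_self_left, Nat.mod_eq_of_lt ha],
        by rw [Nat.add_mul_div_left _ _ hp0, Nat.div_eq_of_lt ha, zero_add]⟩
    have l1 := lucas p (4 * (a + p * b)) (2 * (a + p * b))
    have l2 := lucas p (2 * (a + p * b)) (a + p * b)
    rw [e4.1, e4.2, e2.1, e2.2] at l1
    rw [e2.1, e2.2, e1.1, e1.2] at l2
    rw [uu_eq, uu_eq, uu_eq]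
    have l3 := l1.mul (l2.pow 2)
    convert l3 using 1
    ring
  · have h4' : p < 4 * a := by
      rcases Nat.lt_or_ge p (4 * a) with h | h
      · exact h
      · exfalso; omega
    have hr : p ∣ uu a * uu b := (two hp ha h4').mul_right _
    have hl : p ∣ uu (a + p * b) := by
      rw [uu_eq]
      by_cases h2 : 2 * a < p
      · apply Dvd.dvd.mul_right
        have e2 : (2 * (a + p * b)) % p = 2 * a := by
          have e : 2 * (a + p * b) = 2 * a + p * (2 * b) := by ring
          rw [e, Nat.add_mul_mod_self_left, Nat.mod_eq_of_lt h2]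
        have e4 : (4 * (a + p * b)) % p = 4 * a - p := by
          have e : 4 * (a + p * b) = (4 * a - p) + p * (4 * b + 1) := by
            have : 4 * a = (4 * a - p) + p := by omega
            calc 4 * (a + p * b) = 4 * a + p * (4 * b) := by ring
              _ = (4 * a - p) + p + p * (4 * b) := by rw [← this]
              _ = _ := by ring
          rw [e, Nat.add_mul_mod_self_left, Nat.mod_eq_of_lt (by omega)]
        have l1 := lucas p (4 * (a + p * b)) (2 * (a + p * b))
        rw [e4, e2, Nat.choose_eq_zero_of_lt (by omega : 4 * a - p < 2 * a), zero_mul] at l1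
        exact (Nat.modEq_zero_iff_dvd).1 l1
      · have h2' : p < 2 * a := by omega
        apply Dvd.dvd.mul_left
        apply Dvd.dvd.pow _ two_ne_zero
        have e1 : (a + p * b) % p = a := by
          rw [Nat.add_mul_mod_self_left, Nat.mod_eq_of_lt ha]
        have e2 : (2 * (a + p * b)) % p = 2 * a - p := by
          have e : 2 * (a + p * b) = (2 * a - p) + p * (2 * b + 1) := by
            have : 2 * a = (2 * a - p) + p := by omega
            calc 2 * (a + p * b) = 2 * a + p * (2 * b) := by ring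
              _ = (2 * a - p) + p + p * (2 * b) := by rw [← this]
              _ = _ := by ring
          rw [e, Nat.add_mul_mod_self_left, Nat.mod_eq_of_lt (by omega)]
        have l1 := lucas p (2 * (a + p * b)) (a + p * b)
        rw [e2, e1, Nat.choose_eq_zero_of_lt (by omega : 2 * a - p < a), zero_mul] at l1
        exact (Nat.modEq_zero_iff_dvd).1 l1
    exact ((Nat.modEq_zero_iff_dvd).2 hl).trans ((Nat.modEq_zero_iff_dvd).2 hr).symm

end UDVP

open UDVP in
theorem t_UDV : S_UDV :=
  ⟨fun _ _ hp _ hn h => one hp hn h, fun _ _ hp _ hn h => two hp hn h,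
    fun _ _ _ hp hp2 ha => three hp hp2 ha, uu_mul, four⟩

end Pool.Agent.HS37.CQ
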