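import Pool.Agent.HS37.CQ.Stm
import Pool.Agent.HS37.SP.Val
import Pool.Agent.HS37.SP.Red

/-!
# Project CQ, piece VR2: matrices and values for `Γ₀(2)`
-/

set_option autoImplicit false

open UpperHalfPlane MatrixGroups Complex
open Pool.Agent.HS37.SP

namespace Pool.Agent.HS37.CQ

lemma vr2_pair {κ : ℤ} {g : ℍ → ℂ} (γ : SL(2, ℤ)) (z : ℍ)
    (hs : g (γ • z) = ((γ 1 0 : ℂ) * z + (γ 1 1 : ℂ)) ^ κ * g z) {u v : ℂ}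
    (hv : v ≠ 0) (hz : (z : ℂ) = u / v) :
    ((γ 1 0 : ℂ) * u + (γ 1 1 : ℂ) * v) ^ (-κ) *
      g (ofComplex (((γ 0 0 : ℂ) * u + (γ 0 1 : ℂ) * v) / ((γ 1 0 : ℂ) * u + (γ 1 1 : ℂ) * v))) =
    v ^ (-κ) * g z := by
  have hu : u = z * v := by rw [hz, div_mul_cancel₀ _ hv]
  have h1 : (γ 1 0 : ℂ) * u + (γ 1 1 : ℂ) * v = v * ((γ 1 0 : ℂ) * z + (γ 1 1 : ℂ)) := by
    rw [hu]
    ring
  have h2 : (γ 0 0 : ℂ) * u + (γ 0 1 : ℂ) * v = v * ((γ 0 0 : ℂ) * z + (γ 0 1 : ℂ)) := by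
    rw [hu]
    ring
  have h3 : ((γ 0 0 : ℂ) * u + (γ 0 1 : ℂ) * v) / ((γ 1 0 : ℂ) * u + (γ 1 1 : ℂ) * v) =
      ((γ • z : ℍ) : ℂ) := by
    rw [h1, h2, mul_div_mul_left _ _ hv, sl_coe]
  have h4 := sl_den_ne γ z
  have h5 : ((γ 1 0 : ℂ) * z + (γ 1 1 : ℂ)) ^ (-κ) * ((γ 1 0 : ℂ) * z + (γ 1 1 : ℂ)) ^ κ = 1 := by
    rw [← zpow_add₀ h4, neg_add_cancel, zpow_zero]
  rw [h3, ofComplex_apply, hs, h1, mul_zpow]
  linear_combination (v ^ (-κ) * g z) * h5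

theorem vr2_left {k : ℤ} {g g' : ℍ → ℂ} (hg : Pr k g g') (A : Matrix (Fin 2) (Fin 2) ℤ)
    (γ : SL(2, ℤ)) (τ : ℍ) (hA : 0 < A.det) (hγ : (2 : ℤ) ∣ γ 1 0) :
    val (2 * k) g ((γ : Matrix (Fin 2) (Fin 2) ℤ) * A) τ = val (2 * k) g A τ := by
  obtain ⟨z, hz⟩ : ∃ z : ℍ, (z : ℂ) =
      ((A 0 0 : ℂ) * τ + (A 0 1 : ℂ)) / ((A 1 0 : ℂ) * τ + (A 1 1 : ℂ)) :=
    ⟨⟨_, vim_pos hA τ⟩, rfl⟩
  have h := vr2_pair γ z (hg.sl γ z hγ) (vden_ne hA τ) hz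
  unfold val
  rw [← hz, ofComplex_apply, ← h]
  have e1 : ((((γ : Matrix (Fin 2) (Fin 2) ℤ) * A) 1 0 : ℤ) : ℂ) * τ +
      ((((γ : Matrix (Fin 2) (Fin 2) ℤ) * A) 1 1 : ℤ) : ℂ) =
      (γ 1 0 : ℂ) * ((A 0 0 : ℂ) * τ + (A 0 1 : ℂ)) +
        (γ 1 1 : ℂ) * ((A 1 0 : ℂ) * τ + (A 1 1 : ℂ)) := by
    simp [Matrix.mul_apply, Fin.sum_univ_two]
    ring
  have e2 : ((((γ : Matrix (Fin 2) (Fin 2) ℤ) * A) 0 0 : ℤ) : ℂ) * τ +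
      ((((γ : Matrix (Fin 2) (Fin 2) ℤ) * A) 0 1 : ℤ) : ℂ) =
      (γ 0 0 : ℂ) * ((A 0 0 : ℂ) * τ + (A 0 1 : ℂ)) +
        (γ 0 1 : ℂ) * ((A 1 0 : ℂ) * τ + (A 1 1 : ℂ)) := by
    simp [Matrix.mul_apply, Fin.sum_univ_two]
    ring
  rw [e1, e2]

theorem vr2_ex (N : ℕ) (hN : 0 < N) (hodd : Odd N) (B : Matrix (Fin 2) (Fin 2) ℤ) (hB : B.det = N)
    (h2 : (2 : ℤ) ∣ B 1 0) : ∃ t ∈ reps N, ∃ γ : SL(2, ℤ), (2 : ℤ) ∣ γ 1 0 ∧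
      B = (γ : Matrix (Fin 2) (Fin 2) ℤ) * mat t := by
  obtain ⟨t, ⟨ht, γ, hγ⟩, -⟩ := t_RED N hN B hB
  refine ⟨t, ht, γ, ?_, hγ⟩
  have h10 := congrFun (congrFun hγ 1) 0
  simp [mat, Matrix.mul_apply, Fin.sum_univ_two] at h10
  rw [h10] at h2
  have hat : (2 : ℤ) ∣ (t.1 : ℤ) → False := by
    intro h
    have h3 := ((mem_reps hN).1 ht).1
    have h4 : (2 : ℕ) ∣ t.1 := by exact_mod_cast h
    have h5 : (2 : ℕ) ∣ N := by rw [← h3]; exact h4.mul_right _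
    exact (Nat.not_even_iff_odd.2 hodd) (even_iff_two_dvd.2 h5)
  rcases Int.prime_two.dvd_or_dvd h2 with h | h
  · exact h
  · exact (hat h).elim

theorem t_VR2 : S_VR2 := by
  refine ⟨fun k g g' hg A γ τ hA hγ => vr2_left hg A γ τ hA hγ, vr2_ex, ?_, ?_⟩
  · intro N hN hodd M τ l hM h2 e0 e1
    obtain ⟨t, ht, γ, hγ, hMt⟩ := vr2_ex N hN hodd M hM h2
    refine ⟨t, ht, fun k g g' hg => ?_⟩
    have hdet : 0 < (mat t).det := by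
      rw [det_mat_of_mem hN ht]; exact_mod_cast hN
    have hMdet : 0 < M.det := by rw [hM]; exact_mod_cast hN
    have hl : l ≠ 0 := by rw [← e1]; exact vden_ne hMdet τ
    rw [← vr2_left hg (mat t) γ τ hdet hγ, ← hMt]
    unfold val
    rw [e0, e1, mul_comm l, mul_div_assoc, div_self hl, mul_one, ofComplex_apply]
  · intro N hN hodd M τ l hM h2 e0 e1
    obtain ⟨t, ht, γ, hγ, hMt⟩ := vr2_ex N hN hodd M hM h2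
    refine ⟨t, ht, fun k g g' hg => ?_⟩
    have hdet : 0 < (mat t).det := by
      rw [det_mat_of_mem hN ht]; exact_mod_cast hN
    have hMdet : 0 < M.det := by rw [hM]; exact_mod_cast hN
    have hτ : (τ : ℂ) ≠ 0 := τ.ne_zero
    have hlτ : 2 * l * (τ : ℂ) ≠ 0 := by rw [← e1]; exact vden_ne hMdet τ
    have hl : l ≠ 0 := by
      rintro rfl
      simp at hlτ
    rw [← vr2_left hg (mat t) γ τ hdet hγ, ← hMt]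
    unfold val
    have e2 : -l / (2 * l * (τ : ℂ)) = -1 / (2 * (τ : ℂ)) := by
      field_simp
    rw [e0, e1, e2]
    have e3 : g (ofComplex (-1 / (2 * (τ : ℂ)))) = (2 * (τ : ℂ) ^ 2) ^ k * g' τ := hg.fr τ
    rw [e3]
    have e4 : (2 * l * (τ : ℂ)) ^ (-(2 * k)) = (2 * l ^ 2) ^ (-k) * (2 * (τ : ℂ) ^ 2) ^ (-k) := by
      rw [← mul_zpow, show -(2 * k) = 2 * (-k) by ring, zpow_mul]
      congr 1
      rw [show (2 : ℤ) = ((2 : ℕ) : ℤ) by rfl, zpow_natCast]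
      ring
    rw [e4, zpow_neg (2 * (τ : ℂ) ^ 2)]
    have h5 : (2 * (τ : ℂ) ^ 2) ^ k ≠ 0 :=
      zpow_ne_zero _ (mul_ne_zero two_ne_zero (pow_ne_zero _ hτ))
    field_simp

end Pool.Agent.HS37.CQ
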